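import Pool.Agent.N489.RW.Stm3
import Pool.Agent.N489.RW.Fin

/-!
# Project RW: the assembly, relative form
-/

set_option autoImplicit false

open Set Topology Filter

noncomputable section

namespace Pool.Agent.N489.RW

open Pool.Agent.Y489.GE Pool.Agent.R203.IF

theorem defo_of_subsingleton {X K : Type} [MetricSpace X] [TopologicalSpace K] {F : Set X}
    {f : K → X} {p : X} (hp : p ∈ F) (h : ∀ y : X, y = p) : Defo F f := by
  refine ⟨fun _ => p, fun _ _ => p, continuous_const, fun _ => hp, continuousOn_const,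
    fun k _ => ⟨fun s _ => hp, rfl, (h _).symm⟩⟩

/-- the main theorem, relative form -/
theorem main2 (h_MG : S_MG) (h_SET : S_SET) (h_MF : S_MF) (h_BF : S_BF) (h_FLOW : S_FLOW)
    (h_UNF : S_UNF) (h_CGS : S_CGS) (h_PSI : S_PSI) (h_PHI : S_PHI) (h_EE : S_EE)
    (h_STAR : S_STAR2) (X : Type) [MetricSpace X] [CompactSpace X] (ρ : X → X) (U : Set X) (p : X)
    (r D : ℝ) (n : ℕ) (hr : 0 < r) (hX : GeodSpace X) (hU : UniqGeod X r) (hM : Mirror X ρ U)
    (hp : ρ p = p) (hD : ∀ y, dist p y ≤ D) (hn : 1 ≤ n) (K : Type) [MetricSpace K]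
    [CompactSpace K] (hdim : CovDim K n) (f : K → X) (hf : Continuous f) (hfU : ∀ k, f k ∈ U)
    (hret : ¬ Defo {x | ρ x = x} f) : SymGeod X ρ (4 * n * D) := by
  classical
  have hD0 : 0 < D := by
    by_contra h
    push Not at h
    refine hret (defo_of_subsingleton (p := p) hp fun y => ?_)
    have h1 := (hD y).trans h
    exact (dist_le_zero.1 h1).symm
  have hMF := h_MF X ρ U r hM hX hU
  set M : ℕ := n + 2 with hMdef
  have hBF : BF X ρ U M r := h_BF X ρ U M r hM hX hU hMF
  obtain ⟨m, hm⟩ := h_MG X r hr hX hU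
  have := hBF.cpt
  obtain ⟨m', hm'⟩ := h_MG (Bk ρ U M) r hr hBF.geod hBF.uniq
  have hr2 : 0 < r / 2 := by linarith
  have hr2' : r / 2 < r := by linarith
  set S : ℝ := 2 * (n : ℝ) with hS
  have hn0 : (1 : ℝ) ≤ n := by exact_mod_cast hn
  have hS2 : 2 ≤ S := by rw [hS]; linarith
  obtain ⟨N, hN⟩ := exists_nat_gt ((S * D + 1) / (r / 2))
  have hL0 : 0 < S * D + 1 := by positivity
  have hN0 : (0 : ℝ) < N := lt_trans (by positivity) hN
  have hN' : N ≠ 0 := by
    rintro rfl
    simp at hN0
  have : NeZero N := ⟨hN'⟩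
  have : NeZero (2 * N) := ⟨by omega⟩
  have hNr : (S * D + 1) / N < r / 2 := by
    rw [div_lt_iff₀ hr2] at hN
    rw [div_lt_iff₀ hN0]
    linarith
  have hN1 : ∀ a : ℝ, a ≤ S * D + 1 → a / N ≤ r / 2 := by
    intro a ha
    exact le_trans (div_le_div_of_nonneg_right ha hN0.le) hNr.le
  have hcast : ((2 * N : ℕ) : ℝ) = 2 * (N : ℝ) := by push_cast; ring
  have hpath : ∀ y : X, ∃ c ∈ Pa p D, c D = y := fun y => exists_path hX p y hD0 (hD y)
  by_cases hbad : ∀ ε : ℝ, 0 < ε → ε ≤ r / 2 → 2 * S * ε ≤ 1 →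
      ∃ x ∈ Sym X ρ N (S * (D + 2 * ε) / N), (D / (2 * (N * N))) ^ 2 ≤ En (2 * N) x ∧
        En (2 * N) (ph m (2 * N) (1 / 2) x) = En (2 * N) x
  · -- the limit
    set ε₁ := min (r / 2) (1 / (2 * S)) with hε₁
    have hSS : 0 < 2 * S := by linarith
    have hε₁0 : 0 < ε₁ := lt_min hr2 (by positivity)
    have hu : Tendsto (fun n : ℕ => S * (D + 2 * (ε₁ * (1 / ((n : ℝ) + 1)))) / N) atTop
        (𝓝 (S * D / N)) := by
      have h1 : Tendsto (fun n : ℕ => S * (D + 2 * (ε₁ * (1 / ((n : ℝ) + 1)))) / N) atTop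
          (𝓝 (S * (D + 2 * (ε₁ * 0)) / N)) :=
        (tendsto_const_nhds.mul (tendsto_const_nhds.add (tendsto_const_nhds.mul
          (tendsto_const_nhds.mul tendsto_one_div_add_atTop_nhds_zero_nat)))).div_const _
      simpa using h1
    have hlt : S * D / N < r / 2 := by
      refine lt_of_lt_of_le ?_ (hN1 (S * D + 1) le_rfl)
      exact div_lt_div_of_pos_right (by linarith) hN0
    obtain ⟨x, hx1, hx2, hx3⟩ := limit_sym hm hM.iso.continuous N (S * D / N)
      ((D / (2 * (N * N))) ^ 2) hlt _ hu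
      (by
        intro n
        have hn1 : (0 : ℝ) < 1 / ((n : ℝ) + 1) := by positivity
        have hn2 : 1 / ((n : ℝ) + 1) ≤ 1 := by
          rw [div_le_one (by positivity)]
          have : (0 : ℝ) ≤ n := Nat.cast_nonneg n
          linarith
        have hle : ε₁ * (1 / ((n : ℝ) + 1)) ≤ ε₁ := by nlinarith
        refine hbad _ (by positivity) (hle.trans (min_le_left _ _)) ?_
        calc 2 * S * (ε₁ * (1 / ((n : ℝ) + 1))) ≤ 2 * S * (1 / (2 * S)) :=
              mul_le_mul_of_nonneg_left (hle.trans (min_le_right _ _)) hSS.le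
          _ = 1 := mul_one_div_cancel hSS.ne')
    have hpos : 0 < En (2 * N) x := lt_of_lt_of_le (by positivity) hx2
    have h5 := h_CGS X r (r / 2) m hm hr2' hU ρ hM.iso hM.inv N (S * D / N) hlt.le x hx1 hx3 hpos
    have h6 : ((2 * N : ℕ) : ℝ) * (S * D / N) = 4 * (n : ℝ) * D := by
      rw [hcast, hS]
      field_simp
      ring
    rwa [h6] at h5
  · exfalso
    apply hret
    push Not at hbad
    obtain ⟨ε, hε0, hεr, hεS, hgood⟩ := hbad
    have hM0 : (0 : ℝ) < M := by
      have : 0 < M := by omega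
      exact_mod_cast this
    set κ : ℝ := S * ε / M with hκ
    have hκ0 : 0 < κ := by positivity
    set L : ℕ → ℝ := fun q => S * (D + ε) + (M - q) * κ with hL
    have hLanti : ∀ q q', q' ≤ q → L q ≤ L q' := by
      intro q q' h
      have h1 : (q' : ℝ) ≤ q := by exact_mod_cast h
      simp only [hL]
      nlinarith
    have hLM : L M = S * (D + ε) := by simp [hL]
    have hLpos : ∀ q, q ≤ M → 0 < L q := by
      intro q hq
      have h1 : (q : ℝ) ≤ M := by exact_mod_cast hq
      have h2 : 0 < S * (D + ε) := by positivity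
      have h3 : 0 ≤ ((M : ℝ) - q) * κ := mul_nonneg (by linarith) hκ0.le
      simp only [hL]
      linarith
    have hLle : ∀ q, L q ≤ S * (D + 2 * ε) := by
      intro q
      have h1 : (0 : ℝ) ≤ q := Nat.cast_nonneg q
      have h2 : (M : ℝ) * κ = S * ε := by
        rw [hκ]
        field_simp
      simp only [hL]
      nlinarith [mul_nonneg h1 hκ0.le]
    have hLle' : ∀ q, L q ≤ S * D + 1 := by
      intro q
      refine (hLle q).trans ?_
      linarith
    have hLge : ∀ q, q ≤ M → 2 * D ≤ L q := by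
      intro q hq
      have h1 : L M ≤ L q := hLanti _ _ hq
      rw [hLM] at h1
      have h2 : 2 * D ≤ S * (D + ε) := by nlinarith
      linarith
    -- contraction of the ordered paths
    have hOPC : ∀ q, q ≤ M → OPC ρ U M (L q) := by
      intro q hq
      have haN : 0 < L q / N := div_pos (hLpos q hq) hN0
      have hPol : OPolC ρ U M N (L q / N) := by
        refine h_FLOW X ρ U M r hBF (r / 2) m' hm' hr2' N (L q / N) haN (hN1 _ (hLle' q)) ?_
        intro x hx hxe hcrit
        have hpos : 0 < En (2 * N) x := by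
          refine lt_of_lt_of_le ?_ hxe
          have : (0 : ℝ) < 2 * ((2 * N : ℕ) : ℝ) := by rw [hcast]; positivity
          positivity
        obtain ⟨y, hy1, hy2, hy3⟩ := h_UNF X ρ U M r hM hX hU hMF hBF (r / 2) m m' hm hm' hr2' N
          (L q / N) (hN1 _ (hLle' q)) x hx hpos hcrit
        refine hgood y ⟨fun i => (hy1.1 i).trans ?_, hy1.2⟩ ?_ hy3
        · exact div_le_div_of_nonneg_right (hLle q) hN0.le
        · rw [hy2]
          refine le_trans ?_ hxe
          rw [hcast]
          have h4 : D / (2 * (N * N)) ≤ L q / N / (2 * (2 * N)) := by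
            rw [div_div, div_le_div_iff₀ (by positivity) (by positivity)]
            have h5 := hLge q hq
            have h6 : (0 : ℝ) ≤ (N : ℝ) * N := by positivity
            nlinarith
          exact pow_le_pow_left₀ (by positivity) h4 2
      exact h_PSI X ρ U M r hBF (r / 2) m' hm' hr2' N (L q) (hLpos q hq) (hN1 _ (hLle' q)) hPol
    have hCtr : ∀ J : Finset (Fin M), 2 ≤ J.card → Ctr ρ U (L J.card) (L (J.card - 1)) J := by
      intro J hJ
      have hJM : J.card ≤ M := by simpa using Finset.card_le_univ J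
      refine h_PHI X ρ U M r hM hMF hBF (r / 2) m hm hr2 hr2' (L J.card) (L (J.card - 1))
        (hLpos _ hJM) ?_ (hOPC _ hJM) J (Finset.card_pos.1 (by omega))
      have h1 : ((J.card - 1 : ℕ) : ℝ) = (J.card : ℝ) - 1 := by
        rw [Nat.cast_sub (by omega)]
        simp
      simp only [hL, h1]
      nlinarith
    have hEE := h_EE X ρ U M hM (by omega) L hLanti hCtr
    rw [hLM] at hEE
    obtain ⟨t, leg, hdata⟩ := h_SET X K n hdim (r / 2) m hm p D hD0.le hpath ε hε0 hεr
      f hf ∅ (fun k hk => hk.elim)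
    exact h_STAR X ρ U r hM hMF K n p (D + ε) f hn hp (by linarith) hf hfU t leg hdata hEE

end Pool.Agent.N489.RW
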