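import Pool.Agent.N489.RW.Stm

/-!
# Project RW: the star paths
-/

set_option autoImplicit false
set_option linter.unusedSectionVars false

open Set Topology Filter

noncomputable section

namespace Pool.Agent.N489.RW

open Pool.Agent.Y489.GE Pool.Agent.R203.IF

namespace STAR_

/-! ### weights -/

section weights

variable {K : Type} [TopologicalSpace K] (n : ℕ) (t : ℕ → K → ℝ)

/-- the total weight -/
def Sm (k : K) : ℝ := ∑ i ∈ Finset.range (n + 1), t i k

/-- normalised weights -/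
def sj (j : ℕ) (k : K) : ℝ := t j k / Sm n t k

/-- relative depths -/
def cj (j : ℕ) (k : K) : ℝ := min 1 (2 * ((n : ℝ) + 1) * sj n t j k)

/-- cut off weights -/
def wj (j : ℕ) (k : K) : ℝ := max 0 (sj n t j k - 1 / (2 * ((n : ℝ) + 1)))

/-- the total cut off weight -/
def Wm (k : K) : ℝ := ∑ i ∈ Finset.range (n + 1), wj n t i k

/-- the weights of the marks -/
def vv (k : K) (j : Fin (n + 2)) : ℝ := if (j : ℕ) ≤ n then wj n t j k / Wm n t k else 0

variable {n t} (h1 : ∀ j, Continuous (t j)) (h2 : ∀ j k, 0 ≤ t j k)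
  (h3 : ∀ k, ∃ j, j ≤ n ∧ 0 < t j k)

include h2 h3 in
lemma Sm_pos (k : K) : 0 < Sm n t k := by
  obtain ⟨j, hj, hp⟩ := h3 k
  exact Finset.sum_pos' (fun i _ => h2 i k) ⟨j, Finset.mem_range.2 (by omega), hp⟩

include h1 in
lemma Sm_cont : Continuous (Sm n t) := continuous_finsetSum _ fun i _ => h1 i

include h1 h2 h3 in
lemma sj_cont (j : ℕ) : Continuous (sj n t j) :=
  (h1 j).div (Sm_cont h1) fun k => (Sm_pos h2 h3 k).ne'

include h2 h3 in
lemma sj_sum (k : K) : ∑ i ∈ Finset.range (n + 1), sj n t i k = 1 := by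
  unfold sj
  rw [← Finset.sum_div]
  exact div_self (Sm_pos h2 h3 k).ne'

include h2 h3 in
lemma sj_nonneg (j : ℕ) (k : K) : 0 ≤ sj n t j k := div_nonneg (h2 j k) (Sm_pos h2 h3 k).le

include h1 h2 h3 in
lemma cj_cont (j : ℕ) : Continuous (cj n t j) :=
  continuous_const.min (continuous_const.mul (sj_cont h1 h2 h3 j))

include h2 h3 in
lemma cj_nonneg (j : ℕ) (k : K) : 0 ≤ cj n t j k :=
  le_min zero_le_one (mul_nonneg (by positivity) (sj_nonneg h2 h3 j k))

lemma cj_le (j : ℕ) (k : K) : cj n t j k ≤ 1 := min_le_left _ _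

include h1 h2 h3 in
lemma wj_cont (j : ℕ) : Continuous (wj n t j) :=
  continuous_const.max ((sj_cont h1 h2 h3 j).sub continuous_const)

lemma wj_nonneg (j : ℕ) (k : K) : 0 ≤ wj n t j k := le_max_left _ _

include h2 h3 in
lemma Wm_pos (k : K) : 0 < Wm n t k := by
  have hn : (0:ℝ) < (n:ℝ) + 1 := by positivity
  have h4 : ∑ i ∈ Finset.range (n + 1), (sj n t i k - 1 / (2 * ((n : ℝ) + 1))) ≤ Wm n t k :=
    Finset.sum_le_sum fun i _ => le_max_right _ _
  rw [Finset.sum_sub_distrib, sj_sum h2 h3, Finset.sum_const, Finset.card_range, nsmul_eq_mul] at h4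
  have h5 : ((n + 1 : ℕ) : ℝ) * (1 / (2 * ((n : ℝ) + 1))) = 1 / 2 := by
    push_cast
    field_simp
  rw [h5] at h4
  linarith

include h1 h2 h3 in
lemma vv_cont : Continuous (vv n t) := by
  have hW : Continuous (Wm n t) := continuous_finsetSum _ fun i _ => wj_cont h1 h2 h3 i
  refine continuous_pi fun j => ?_
  unfold vv
  by_cases h : (j : ℕ) ≤ n
  · simp only [h, if_true]
    exact (wj_cont h1 h2 h3 j).div hW fun k => (Wm_pos h2 h3 k).ne'
  · simp only [h, if_false]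
    exact continuous_const

include h2 h3 in
lemma vv_mem (k : K) : vv n t k ∈ stdSimplex ℝ (Fin (n + 2)) := by
  constructor
  · intro j
    unfold vv
    split_ifs
    · exact div_nonneg (wj_nonneg _ _) (Wm_pos h2 h3 k).le
    · exact le_rfl
  · rw [Fin.sum_univ_castSucc]
    have e1 : vv n t k (Fin.last (n + 1)) = 0 := by
      unfold vv
      rw [if_neg]
      simp
    have e2 : ∑ i : Fin (n + 1), vv n t k i.castSucc =
        ∑ i : Fin (n + 1), wj n t i k / Wm n t k := by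
      refine Finset.sum_congr rfl fun i _ => ?_
      unfold vv
      rw [if_pos]
      · rfl
      · have := i.2
        simp only [Fin.val_castSucc]
        omega
    rw [e1, e2, add_zero, ← Finset.sum_div,
      Fin.sum_univ_eq_sum_range (fun i => wj n t i k) (n + 1)]
    exact div_self (Wm_pos h2 h3 k).ne'

include h2 h3 in
lemma vv_pos {k : K} {j : Fin (n + 2)} (h : 0 < vv n t k j) :
    (j : ℕ) ≤ n ∧ 0 < t j k ∧ cj n t j k = 1 := by
  have hn : (0:ℝ) < (n:ℝ) + 1 := by positivity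
  unfold vv at h
  split_ifs at h with hj
  · refine ⟨hj, ?_⟩
    have hW := Wm_pos h2 h3 k
    have hw : 0 < wj n t j k := by
      by_contra hcon
      have : wj n t j k / Wm n t k ≤ 0 := div_nonpos_of_nonpos_of_nonneg (not_lt.1 hcon) hW.le
      linarith
    unfold wj at hw
    have hs : 1 / (2 * ((n : ℝ) + 1)) < sj n t j k := by
      rcases lt_max_iff.1 hw with h | h
      · exact absurd h (lt_irrefl _)
      · linarith
    have hs0 : 0 < sj n t j k := lt_trans (by positivity) hs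
    constructor
    · unfold sj at hs0
      by_contra hcon
      have : t j k / Sm n t k ≤ 0 :=
        div_nonpos_of_nonpos_of_nonneg (not_lt.1 hcon) (Sm_pos h2 h3 k).le
      linarith
    · unfold cj
      apply min_eq_left
      rw [div_lt_iff₀ (by positivity)] at hs
      linarith
  · exact absurd h (lt_irrefl _)

end weights

/-! ### tents -/

/-- the tent over `[j / (n + 1), (j + 1) / (n + 1)]` -/
def Dj (n j : ℕ) (τ : ℝ) : ℝ := max 0 (1 - |2 * (((n : ℝ) + 1) * τ - j) - 1|)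

lemma Dj_nonneg (n j : ℕ) (τ : ℝ) : 0 ≤ Dj n j τ := le_max_left _ _

lemma Dj_le_up (n j : ℕ) {τ : ℝ} (h : 0 < Dj n j τ) :
    Dj n j τ ≤ 2 * ((j : ℝ) + 1 - ((n : ℝ) + 1) * τ) := by
  unfold Dj at h ⊢
  rcases le_total 0 (1 - |2 * (((n : ℝ) + 1) * τ - j) - 1|) with h1 | h1
  · rw [max_eq_right h1]
    have := le_abs_self (2 * (((n : ℝ) + 1) * τ - j) - 1)
    linarith
  · rw [max_eq_left h1] at h
    exact absurd h (lt_irrefl _)

lemma Dj_le_dn (n j : ℕ) {τ : ℝ} (h : 0 < Dj n j τ) :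
    Dj n j τ ≤ 2 * (((n : ℝ) + 1) * τ - j) := by
  unfold Dj at h ⊢
  rcases le_total 0 (1 - |2 * (((n : ℝ) + 1) * τ - j) - 1|) with h1 | h1
  · rw [max_eq_right h1]
    have := neg_abs_le (2 * (((n : ℝ) + 1) * τ - j) - 1)
    linarith
  · rw [max_eq_left h1] at h
    exact absurd h (lt_irrefl _)

lemma Dj_uniq {n i j : ℕ} {τ : ℝ} (hi : 0 < Dj n i τ) (hj : 0 < Dj n j τ) : i = j := by
  have a1 := Dj_le_up n i hi
  have a2 := Dj_le_dn n i hi
  have b1 := Dj_le_up n j hj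
  have b2 := Dj_le_dn n j hj
  have c1 : (i : ℝ) < (j : ℝ) + 1 := by linarith
  have c2 : (j : ℝ) < (i : ℝ) + 1 := by linarith
  have d1 : i < j + 1 := by exact_mod_cast c1
  have d2 : j < i + 1 := by exact_mod_cast c2
  omega

lemma Dj_lip (n j : ℕ) (s τ : ℝ) : |Dj n j s - Dj n j τ| ≤ 2 * ((n : ℝ) + 1) * |s - τ| := by
  have hn : (0:ℝ) < (n:ℝ) + 1 := by positivity
  unfold Dj
  have h1 := abs_max_sub_max_le_abs (1 - |2 * (((n : ℝ) + 1) * s - j) - 1|)
    (1 - |2 * (((n : ℝ) + 1) * τ - j) - 1|) 0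
  rw [max_comm 0, max_comm 0]
  refine h1.trans ?_
  have h2 : (1 - |2 * (((n : ℝ) + 1) * s - j) - 1|) - (1 - |2 * (((n : ℝ) + 1) * τ - j) - 1|) =
      |2 * (((n : ℝ) + 1) * τ - j) - 1| - |2 * (((n : ℝ) + 1) * s - j) - 1| := by ring
  rw [h2]
  refine (abs_abs_sub_abs_le_abs_sub _ _).trans ?_
  have h3 : 2 * (((n : ℝ) + 1) * τ - j) - 1 - (2 * (((n : ℝ) + 1) * s - j) - 1) =
      -(2 * ((n : ℝ) + 1) * (s - τ)) := by ring
  rw [h3, abs_neg, abs_mul, abs_of_pos (by positivity : (0:ℝ) < 2 * ((n : ℝ) + 1))]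

lemma Dj_zero_of_nonpos (n j : ℕ) {τ : ℝ} (h : τ ≤ 0) : Dj n j τ = 0 := by
  by_contra hne
  have hp : 0 < Dj n j τ := lt_of_le_of_ne (Dj_nonneg n j τ) (Ne.symm hne)
  have := Dj_le_dn n j hp
  have h1 : ((n : ℝ) + 1) * τ ≤ 0 := mul_nonpos_of_nonneg_of_nonpos (by positivity) h
  have h2 : (0:ℝ) ≤ j := Nat.cast_nonneg j
  linarith

lemma Dj_zero_of_one_le (n j : ℕ) (hj : j ≤ n) {τ : ℝ} (h : 1 ≤ τ) : Dj n j τ = 0 := by
  by_contra hne
  have hp : 0 < Dj n j τ := lt_of_le_of_ne (Dj_nonneg n j τ) (Ne.symm hne)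
  have := Dj_le_up n j hp
  have h1 : ((n : ℝ) + 1) * 1 ≤ ((n : ℝ) + 1) * τ := mul_le_mul_of_nonneg_left h (by positivity)
  have h2 : (j:ℝ) ≤ n := by exact_mod_cast hj
  linarith

/-- the marks -/
def th (n : ℕ) (j : Fin (n + 2)) : ℝ := min 1 (((j : ℕ) + 1 / 2) / ((n : ℝ) + 1))

lemma th_mem (n : ℕ) (j : Fin (n + 2)) : th n j ∈ Icc (0 : ℝ) 1 :=
  ⟨le_min zero_le_one (by positivity), min_le_left _ _⟩

lemma th_mono (n : ℕ) {i j : Fin (n + 2)} (h : i ≤ j) : th n i ≤ th n j := by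
  unfold th
  have h1 : ((i : ℕ) : ℝ) ≤ ((j : ℕ) : ℝ) := by exact_mod_cast h
  gcongr

lemma th_last (n : ℕ) : th n (Fin.last (n + 1)) = 1 := by
  unfold th
  apply min_eq_left
  rw [le_div_iff₀ (by positivity)]
  simp only [Fin.val_last]
  push_cast
  linarith

lemma Dj_th (n : ℕ) {j : Fin (n + 2)} (hj : (j : ℕ) ≤ n) : Dj n j (th n j) = 1 := by
  have hn : (0:ℝ) < (n:ℝ) + 1 := by positivity
  have h1 : th n j = ((j : ℕ) + 1 / 2) / ((n : ℝ) + 1) := by
    unfold th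
    apply min_eq_right
    rw [div_le_one hn]
    have : ((j : ℕ) : ℝ) ≤ n := by exact_mod_cast hj
    linarith
  unfold Dj
  rw [h1, mul_div_cancel₀ _ hn.ne']
  have : 2 * (((j : ℕ) : ℝ) + 1 / 2 - ((j : ℕ) : ℝ)) - 1 = 0 := by ring
  rw [this, abs_zero, sub_zero, max_eq_right zero_le_one]

/-! ### the star paths -/

section star

variable {X : Type} [MetricSpace X] {ρ : X → X} {U : Set X} {r : ℝ} (hM : Mirror X ρ U)
  (hF : MF X ρ U r) {n : ℕ} {p : X} {b : ℝ} (hp : ρ p = p) (hb : 0 ≤ b)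
  {t : ℕ → ↥U → ℝ} {leg : ℕ → ↥U → ℝ → X} (hD : Data p b n (fun k : ↥U => k.1) ∅ t leg)

include hM in
lemma F_sub {x : X} (h : ρ x = x) : x ∈ U := by
  rcases hM.cover x with h1 | h1
  · exact h1
  · rwa [h] at h1

lemma fo_of {x : X} (h : x ∈ U) : fo ρ U x = x := if_pos h

include hF in
lemma fo_cont : Continuous (fo ρ U) :=
  (LipschitzWith.of_dist_le_mul (K := 1) fun x y => by
    simpa using hF.foL x y).continuous

/-- the point of relative depth `d` of the leg `j` -/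
def Pp (ρ : X → X) (b : ℝ) (n : ℕ) (t : ℕ → ↥U → ℝ) (leg : ℕ → ↥U → ℝ → X) (j : ℕ) (k : ↥U)
    (d : ℝ) : X :=
  if 0 < t j k then fo ρ U (leg j k (b - cj n t j k * b * d)) else k.1

include hD in
lemma Pp_zero (j : ℕ) (k : ↥U) : Pp ρ b n t leg j k 0 = k.1 := by
  unfold Pp
  split_ifs with h
  · rw [mul_zero, sub_zero, (hD.2.2.2.2.1 j k h).2]
    exact fo_of k.2
  · rfl

include hF in
lemma Pp_mem (j : ℕ) (k : ↥U) (d : ℝ) : Pp ρ b n t leg j k d ∈ U := by
  unfold Pp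
  split_ifs with h
  · exact hF.foU _
  · exact k.2

include hF hb hD in
lemma Pp_lip' (j : ℕ) (k : ↥U) (d d' : ℝ) :
    dist (Pp ρ b n t leg j k d) (Pp ρ b n t leg j k d') ≤ cj n t j k * b * |d - d'| := by
  have hc := cj_nonneg hD.2.1 hD.2.2.1 j k
  unfold Pp
  split_ifs with h
  · refine (hF.foL _ _).trans (((hD.2.2.2.2.1 j k h).1.1 _ _).trans (le_of_eq ?_))
    have : b - cj n t j k * b * d - (b - cj n t j k * b * d') =
        -(cj n t j k * b * (d - d')) := by ring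
    rw [this, abs_neg, abs_mul, abs_of_nonneg (mul_nonneg hc hb)]
  · rw [dist_self]
    exact mul_nonneg (mul_nonneg hc hb) (abs_nonneg _)

include hF hb hD in
lemma Pp_lip (j : ℕ) (k : ↥U) (d d' : ℝ) :
    dist (Pp ρ b n t leg j k d) (Pp ρ b n t leg j k d') ≤ b * |d - d'| := by
  refine (Pp_lip' hF hb hD j k d d').trans ?_
  have h1 : cj n t j k * b ≤ 1 * b := mul_le_mul_of_nonneg_right (cj_le j k) hb
  rw [one_mul] at h1
  exact mul_le_mul_of_nonneg_right h1 (abs_nonneg _)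

include hD in
lemma leg_contAt (j : ℕ) {k₀ : ↥U} (h0 : 0 < t j k₀) {x : ↥U → ℝ} (hx : ContinuousAt x k₀) :
    ContinuousAt (fun k => leg j k (x k)) k₀ := by
  have hopen : IsOpen {k | 0 < t j k} := isOpen_lt continuous_const (hD.1 j)
  have hleg : ContinuousAt (leg j) k₀ :=
    (hD.2.2.2.1 j).continuousAt (hopen.mem_nhds h0)
  have h1 : Tendsto (fun k => leg j k (x k₀)) (𝓝 k₀) (𝓝 (leg j k₀ (x k₀))) :=
    ((continuous_apply (x k₀)).tendsto (leg j k₀)).comp hleg
  unfold ContinuousAt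
  rw [tendsto_iff_dist_tendsto_zero] at h1 ⊢
  have h2 : Tendsto (fun k => |x k - x k₀|) (𝓝 k₀) (𝓝 0) := by
    have := (hx.sub (continuousAt_const (y := x k₀))).abs
    unfold ContinuousAt at this
    simpa using this
  have h3 := h2.add h1
  rw [add_zero] at h3
  refine squeeze_zero' (Eventually.of_forall fun _ => dist_nonneg) ?_ h3
  filter_upwards [hopen.mem_nhds h0] with k hk
  exact (dist_triangle _ (leg j k (x k₀)) _).trans
    (add_le_add_left ((hD.2.2.2.2.1 j k hk).1.1 _ _) _)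

include hF hb hD in
lemma Pp_cont (j : ℕ) {d : ℝ} (hd : 0 ≤ d) : Continuous fun k : ↥U => Pp ρ b n t leg j k d := by
  rw [continuous_iff_continuousAt]
  intro k₀
  have hc := cj_cont hD.1 hD.2.1 hD.2.2.1 (n := n) (t := t) j
  by_cases h0 : 0 < t j k₀
  · have hopen : IsOpen {k | 0 < t j k} := isOpen_lt continuous_const (hD.1 j)
    have h1 : ContinuousAt (fun k : ↥U => fo ρ U (leg j k (b - cj n t j k * b * d))) k₀ :=
      (fo_cont hF).continuousAt.comp (leg_contAt hD j h0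
        (continuous_const.sub ((hc.mul continuous_const).mul continuous_const)).continuousAt)
    refine h1.congr ?_
    filter_upwards [hopen.mem_nhds h0] with k hk
    unfold Pp
    rw [if_pos hk]
  · have ht0 : t j k₀ = 0 := le_antisymm (not_lt.1 h0) (hD.2.1 j k₀)
    have hP : Pp ρ b n t leg j k₀ d = k₀.1 := by unfold Pp; rw [if_neg h0]
    have hc0 : cj n t j k₀ = 0 := by
      unfold cj sj
      rw [ht0, zero_div, mul_zero, min_eq_right zero_le_one]
    unfold ContinuousAt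
    rw [tendsto_iff_dist_tendsto_zero]
    show Tendsto (fun k : ↥U => dist (Pp ρ b n t leg j k d) (Pp ρ b n t leg j k₀ d)) (𝓝 k₀) (𝓝 0)
    rw [hP]
    have h1 : Tendsto (fun k : ↥U => cj n t j k * b * |d - 0| + dist k.1 k₀.1) (𝓝 k₀)
        (𝓝 (cj n t j k₀ * b * |d - 0| + dist k₀.1 k₀.1)) :=
      (((hc.mul continuous_const).mul continuous_const).add
        (continuous_subtype_val.dist continuous_const)).tendsto k₀
    rw [hc0, dist_self, zero_mul, zero_mul, add_zero] at h1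
    refine squeeze_zero (fun _ => dist_nonneg) (fun k => ?_) h1
    have h2 := Pp_lip' hF hb hD j k d 0
    rw [Pp_zero hD] at h2
    exact (dist_triangle _ k.1 _).trans (add_le_add_left h2 _)

open Classical in
/-- the star path -/
def Lam (ρ : X → X) (b : ℝ) (n : ℕ) (t : ℕ → ↥U → ℝ) (leg : ℕ → ↥U → ℝ → X) (k : ↥U) (τ : ℝ) :
    X :=
  if h : ∃ j, j ≤ n ∧ 0 < Dj n j τ then Pp ρ b n t leg h.choose k (Dj n h.choose τ) else k.1

lemma Lam_eq {j : ℕ} {τ : ℝ} (hj : j ≤ n) (h : 0 < Dj n j τ) (k : ↥U) :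
    Lam ρ b n t leg k τ = Pp ρ b n t leg j k (Dj n j τ) := by
  have hex : ∃ j, j ≤ n ∧ 0 < Dj n j τ := ⟨j, hj, h⟩
  have he : hex.choose = j := Dj_uniq hex.choose_spec.2 h
  unfold Lam
  rw [dif_pos hex, he]

lemma Lam_none {τ : ℝ} (h : ∀ j, j ≤ n → Dj n j τ = 0) (k : ↥U) : Lam ρ b n t leg k τ = k.1 := by
  unfold Lam
  rw [dif_neg]
  rintro ⟨j, hj, hp⟩
  rw [h j hj] at hp
  exact lt_irrefl _ hp

lemma cases_τ (n : ℕ) (τ : ℝ) : (∀ j, j ≤ n → Dj n j τ = 0) ∨ ∃ j, j ≤ n ∧ 0 < Dj n j τ := by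
  by_cases h : ∃ j, j ≤ n ∧ 0 < Dj n j τ
  · exact Or.inr h
  · left
    intro j hj
    by_contra hne
    exact h ⟨j, hj, lt_of_le_of_ne (Dj_nonneg n j τ) (Ne.symm hne)⟩

include hF in
lemma Lam_mem (k : ↥U) (τ : ℝ) : Lam ρ b n t leg k τ ∈ U := by
  rcases cases_τ n τ with h | ⟨j, hj, h⟩
  · rw [Lam_none h]
    exact k.2
  · rw [Lam_eq hj h]
    exact Pp_mem hF _ _ _

include hF hb hD in
lemma Lam_lip (k : ↥U) (s τ : ℝ) : dist (Lam ρ b n t leg k s) (Lam ρ b n t leg k τ) ≤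
    2 * ((n : ℝ) + 1) * b * |s - τ| := by
  have hn : (0:ℝ) < (n:ℝ) + 1 := by positivity
  -- comparison of points of two different tents
  have key : ∀ (i j : ℕ) (s τ : ℝ), i ≤ n → j ≤ n → 0 < Dj n i s → 0 < Dj n j τ → i < j →
      dist (Lam ρ b n t leg k s) (Lam ρ b n t leg k τ) ≤ 2 * ((n : ℝ) + 1) * b * |s - τ| := by
    intro i j s τ hi hj h1 h2 hij
    rw [Lam_eq hi h1, Lam_eq hj h2]
    have a1 := Pp_lip hF hb hD i k (Dj n i s) 0
    have a2 := Pp_lip hF hb hD j k 0 (Dj n j τ)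
    rw [Pp_zero hD, sub_zero, abs_of_pos h1] at a1
    rw [Pp_zero hD, zero_sub, abs_neg, abs_of_pos h2] at a2
    refine (dist_triangle _ k.1 _).trans ((add_le_add a1 a2).trans ?_)
    rw [← mul_add]
    have b1 := Dj_le_up n i h1
    have b2 := Dj_le_dn n j h2
    have b3 : (i : ℝ) + 1 ≤ j := by exact_mod_cast hij
    have b4 : Dj n i s + Dj n j τ ≤ 2 * ((n : ℝ) + 1) * |s - τ| := by
      have b5 : ((n : ℝ) + 1) * (τ - s) ≤ ((n : ℝ) + 1) * |s - τ| := by
        refine mul_le_mul_of_nonneg_left ?_ hn.le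
        rw [abs_sub_comm]
        exact le_abs_self _
      linarith
    calc b * (Dj n i s + Dj n j τ) ≤ b * (2 * ((n : ℝ) + 1) * |s - τ|) :=
          mul_le_mul_of_nonneg_left b4 hb
      _ = _ := by ring
  have same : ∀ (j : ℕ), (Lam ρ b n t leg k s = Pp ρ b n t leg j k (Dj n j s)) →
      (Lam ρ b n t leg k τ = Pp ρ b n t leg j k (Dj n j τ)) →
      dist (Lam ρ b n t leg k s) (Lam ρ b n t leg k τ) ≤ 2 * ((n : ℝ) + 1) * b * |s - τ| := by
    intro j h1 h2
    rw [h1, h2]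
    refine (Pp_lip hF hb hD j k _ _).trans ?_
    calc b * |Dj n j s - Dj n j τ| ≤ b * (2 * ((n : ℝ) + 1) * |s - τ|) :=
          mul_le_mul_of_nonneg_left (Dj_lip n j s τ) hb
      _ = _ := by ring
  rcases cases_τ n s with h1 | ⟨i, hi, h1⟩
  · rcases cases_τ n τ with h2 | ⟨j, hj, h2⟩
    · rw [Lam_none h1, Lam_none h2, dist_self]
      positivity
    · refine same j ?_ (Lam_eq hj h2 k)
      rw [Lam_none h1, h1 j hj, Pp_zero hD]
  · rcases cases_τ n τ with h2 | ⟨j, hj, h2⟩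
    · refine same i (Lam_eq hi h1 k) ?_
      rw [Lam_none h2, h2 i hi, Pp_zero hD]
    · rcases lt_trichotomy i j with hij | hij | hij
      · exact key i j s τ hi hj h1 h2 hij
      · subst hij
        exact same i (Lam_eq hi h1 k) (Lam_eq hj h2 k)
      · rw [dist_comm, abs_sub_comm]
        exact key j i τ s hj hi h2 h1 hij

lemma Lam_nonpos (k : ↥U) {τ : ℝ} (h : τ ≤ 0) : Lam ρ b n t leg k τ = k.1 :=
  Lam_none (fun j _ => Dj_zero_of_nonpos n j h) k

lemma Lam_one_le (k : ↥U) {τ : ℝ} (h : 1 ≤ τ) : Lam ρ b n t leg k τ = k.1 :=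
  Lam_none (fun j hj => Dj_zero_of_one_le n j hj h) k

include hF hb hD in
lemma Lam_cont : Continuous fun k : ↥U => Lam ρ b n t leg k := by
  refine continuous_pi fun τ => ?_
  rcases cases_τ n τ with h | ⟨j, hj, h⟩
  · have e : (fun k : ↥U => Lam ρ b n t leg k τ) = fun k => k.1 := by
      funext k
      exact Lam_none h k
    rw [e]
    exact continuous_subtype_val
  · have e : (fun k : ↥U => Lam ρ b n t leg k τ) = fun k => Pp ρ b n t leg j k (Dj n j τ) := by
      funext k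
      exact Lam_eq hj h k
    rw [e]
    exact Pp_cont hF hb hD j h.le

include hM hp hD in
lemma Lam_mark (k : ↥U) {j : Fin (n + 2)} (h : 0 < vv n t k j) :
    Lam ρ b n t leg k (th n j) = p := by
  obtain ⟨h1, h2, h3⟩ := vv_pos hD.2.1 hD.2.2.1 h
  have h4 := Dj_th n h1
  rw [Lam_eq h1 (by rw [h4]; exact one_pos), h4]
  unfold Pp
  rw [if_pos h2, h3, one_mul, mul_one, sub_self, (hD.2.2.2.2.1 _ k h2).1.2.1 0 le_rfl]
  exact fo_of (F_sub hM hp)

include hF hb hD in
lemma Lam_W (k : ↥U) {J : Finset (Fin (n + 2))}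
    (hJ : ∀ j ∈ J, ρ (Lam ρ b n t leg k (th n j)) = Lam ρ b n t leg k (th n j)) :
    ((Lam ρ b n t leg k, th n) : Ps X (n + 2)) ∈ W ρ U (2 * (n + 1) * b) J := by
  refine ⟨fun s τ => Lam_lip hF hb hD k s τ, fun τ => Lam_mem hF k τ, fun τ hτ => ?_,
    fun τ hτ => ?_, fun j => th_mem n j, fun i _ j _ hij => th_mono n hij, hJ⟩
  · show Lam ρ b n t leg k τ = Lam ρ b n t leg k 0
    rw [Lam_nonpos k hτ, Lam_nonpos k le_rfl]
  · show Lam ρ b n t leg k τ = Lam ρ b n t leg k 1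
    rw [Lam_one_le k hτ, Lam_one_le k le_rfl]

end star

end STAR_

open STAR_ in
theorem t_STAR : S_STAR := by
  intro X _ ρ U r hM hF n p b hp hb t leg hD hE
  obtain ⟨E, hE1, hE2, hE3⟩ := hE
  have hD1 := hD.1
  have hD2 := hD.2.1
  have hD3 := hD.2.2.1
  -- weights
  let e : Fin (n + 2) → ℝ := Pi.single (Fin.last (n + 1)) 1
  let wt : ↥U → ℝ → Fin (n + 2) → ℝ := fun k s => (1 - s) • vv n t k + s • e
  let Ψ : ↥U × ℝ → Ps X (n + 2) × (Fin (n + 2) → ℝ) := fun z =>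
    ((Lam ρ b n t leg z.1, th n), wt z.1 z.2)
  have he0 : ∀ j, 0 ≤ e j := by
    intro j
    simp only [e]
    by_cases h : j = Fin.last (n + 1)
    · subst h
      simp
    · rw [Pi.single_eq_of_ne h]
  have heS : e ∈ stdSimplex ℝ (Fin (n + 2)) := by
    refine ⟨he0, ?_⟩
    simp only [e]
    rw [Finset.sum_pi_single']
    simp
  have hmemS : ∀ (k : ↥U) (s : ℝ), s ∈ Icc (0 : ℝ) 1 → wt k s ∈ stdSimplex ℝ (Fin (n + 2)) := by
    intro k s hs
    exact convex_stdSimplex ℝ _ (vv_mem hD2 hD3 k) heS (by linarith [hs.2]) hs.1 (by ring)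
  have hΨc : Continuous Ψ := by
    refine Continuous.prodMk ?_ ?_
    · exact ((Lam_cont hF hb hD).comp continuous_fst).prodMk continuous_const
    · show Continuous fun z : ↥U × ℝ => (1 - z.2) • vv n t z.1 + z.2 • e
      exact ((continuous_const.sub continuous_snd).smul
        ((vv_cont hD1 hD2 hD3).comp continuous_fst)).add (continuous_snd.smul continuous_const)
  have hmem : ∀ (k : ↥U) (s : ℝ), s ∈ Icc (0 : ℝ) 1 → (s = 0 ∨ ρ k.1 = k.1) →
      Ψ (k, s) ∈ Dm (fun J : Finset (Fin (n + 2)) => W ρ U (2 * (n + 1) * b) J) := by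
    intro k s hs hk
    refine ⟨hmemS k s hs, fun J hJ => Lam_W hF hb hD k fun j hj => ?_⟩
    have h1 : 0 < wt k s j := (hJ j).1 hj
    by_cases hv : 0 < vv n t k j
    · rw [Lam_mark hM hp hD k hv]
      exact hp
    · have hv0 : vv n t k j = 0 := le_antisymm (not_lt.1 hv) ((vv_mem hD2 hD3 k).1 j)
      have h2 : wt k s j = s * e j := by
        show (1 - s) * vv n t k j + s * e j = s * e j
        rw [hv0]
        ring
      rw [h2] at h1
      rcases hk with hk | hk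
      · rw [hk, zero_mul] at h1
        exact absurd h1 (lt_irrefl _)
      · have hjl : j = Fin.last (n + 1) := by
          by_contra hne
          have : e j = 0 := Pi.single_eq_of_ne hne _
          rw [this, mul_zero] at h1
          exact lt_irrefl _ h1
        rw [hjl, th_last, Lam_one_le k le_rfl]
        exact hk
  have hwt0 : ∀ k : ↥U, wt k 0 = vv n t k := by
    intro k
    show (1 - (0:ℝ)) • vv n t k + (0:ℝ) • e = vv n t k
    rw [sub_zero, one_smul, zero_smul, add_zero]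
  have hwt1 : ∀ k : ↥U, wt k 1 = e := by
    intro k
    show (1 - (1:ℝ)) • vv n t k + (1:ℝ) • e = e
    rw [sub_self, zero_smul, one_smul, zero_add]
  classical
  let HH : ↥U × ℝ → X := fun z => E (Ψ z).1 (Ψ z).2
  refine ⟨fun x => if h : x ∈ U then HH (⟨x, h⟩, 0) else x,
    fun x s => if h : x ∈ U then HH (⟨x, h⟩, s) else x, ?_, ?_, ?_, ?_⟩
  · rw [continuousOn_iff_continuous_restrict]
    have h1 : Continuous fun k : ↥U => HH (k, 0) :=
      hE1.comp_continuous (hΨc.comp (continuous_id.prodMk continuous_const))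
        fun k => hmem k 0 ⟨le_rfl, zero_le_one⟩ (Or.inl rfl)
    refine h1.congr fun k => ?_
    show HH (k, 0) = if h : k.1 ∈ U then HH (⟨k.1, h⟩, 0) else k.1
    rw [dif_pos k.2]
  · intro x hx
    show ρ (if h : x ∈ U then HH (⟨x, h⟩, 0) else x) = if h : x ∈ U then HH (⟨x, h⟩, 0) else x
    rw [dif_pos hx]
    exact hE2 _ (hmem ⟨x, hx⟩ 0 ⟨le_rfl, zero_le_one⟩ (Or.inl rfl))
  · rw [continuousOn_iff_continuous_restrict]
    have hsub : ∀ z : ↥({x : X | ρ x = x} ×ˢ Icc (0 : ℝ) 1), z.1.1 ∈ U := fun z =>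
      F_sub hM z.2.1
    have h1 : Continuous fun z : ↥({x : X | ρ x = x} ×ˢ Icc (0 : ℝ) 1) =>
        HH (⟨z.1.1, hsub z⟩, z.1.2) := by
      refine hE1.comp_continuous (hΨc.comp (Continuous.prodMk ?_ ?_)) fun z =>
        hmem ⟨z.1.1, hsub z⟩ z.1.2 z.2.2 (Or.inr z.2.1)
      · exact (continuous_fst.comp continuous_subtype_val).subtype_mk _
      · exact continuous_snd.comp continuous_subtype_val
    refine h1.congr fun z => ?_
    show HH (⟨z.1.1, hsub z⟩, z.1.2) =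
      if h : z.1.1 ∈ U then HH (⟨z.1.1, h⟩, z.1.2) else z.1.1
    rw [dif_pos (hsub z)]
  · intro x hx
    have hxU : x ∈ U := F_sub hM hx
    refine ⟨fun s hs => ?_, ?_, ?_⟩
    · show ρ (if h : x ∈ U then HH (⟨x, h⟩, s) else x) = if h : x ∈ U then HH (⟨x, h⟩, s) else x
      rw [dif_pos hxU]
      exact hE2 _ (hmem ⟨x, hxU⟩ s hs (Or.inr hx))
    · rfl
    · show (if h : x ∈ U then HH (⟨x, h⟩, 1) else x) = x
      rw [dif_pos hxU]
      show E (Lam ρ b n t leg ⟨x, hxU⟩, th n) (wt ⟨x, hxU⟩ 1) = x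
      rw [hwt1]
      have h2 := hE3 (Lam ρ b n t leg ⟨x, hxU⟩, th n) (Fin.last (n + 1))
        (Lam_W hF hb hD ⟨x, hxU⟩ fun j hj => by
          rw [Finset.mem_singleton] at hj
          rw [hj, th_last, Lam_one_le _ le_rfl]
          exact hx)
      refine h2.trans ?_
      show Lam ρ b n t leg ⟨x, hxU⟩ (th n (Fin.last (n + 1))) = x
      rw [th_last, Lam_one_le _ le_rfl]

end Pool.Agent.N489.RW
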