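import Pool.Agent.N489.RW.Stm

/-!
# Project RW, part BF: elementary facts about the book (by helper717)
-/

set_option autoImplicit false

open Set Topology

noncomputable section

namespace Pool.Agent.N489.RW

open Pool.Agent.Y489.GE Pool.Agent.R203.IF

namespace BFp

variable {X : Type} {ρ : X → X} {U : Set X} {M : ℕ}

theorem fo_mem {x : X} (hx : x ∈ U) : fo ρ U x = x := by
  unfold fo
  rw [if_pos hx]

open Classical in
/-- the point `x` on the page `i`, as a function -/
def pgf (ρ : X → X) {M : ℕ} (i : Ix M) (x : X) : Ix M → X := fun k => if k = i then x else ρ x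

theorem pgf_self (i : Ix M) (x : X) : pgf ρ i x i = x := by
  unfold pgf
  rw [if_pos rfl]

theorem pgf_ne {i k : Ix M} (h : k ≠ i) (x : X) : pgf ρ i x k = ρ x := by
  unfold pgf
  rw [if_neg h]

theorem pgf_pg (i : Ix M) {x : X} (hx : x ∈ U) : IsPg ρ U i (pgf ρ i x) := by
  refine ⟨?_, fun k hk => ?_⟩
  · rw [pgf_self]; exact hx
  · rw [pgf_self, pgf_ne hk]

/-- the point `x` on the page `i` -/
def pg (i : Ix M) (x : X) (hx : x ∈ U) : Bk ρ U M := ⟨pgf ρ i x, i, pgf_pg i hx⟩

theorem pg_mem (i : Ix M) (x : X) (hx : x ∈ U) : (pg i x hx : Bk ρ U M) ∈ Pg i := pgf_pg i hx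

/-- the other page -/
def fl (i : Ix M) : Ix M := (i.1, !i.2)

theorem fl_ne (i : Ix M) : fl i ≠ i := by
  intro h
  have h1 : (!i.2) = i.2 := congrArg Prod.snd h
  cases h2 : i.2 <;> rw [h2] at h1 <;> simp at h1

theorem fl_fl (i : Ix M) : fl (fl i) = i := by
  unfold fl
  simp

theorem sw_val (b : Bk ρ U M) (k : Ix M) : (sw b).1 k = b.1 (fl k) := rfl

theorem sw_pg {b : Bk ρ U M} {i : Ix M} (hb : b ∈ Pg i) : sw b ∈ (Pg (fl i) : Set (Bk ρ U M)) := by
  refine ⟨?_, fun k hk => ?_⟩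
  · rw [sw_val, fl_fl]
    exact hb.1
  · rw [sw_val, sw_val, fl_fl]
    refine hb.2 _ fun h => hk ?_
    rw [← h, fl_fl]

section metric

variable [MetricSpace X] (hm : Mirror X ρ U)
include hm

theorem fo_rho {x : X} (hx : x ∈ U) : fo ρ U (ρ x) = x := by
  unfold fo
  by_cases h : ρ x ∈ U
  · rw [if_pos h]
    exact hm.inter x hx h
  · rw [if_neg h]
    exact hm.inv x

theorem un_pg {b : Bk ρ U M} {i : Ix M} (hb : b ∈ Pg i) : un b = b.1 i := by
  unfold un
  by_cases h : ((0, true) : Ix M) = i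
  · rw [h]
    exact fo_mem hb.1
  · rw [hb.2 _ h]
    exact fo_rho hm hb.1

theorem val_self {b : Bk ρ U M} {i : Ix M} (hb : b ∈ Pg i) : b.1 i = un b := (un_pg hm hb).symm

theorem val_ne {b : Bk ρ U M} {i k : Ix M} (hb : b ∈ Pg i) (hk : k ≠ i) : b.1 k = ρ (un b) := by
  rw [un_pg hm hb]
  exact hb.2 k hk

theorem un_mem (b : Bk ρ U M) : un b ∈ U := by
  obtain ⟨i, hi⟩ := b.2
  have hb : b ∈ Pg i := hi
  rw [un_pg hm hb]
  exact hb.1

theorem un_pgx (i : Ix M) (x : X) (hx : x ∈ U) : un (pg i x hx : Bk ρ U M) = x := by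
  rw [un_pg hm (pg_mem i x hx)]
  exact pgf_self i x

theorem eq_pg {b : Bk ρ U M} {i : Ix M} (hb : b ∈ Pg i) : b = pg i (un b) (un_mem hm b) := by
  apply Subtype.ext
  funext k
  by_cases hk : k = i
  · rw [hk, val_self hm hb]
    exact (pgf_self i _).symm
  · rw [val_ne hm hb hk]
    exact (pgf_ne hk _).symm

theorem un_sw (b : Bk ρ U M) : un (sw b) = un b := by
  obtain ⟨i, hi⟩ := b.2
  have hb : b ∈ Pg i := hi
  rw [un_pg hm (sw_pg hb), un_pg hm hb, sw_val, fl_fl]

/-- the points of the binding have constant coordinates -/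
theorem val_F {b : Bk ρ U M} (h : ρ (un b) = un b) (k : Ix M) : b.1 k = un b := by
  obtain ⟨i, hi⟩ := b.2
  have hb : b ∈ Pg i := hi
  by_cases hk : k = i
  · rw [hk]; exact val_self hm hb
  · rw [val_ne hm hb hk, h]

theorem pgF {b : Bk ρ U M} : sw b = b ↔ ρ (un b) = un b := by
  constructor
  · intro h
    obtain ⟨i, hi⟩ := b.2
    have hb : b ∈ Pg i := hi
    have h1 := sw_pg hb
    rw [h] at h1
    have h2 := val_self hm h1
    rw [val_ne hm hb (fl_ne i)] at h2
    exact h2
  · intro h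
    apply Subtype.ext
    funext k
    rw [sw_val, val_F hm h, val_F hm h]

theorem pgF' {b : Bk ρ U M} (h : sw b = b) (i : Ix M) : b ∈ Pg i := by
  have h1 := (pgF hm).1 h
  refine ⟨?_, fun k _ => ?_⟩
  · rw [val_F hm h1]; exact un_mem hm b
  · rw [val_F hm h1, val_F hm h1, h1]

theorem pg2 {i j : Ix M} (hij : i ≠ j) {b : Bk ρ U M} (hi : b ∈ Pg i) (hj : b ∈ Pg j) :
    sw b = b := by
  rw [pgF hm, ← val_ne hm hi hij.symm]
  exact val_self hm hj

theorem rho_dist (x y : X) : dist (ρ x) y = dist x (ρ y) := by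
  have := hm.iso.dist_eq (ρ x) y
  rw [hm.inv] at this
  exact this.symm

theorem pgI {i : Ix M} {b c : Bk ρ U M} (hb : b ∈ Pg i) (hc : c ∈ Pg i) :
    dist b c = dist (un b) (un c) := by
  change dist b.1 c.1 = _
  apply le_antisymm
  · rw [dist_pi_le_iff dist_nonneg]
    intro k
    by_cases hk : k = i
    · rw [hk, val_self hm hb, val_self hm hc]
    · rw [val_ne hm hb hk, val_ne hm hc hk, hm.iso.dist_eq]
  · have := dist_le_pi_dist b.1 c.1 i
    rwa [val_self hm hb, val_self hm hc] at this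

theorem pgJ {r : ℝ} (hf : MF X ρ U r) {i j : Ix M} (hij : i ≠ j) {b c : Bk ρ U M}
    (hb : b ∈ Pg i) (hc : c ∈ Pg j) : dist b c = dist (un b) (ρ (un c)) := by
  change dist b.1 c.1 = _
  apply le_antisymm
  · rw [dist_pi_le_iff dist_nonneg]
    intro k
    by_cases hk : k = i
    · rw [hk, val_self hm hb, val_ne hm hc hij]
    · by_cases hkj : k = j
      · rw [hkj, val_ne hm hb hij.symm, val_self hm hc, rho_dist hm]
      · rw [val_ne hm hb hk, val_ne hm hc hkj, hm.iso.dist_eq]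
        exact hf.far _ (un_mem hm b) _ (un_mem hm c)
  · have := dist_le_pi_dist b.1 c.1 i
    rwa [val_self hm hb, val_ne hm hc hij] at this

open Classical in
/-- the isometric embedding of `X` as the union of two pages -/
def LL (hm : Mirror X ρ U) (i j : Ix M) (z : X) : Bk ρ U M :=
  if h : z ∈ U then pg i z h else pg j (ρ z) ((hm.cover z).resolve_left h)

omit hm in
theorem LL_in (hm : Mirror X ρ U) (i j : Ix M) {z : X} (h : z ∈ U) :
    LL hm i j z = pg i z h := dif_pos h

omit hm in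
theorem LL_out (hm : Mirror X ρ U) (i j : Ix M) {z : X} (h : z ∉ U) :
    LL hm i j z = pg j (ρ z) ((hm.cover z).resolve_left h) := dif_neg h

theorem LL_iso {r : ℝ} (hf : MF X ρ U r) {i j : Ix M} (hij : i ≠ j) (z w : X) :
    dist (LL hm i j z) (LL hm i j w) = dist z w := by
  by_cases hz : z ∈ U
  · by_cases hw : w ∈ U
    · rw [LL_in hm i j hz, LL_in hm i j hw, pgI hm (pg_mem i z hz) (pg_mem i w hw),
        un_pgx hm, un_pgx hm]
    · rw [LL_in hm i j hz, LL_out hm i j hw, pgJ hm hf hij (pg_mem i z hz) (pg_mem j _ _),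
        un_pgx hm, un_pgx hm, hm.inv]
  · by_cases hw : w ∈ U
    · rw [LL_out hm i j hz, LL_in hm i j hw, pgJ hm hf hij.symm (pg_mem j _ _) (pg_mem i w hw),
        un_pgx hm, un_pgx hm, hm.iso.dist_eq]
    · rw [LL_out hm i j hz, LL_out hm i j hw, pgI hm (pg_mem j _ _) (pg_mem j _ _),
        un_pgx hm, un_pgx hm, hm.iso.dist_eq]

theorem LL_surj {i j : Ix M} (hij : i ≠ j) {b : Bk ρ U M} (hb : b ∈ Pg i ∨ b ∈ Pg j) :
    ∃ z, b = LL hm i j z := by
  rcases hb with hb | hb
  · refine ⟨un b, ?_⟩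
    rw [LL_in hm i j (un_mem hm b)]
    exact eq_pg hm hb
  · by_cases h : ρ (un b) ∈ U
    · have h1 := hm.inter _ (un_mem hm b) h
      have h2 : b ∈ Pg i := pgF' hm ((pgF hm).2 h1) i
      refine ⟨un b, ?_⟩
      rw [LL_in hm i j (un_mem hm b)]
      exact eq_pg hm h2
    · refine ⟨ρ (un b), ?_⟩
      rw [LL_out hm i j h]
      have h1 := eq_pg hm hb
      have h2 : ∀ (x : X) (hx : x ∈ U), x = un b → b = pg j x hx := by
        intro x hx hxb
        subst hxb
        exact h1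
      exact h2 _ _ (hm.inv _)

omit [MetricSpace X] hm in
/-- two pages containing two given points -/
theorem two {b b' : Bk ρ U M} {i j : Ix M} (hb : b ∈ Pg i) (hb' : b' ∈ Pg j) :
    ∃ k l : Ix M, k ≠ l ∧ (b ∈ (Pg k : Set (Bk ρ U M)) ∨ b ∈ (Pg l : Set (Bk ρ U M))) ∧
      (b' ∈ (Pg k : Set (Bk ρ U M)) ∨ b' ∈ (Pg l : Set (Bk ρ U M))) ∧
      ∀ c : Bk ρ U M, (c ∈ Pg i ∨ c ∈ Pg j) → (c ∈ Pg k ∨ c ∈ Pg l) := by
  by_cases hij : i = j
  · subst hij
    exact ⟨i, fl i, (fl_ne i).symm, Or.inl hb, Or.inl hb', fun c hc => Or.inl (hc.elim id id)⟩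
  · exact ⟨i, j, hij, Or.inl hb, Or.inr hb', fun c hc => hc⟩

theorem conv {r : ℝ} (hu : UniqGeod X r) (hf : MF X ρ U r) {i j : Ix M} {b b' c : Bk ρ U M}
    (hb : b ∈ Pg i) (hb' : b' ∈ Pg j) (hd : dist b b' < r)
    (h : dist b c + dist c b' = dist b b') : c ∈ Pg i ∨ c ∈ Pg j := by
  obtain ⟨k, hk⟩ := c.2
  have hc : c ∈ Pg k := hk
  by_cases hki : k = i
  · left; rw [← hki]; exact hc
  by_cases hkj : k = j
  · right; rw [← hkj]; exact hc
  left
  apply pgF' hm
  rw [pgF hm]
  have ux := un_mem hm b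
  have uy := un_mem hm b'
  have uz := un_mem hm c
  have e1 : dist b c = dist (un b) (ρ (un c)) := pgJ hm hf (Ne.symm hki) hb hc
  have e2 : dist c b' = dist (un c) (ρ (un b')) := pgJ hm hf hkj hc hb'
  by_cases hij : i = j
  · subst hij
    have e3 : dist b b' = dist (un b) (un b') := pgI hm hb hb'
    rw [e1, e2, ← rho_dist hm (un c) (un b'), e3] at h
    rw [e3] at hd
    exact hm.inter _ uz (hf.conv _ ux _ uy _ hd h)
  · have e3 : dist b b' = dist (un b) (ρ (un b')) := pgJ hm hf hij hb hb'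
    rw [e1, e2, e3] at h
    rw [e3] at hd
    have f1 := hf.far _ ux _ uz
    have f2 := hf.far _ uz _ uy
    have t1 := dist_triangle (un b) (un c) (ρ (un b'))
    have g1 : dist (un b) (un c) = dist (un b) (ρ (un c)) := by linarith
    have g2 : dist (un b) (un c) + dist (un c) (ρ (un b')) = dist (un b) (ρ (un b')) := by
      linarith
    have t2 := dist_triangle (un b) (ρ (un c)) (ρ (un b'))
    rw [hm.iso.dist_eq] at t2
    have g3 : dist (un b) (ρ (un c)) + dist (ρ (un c)) (ρ (un b')) =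
        dist (un b) (ρ (un b')) := by
      rw [hm.iso.dist_eq]
      linarith
    exact (hu _ _ _ _ hd g2 g3 g1).symm

end metric

end BFp

open BFp in
/-- elementary facts about the book -/
theorem t_BF : S_BF := by
  intro X _ _ ρ U M r hm hg hu hf
  have ev : ∀ k : Ix M, Continuous (fun b : Bk ρ U M => b.1 k) := fun k =>
    (continuous_apply k).comp continuous_subtype_val
  refine
    { cpt := ?_
      geod := ?_
      uniq := ?_
      swI := ?_
      sw2 := ?_
      unU := un_mem hm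
      unL := ?_
      unS := un_sw hm
      pgE := fun i x hx => ⟨pg i x hx, pg_mem i x hx, un_pgx hm i x hx⟩
      pgI := fun i b c hb hc => pgI hm hb hc
      pgJ := fun i j hij b c hb hc => pgJ hm hf hij hb hc
      pgA := fun b => b.2
      pgC := ?_
      pgF := fun b => pgF hm
      pgF' := fun b h i => pgF' hm h i
      pg2 := fun i j hij b hi hj => pg2 hm hij hi hj
      pgS := fun i b hb => sw_pg hb
      dsw := ?_
      conv := fun i j b b' c hb hb' hd h => conv hm hu hf hb hb' hd h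
      convF := ?_
      cross := ?_
      ht := ?_ }
  · -- compactness
    suffices hc : IsCompact {f : Ix M → X | ∃ i, IsPg ρ U i f} from
      isCompact_iff_compactSpace.1 hc
    apply IsClosed.isCompact
    have h1 : {f : Ix M → X | ∃ i, IsPg ρ U i f} =
        ⋃ i : Ix M, ({f : Ix M → X | f i ∈ U} ∩ ⋂ k : Ix M, ⋂ _ : k ≠ i, {f | f k = ρ (f i)}) := by
      ext f
      simp only [mem_ofPred_eq, mem_iUnion, mem_inter_iff, mem_iInter, IsPg]
    rw [h1]
    refine isClosed_iUnion_of_finite fun i => IsClosed.inter ?_ ?_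
    · exact hm.closed.preimage (continuous_apply i)
    · exact isClosed_iInter fun k => isClosed_iInter fun _ =>
        isClosed_eq (continuous_apply k) (hm.iso.continuous.comp (continuous_apply i))
  · -- geodesics
    intro b b'
    obtain ⟨i, hi⟩ := b.2
    obtain ⟨j, hj⟩ := b'.2
    obtain ⟨k, l, hkl, h1, h2, -⟩ := two (b := b) (b' := b') hi hj
    obtain ⟨u, hu1⟩ := LL_surj hm hkl h1
    obtain ⟨v, hv1⟩ := LL_surj hm hkl h2
    obtain ⟨c, hc0, hc1, hc⟩ := hg u v
    refine ⟨fun t => LL hm k l (c t), ?_, ?_, fun s hs t ht => ?_⟩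
    · change LL hm k l (c 0) = b
      rw [hc0, hu1]
    · change LL hm k l (c 1) = b'
      rw [hc1, hv1]
    · rw [LL_iso hm hf hkl, hc s hs t ht, hu1, hv1, LL_iso hm hf hkl]
  · -- uniqueness
    intro b b' c d hd h1 h2 h3
    obtain ⟨i, hi⟩ := b.2
    obtain ⟨j, hj⟩ := b'.2
    have cc := conv hm hu hf (b := b) (b' := b') hi hj hd h1
    have cd := conv hm hu hf (b := b) (b' := b') hi hj hd h2
    obtain ⟨k, l, hkl, g1, g2, g3⟩ := two (b := b) (b' := b') hi hj
    obtain ⟨x, hx⟩ := LL_surj hm hkl g1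
    obtain ⟨y, hy⟩ := LL_surj hm hkl g2
    obtain ⟨z, hz⟩ := LL_surj hm hkl (g3 c cc)
    obtain ⟨w, hw⟩ := LL_surj hm hkl (g3 d cd)
    rw [hx, hy, hz] at h1
    rw [hx, hy, hw] at h2
    rw [hx, hz, hw] at h3
    rw [hx, hy] at hd
    simp only [LL_iso hm hf hkl] at h1 h2 h3 hd
    rw [hz, hw, hu x y z w hd h1 h2 h3]
  · -- the exchange is an isometry
    refine Isometry.of_dist_eq fun b c => ?_
    obtain ⟨i, hi⟩ := b.2
    obtain ⟨j, hj⟩ := c.2
    have hb : b ∈ Pg i := hi
    have hc : c ∈ Pg j := hj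
    by_cases hij : i = j
    · subst hij
      rw [pgI hm (sw_pg hb) (sw_pg hc), pgI hm hb hc, un_sw hm, un_sw hm]
    · have h1 : fl i ≠ fl j := fun h => hij (by rw [← fl_fl i, h, fl_fl])
      rw [pgJ hm hf h1 (sw_pg hb) (sw_pg hc), pgJ hm hf hij hb hc, un_sw hm, un_sw hm]
  · intro b
    apply Subtype.ext
    funext k
    rw [sw_val, sw_val, fl_fl]
  · -- the projection is a contraction
    intro b c
    obtain ⟨i, hi⟩ := b.2
    obtain ⟨j, hj⟩ := c.2
    have hb : b ∈ Pg i := hi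
    have hc : c ∈ Pg j := hj
    by_cases hij : i = j
    · subst hij
      rw [pgI hm hb hc]
    · rw [pgJ hm hf hij hb hc]
      exact hf.far _ (un_mem hm b) _ (un_mem hm c)
  · -- the pages are closed
    intro i
    have h1 : (Pg i : Set (Bk ρ U M)) =
        {b : Bk ρ U M | b.1 i ∈ U} ∩ ⋂ k : Ix M, ⋂ _ : k ≠ i, {b | b.1 k = ρ (b.1 i)} := by
      ext b
      simp only [Pg, mem_ofPred_eq, mem_inter_iff, mem_iInter, IsPg]
    rw [h1]
    refine IsClosed.inter ?_ ?_
    · exact hm.closed.preimage (ev i)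
    · exact isClosed_iInter fun k => isClosed_iInter fun _ =>
        isClosed_eq (ev k) (hm.iso.continuous.comp (ev i))
  · intro b
    obtain ⟨i, hi⟩ := b.2
    have hb : b ∈ Pg i := hi
    rw [pgJ hm hf (fl_ne i).symm hb (sw_pg hb), un_sw hm]
  · -- geodesics between points of the binding
    intro b b' c hb hb' hd h
    obtain ⟨k, hk⟩ := c.2
    have hc : c ∈ Pg k := hk
    have h1 := pgF' hm hb k
    have h2 := pgF' hm hb' k
    rw [pgI hm h1 h2] at hd
    rw [pgI hm h1 hc, pgI hm hc h2, pgI hm h1 h2] at h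
    rw [pgF hm]
    exact hf.convF _ _ _ ((pgF hm).1 hb) ((pgF hm).1 hb') hd h
  · -- crossing
    intro i j hij b c hb hc
    obtain ⟨z, hz, h⟩ := hf.cross _ (un_mem hm b) _ (un_mem hm c)
    have hzU : z ∈ U := by
      rcases hm.cover z with h1 | h1
      · exact h1
      · rwa [hz] at h1
    have hsw : sw (pg i z hzU : Bk ρ U M) = pg i z hzU := by
      rw [pgF hm, un_pgx hm]
      exact hz
    refine ⟨pg i z hzU, hsw, ?_⟩
    rw [pgI hm hb (pg_mem i z hzU), pgI hm (pgF' hm hsw j) hc, un_pgx hm, pgJ hm hf hij hb hc,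
      ← h]
    congr 1
    have := hm.iso.dist_eq z (un c)
    rw [hz] at this
    exact this.symm
  · -- the distance to the binding
    intro b z hz
    have hiso : dist (sw z) (sw b) = dist z b := by
      obtain ⟨i, hi⟩ := b.2
      have hb : b ∈ Pg i := hi
      have hz1 := pgF' hm hz i
      rw [pgI hm (sw_pg hz1) (sw_pg hb), pgI hm hz1 hb, un_sw hm, un_sw hm]
    rw [hz] at hiso
    have := dist_triangle b z (sw b)
    rw [hiso, dist_comm z b] at this
    linarith

end Pool.Agent.N489.RW
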