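import Pool.Agent.N489.RW.Stm

/-!
# Project RW (helper489), subtask COR (helper488): insertion of spikes at the marks
-/

set_option autoImplicit false

open Set Topology Filter

noncomputable section

namespace Pool.Agent.N489.RW

open Pool.Agent.Y489.GE Pool.Agent.R203.IF

namespace COR

/-- joint continuity of the evaluation for families of curves of speed at most `a` -/
theorem evalL {Z X : Type} [TopologicalSpace Z] [MetricSpace X] {F : Z → ℝ → X} {τ : Z → ℝ}
    {S : Set Z} {z₀ : Z} {a : ℝ} (hF : ContinuousWithinAt F S z₀)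
    (hL : ∀ z ∈ S, ∀ s t, dist (F z s) (F z t) ≤ a * |s - t|) (hτ : ContinuousWithinAt τ S z₀) :
    ContinuousWithinAt (fun z => F z (τ z)) S z₀ := by
  have h1 : Filter.Tendsto (fun z => dist (F z (τ z₀)) (F z₀ (τ z₀))) (𝓝[S] z₀) (𝓝 0) := by
    have h2 : ContinuousWithinAt (fun z => F z (τ z₀)) S z₀ :=
      ((continuous_apply (τ z₀)).continuousAt.comp_continuousWithinAt hF)
    exact tendsto_iff_dist_tendsto_zero.1 h2
  have h3 : Filter.Tendsto (fun z => a * |τ z - τ z₀|) (𝓝[S] z₀) (𝓝 0) := by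
    have := tendsto_iff_dist_tendsto_zero.1 hτ
    simpa [Real.dist_eq] using this.const_mul a
  refine tendsto_iff_dist_tendsto_zero.2 (squeeze_zero' (Filter.Eventually.of_forall
    fun z => dist_nonneg) ?_ (by simpa using h3.add h1))
  filter_upwards [self_mem_nhdsWithin] with z hz'
  exact (dist_triangle _ (F z (τ z₀)) _).trans (add_le_add (hL z hz' _ _) le_rfl)

/-- the time spent in the spike, times the speed -/
def cl (a θ h u : ℝ) : ℝ := max 0 (min (u - a * θ) (2 * h))

/-- the old time -/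
def om (a θ h u : ℝ) : ℝ := (u - cl a θ h u) / a

/-- the depth in the spike -/
def dep (a θ h u : ℝ) : ℝ := min (cl a θ h u) (2 * h - cl a θ h u)

theorem cl_nonneg (a θ h u : ℝ) : 0 ≤ cl a θ h u := le_max_left _ _

theorem cl_le {a θ h u : ℝ} (hh : 0 ≤ h) : cl a θ h u ≤ 2 * h :=
  max_le (by linarith) (min_le_right _ _)

theorem dep_nonneg {a θ h u : ℝ} (hh : 0 ≤ h) : 0 ≤ dep a θ h u :=
  le_min (cl_nonneg _ _ _ _) (by linarith [cl_le (a := a) (θ := θ) (u := u) hh])

theorem dep_le (a θ h u : ℝ) : dep a θ h u ≤ h := by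
  have h1 : dep a θ h u ≤ cl a θ h u := min_le_left _ _
  have h2 : dep a θ h u ≤ 2 * h - cl a θ h u := min_le_right _ _
  linarith

theorem cl_left {a θ h u : ℝ} (hu : u ≤ a * θ) : cl a θ h u = 0 :=
  max_eq_left ((min_le_left _ _).trans (by linarith))

theorem cl_mid {a θ h u : ℝ} (h1 : a * θ ≤ u) (h2 : u ≤ a * θ + 2 * h) :
    cl a θ h u = u - a * θ := by
  unfold cl
  rw [min_eq_left (by linarith), max_eq_right (by linarith)]

theorem cl_right {a θ h u : ℝ} (hh : 0 ≤ h) (h2 : a * θ + 2 * h ≤ u) :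
    cl a θ h u = 2 * h := by
  unfold cl
  rw [min_eq_right (by linarith), max_eq_right (by linarith)]

theorem om_of_dep {a θ h u : ℝ} (ha : 0 < a) (hd : 0 < dep a θ h u) : om a θ h u = θ := by
  have h1 : 0 < cl a θ h u := lt_of_lt_of_le hd (min_le_left _ _)
  have h2 : cl a θ h u < 2 * h := by
    have : dep a θ h u ≤ 2 * h - cl a θ h u := min_le_right _ _
    linarith
  have h3 : cl a θ h u = u - a * θ := by
    unfold cl at h1 h2 ⊢
    rcases max_cases (0 : ℝ) (min (u - a * θ) (2 * h)) with h4 | h4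
    · rw [h4.1] at h1
      exact absurd h1 (lt_irrefl _)
    · rw [h4.1] at h2 ⊢
      rcases min_cases (u - a * θ) (2 * h) with h5 | h5
      · exact h5.1
      · rw [h5.1] at h2
        exact absurd h2 (lt_irrefl _)
  unfold om
  rw [h3]
  field_simp
  ring

theorem cl_mono {a θ h u v : ℝ} (huv : u ≤ v) : cl a θ h u ≤ cl a θ h v :=
  max_le_max le_rfl (min_le_min (by linarith) le_rfl)

theorem sub_cl_mono {a θ h u v : ℝ} (huv : u ≤ v) :
    u - cl a θ h u ≤ v - cl a θ h v := by
  have : cl a θ h v ≤ cl a θ h u + (v - u) := by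
    unfold cl
    refine max_le ?_ ?_
    · have := le_max_left 0 (min (u - a * θ) (2 * h))
      linarith
    · rcases le_total (u - a * θ) (2 * h) with h1 | h1
      · have h2 : min (v - a * θ) (2 * h) ≤ v - a * θ := min_le_left _ _
        have h3 : u - a * θ ≤ max 0 (min (u - a * θ) (2 * h)) := by
          rw [min_eq_left h1]
          exact le_max_right _ _
        linarith
      · have h2 : min (v - a * θ) (2 * h) ≤ 2 * h := min_le_right _ _
        have h3 : 2 * h ≤ max 0 (min (u - a * θ) (2 * h)) := by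
          rw [min_eq_right h1]
          exact le_max_right _ _
        linarith
  linarith

theorem om_add_cl {a θ h : ℝ} (ha : 0 < a) (u v : ℝ) :
    a * |om a θ h u - om a θ h v| + |cl a θ h u - cl a θ h v| = |u - v| := by
  have key : ∀ u v : ℝ, u ≤ v →
      a * |om a θ h u - om a θ h v| + |cl a θ h u - cl a θ h v| = |u - v| := by
    intro u v huv
    have h1 := cl_mono (a := a) (θ := θ) (h := h) huv
    have h2 := sub_cl_mono (a := a) (θ := θ) (h := h) huv
    have h3 : om a θ h u - om a θ h v = ((u - cl a θ h u) - (v - cl a θ h v)) / a := by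
      unfold om
      ring
    rw [h3, abs_div, abs_of_pos ha, abs_of_nonpos (by linarith), abs_of_nonpos (by linarith),
      abs_of_nonpos (by linarith)]
    field_simp
    ring
  rcases le_total u v with huv | huv
  · exact key u v huv
  · rw [abs_sub_comm (om a θ h u), abs_sub_comm (cl a θ h u), abs_sub_comm u v]
    exact key v u huv

theorem dep_lip (a θ h u v : ℝ) :
    |dep a θ h u - dep a θ h v| ≤ |cl a θ h u - cl a θ h v| := by
  unfold dep
  refine (abs_min_sub_min_le_max _ _ _ _).trans (max_le le_rfl ?_)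
  rw [abs_sub_comm (cl a θ h u)]
  exact le_of_eq (congrArg _ (by ring))

section

variable {X : Type} [MetricSpace X] {ρ : X → X} {m : X → X → ℝ → X}

open Classical in
/-- the path with a spike -/
def Gp (ρ : X → X) (m : X → X → ℝ → X) (a : ℝ) (g : ℝ → X) (θ h u : ℝ) : X :=
  if 0 < dep a θ h u then m (g θ) (ρ (g θ)) (dep a θ h u / (2 * h)) else g (om a θ h u)

theorem par_mem {a θ h u : ℝ} (hh : 0 ≤ h) : dep a θ h u / (2 * h) ∈ Icc (0 : ℝ) 1 := by
  refine ⟨div_nonneg (dep_nonneg hh) (by linarith), ?_⟩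
  refine div_le_one_of_le₀ ?_ (by linarith)
  linarith [dep_le a θ h u]

theorem par_le {a θ h u : ℝ} (hh : 0 ≤ h) : dep a θ h u / (2 * h) ≤ 1 / 2 := by
  rcases hh.eq_or_lt with h0 | h0
  · rw [← h0]
    norm_num
  · rw [div_le_iff₀ (by linarith)]
    linarith [dep_le a θ h u]

theorem Gp_near {r' : ℝ} (hm : GMap X r' m) {a : ℝ} (ha : 0 < a) {g : ℝ → X} {θ h : ℝ}
    (hh : 2 * h = dist (g θ) (ρ (g θ))) (hr : 2 * h ≤ r') (u : ℝ) :
    dist (Gp ρ m a g θ h u) (g (om a θ h u)) ≤ dep a θ h u := by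
  have h0 : 0 ≤ h := by
    have := dist_nonneg (x := g θ) (y := ρ (g θ))
    linarith
  unfold Gp
  split_ifs with hd
  · rw [om_of_dep ha hd, dist_comm, hm.dist_left (by rw [← hh]; exact hr) (par_mem h0), ← hh]
    have h1 : 0 < 2 * h := by
      have := dep_le a θ h u
      linarith
    rw [div_mul_cancel₀ _ h1.ne']
  · rw [dist_self]
    exact dep_nonneg h0

theorem Gp_lip {r' : ℝ} (hm : GMap X r' m) {a : ℝ} (ha : 0 < a) {g : ℝ → X} {θ h : ℝ}
    (hg : ∀ s t, dist (g s) (g t) ≤ a * |s - t|)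
    (hh : 2 * h = dist (g θ) (ρ (g θ))) (hr : 2 * h ≤ r') (u v : ℝ) :
    dist (Gp ρ m a g θ h u) (Gp ρ m a g θ h v) ≤ |u - v| := by
  have h0 : 0 ≤ h := by
    have := dist_nonneg (x := g θ) (y := ρ (g θ))
    linarith
  have hkey := om_add_cl (θ := θ) (h := h) ha u v
  -- one depth zero
  have hone : ∀ u v : ℝ, dep a θ h v ≤ 0 →
      dist (Gp ρ m a g θ h u) (Gp ρ m a g θ h v) ≤ |u - v| := by
    intro u v hv
    have h1 : Gp ρ m a g θ h v = g (om a θ h v) := if_neg (not_lt.2 hv)
    have h2 := Gp_near hm ha hh hr u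
    have h3 : dep a θ h u ≤ |cl a θ h u - cl a θ h v| := by
      have h4 : dep a θ h v = 0 := le_antisymm hv (dep_nonneg h0)
      have h5 := dep_lip a θ h u v
      rw [h4, sub_zero, abs_of_nonneg (dep_nonneg h0)] at h5
      exact h5
    have h6 := om_add_cl (θ := θ) (h := h) ha u v
    rw [h1]
    have h7 := dist_triangle (Gp ρ m a g θ h u) (g (om a θ h u)) (g (om a θ h v))
    have h8 := hg (om a θ h u) (om a θ h v)
    linarith
  rcases lt_or_ge 0 (dep a θ h v) with hv | hv
  · rcases lt_or_ge 0 (dep a θ h u) with hu | hu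
    · have h1 : Gp ρ m a g θ h v = _ := if_pos hv
      have h2 : Gp ρ m a g θ h u = _ := if_pos hu
      have h3 : 0 < 2 * h := by
        have := dep_le a θ h u
        linarith
      rw [h1, h2, hm.dist_eq _ _ (by rw [← hh]; exact hr) _ (par_mem h0) _ (par_mem h0), ← hh,
        ← sub_div, abs_div, abs_of_pos h3, div_mul_cancel₀ _ h3.ne']
      have h4 := dep_lip a θ h u v
      have h5 : 0 ≤ a * |om a θ h u - om a θ h v| := by positivity
      linarith
    · rw [dist_comm, abs_sub_comm]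
      exact hone v u hu
  · exact hone u v hv

omit [MetricSpace X] in
theorem Gp_left {a : ℝ} {g : ℝ → X} {θ h u : ℝ} (hh : 0 ≤ h) (hu : u ≤ a * θ) :
    Gp ρ m a g θ h u = g (u / a) := by
  have h1 : dep a θ h u = 0 := by
    unfold dep
    rw [cl_left hu, min_eq_left (by linarith)]
  have h2 : om a θ h u = u / a := by
    unfold om
    rw [cl_left hu, sub_zero]
  unfold Gp
  rw [h1, if_neg (lt_irrefl _), h2]

omit [MetricSpace X] in
theorem Gp_right {a : ℝ} {g : ℝ → X} {θ h u : ℝ} (hh : 0 ≤ h) (hu : a * θ + 2 * h ≤ u) :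
    Gp ρ m a g θ h u = g ((u - 2 * h) / a) := by
  have h1 : dep a θ h u = 0 := by
    unfold dep
    rw [cl_right hh hu, min_eq_right (by linarith)]
    ring
  have h2 : om a θ h u = (u - 2 * h) / a := by
    unfold om
    rw [cl_right hh hu]
  unfold Gp
  rw [h1, if_neg (lt_irrefl _), h2]

theorem Gp_mid {r' : ℝ} (hm : GMap X r' m) {a : ℝ} (ha : 0 < a) {g : ℝ → X} {θ h u : ℝ}
    (hh : 2 * h = dist (g θ) (ρ (g θ))) (hr : 2 * h ≤ r') (h1 : a * θ ≤ u)
    (h2 : u ≤ a * θ + 2 * h) :
    Gp ρ m a g θ h u = m (g θ) (ρ (g θ)) (dep a θ h u / (2 * h)) := by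
  have h0 : 0 ≤ h := by
    have := dist_nonneg (x := g θ) (y := ρ (g θ))
    linarith
  rcases (dep_nonneg (a := a) (θ := θ) (u := u) h0).eq_or_lt with hd | hd
  · have h3 : om a θ h u = θ := by
      unfold om
      rw [cl_mid h1 h2]
      field_simp
      ring
    unfold Gp
    rw [← hd, if_neg (lt_irrefl _), h3, zero_div, hm.zero _ _ (by rw [← hh]; exact hr)]
  · unfold Gp
    rw [if_pos hd]

/-- continuity -/
theorem Gp_cont {Z : Type} [TopologicalSpace Z] {r' : ℝ} (hm : GMap X r' m) (hρ : Continuous ρ)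
    {a : ℝ} (ha : 0 < a)
    {S : Set Z} {z₀ : Z} (hz : z₀ ∈ S) {g : Z → ℝ → X} {θ h u : Z → ℝ}
    (hg : ContinuousWithinAt g S z₀) (hL : ∀ z ∈ S, ∀ s t, dist (g z s) (g z t) ≤ a * |s - t|)
    (hθ : ContinuousWithinAt θ S z₀) (hhc : ContinuousWithinAt h S z₀)
    (hu : ContinuousWithinAt u S z₀)
    (hh : ∀ z ∈ S, 2 * h z = dist (g z (θ z)) (ρ (g z (θ z)))) (hr : ∀ z ∈ S, 2 * h z ≤ r') :
    ContinuousWithinAt (fun z => Gp ρ m a (g z) (θ z) (h z) (u z)) S z₀ := by
  have h0 : ∀ z ∈ S, 0 ≤ h z := fun z hz => by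
    have := dist_nonneg (x := g z (θ z)) (y := ρ (g z (θ z)))
    have := hh z hz
    linarith
  have hcl : ContinuousWithinAt (fun z => cl a (θ z) (h z) (u z)) S z₀ := by
    unfold cl
    exact continuousWithinAt_const.max ((hu.sub (continuousWithinAt_const.mul hθ)).min
      (continuousWithinAt_const.mul hhc))
  have hom : ContinuousWithinAt (fun z => om a (θ z) (h z) (u z)) S z₀ := by
    unfold om
    exact (hu.sub hcl).div_const _
  have hdep : ContinuousWithinAt (fun z => dep a (θ z) (h z) (u z)) S z₀ := by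
    unfold dep
    exact hcl.min ((continuousWithinAt_const.mul hhc).sub hcl)
  have hx : ContinuousWithinAt (fun z => g z (θ z)) S z₀ := evalL hg hL hθ
  have hgo : ContinuousWithinAt (fun z => g z (om a (θ z) (h z) (u z))) S z₀ := evalL hg hL hom
  rcases lt_or_ge 0 (dep a (θ z₀) (h z₀) (u z₀)) with hd | hd
  · have h1 : ∀ᶠ z in 𝓝[S] z₀, 0 < dep a (θ z) (h z) (u z) :=
      hdep.eventually (lt_mem_nhds hd)
    have h2 : 0 < h z₀ := lt_of_lt_of_le hd (dep_le _ _ _ _)
    have h3 : ContinuousWithinAt (fun z => (g z (θ z), ρ (g z (θ z)),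
        dep a (θ z) (h z) (u z) / (2 * h z))) S z₀ :=
      hx.prodMk ((hρ.continuousAt.comp_continuousWithinAt hx).prodMk
        (hdep.div (continuousWithinAt_const.mul hhc) (by positivity)))
    have h4 : ContinuousWithinAt (fun z => m (g z (θ z)) (ρ (g z (θ z)))
        (dep a (θ z) (h z) (u z) / (2 * h z))) S z₀ := by
      have h5 := hm.cont (g z₀ (θ z₀), ρ (g z₀ (θ z₀)),
        dep a (θ z₀) (h z₀) (u z₀) / (2 * h z₀))
        ⟨by rw [← hh z₀ hz]; exact hr z₀ hz, par_mem (h0 z₀ hz)⟩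
      exact h5.comp (f := fun z => (g z (θ z), ρ (g z (θ z)),
        dep a (θ z) (h z) (u z) / (2 * h z))) h3
        (fun z hz => ⟨by rw [← hh z hz]; exact hr z hz, par_mem (h0 z hz)⟩)
    refine h4.congr_of_eventuallyEq ?_ ?_
    · filter_upwards [h1] with z hz
      exact if_pos hz
    · exact if_pos hd
  · have hd0 : dep a (θ z₀) (h z₀) (u z₀) = 0 := le_antisymm hd (dep_nonneg (h0 z₀ hz))
    have h1 : Gp ρ m a (g z₀) (θ z₀) (h z₀) (u z₀) = g z₀ (om a (θ z₀) (h z₀) (u z₀)) :=
      if_neg (not_lt.2 hd)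
    have h2 : Tendsto (fun z => dist (g z (om a (θ z) (h z) (u z)))
        (g z₀ (om a (θ z₀) (h z₀) (u z₀)))) (𝓝[S] z₀) (𝓝 0) :=
      tendsto_iff_dist_tendsto_zero.1 hgo
    have h3 : Tendsto (fun z => dep a (θ z) (h z) (u z)) (𝓝[S] z₀) (𝓝 0) := by
      have := hdep.tendsto
      rwa [hd0] at this
    refine tendsto_iff_dist_tendsto_zero.2 (squeeze_zero' (Filter.Eventually.of_forall
      fun z => dist_nonneg) ?_ (by simpa using h3.add h2))
    filter_upwards [self_mem_nhdsWithin] with z hz'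
    rw [h1]
    exact (dist_triangle _ (g z (om a (θ z) (h z) (u z))) _).trans
      (add_le_add (Gp_near hm ha (hh z hz') (hr z hz') _) le_rfl)

end

/-! ### the insertion of one spike -/

section

variable {X : Type} [MetricSpace X] {ρ : X → X} {U : Set X} {M : ℕ} {m : X → X → ℝ → X}

/-- marked `a`-Lipschitz paths in `U`; the marks in `J` are ordered and `η`-nearly in `F`, and those
which are less than `k` are in `F` -/
def St (ρ : X → X) (U : Set X) (M : ℕ) (η : ℝ) (J : Finset (Fin M)) (a : ℝ) (k : ℕ) :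
    Set (Ps X M) :=
  {z | z ∈ NW ρ U a η J ∧ ∀ j ∈ J, (j : ℕ) < k → ρ (z.1 (z.2 j)) = z.1 (z.2 j)}

/-- the depth of the spike -/
def hgt (ρ : X → X) (j : Fin M) (z : Ps X M) : ℝ := dist (z.1 (z.2 j)) (ρ (z.1 (z.2 j))) / 2

open Classical in
/-- the insertion of the spike at the mark `j` -/
def stp (ρ : X → X) (m : X → X → ℝ → X) (a : ℝ) (j : Fin M) (z : Ps X M) : Ps X M :=
  (fun s => Gp ρ m a z.1 (z.2 j) (hgt ρ j z) ((a + 2 * hgt ρ j z) * s),
   fun i => if i = j then (a * z.2 i + hgt ρ j z) / (a + 2 * hgt ρ j z) else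
     if i < j then a * z.2 i / (a + 2 * hgt ρ j z) else
       (a * z.2 i + 2 * hgt ρ j z) / (a + 2 * hgt ρ j z))

theorem hgt_nonneg (j : Fin M) (z : Ps X M) : 0 ≤ hgt ρ j z :=
  div_nonneg dist_nonneg (by norm_num)

theorem two_hgt (j : Fin M) (z : Ps X M) :
    2 * hgt ρ j z = dist (z.1 (z.2 j)) (ρ (z.1 (z.2 j))) := by
  unfold hgt
  ring

theorem stp_id {a : ℝ} (ha : 0 < a) (j : Fin M) (z : Ps X M)
    (hz : ρ (z.1 (z.2 j)) = z.1 (z.2 j)) : stp ρ m a j z = z := by
  have h0 : hgt ρ j z = 0 := by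
    unfold hgt
    rw [hz, dist_self, zero_div]
  have hcl : ∀ s : ℝ, cl a (z.2 j) 0 (a * s) = 0 := fun s =>
    le_antisymm (by simpa using cl_le (a := a) (θ := z.2 j) (u := a * s) (le_refl (0 : ℝ)))
      (cl_nonneg _ _ _ _)
  refine Prod.ext ?_ ?_
  · funext s
    simp only [stp, h0, mul_zero, add_zero]
    unfold Gp dep om
    rw [hcl, mul_zero, sub_zero, min_self, if_neg (lt_irrefl _), sub_zero, mul_div_cancel_left₀ _ ha.ne']
  · funext i
    simp only [stp, h0, mul_zero, add_zero]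
    rw [mul_div_cancel_left₀ _ ha.ne']
    simp

theorem stp_cont {r' : ℝ} (hm : GMap X r' m) (hρ : Continuous ρ) {a η : ℝ} (ha : 0 < a)
    (hr : η ≤ r') {J : Finset (Fin M)} (j : Fin M) (hj : j ∈ J) :
    ContinuousOn (stp ρ m a j) (NW ρ U a η J) := by
  intro z₀ hz₀
  have hg : ContinuousWithinAt (fun z : Ps X M => z.1) (NW ρ U a η J) z₀ :=
    continuous_fst.continuousWithinAt
  have hθ : ∀ i : Fin M, ContinuousWithinAt (fun z : Ps X M => z.2 i) (NW ρ U a η J) z₀ :=
    fun i => ((continuous_apply i).comp continuous_snd).continuousWithinAt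
  have hx : ContinuousWithinAt (fun z : Ps X M => z.1 (z.2 j)) (NW ρ U a η J) z₀ :=
    evalL hg (fun z hz => hz.1) (hθ j)
  have hh : ContinuousWithinAt (fun z : Ps X M => hgt ρ j z) (NW ρ U a η J) z₀ := by
    unfold hgt
    exact (hx.dist (hρ.continuousAt.comp_continuousWithinAt hx)).div_const _
  have hc : ContinuousWithinAt (fun z : Ps X M => a + 2 * hgt ρ j z) (NW ρ U a η J) z₀ :=
    continuousWithinAt_const.add (continuousWithinAt_const.mul hh)
  have hc0 : a + 2 * hgt ρ j z₀ ≠ 0 := by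
    have := hgt_nonneg (ρ := ρ) j z₀
    positivity
  refine ContinuousWithinAt.prodMk ?_ ?_
  · rw [continuousWithinAt_pi]
    intro s
    exact Gp_cont hm hρ ha hz₀ hg (fun z hz => hz.1) (hθ j) hh
      (hc.mul continuousWithinAt_const) (fun z _ => two_hgt j z)
      (fun z hz => by rw [two_hgt]; exact (hz.2.2.2.2.2.2 j hj).trans hr)
  · rw [continuousWithinAt_pi]
    intro i
    by_cases hij : i = j
    · simp only [if_pos hij]
      exact ((continuousWithinAt_const.mul (hθ i)).add hh).div hc hc0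
    · by_cases hlt : i < j
      · simp only [if_neg hij, if_pos hlt]
        exact (continuousWithinAt_const.mul (hθ i)).div hc hc0
      · simp only [if_neg hij, if_neg hlt]
        exact ((continuousWithinAt_const.mul (hθ i)).add (continuousWithinAt_const.mul hh)).div
          hc hc0

theorem stp_maps {r r' : ℝ} (hM : Mirror X ρ U) (hF : MF X ρ U r) (hm : GMap X r' m)
    (hrr : r' < r) {a η : ℝ} (ha : 0 < a) (hη : 0 < η) (hr : η ≤ r') {J : Finset (Fin M)}
    (j : Fin M) (hj : j ∈ J) {z : Ps X M} (hz : z ∈ St ρ U M η J a j) :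
    stp ρ m a j z ∈ St ρ U M η J (a + η) (j + 1) := by
  obtain ⟨⟨h1, h2, h3, h4, h5, h6, h7⟩, h8⟩ := hz
  have h0 : 0 ≤ hgt ρ j z := hgt_nonneg j z
  have hh := two_hgt (ρ := ρ) j z
  have hr2 : 2 * hgt ρ j z ≤ η := by rw [hh]; exact h7 j hj
  have hr3 : 2 * hgt ρ j z ≤ r' := hr2.trans hr
  have hxr : dist (z.1 (z.2 j)) (ρ (z.1 (z.2 j))) ≤ r' := by rw [← hh]; exact hr3
  have hr0 : 0 < r' := hη.trans_le hr
  set h := hgt ρ j z with hdef
  set θ := z.2 j with hθ
  set x := z.1 θ with hx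
  have hc : 0 < a + 2 * h := by positivity
  have hθ0 := (h5 j).1
  have hθ1 := (h5 j).2
  -- values
  have hP1 : ∀ s, (stp ρ m a j z).1 s = Gp ρ m a z.1 θ h ((a + 2 * h) * s) := fun s => rfl
  have hleft : ∀ u, u ≤ a * θ → Gp ρ m a z.1 θ h u = z.1 (u / a) := fun u hu => Gp_left h0 hu
  have hright : ∀ u, a * θ + 2 * h ≤ u → Gp ρ m a z.1 θ h u = z.1 ((u - 2 * h) / a) :=
    fun u hu => Gp_right h0 hu
  have hmid : ∀ u, a * θ ≤ u → u ≤ a * θ + 2 * h → Gp ρ m a z.1 θ h u =
      m x (ρ x) (dep a θ h u / (2 * h)) := fun u h1 h2 => Gp_mid hm ha hh hr3 h1 h2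
  have hI : (1 / 2 : ℝ) ∈ Icc (0 : ℝ) 1 := ⟨by norm_num, by norm_num⟩
  have hy : ρ (m x (ρ x) (1 / 2)) = m x (ρ x) (1 / 2) := by
    refine hF.mid x _ (hxr.trans_lt hrr) ?_ ?_
    · rw [hm.dist_left hxr hI]
      ring
    · rw [hm.dist_right hxr hI]
      ring
  have hyU : m x (ρ x) (1 / 2) ∈ U := by
    rcases hM.cover (m x (ρ x) (1 / 2)) with h | h
    · exact h
    · rwa [hy] at h
  have hU : ∀ u, Gp ρ m a z.1 θ h u ∈ U := by
    intro u
    rcases le_total u (a * θ) with hu | hu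
    · rw [hleft u hu]
      exact h2 _
    rcases le_total (a * θ + 2 * h) u with hu' | hu'
    · rw [hright u hu']
      exact h2 _
    rw [hmid u hu hu']
    have hp := par_mem (a := a) (θ := θ) (u := u) h0
    have hp' := par_le (a := a) (θ := θ) (u := u) h0
    refine hF.conv x (h2 _) _ hyU _ ?_ ?_
    · rw [hm.dist_left hxr hI]
      have := dist_nonneg (x := x) (y := ρ x)
      linarith
    · rw [hm.dist_left hxr hI, hm.dist_left hxr hp, hm.dist_eq _ _ hxr _ hp _ hI,
        abs_of_nonpos (by linarith)]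
      ring
  have hmark : ∀ i : Fin M, (stp ρ m a j z).2 i =
      if i = j then (a * z.2 i + h) / (a + 2 * h) else
      if i < j then a * z.2 i / (a + 2 * h) else
       (a * z.2 i + 2 * h) / (a + 2 * h) := fun i => by
    simp only [stp]
    rfl
  have hval : ∀ i ∈ J, i ≠ j → (stp ρ m a j z).1 ((stp ρ m a j z).2 i) = z.1 (z.2 i) := by
    intro i hi hij
    rw [hP1, hmark, if_neg hij]
    split_ifs with hlt
    · have h9 := h6 i hi j hj hlt.le
      rw [mul_div_cancel₀ _ hc.ne', hleft _ (by gcongr), mul_div_cancel_left₀ _ ha.ne']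
    · have h9 := h6 j hj i hi (not_lt.1 hlt)
      rw [mul_div_cancel₀ _ hc.ne', hright _ (by gcongr), add_sub_cancel_right,
        mul_div_cancel_left₀ _ ha.ne']
  have hvalj : ρ ((stp ρ m a j z).1 ((stp ρ m a j z).2 j)) =
      (stp ρ m a j z).1 ((stp ρ m a j z).2 j) := by
    rw [hP1, hmark, if_pos rfl, mul_div_cancel₀ _ hc.ne', hmid _ (by linarith) (by linarith)]
    have h9 : dep a θ h (a * z.2 j + h) = h := by
      unfold dep
      rw [cl_mid (by linarith) (by linarith)]
      rw [← hθ, add_sub_cancel_left]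
      have : 2 * h - h = h := by ring
      rw [this, min_self]
    rw [h9]
    rcases h0.eq_or_lt with h10 | h10
    · have h11 : ρ x = x := by
        have : dist x (ρ x) = 0 := by rw [← hh, ← h10, mul_zero]
        exact (dist_eq_zero.1 this).symm
      rw [← h10, zero_div, hm.zero _ _ hxr]
      exact h11
    · have : h / (2 * h) = 1 / 2 := by field_simp
      rw [this]
      exact hy
  refine ⟨⟨?_, ?_, ?_, ?_, ?_, ?_, ?_⟩, ?_⟩
  · intro s t
    rw [hP1, hP1]
    refine (Gp_lip hm ha h1 hh hr3 _ _).trans ?_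
    rw [← mul_sub, abs_mul, abs_of_pos hc]
    exact mul_le_mul_of_nonneg_right (by linarith) (abs_nonneg _)
  · intro t
    exact hU _
  · intro t ht
    rw [hP1, hP1, hleft _ (by nlinarith [mul_nonneg ha.le hθ0]), hleft _ (by
      rw [mul_zero]; positivity)]
    rw [mul_zero, zero_div]
    exact h3 _ (div_nonpos_of_nonpos_of_nonneg (mul_nonpos_of_nonneg_of_nonpos hc.le ht) ha.le)
  · intro t ht
    have h9 : a * θ ≤ a := by nlinarith
    have e0 : a + 2 * h ≤ (a + 2 * h) * t := le_mul_of_one_le_right hc.le ht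
    have e1 : z.1 (((a + 2 * h) * t - 2 * h) / a) = z.1 1 :=
      h4 _ (by rw [le_div_iff₀ ha]; linarith)
    have e2 : z.1 (((a + 2 * h) * 1 - 2 * h) / a) = z.1 1 :=
      h4 _ (by rw [le_div_iff₀ ha]; linarith)
    rw [hP1, hP1, hright _ (by linarith), hright _ (by linarith), e1, e2]
  · intro i
    rw [hmark]
    have h9 := (h5 i).1
    have h10 : a * z.2 i ≤ a := by nlinarith [(h5 i).2]
    have h11 : 0 ≤ a * z.2 i := mul_nonneg ha.le h9
    split_ifs
    · exact ⟨by positivity, by rw [div_le_one hc]; linarith⟩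
    · exact ⟨by positivity, by rw [div_le_one hc]; linarith⟩
    · exact ⟨by positivity, by rw [div_le_one hc]; linarith⟩
  · intro i hi i' hi' hii
    have h9 := mul_le_mul_of_nonneg_left (h6 i hi i' hi' hii) ha.le
    rw [hmark, hmark]
    split_ifs with c1 c2 c3 c4 c5 c6 c7
    · gcongr
    · exact absurd (lt_of_le_of_lt hii c3) (by rw [c1]; exact lt_irrefl _)
    · gcongr
      linarith
    · gcongr
      linarith
    · gcongr
    · gcongr
      linarith
    · exact absurd (lt_of_le_of_ne (hii.trans c7.le) c1) c4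
    · exact absurd (lt_of_le_of_lt hii (by assumption)) c4
    · gcongr
  · intro i hi
    by_cases hij : i = j
    · rw [hij, hvalj, dist_self]
      exact hη.le
    · rw [hval i hi hij]
      exact h7 i hi
  · intro i hi hik
    by_cases hij : i = j
    · rw [hij, hvalj]
    · rw [hval i hi hij]
      refine h8 i hi ?_
      have : (i : ℕ) ≠ j := fun h => hij (Fin.ext h)
      omega

theorem St_mono {a a' η : ℝ} (h : a ≤ a') {J : Finset (Fin M)} {k : ℕ}
    {z : Ps X M} (hz : z ∈ St ρ U M η J a k) : z ∈ St ρ U M η J a' k := by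
  obtain ⟨⟨h1, h2⟩, h8⟩ := hz
  exact ⟨⟨fun s t => (h1 s t).trans (mul_le_mul_of_nonneg_right h (abs_nonneg _)), h2⟩, h8⟩

end

end COR

open COR in
theorem t_COR : S_COR := by
  intro X _ ρ U r hM hF r' m hm hrr M a η ha hη hr J
  have main : ∀ k : ℕ, k ≤ M → ∃ C : Ps X M → Ps X M, ContinuousOn C (NW ρ U a η J) ∧
      ∀ z ∈ NW ρ U a η J, C z ∈ St ρ U M η J (a + k * η) k ∧ (z ∈ W ρ U a J → C z = z) := by
    intro k
    induction k with
    | zero =>
      intro _
      refine ⟨id, continuousOn_id, fun z hz => ⟨?_, fun _ => rfl⟩⟩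
      refine ⟨?_, fun j _ hj => absurd hj (Nat.not_lt_zero _)⟩
      simpa using hz
    | succ k ih =>
      intro hk
      obtain ⟨C, hC1, hC2⟩ := ih (by omega)
      have hpos : 0 < a + k * η := by positivity
      have hcast : a + ((k + 1 : ℕ) : ℝ) * η = (a + k * η) + η := by push_cast; ring
      let j : Fin M := ⟨k, by omega⟩
      by_cases hj : j ∈ J
      · refine ⟨fun z => stp ρ m (a + k * η) j (C z), ?_, ?_⟩
        · exact (stp_cont (U := U) hm hM.iso.continuous hpos hr j hj).comp hC1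
            (fun z hz => (hC2 z hz).1.1)
        · intro z hz
          refine ⟨?_, fun hW => ?_⟩
          · rw [hcast]
            exact stp_maps hM hF hm hrr hpos hη hr j hj (hC2 z hz).1
          · dsimp only
            rw [(hC2 z hz).2 hW]
            exact stp_id hpos j z (hW.2.2.2.2.2.2 j hj)
      · refine ⟨C, hC1, fun z hz => ⟨?_, (hC2 z hz).2⟩⟩
        rw [hcast]
        have h1 := St_mono (a' := a + k * η + η) (by linarith) (hC2 z hz).1
        refine ⟨h1.1, fun i hi hik => h1.2 i hi ?_⟩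
        have : (i : ℕ) ≠ k := fun h => hj (by
          have : i = j := Fin.ext h
          rwa [← this])
        omega
  obtain ⟨C, hC1, hC2⟩ := main M le_rfl
  refine ⟨C, hC1, fun z hz => ⟨?_, (hC2 z hz).2⟩⟩
  obtain ⟨⟨h1, h2, h3, h4, h5, h6, h7⟩, h8⟩ := (hC2 z hz).1
  exact ⟨h1, h2, h3, h4, h5, h6, fun j hj => h8 j hj j.2⟩

end Pool.Agent.N489.RW
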