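import Pool.Agent.N489.RW.Stm2
import Pool.Agent.Y26.GE.KUHN

/-!
# Project RW (helper489), part 2: dimension of compact subsets of the cube, the half sphere

By helper401.
-/

set_option autoImplicit false

open Set Topology

noncomputable section

namespace Pool.Agent.N489.RW.DIM

open Pool.Agent.Y489.GE Pool.Agent.R203.IF Pool.Agent.N489.RW

/-- inverse of an injective continuous map on a compact space: uniform control -/
theorem unif_inv {K L : Type} [MetricSpace K] [CompactSpace K] [MetricSpace L] (f : K → L)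
    (hf : Continuous f) (hi : Function.Injective f) (ε : ℝ) (hε : 0 < ε) :
    ∃ δ : ℝ, 0 < δ ∧ ∀ x y, dist (f x) (f y) ≤ δ → dist x y ≤ ε := by
  by_contra hcon
  push Not at hcon
  have h1 : ∀ n : ℕ, ∃ x y : K, dist (f x) (f y) ≤ 1 / ((n : ℝ) + 1) ∧ ε < dist x y := fun n =>
    hcon _ (by positivity)
  choose x y hxy using h1
  obtain ⟨⟨a, b⟩, -, φ, hφ, hlim⟩ := (isCompact_univ (X := K × K)).tendsto_subseq
    (x := fun n => (x n, y n)) (fun n => mem_univ _)
  have hx : Filter.Tendsto (fun n => x (φ n)) Filter.atTop (𝓝 a) :=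
    (continuous_fst.tendsto _).comp hlim
  have hy : Filter.Tendsto (fun n => y (φ n)) Filter.atTop (𝓝 b) :=
    (continuous_snd.tendsto _).comp hlim
  have h2 : Filter.Tendsto (fun n => dist (f (x (φ n))) (f (y (φ n)))) Filter.atTop
      (𝓝 (dist (f a) (f b))) :=
    ((hf.tendsto a).comp hx).dist ((hf.tendsto b).comp hy)
  have h3 : Filter.Tendsto (fun n : ℕ => 1 / (((φ n : ℕ) : ℝ) + 1)) Filter.atTop (𝓝 0) :=
    tendsto_one_div_add_atTop_nhds_zero_nat.comp hφ.tendsto_atTop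
  have h4 : dist (f a) (f b) ≤ 0 := le_of_tendsto_of_tendsto' h2 h3 (fun n => (hxy (φ n)).1)
  have h5 : a = b := hi (dist_le_zero.1 h4)
  have h6 : Filter.Tendsto (fun n => dist (x (φ n)) (y (φ n))) Filter.atTop (𝓝 (dist a b)) :=
    hx.dist hy
  have h7 : ε ≤ dist a b := ge_of_tendsto' h6 (fun n => (hxy (φ n)).2.le)
  rw [h5, dist_self] at h7
  linarith

theorem t_DIM : S_DIM := by
  intro n K _ _ f hf hi ε hε
  obtain ⟨δ, hδ, h1⟩ := unif_inv f hf hi ε hε
  obtain ⟨N, U, hU, hd, hc, hm⟩ := Pool.Agent.Y26.GE.t_KUHN n δ hδ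
  refine ⟨N, fun i => f ⁻¹' (U i), fun i => (hU i).preimage hf, ?_, ?_, ?_⟩
  · intro i x hx y hy
    exact h1 x y (hd i _ hx _ hy)
  · intro x
    obtain ⟨i, hi⟩ := hc (f x)
    exact ⟨i, hi⟩
  · intro x
    exact hm (f x)

/-- `v` with an additional coordinate `a` -/
def ap {k : ℕ} (v : Eu k) (a : ℝ) : Eu (k + 1) :=
  WithLp.toLp 2 (fun i : Fin (k + 2) => Fin.lastCases (motive := fun _ => ℝ) a (fun j => v j) i)

/-- the last coordinate is dropped -/
def pr {k : ℕ} (v : Eu (k + 1)) : Eu k := WithLp.toLp 2 (fun i : Fin (k + 1) => v i.castSucc)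

theorem ap_cs {k : ℕ} (v : Eu k) (a : ℝ) (i : Fin (k + 1)) : ap v a i.castSucc = v i := by
  simp [ap]

theorem ap_last {k : ℕ} (v : Eu k) (a : ℝ) : ap v a (Fin.last (k + 1)) = a := by
  simp [ap]

theorem pr_ap {k : ℕ} (v : Eu k) (a : ℝ) : pr (ap v a) = v := by
  ext i
  simp [pr, ap_cs]

theorem eu_ext {k : ℕ} {v w : Eu (k + 1)} (h1 : ∀ i : Fin (k + 1), v i.castSucc = w i.castSucc)
    (h2 : v (Fin.last (k + 1)) = w (Fin.last (k + 1))) : v = w := by
  ext i
  refine Fin.lastCases h2 (fun j => h1 j) i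

theorem norm_sq_split {k : ℕ} (v : Eu (k + 1)) :
    ‖v‖ ^ 2 = ‖pr v‖ ^ 2 + (v (Fin.last (k + 1))) ^ 2 := by
  rw [EuclideanSpace.real_norm_sq_eq, EuclideanSpace.real_norm_sq_eq, Fin.sum_univ_castSucc]
  rfl

theorem pr_cont {k : ℕ} : Continuous (pr : Eu (k + 1) → Eu k) := by
  unfold pr
  fun_prop

theorem ap_cont {k : ℕ} : Continuous (fun z : Eu k × ℝ => ap z.1 z.2) := by
  unfold ap
  refine (PiLp.continuous_toLp 2 _).comp ?_
  refine continuous_pi fun i => ?_
  refine Fin.lastCases ?_ (fun j => ?_) i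
  · simpa using continuous_snd
  · simp only [Fin.lastCases_castSucc]
    fun_prop

theorem mirror {X : Type} [MetricSpace X] {k : ℕ} {ρ : X → X}
    {e : X ≃ₜ ↥(Metric.sphere (0 : Eu (k + 1)) 1)} (hs : Sph X k ρ e) (hi : Isometry ρ) :
    Mirror X ρ (Up e) := by
  refine ⟨hi, ?_, ?_, ?_, ?_⟩
  · intro x
    apply e.injective
    apply Subtype.ext
    apply eu_ext
    · intro i
      rw [hs.init, hs.init]
    · rw [hs.last, hs.last, neg_neg]
  · have h1 : Continuous (fun x : X => (e x).1 (Fin.last (k + 1))) := by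
      have h2 : Continuous (fun x : X => (e x).1) := continuous_subtype_val.comp e.continuous
      fun_prop
    exact isClosed_le continuous_const h1
  · intro x
    rcases le_total 0 ((e x).1 (Fin.last (k + 1))) with h | h
    · exact Or.inl h
    · right
      show 0 ≤ (e (ρ x)).1 (Fin.last (k + 1))
      rw [hs.last]
      linarith
  · intro x h1 h2
    have h1' : 0 ≤ (e x).1 (Fin.last (k + 1)) := h1
    have h2' : 0 ≤ (e (ρ x)).1 (Fin.last (k + 1)) := h2
    rw [hs.last] at h2'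
    apply e.injective
    apply Subtype.ext
    apply eu_ext
    · intro i
      rw [hs.init]
    · rw [hs.last]
      linarith

theorem fix_iff {X : Type} [MetricSpace X] {k : ℕ} {ρ : X → X}
    {e : X ≃ₜ ↥(Metric.sphere (0 : Eu (k + 1)) 1)} (hs : Sph X k ρ e) (x : X) :
    ρ x = x ↔ (e x).1 (Fin.last (k + 1)) = 0 := by
  constructor
  · intro h
    have h1 := hs.last x
    rw [h] at h1
    linarith
  · intro h
    apply e.injective
    apply Subtype.ext
    apply eu_ext
    · intro i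
      rw [hs.init]
    · rw [hs.last, h, neg_zero]

theorem covdim {X : Type} [MetricSpace X] [CompactSpace X] {k : ℕ} {ρ : X → X}
    {e : X ≃ₜ ↥(Metric.sphere (0 : Eu (k + 1)) 1)} (hs : Sph X k ρ e) (hi : Isometry ρ)
    (hD : S_DIM) : CovDim ↥(Up e) (k + 1) := by
  have : CompactSpace ↥(Up e) := isCompact_iff_compactSpace.1 (mirror hs hi).closed.isCompact
  have hb : ∀ (x : X) (i : Fin (k + 2)), |(e x).1 i| ≤ 1 := by
    intro x i
    have h1 := PiLp.norm_apply_le (e x).1 i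
    have h2 : ‖(e x).1‖ = 1 := by simp
    rw [h2] at h1
    exact h1
  refine hD (k + 1) ↥(Up e) (fun x i => ⟨((e x.1).1 i.castSucc + 1) / 2, ?_, ?_⟩) ?_ ?_
  · have := abs_le.1 (hb x.1 i.castSucc)
    linarith [this.1]
  · have := abs_le.1 (hb x.1 i.castSucc)
    linarith [this.2]
  · refine continuous_pi fun i => ?_
    refine Continuous.subtype_mk ?_ _
    have h2 : Continuous (fun x : ↥(Up e) => (e x.1).1) :=
      continuous_subtype_val.comp (e.continuous.comp continuous_subtype_val)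
    fun_prop
  · intro x y hxy
    have h1 : ∀ i : Fin (k + 1), (e x.1).1 i.castSucc = (e y.1).1 i.castSucc := by
      intro i
      have h2 := congrArg Subtype.val (congrFun hxy i)
      simp only at h2
      linarith
    have h3 : pr (e x.1).1 = pr (e y.1).1 := by
      ext i
      exact h1 i
    have h4 : ‖(e x.1).1‖ = 1 := by simp
    have h5 : ‖(e y.1).1‖ = 1 := by simp
    have h6 := norm_sq_split (e x.1).1
    have h7 := norm_sq_split (e y.1).1
    rw [h4, h3] at h6
    rw [h5] at h7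
    have h8 : (e x.1).1 (Fin.last (k + 1)) ^ 2 = (e y.1).1 (Fin.last (k + 1)) ^ 2 := by linarith
    have hx : 0 ≤ (e x.1).1 (Fin.last (k + 1)) := x.2
    have hy : 0 ≤ (e y.1).1 (Fin.last (k + 1)) := y.2
    have h9 : (e x.1).1 (Fin.last (k + 1)) = (e y.1).1 (Fin.last (k + 1)) := by
      nlinarith [sq_nonneg ((e x.1).1 (Fin.last (k + 1)) - (e y.1).1 (Fin.last (k + 1))),
        (pow_left_inj₀ hx hy (two_ne_zero)).1 h8]
    apply Subtype.ext
    apply e.injective
    apply Subtype.ext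
    exact eu_ext h1 h9

theorem norm_ap {k : ℕ} (v : Eu k) (a : ℝ) : ‖ap v a‖ ^ 2 = ‖v‖ ^ 2 + a ^ 2 := by
  rw [norm_sq_split, pr_ap, ap_last]

/-- the curve from a point of the equator to the pole -/
def cv {k : ℕ} (s : Eu k) (t : ℝ) : Eu (k + 1) :=
  ap (Real.cos (Real.pi * t / 2) • s) (Real.sin (Real.pi * t / 2))

theorem cv_norm {k : ℕ} {s : Eu k} (hs : ‖s‖ = 1) (t : ℝ) : ‖cv s t‖ = 1 := by
  have h1 : ‖cv s t‖ ^ 2 = 1 := by
    unfold cv
    rw [norm_ap, norm_smul, hs, mul_one, Real.norm_eq_abs, sq_abs]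
    nlinarith [Real.sin_sq_add_cos_sq (Real.pi * t / 2)]
  have h2 : 0 ≤ ‖cv s t‖ := norm_nonneg _
  nlinarith

theorem cv_cont {k : ℕ} : Continuous (fun z : Eu k × ℝ => cv z.1 z.2) := by
  unfold cv
  have h1 : Continuous (fun z : Eu k × ℝ =>
      ((Real.cos (Real.pi * z.2 / 2) • z.1, Real.sin (Real.pi * z.2 / 2)) : Eu k × ℝ)) := by
    fun_prop
  exact ap_cont.comp h1

theorem not_ret {X : Type} [MetricSpace X] {k : ℕ} {ρ : X → X}
    {e : X ≃ₜ ↥(Metric.sphere (0 : Eu (k + 1)) 1)} (hs : Sph X k ρ e)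
    (hNC : S_NC) : ¬ Ret ρ (Up e) := by
  rintro ⟨g, H, hg, hgF, hH, hHF⟩
  classical
  have hN : ap (0 : Eu k) 1 ∈ Metric.sphere (0 : Eu (k + 1)) 1 := by
    have h1 : ‖ap (0 : Eu k) 1‖ ^ 2 = 1 := by rw [norm_ap]; simp
    have h2 : 0 ≤ ‖ap (0 : Eu k) 1‖ := norm_nonneg _
    rw [mem_sphere_zero_iff_norm]
    nlinarith
  let ι : Eu (k + 1) → X := fun v => if h : v ∈ Metric.sphere (0 : Eu (k + 1)) 1 then e.symm ⟨v, h⟩
    else e.symm ⟨_, hN⟩
  have hι : ContinuousOn ι (Metric.sphere 0 1) := by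
    rw [continuousOn_iff_continuous_domRestrict]
    have h1 : (Metric.sphere (0 : Eu (k + 1)) 1).domRestrict ι = e.symm := by
      funext v
      simp only [ι, Set.domRestrict_apply]
      rw [dif_pos v.2]
    rw [h1]
    exact e.symm.continuous
  have hιe : ∀ v ∈ Metric.sphere (0 : Eu (k + 1)) 1, (e (ι v)).1 = v := by
    intro v hv
    simp only [ι]
    rw [dif_pos hv, e.apply_symm_apply]
  have hcvS : ∀ s ∈ Metric.sphere (0 : Eu k) 1, ∀ t : ℝ,
      cv s t ∈ Metric.sphere (0 : Eu (k + 1)) 1 := by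
    intro s h1 t
    rw [mem_sphere_zero_iff_norm] at h1 ⊢
    exact cv_norm h1 t
  -- the projection to the small sphere
  let P : X → Eu k := fun x => pr (e x).1
  have hP : Continuous P := pr_cont.comp (continuous_subtype_val.comp e.continuous)
  have hPF : ∀ x, ρ x = x → P x ∈ Metric.sphere (0 : Eu k) 1 := by
    intro x hx
    have h1 := (fix_iff hs x).1 hx
    have h2 := norm_sq_split (e x).1
    have h3 : ‖(e x).1‖ = 1 := by simp
    rw [h1, h3] at h2
    rw [mem_sphere_zero_iff_norm]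
    have h4 : 0 ≤ ‖P x‖ := norm_nonneg _
    have h5 : ‖P x‖ ^ 2 = 1 := by simp only [P]; linarith
    nlinarith
  have hup : ∀ s ∈ Metric.sphere (0 : Eu k) 1, ∀ t ∈ Icc (0 : ℝ) 1, ι (cv s t) ∈ Up e := by
    intro s h1 t ht
    show 0 ≤ (e (ι (cv s t))).1 (Fin.last (k + 1))
    rw [hιe _ (hcvS s h1 t)]
    unfold cv
    rw [ap_last]
    apply Real.sin_nonneg_of_nonneg_of_le_pi
    · have := Real.pi_pos
      have := ht.1
      positivity
    · nlinarith [Real.pi_pos, ht.1, ht.2]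
  have hcv0 : ∀ s : Eu k, cv s 0 = ap s 0 := by
    intro s
    unfold cv
    simp
  have hfix : ∀ s ∈ Metric.sphere (0 : Eu k) 1, ρ (ι (cv s 0)) = ι (cv s 0) := by
    intro s h1
    rw [fix_iff hs, hιe _ (hcvS s h1 0), hcv0, ap_last]
  refine hNC k ⟨fun s t => if t ≤ 1 / 2 then P (g (ι (cv s (1 - 2 * t)))) else
    P (H (ι (cv s 0)) (2 * t - 1)), ?_, ?_, ?_, ?_⟩
  · have hA : IsClosed (Metric.sphere (0 : Eu k) 1 ×ˢ Icc (0 : ℝ) (1 / 2)) :=
      Metric.isClosed_sphere.prod isClosed_Icc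
    have hB : IsClosed (Metric.sphere (0 : Eu k) 1 ×ˢ Icc (1 / 2 : ℝ) 1) :=
      Metric.isClosed_sphere.prod isClosed_Icc
    have hAB : Metric.sphere (0 : Eu k) 1 ×ˢ Icc (0 : ℝ) 1 =
        Metric.sphere (0 : Eu k) 1 ×ˢ Icc (0 : ℝ) (1 / 2) ∪
        Metric.sphere (0 : Eu k) 1 ×ˢ Icc (1 / 2 : ℝ) 1 := by
      rw [← Set.prod_union, Icc_union_Icc_eq_Icc (by norm_num) (by norm_num)]
    rw [hAB]
    refine ContinuousOn.union_of_isClosed ?_ ?_ hA hB
    · have h1 : ContinuousOn (fun z : Eu k × ℝ => P (g (ι (cv z.1 (1 - 2 * z.2)))))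
          (Metric.sphere (0 : Eu k) 1 ×ˢ Icc (0 : ℝ) (1 / 2)) := by
        refine hP.comp_continuousOn ?_
        refine hg.comp (hι.comp ?_ ?_) ?_
        · have h2 : Continuous (fun z : Eu k × ℝ => ((z.1, 1 - 2 * z.2) : Eu k × ℝ)) := by fun_prop
          exact (cv_cont.comp h2).continuousOn
        · intro z hz
          exact hcvS z.1 hz.1 _
        · intro z hz
          have h3 := hz.2
          exact hup z.1 hz.1 _ ⟨by linarith [h3.2], by linarith [h3.1]⟩
      refine h1.congr fun z hz => ?_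
      simp only
      rw [if_pos hz.2.2]
    · have h1 : ContinuousOn (fun z : Eu k × ℝ => P (H (ι (cv z.1 0)) (2 * z.2 - 1)))
          (Metric.sphere (0 : Eu k) 1 ×ˢ Icc (1 / 2 : ℝ) 1) := by
        refine hP.comp_continuousOn ?_
        have h4 : ContinuousOn (fun z : Eu k × ℝ => ((ι (cv z.1 0), 2 * z.2 - 1) : X × ℝ))
            (Metric.sphere (0 : Eu k) 1 ×ˢ Icc (1 / 2 : ℝ) 1) := by
          refine ContinuousOn.prodMk (hι.comp ?_ ?_) ?_
          · have h2 : Continuous (fun z : Eu k × ℝ => ((z.1, 0) : Eu k × ℝ)) := by fun_prop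
            exact (cv_cont.comp h2).continuousOn
          · intro z hz
            exact hcvS z.1 hz.1 _
          · exact (by fun_prop : Continuous (fun z : Eu k × ℝ => 2 * z.2 - 1)).continuousOn
        refine hH.comp h4 ?_
        intro z hz
        have h3 := hz.2
        exact ⟨hfix z.1 hz.1, ⟨by linarith [h3.1], by linarith [h3.2]⟩⟩
      refine h1.congr fun z hz => ?_
      simp only
      split_ifs with h
      · have h5 : z.2 = 1 / 2 := le_antisymm h hz.2.1
        rw [h5]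
        norm_num
        rw [(hHF _ (hfix z.1 hz.1)).2.1]
      · rfl
  · intro s h1 t ht
    simp only
    split_ifs with h
    · exact hPF _ (hgF _ (hup s h1 _ ⟨by linarith, by linarith [ht.1]⟩))
    · push Not at h
      exact hPF _ ((hHF _ (hfix s h1)).1 _ ⟨by linarith, by linarith [ht.2]⟩)
  · refine ⟨P (g (ι (ap 0 1))), ?_⟩
    intro s h1
    simp only
    rw [if_pos (by norm_num)]
    have h2 : cv s (1 - 2 * 0) = ap 0 1 := by
      unfold cv
      norm_num
    rw [h2]
  · intro s h1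
    simp only
    rw [if_neg (by norm_num)]
    have h2 : (2 * 1 - 1 : ℝ) = 1 := by norm_num
    rw [h2, (hHF _ (hfix s h1)).2.2]
    simp only [P]
    rw [hιe _ (hcvS s h1 0), hcv0, pr_ap]

theorem t_SPH (hNC : S_NC) (hD : S_DIM) : S_SPH := by
  intro X _ _ k ρ e hs hi
  exact ⟨mirror hs hi, covdim hs hi hD, not_ret hs hNC⟩

end Pool.Agent.N489.RW.DIM
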