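import Pool.Agent.N489.RW.Stm

/-!
# Project RW, task EE (helper322): application of the simplex lemma to marked paths
-/

set_option autoImplicit false

open Set Topology Filter

noncomputable section

namespace Pool.Agent.N489.RW

section

variable {X : Type} [MetricSpace X] {M : ℕ}

/-- evaluation at a mark is continuous on equi-Lipschitz sets -/
theorem ee_ev (a : ℝ) (j : Fin M) : ContinuousOn (fun z : Ps X M => z.1 (z.2 j))
    {z | ∀ s t, dist (z.1 s) (z.1 t) ≤ a * |s - t|} := by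
  intro z0 _
  rw [ContinuousWithinAt, tendsto_iff_dist_tendsto_zero]
  have h1 : Tendsto (fun z : Ps X M => |a| * |z.2 j - z0.2 j| + dist (z.1 (z0.2 j)) (z0.1 (z0.2 j)))
      (𝓝[{z | ∀ s t, dist (z.1 s) (z.1 t) ≤ a * |s - t|}] z0) (𝓝 0) := by
    have hc : Continuous (fun z : Ps X M =>
        |a| * |z.2 j - z0.2 j| + dist (z.1 (z0.2 j)) (z0.1 (z0.2 j))) := by
      have h2 : Continuous (fun z : Ps X M => z.2 j) := (continuous_apply j).comp continuous_snd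
      have h3 : Continuous (fun z : Ps X M => z.1 (z0.2 j)) :=
        (continuous_apply (z0.2 j)).comp continuous_fst
      exact (continuous_const.mul (h2.sub continuous_const).abs).add (h3.dist continuous_const)
    have h4 := (hc.tendsto z0).mono_left (nhdsWithin_le_nhds
      (s := {z | ∀ s t, dist (z.1 s) (z.1 t) ≤ a * |s - t|}))
    simpa using h4
  refine squeeze_zero' (Eventually.of_forall fun _ => dist_nonneg) ?_ h1
  filter_upwards [self_mem_nhdsWithin] with z hz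
  calc dist (z.1 (z.2 j)) (z0.1 (z0.2 j))
      ≤ dist (z.1 (z.2 j)) (z.1 (z0.2 j)) + dist (z.1 (z0.2 j)) (z0.1 (z0.2 j)) :=
        dist_triangle _ _ _
    _ ≤ |a| * |z.2 j - z0.2 j| + dist (z.1 (z0.2 j)) (z0.1 (z0.2 j)) := by
        have h2 := hz (z.2 j) (z0.2 j)
        have h3 : a * |z.2 j - z0.2 j| ≤ |a| * |z.2 j - z0.2 j| :=
          mul_le_mul_of_nonneg_right (le_abs_self a) (abs_nonneg _)
        linarith

theorem ee_closed {ρ : X → X} {U : Set X} (hM : Mirror X ρ U) (a : ℝ) (J : Finset (Fin M)) :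
    IsClosed (W ρ U a J) := by
  have c1 : ∀ s : ℝ, Continuous (fun z : Ps X M => z.1 s) := fun s =>
    (continuous_apply s).comp continuous_fst
  have c2 : ∀ j : Fin M, Continuous (fun z : Ps X M => z.2 j) := fun j =>
    (continuous_apply j).comp continuous_snd
  have hA : IsClosed {z : Ps X M | ∀ s t, dist (z.1 s) (z.1 t) ≤ a * |s - t|} := by
    simp only [ofPred_forall]
    exact isClosed_iInter fun s => isClosed_iInter fun t =>
      isClosed_le ((c1 s).dist (c1 t)) continuous_const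
  have hB : IsClosed {z : Ps X M | (∀ t, z.1 t ∈ U) ∧ (∀ t, t ≤ 0 → z.1 t = z.1 0) ∧
      (∀ t, 1 ≤ t → z.1 t = z.1 1) ∧ (∀ j, z.2 j ∈ Icc (0 : ℝ) 1) ∧
      (∀ i ∈ J, ∀ j ∈ J, i ≤ j → z.2 i ≤ z.2 j)} := by
    have b1 : IsClosed {z : Ps X M | ∀ t, z.1 t ∈ U} := by
      simp only [ofPred_forall]
      exact isClosed_iInter fun t => hM.closed.preimage (c1 t)
    have b2 : IsClosed {z : Ps X M | ∀ t, t ≤ 0 → z.1 t = z.1 0} := by
      simp only [ofPred_forall]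
      exact isClosed_iInter fun t => isClosed_iInter fun _ => isClosed_eq (c1 t) (c1 0)
    have b3 : IsClosed {z : Ps X M | ∀ t, 1 ≤ t → z.1 t = z.1 1} := by
      simp only [ofPred_forall]
      exact isClosed_iInter fun t => isClosed_iInter fun _ => isClosed_eq (c1 t) (c1 1)
    have b4 : IsClosed {z : Ps X M | ∀ j, z.2 j ∈ Icc (0 : ℝ) 1} := by
      simp only [ofPred_forall]
      exact isClosed_iInter fun j => isClosed_Icc.preimage (c2 j)
    have b5 : IsClosed {z : Ps X M | ∀ i ∈ J, ∀ j ∈ J, i ≤ j → z.2 i ≤ z.2 j} := by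
      simp only [ofPred_forall]
      exact isClosed_iInter fun i => isClosed_iInter fun _ => isClosed_iInter fun j =>
        isClosed_iInter fun _ => isClosed_iInter fun _ => isClosed_le (c2 i) (c2 j)
    exact b1.inter (b2.inter (b3.inter (b4.inter b5)))
  have hC : IsClosed {z : Ps X M | (∀ s t, dist (z.1 s) (z.1 t) ≤ a * |s - t|) ∧
      ∀ j ∈ J, ρ (z.1 (z.2 j)) = z.1 (z.2 j)} := by
    have e1 : {z : Ps X M | (∀ s t, dist (z.1 s) (z.1 t) ≤ a * |s - t|) ∧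
        ∀ j ∈ J, ρ (z.1 (z.2 j)) = z.1 (z.2 j)} =
        {z : Ps X M | ∀ s t, dist (z.1 s) (z.1 t) ≤ a * |s - t|} ∩
        ⋂ j : Fin M, ⋂ _ : j ∈ J, ({z : Ps X M | ∀ s t, dist (z.1 s) (z.1 t) ≤ a * |s - t|} ∩
          (fun z : Ps X M => z.1 (z.2 j)) ⁻¹' {x | ρ x = x}) := by
      ext z
      simp only [mem_ofPred_eq, mem_inter_iff, mem_iInter, mem_preimage]
      constructor
      · rintro ⟨h1, h2⟩
        exact ⟨h1, fun j hj => ⟨h1, h2 j hj⟩⟩
      · rintro ⟨h1, h2⟩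
        exact ⟨h1, fun j hj => (h2 j hj).2⟩
    rw [e1]
    refine hA.inter (isClosed_iInter fun j => isClosed_iInter fun _ => ?_)
    exact (ee_ev a j).preimage_isClosed_of_isClosed hA
      (isClosed_eq hM.iso.continuous continuous_id)
  have e2 : W ρ U a J = {z : Ps X M | (∀ s t, dist (z.1 s) (z.1 t) ≤ a * |s - t|) ∧
      ∀ j ∈ J, ρ (z.1 (z.2 j)) = z.1 (z.2 j)} ∩ {z : Ps X M | (∀ t, z.1 t ∈ U) ∧
      (∀ t, t ≤ 0 → z.1 t = z.1 0) ∧ (∀ t, 1 ≤ t → z.1 t = z.1 1) ∧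
      (∀ j, z.2 j ∈ Icc (0 : ℝ) 1) ∧ (∀ i ∈ J, ∀ j ∈ J, i ≤ j → z.2 i ≤ z.2 j)} := by
    ext z
    constructor
    · rintro ⟨h1, h2, h3, h4, h5, h6, h7⟩
      exact ⟨⟨h1, h7⟩, h2, h3, h4, h5, h6⟩
    · rintro ⟨⟨h1, h7⟩, h2, h3, h4, h5, h6⟩
      exact ⟨h1, h2, h3, h4, h5, h6, h7⟩
  rw [e2]
  exact hC.inter hB

end

open Classical in
/-- **EE** -/
theorem t_EE (hS : S_SIM) : S_EE := by
  intro X _ ρ U M hM hM1 L hL hCtr
  -- the contractions
  obtain ⟨Ψ, hΨ⟩ : ∃ Ψ : (J : Finset (Fin M)) → 2 ≤ J.card → ↥(W ρ U (L J.card) J) → ℝ → Ps X M,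
      ∀ J h, Continuous (fun z : ↥(W ρ U (L J.card) J) × ℝ => Ψ J h z.1 z.2) ∧
      (∀ z s, Ψ J h z s ∈ W ρ U (L (J.card - 1)) J) ∧ (∀ z s, s ≤ 0 → Ψ J h z s = z.1) ∧
      (∀ z s, 1 ≤ s → ∀ t, (Ψ J h z s).1 t = (Ψ J h z s).1 0) ∧
      ∀ z : ↥(W ρ U (L J.card) J), (∀ t, z.1.1 t = z.1.1 0) →
        ∀ s t, (Ψ J h z s).1 t = z.1.1 0 :=
    ⟨fun J h => (hCtr J h).choose, fun J h => (hCtr J h).choose_spec⟩
  obtain ⟨Φ, hΦ⟩ : ∃ Φ : Finset (Fin M) → Ps X M → ℝ → Ps X M, ∀ (J : Finset (Fin M))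
      (h : 2 ≤ J.card) (x : Ps X M) (hx : x ∈ W ρ U (L J.card) J) (s : ℝ),
        Φ J x s = Ψ J h ⟨x, hx⟩ s := by
    refine ⟨fun J x s => if h : 2 ≤ J.card then
      (if hx : x ∈ W ρ U (L J.card) J then Ψ J h ⟨x, hx⟩ s else x) else x, ?_⟩
    intro J h x hx s
    simp only
    rw [dif_pos h, dif_pos hx]
  have hc1 : Continuous (fun z : Ps X M => z.1 0) := (continuous_apply (0 : ℝ)).comp continuous_fst
  have main := hS (Ps X M) X M {x | ρ x = x} (fun q J => W ρ U (L q) J)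
    {z | ∀ t, z.1 t = z.1 0} (fun z => z.1 0) (fun j z => z.1 (z.2 j)) Φ hM1
    (fun q J => ee_closed hM (L q) J)
    (by
      rintro q J J' hJ z ⟨h1, h2, h3, h4, h5, h6, h7⟩
      exact ⟨h1, h2, h3, h4, h5, fun i hi j hj => h6 i (hJ hi) j (hJ hj),
        fun j hj => h7 j (hJ hj)⟩)
    (by
      rintro q q' J hq z ⟨h1, h2⟩
      exact ⟨fun s t => (h1 s t).trans (mul_le_mul_of_nonneg_right (hL q q' hq) (abs_nonneg _)),
        h2⟩)
    hc1
    (by
      intro q J j hj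
      refine ⟨(ee_ev (L q) j).mono fun z hz => hz.1, fun x hx => ⟨?_, fun hZ => hZ _⟩⟩
      exact hx.2.2.2.2.2.2 j hj)
    (by
      intro J hJ
      obtain ⟨p1, p2, p3, p4, p5⟩ := hΨ J hJ
      refine ⟨?_, fun x hx => ⟨fun s => ?_, fun s hs => ?_, fun s hs => ?_, fun hZ s => ⟨?_, ?_⟩⟩⟩
      · rw [continuousOn_iff_continuous_restrict]
        have e1 : (W ρ U (L J.card) J ×ˢ (univ : Set ℝ)).domRestrict
            (fun z : Ps X M × ℝ => Φ J z.1 z.2) =
            (fun z : ↥(W ρ U (L J.card) J) × ℝ => Ψ J hJ z.1 z.2) ∘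
              (fun z : ↥(W ρ U (L J.card) J ×ˢ (univ : Set ℝ)) =>
                ((⟨z.1.1, z.2.1⟩ : ↥(W ρ U (L J.card) J)), z.1.2)) := by
          funext z
          exact hΦ J hJ z.1.1 z.2.1 z.1.2
        rw [e1]
        refine p1.comp ?_
        exact ((continuous_fst.comp continuous_subtype_val).subtype_mk _).prodMk
          (continuous_snd.comp continuous_subtype_val)
      · rw [hΦ J hJ x hx s]
        exact p2 _ s
      · rw [hΦ J hJ x hx s]
        exact p3 _ s hs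
      · rw [hΦ J hJ x hx s]
        exact p4 _ s hs
      · rw [hΦ J hJ x hx s]
        intro t
        rw [p5 ⟨x, hx⟩ hZ s t, p5 ⟨x, hx⟩ hZ s 0]
      · rw [hΦ J hJ x hx s, p5 ⟨x, hx⟩ hZ s 0])
  exact main

end Pool.Agent.N489.RW
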