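import Pool.Agent.N489.RW.Stm
import Pool.Agent.R203.IF.BKS2

/-!
# Curve shortening of ordered polygons in the book
-/

set_option autoImplicit false

open Set Topology

set_option linter.unusedSectionVars false

noncomputable section

namespace Pool.Agent.N489.RW

open Pool.Agent.Y489.GE Pool.Agent.R203.IF Pool.Agent.Y590.GE

namespace FLOW

/-- symmetric Birkhoff shortening inside a closed invariant set of symmetric polygons; the proof
is the one of `Pool.Agent.R203.IF.t_BKS` -/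
theorem bksT (X : Type) [MetricSpace X] [CompactSpace X] (r₀ r : ℝ) (m : X → X → ℝ → X)
    (hm : GMap X r m) (hr0 : r < r₀) (hU : UniqGeod X r₀) (σ : X → X)
    (N : ℕ) [NeZero N] [NeZero (2 * N)] (δ : ℝ) (hδ : 0 < δ) (hδr : δ ≤ r)
    (T : Set (ZMod (2 * N) → X)) (hTS : T ⊆ Sym X σ N δ) (hTc : IsClosed T)
    (ha : ∀ x ∈ T, ∀ θ ∈ Icc (0 : ℝ) (1 / 2), ps m (2 * N) θ x ∈ T)
    (hb : ∀ x ∈ T, (∀ i, dist (x i) (x 0) ≤ δ / 2) → ∀ s ∈ Icc (0 : ℝ) 1,
      (fun i => m (x i) (x 0) s) ∈ T)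
    (hne : ∀ x ∈ T, (δ / (2 * (2 * N : ℕ))) ^ 2 ≤ En (2 * N) x →
      En (2 * N) (ph m (2 * N) (1 / 2) x) ≠ En (2 * N) x) :
    ∃ c : ↥T → X, Htp (Y := ↥T) (W := ZMod (2 * N) → X) T
      {x | ∀ i, x.1 i = x.1 0} (fun x => x.1) (fun x _ => c x) := by
  have hr : 0 ≤ r := hδ.le.trans hδr
  have hM : (0 : ℝ) < ((2 * N : ℕ) : ℝ) := by
    exact_mod_cast Nat.pos_of_ne_zero (NeZero.ne (2 * N))
  have hhalf : (1 / 2 : ℝ) ∈ Icc (0 : ℝ) (1 / 2) := ⟨by norm_num, le_rfl⟩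
  have hhalf' : (1 / 2 : ℝ) ∈ Icc (0 : ℝ) 1 := ⟨by norm_num, by norm_num⟩
  set e : ℝ := δ / (2 * (2 * N : ℕ)) with he
  have he0 : 0 < e := by positivity
  -- uniform decrease
  have hdec : ∃ η : ℝ, 0 < η ∧ ∀ x ∈ T, e ^ 2 ≤ En (2 * N) x →
      En (2 * N) (ps m (2 * N) (1 / 2) x) ≤ En (2 * N) x - η := by
    have hc1 : ContinuousOn (fun x : ZMod (2 * N) → X => ps m (2 * N) (1 / 2) x)
        (Pol X (2 * N) δ) :=
      ps_cont hm hδ.le hδr continuousOn_id continuousOn_const (fun z hz => hz)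
        (fun _ _ => hhalf)
    have hc : ContinuousOn (fun x : ZMod (2 * N) → X =>
        En (2 * N) x - En (2 * N) (ps m (2 * N) (1 / 2) x)) (Pol X (2 * N) δ) :=
      (En_cont (2 * N)).continuousOn.sub ((En_cont (2 * N)).comp_continuousOn hc1)
    set K : Set (ZMod (2 * N) → X) := T ∩ {x | e ^ 2 ≤ En (2 * N) x} with hK
    have hKc : IsCompact K :=
      hTc.isCompact.inter_right (isClosed_le continuous_const (En_cont (2 * N)))
    rcases K.eq_empty_or_nonempty with h0 | h0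
    · refine ⟨1, one_pos, fun x hx hx2 => ?_⟩
      have : x ∈ K := ⟨hx, hx2⟩
      rw [h0] at this
      exact this.elim
    · obtain ⟨x0, hx0, hmin⟩ := hKc.exists_isMinOn h0
        (hc.mono (inter_subset_left.trans fun x hx => (hTS hx).1))
      refine ⟨En (2 * N) x0 - En (2 * N) (ps m (2 * N) (1 / 2) x0), ?_, fun x hx hx2 => ?_⟩
      · have h1 := (Pool.Agent.Y812.GE.t_EN X r m hm (2 * N) δ hδr x0 (hTS hx0.1).1 (1 / 2)
          hhalf').2
        have h2 := hne x0 hx0.1 hx0.2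
        have h3 := ps_En hm hr0 hU hδr (hTS hx0.1).1
        exact sub_pos.2 (lt_of_le_of_lt h3 (lt_of_le_of_ne h1 h2))
      · have h3 : En (2 * N) x0 - En (2 * N) (ps m (2 * N) (1 / 2) x0) ≤
            En (2 * N) x - En (2 * N) (ps m (2 * N) (1 / 2) x) := hmin (⟨hx, hx2⟩ : x ∈ K)
        linarith
  obtain ⟨η, hη, hdec⟩ := hdec
  -- symmetric polygons
  have hmem := ha
  -- the shortening map
  let F : ↥T → ↥T := fun x =>
    ⟨ps m (2 * N) (1 / 2) x.1, hmem x.1 x.2 _ hhalf⟩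
  have hFc : Continuous F := by
    refine Continuous.subtype_mk ?_ _
    rw [← continuousOn_univ]
    exact ps_cont hm hδ.le hδr continuous_subtype_val.continuousOn continuousOn_const
      (fun z _ => (hTS z.2).1) (fun _ _ => hhalf)
  have hFen : ∀ x : ↥T, En (2 * N) (F x).1 ≤ En (2 * N) x.1 := fun x =>
    (ps_En hm hr0 hU hδr (hTS x.2).1).trans
      (Pool.Agent.Y812.GE.t_EN X r m hm (2 * N) δ hδr x.1 (hTS x.2).1 (1 / 2) hhalf').2
  have hFfix : ∀ x : ↥T, (∀ i, x.1 i = x.1 0) → F x = x := by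
    intro x hx
    apply Subtype.ext
    exact ps_fix hm hr hx hhalf
  have hFkfix : ∀ k : ℕ, ∀ x : ↥T, (∀ i, x.1 i = x.1 0) → F^[k] x = x := by
    intro k x hx
    exact Function.iterate_fixed (hFfix x hx) k
  have hFken : ∀ k : ℕ, ∀ x : ↥T, En (2 * N) (F^[k] x).1 < e ^ 2 ∨
      En (2 * N) (F^[k] x).1 ≤ En (2 * N) x.1 - k * η := by
    intro k x
    induction k with
    | zero => right; simp
    | succ k ih =>
      rw [Function.iterate_succ_apply']
      rcases ih with h | h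
      · left; exact (hFen _).trans_lt h
      · rcases lt_or_ge (En (2 * N) (F^[k] x).1) (e ^ 2) with h2 | h2
        · left; exact (hFen _).trans_lt h2
        · right
          have h3 := hdec (F^[k] x).1 (F^[k] x).2 h2
          change En (2 * N) (ps m (2 * N) (1 / 2) (F^[k] x).1) ≤ _
          push_cast
          linarith
  obtain ⟨k, hk⟩ := exists_nat_gt (((2 * N : ℕ) : ℝ) * δ ^ 2 / η)
  have hkk : ∀ x : ↥T, En (2 * N) (F^[k] x).1 < e ^ 2 := by
    intro x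
    rcases hFken k x with h | h
    · exact h
    · have h1 := En_le (2 * N) (hTS x.2).1
      have h2 := En_nonneg (2 * N) (F^[k] x).1
      rw [div_lt_iff₀ hη] at hk
      exfalso
      linarith
  -- the homotopy of one step
  have hstep : Htp (Y := ↥T) (W := ZMod (2 * N) → X) T
      {x | ∀ i, x.1 i = x.1 0} (fun x => x.1) (fun x => (F x).1) := by
    have hs : ∀ s ∈ Icc (0 : ℝ) 1, s / 2 ∈ Icc (0 : ℝ) (1 / 2) := fun s hs =>
      ⟨by linarith [hs.1], by linarith [hs.2]⟩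
    refine Htp.of_clamp (fun y s => ps m (2 * N) (s / 2) y.1) ?_ ?_ ?_ ?_ ?_
    · exact ps_cont hm hδ.le hδr (continuous_subtype_val.comp continuous_fst).continuousOn
        (continuous_snd.div_const 2).continuousOn (fun z _ => (hTS z.1.2).1) (fun z hz => hs _ hz)
    · intro y s h
      exact hmem y.1 y.2 _ (hs s h)
    · intro y
      change ps m (2 * N) (0 / 2) y.1 = y.1
      rw [zero_div]
      exact ps_zero hm hδ.le hδr (hTS y.2).1
    · intro y
      rfl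
    · intro y hy s h
      exact ps_fix hm hr hy (hs s h)
  have hiter : ∀ k : ℕ, Htp (Y := ↥T) (W := ZMod (2 * N) → X) T
      {x | ∀ i, x.1 i = x.1 0} (fun x => x.1) (fun x => (F^[k] x).1) := by
    intro k
    induction k with
    | zero =>
      refine ⟨fun y _ => y.1, ?_, ?_, ?_, ?_, ?_⟩
      · exact continuous_subtype_val.comp continuous_fst
      · exact fun y _ => y.2
      · exact fun _ _ _ => rfl
      · exact fun _ _ _ => rfl
      · exact fun _ _ _ => rfl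
    | succ k ih =>
      have h1 := hstep.precomp (Z' := {x : ↥T | ∀ i, x.1 i = x.1 0}) (F^[k])
        (hFc.iterate k) (fun y hy => by rw [hFkfix k y hy]; exact hy)
      have h2 := ih.trans h1
      have h3 : (fun x : ↥T => (F^[k + 1] x).1) = fun x => (F (F^[k] x)).1 := by
        funext x
        rw [Function.iterate_succ_apply']
      rw [h3]
      exact h2
  -- the cone
  have hfar : ∀ y : ↥T, ∀ i, dist ((F^[k] y).1 i) ((F^[k] y).1 0) ≤ δ / 2 := by
    intro y i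
    have h1 := far_le (2 * N) he0 (hkk y) i
    have h2 : ((2 * N : ℕ) : ℝ) * e = δ / 2 := by
      rw [he]
      field_simp
    rwa [h2] at h1
  have hfar' : ∀ y : ↥T, ∀ i, dist ((F^[k] y).1 i) ((F^[k] y).1 0) ≤ r :=
    fun y i => (hfar y i).trans (by linarith)
  refine ⟨fun x => (F^[k] x).1 0, (hiter k).trans ?_⟩
  refine Htp.of_clamp (fun y s i => m ((F^[k] y).1 i) ((F^[k] y).1 0) s) ?_ ?_ ?_ ?_ ?_
  · rw [continuousOn_pi]
    intro i
    have hc : Continuous (fun z : ↥T × ℝ => (F^[k] z.1).1) :=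
      continuous_subtype_val.comp ((hFc.iterate k).comp continuous_fst)
    have h1 : Continuous (fun z : ↥T × ℝ =>
        (((F^[k] z.1).1 i, (F^[k] z.1).1 0, z.2) : X × X × ℝ)) := by
      refine Continuous.prodMk ?_ (Continuous.prodMk ?_ continuous_snd)
      · exact (continuous_apply i).comp hc
      · exact (continuous_apply 0).comp hc
    exact hm.cont.comp h1.continuousOn (fun z hz => ⟨hfar' z.1 i, hz⟩)
  · intro y s hs
    exact hb _ (F^[k] y).2 (hfar y) s hs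
  · intro y
    funext i
    exact hm.zero _ _ (hfar' y i)
  · intro y
    funext i
    exact hm.one _ _ (hfar' y i)
  · intro y hy s hs
    funext i
    rw [hFkfix k y hy, hy i]
    exact hm.self hr _ hs


section book

variable {X : Type} [MetricSpace X] {ρ : X → X} {U : Set X} {M : ℕ} {r r' δ : ℝ}
  {m : Bk ρ U M → Bk ρ U M → ℝ → Bk ρ U M} {N : ℕ}

/-- the union of the pages in `S` -/
def UP (S : Set (Ix M)) : Set (Bk ρ U M) := {b | ∃ i ∈ S, b ∈ Pg i}

/-- positive pages -/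
def sP : Set (Ix M) := {i | i.2 = true}

/-- low pages -/
def sL (j : Fin M) : Set (Ix M) := {i | i.2 = true ∧ i.1 ≤ j.castSucc}

/-- high pages -/
def sH (j : Fin M) : Set (Ix M) := {i | i.2 = true ∧ j.succ ≤ i.1}

lemma Po_eq : (Po : Set (Bk ρ U M)) = UP sP := by
  ext b
  constructor
  · rintro ⟨p, hp⟩
    exact ⟨(p, true), rfl, hp⟩
  · rintro ⟨⟨p, q⟩, hq, hp⟩
    have : q = true := hq
    subst this
    exact ⟨p, hp⟩

lemma Lo_eq (j : Fin M) : (Lo j : Set (Bk ρ U M)) = UP (sL j) := by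
  ext b
  constructor
  · rintro ⟨p, hp1, hp⟩
    exact ⟨(p, true), ⟨rfl, hp1⟩, hp⟩
  · rintro ⟨⟨p, q⟩, hq, hp⟩
    have : q = true := hq.1
    subst this
    exact ⟨p, hq.2, hp⟩

lemma Hi_eq (j : Fin M) : (Hi j : Set (Bk ρ U M)) = UP (sH j) := by
  ext b
  constructor
  · rintro ⟨p, hp1, hp⟩
    exact ⟨(p, true), ⟨rfl, hp1⟩, hp⟩
  · rintro ⟨⟨p, q⟩, hq, hp⟩
    have : q = true := hq.1
    subst this
    exact ⟨p, hq.2, hp⟩

lemma Po_sub (j : Fin M) {b : Bk ρ U M} (hb : b ∈ UP sP) : b ∈ UP (sL j) ∨ b ∈ UP (sH j) := by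
  obtain ⟨i, hi, hp⟩ := hb
  rcases le_or_gt i.1 j.castSucc with h | h
  · exact Or.inl ⟨i, ⟨hi, h⟩, hp⟩
  · exact Or.inr ⟨i, ⟨hi, Fin.castSucc_lt_iff_succ_le.1 h⟩, hp⟩

lemma UP_closed (hB : BF X ρ U M r) (S : Set (Ix M)) : IsClosed (UP S : Set (Bk ρ U M)) := by
  have : (UP S : Set (Bk ρ U M)) = ⋃ i ∈ S, Pg i := by
    ext b
    simp [UP]
  rw [this]
  exact (Set.toFinite S).isClosed_biUnion fun i _ => hB.pgC i

lemma UP_conv (hB : BF X ρ U M r) (S : Set (Ix M)) {b b' c : Bk ρ U M} (hb : b ∈ UP S)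
    (hb' : b' ∈ UP S) (h : dist b b' < r) (hc : dist b c + dist c b' = dist b b') :
    c ∈ UP S := by
  obtain ⟨i, hi, hp⟩ := hb
  obtain ⟨j, hj, hq⟩ := hb'
  rcases hB.conv i j b b' c hp hq h hc with h1 | h1
  · exact ⟨i, hi, h1⟩
  · exact ⟨j, hj, h1⟩

lemma UP_m (hB : BF X ρ U M r) (hm : GMap (Bk ρ U M) r' m) (hr : r' < r) (S : Set (Ix M))
    {b b' : Bk ρ U M} (hb : b ∈ UP S) (hb' : b' ∈ UP S) (h : dist b b' ≤ r') {t : ℝ}
    (ht : t ∈ Icc (0 : ℝ) 1) : m b b' t ∈ UP S := by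
  refine UP_conv hB S hb hb' (h.trans_lt hr) ?_
  rw [hm.dist_left h ht, hm.dist_right h ht]
  ring

lemma UP_F (hB : BF X ρ U M r) {b : Bk ρ U M} (hb : sw b = b) {S : Set (Ix M)}
    (hS : S.Nonempty) : b ∈ UP S := by
  obtain ⟨i, hi⟩ := hS
  exact ⟨i, hi, hB.pgF' b hb i⟩

lemma sP_ne : (sP : Set (Ix M)).Nonempty := ⟨(0, true), rfl⟩

lemma sL_ne (j : Fin M) : (sL j).Nonempty := ⟨(0, true), rfl, Fin.zero_le _⟩

lemma sH_ne (j : Fin M) : (sH j).Nonempty := ⟨(j.succ, true), rfl, le_rfl⟩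

lemma OPol_eq : OPol ρ U M N δ = {x | x ∈ Sym (Bk ρ U M) sw N δ ∧
    (∀ i : ℕ, i ≤ N → x (i : ZMod (2 * N)) ∈ UP sP) ∧
    ∀ (j : Fin M) (i k : ℕ), i ≤ k → k ≤ N →
      x (i : ZMod (2 * N)) ∈ UP (sL j) ∨ x (k : ZMod (2 * N)) ∈ UP (sH j)} := by
  unfold OPol
  simp only [Po_eq, Lo_eq, Hi_eq]

lemma OPol_closed (hB : BF X ρ U M r) : IsClosed (OPol ρ U M N δ) := by
  have h1 : IsClosed (Pool.Agent.R203.IF.Sym (Bk ρ U M) sw N δ) := by
    have h2 : Pool.Agent.R203.IF.Sym (Bk ρ U M) sw N δ =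
        (⋂ i : ZMod (2 * N), {x : ZMod (2 * N) → Bk ρ U M | dist (x i) (x (i + 1)) ≤ δ}) ∩
        (⋂ i : ZMod (2 * N), {x : ZMod (2 * N) → Bk ρ U M | x (-i) = sw (x i)}) := by
      ext x
      simp [Pool.Agent.R203.IF.Sym, Pol]
    rw [h2]
    refine IsClosed.inter (isClosed_iInter fun i => ?_) (isClosed_iInter fun i => ?_)
    · exact isClosed_le ((continuous_apply i).dist (continuous_apply (i + 1))) continuous_const
    · exact isClosed_eq (continuous_apply (-i)) (hB.swI.continuous.comp (continuous_apply i))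
  have hcl : ∀ (S : Set (Ix M)) (i : ZMod (2 * N)),
      IsClosed {x : ZMod (2 * N) → Bk ρ U M | x i ∈ UP S} := fun S i =>
    (UP_closed hB S).preimage (continuous_apply i)
  have h3 : OPol ρ U M N δ = (Pool.Agent.R203.IF.Sym (Bk ρ U M) sw N δ ∩
      ⋂ i : ℕ, ⋂ _ : i ≤ N, {x : ZMod (2 * N) → Bk ρ U M | x (i : ZMod (2 * N)) ∈ UP sP}) ∩
      ⋂ j : Fin M, ⋂ i : ℕ, ⋂ k : ℕ, ⋂ _ : i ≤ k, ⋂ _ : k ≤ N,
        ({x : ZMod (2 * N) → Bk ρ U M | x (i : ZMod (2 * N)) ∈ UP (sL j)} ∪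
        {x : ZMod (2 * N) → Bk ρ U M | x (k : ZMod (2 * N)) ∈ UP (sH j)}) := by
    rw [OPol_eq]
    ext x
    simp only [mem_setOf_eq, mem_inter_iff, mem_iInter, mem_union, and_assoc]
  rw [h3]
  refine (h1.inter ?_).inter ?_
  · exact isClosed_iInter fun i => isClosed_iInter fun _ => hcl _ _
  · exact isClosed_iInter fun j => isClosed_iInter fun i => isClosed_iInter fun k =>
      isClosed_iInter fun _ => isClosed_iInter fun _ => (hcl _ _).union (hcl _ _)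

lemma sym_N {x : ZMod (2 * N) → Bk ρ U M} (hx : ∀ i, x (-i) = sw (x i)) :
    sw (x (N : ZMod (2 * N))) = x (N : ZMod (2 * N)) := by
  have h : -(N : ZMod (2 * N)) = (N : ZMod (2 * N)) := by
    rw [neg_eq_iff_add_eq_zero]
    have : ((2 * N : ℕ) : ZMod (2 * N)) = 0 := ZMod.natCast_self _
    push_cast at this
    rw [← this]; ring
  rw [← hx, h]

lemma sym_0 {x : ZMod (2 * N) → Bk ρ U M} (hx : ∀ i, x (-i) = sw (x i)) :
    sw (x 0) = x 0 := by
  have := hx 0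
  rw [neg_zero] at this
  exact this.symm

lemma ps_nat (x : ZMod (2 * N) → Bk ρ U M) (θ : ℝ) (i : ℕ) :
    ps m (2 * N) θ x ((i + 1 : ℕ) : ZMod (2 * N)) =
      m (m (x ((i + 1 : ℕ) : ZMod (2 * N))) (x (i : ZMod (2 * N))) θ)
        (m (x ((i + 1 : ℕ) : ZMod (2 * N))) (x ((i + 2 : ℕ) : ZMod (2 * N))) θ) (1 / 2) := by
  unfold ps
  have h1 : (((i + 1 : ℕ) : ZMod (2 * N)) - 1) = (i : ZMod (2 * N)) := by push_cast; ring
  have h2 : (((i + 1 : ℕ) : ZMod (2 * N)) + 1) = ((i + 2 : ℕ) : ZMod (2 * N)) := by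
    push_cast; ring
  rw [h1, h2]

theorem inv_a [NeZero N] (hB : BF X ρ U M r) (hm : GMap (Bk ρ U M) r' m) (hr : r' < r)
    (hδ0 : 0 < δ) (hδ : δ ≤ r') {x : ZMod (2 * N) → Bk ρ U M} (hx : x ∈ OPol ρ U M N δ) {θ : ℝ}
    (hθ : θ ∈ Icc (0 : ℝ) (1 / 2)) : ps m (2 * N) θ x ∈ OPol ρ U M N δ := by
  rw [OPol_eq] at hx ⊢
  obtain ⟨hS, hP, hO⟩ := hx
  have hθ' : θ ∈ Icc (0 : ℝ) 1 := ⟨hθ.1, by linarith [hθ.2]⟩
  have hhalf : (1 / 2 : ℝ) ∈ Icc (0 : ℝ) 1 := ⟨by norm_num, by norm_num⟩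
  have hS' : ps m (2 * N) θ x ∈ Sym (Bk ρ U M) sw N δ :=
    ⟨ps_mem hm hr hB.uniq hδ0.le hδ hS.1 hθ,
      fun i => ps_sym hm hr hB.uniq hδ0.le hδ hB.swI hS.1 hS.2 hθ i⟩
  have f0 := sym_0 hS'.2
  have fN := sym_N hS'.2
  -- the vertices
  set v : ℕ → Bk ρ U M := fun i => x (i : ZMod (2 * N)) with hv
  have hside : ∀ i, dist (v i) (v (i + 1)) ≤ r' := by
    intro i
    have := hS.1 (i : ZMod (2 * N))
    simp only [hv]
    push_cast
    exact this.trans hδ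
  have hside' : ∀ i, dist (v (i + 1)) (v i) ≤ r' := fun i => by
    rw [dist_comm]; exact hside i
  -- the points on the sides
  set b : ℕ → Bk ρ U M := fun i => m (v (i + 1)) (v i) θ with hb
  set a : ℕ → Bk ρ U M := fun i => m (v (i + 1)) (v (i + 2)) θ with ha
  have hba : ∀ i, dist (b i) (a i) ≤ r' := by
    intro i
    have h := uv_le' hm hδ0.le hδ hS.1 hθ ((i + 1 : ℕ) : ZMod (2 * N))
    have h1 : (((i + 1 : ℕ) : ZMod (2 * N)) - 1) = (i : ZMod (2 * N)) := by push_cast; ring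
    have h2 : (((i + 1 : ℕ) : ZMod (2 * N)) + 1) = ((i + 2 : ℕ) : ZMod (2 * N)) := by
      push_cast; ring
    rw [h1, h2] at h
    exact h.trans hδ
  have hps : ∀ i : ℕ, ps m (2 * N) θ x ((i + 1 : ℕ) : ZMod (2 * N)) = m (b i) (a i) (1 / 2) :=
    fun i => ps_nat x θ i
  have hbS : ∀ (S : Set (Ix M)) (i : ℕ), v i ∈ UP S → v (i + 1) ∈ UP S → b i ∈ UP S :=
    fun S i h1 h2 => UP_m hB hm hr S h2 h1 (hside' i) hθ'
  have haS : ∀ (S : Set (Ix M)) (i : ℕ), v (i + 1) ∈ UP S → v (i + 2) ∈ UP S → a i ∈ UP S :=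
    fun S i h1 h2 => UP_m hB hm hr S h1 h2 (hside (i + 1)) hθ'
  have hpS : ∀ (S : Set (Ix M)) (i : ℕ), b i ∈ UP S → a i ∈ UP S → m (b i) (a i) (1 / 2) ∈ UP S :=
    fun S i h1 h2 => UP_m hB hm hr S h1 h2 (hba i) hhalf
  have hP' : ∀ i : ℕ, i ≤ N → v i ∈ UP sP := hP
  have hO' : ∀ (j : Fin M) (i k : ℕ), i ≤ k → k ≤ N → v i ∈ UP (sL j) ∨ v k ∈ UP (sH j) := hO
  have hPo : ∀ i : ℕ, i ≤ N → ps m (2 * N) θ x (i : ZMod (2 * N)) ∈ UP sP := by
    intro i hi
    rcases Nat.eq_zero_or_pos i with h0 | h0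
    · subst h0
      rw [Nat.cast_zero]
      exact UP_F hB f0 sP_ne
    · obtain ⟨i', rfl⟩ : ∃ i', i = i' + 1 := ⟨i - 1, by omega⟩
      rcases Nat.lt_or_ge (i' + 1) N with h1 | h1
      · rw [hps]
        exact hpS _ _ (hbS _ _ (hP' _ (by omega)) (hP' _ (by omega)))
          (haS _ _ (hP' _ (by omega)) (hP' _ (by omega)))
      · have h2 : i' + 1 = N := by omega
        rw [h2]
        exact UP_F hB fN sP_ne
  refine ⟨hS', hPo, fun j i k hik hkN => ?_⟩
  rcases Nat.eq_zero_or_pos i with h0 | h0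
  · left
    subst h0
    rw [Nat.cast_zero]
    exact UP_F hB f0 (sL_ne j)
  rcases Nat.lt_or_ge k N with h1 | h1
  swap
  · right
    have h2 : k = N := by omega
    rw [h2]
    exact UP_F hB fN (sH_ne j)
  rcases Nat.lt_or_ge i k with h2 | h2
  swap
  · have h3 : k = i := by omega
    subst h3
    exact Po_sub j (hPo k hkN)
  obtain ⟨i', rfl⟩ : ∃ i', i = i' + 1 := ⟨i - 1, by omega⟩
  obtain ⟨k', rfl⟩ : ∃ k', k = k' + 1 := ⟨k - 1, by omega⟩
  rw [hps, hps]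
  by_contra hcon
  push Not at hcon
  obtain ⟨hc1, hc2⟩ := hcon
  -- one of the points is not low
  have h3 : b i' ∉ UP (sL j) ∨ a i' ∉ UP (sL j) := by
    by_contra h
    push Not at h
    exact hc1 (hpS _ _ h.1 h.2)
  apply hc2
  rcases h3 with h3 | h3
  · -- all vertices from `i' + 1` on are high
    have h4 : ∀ l, i' + 1 ≤ l → l ≤ N → v l ∈ UP (sH j) := by
      intro l hl hlN
      by_cases h5 : v i' ∈ UP (sL j)
      · have h6 : v (i' + 1) ∉ UP (sL j) := fun h => h3 (hbS _ _ h5 h)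
        exact (hO' j (i' + 1) l hl hlN).resolve_left h6
      · exact (hO' j i' l (by omega) hlN).resolve_left h5
    exact hpS _ _ (hbS _ _ (h4 _ (by omega) (by omega)) (h4 _ (by omega) (by omega)))
      (haS _ _ (h4 _ (by omega) (by omega)) (h4 _ (by omega) (by omega)))
  · have h4 : ∀ l, i' + 2 ≤ l → l ≤ N → v l ∈ UP (sH j) := by
      intro l hl hlN
      by_cases h5 : v (i' + 1) ∈ UP (sL j)
      · have h6 : v (i' + 2) ∉ UP (sL j) := fun h => h3 (haS _ _ h5 h)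
        exact (hO' j (i' + 2) l hl hlN).resolve_left h6
      · exact (hO' j (i' + 1) l (by omega) hlN).resolve_left h5
    refine hpS _ _ ?_ (haS _ _ (h4 _ (by omega) (by omega)) (h4 _ (by omega) (by omega)))
    rcases Nat.lt_or_ge (i' + 1) k' with h5 | h5
    · exact hbS _ _ (h4 _ (by omega) (by omega)) (h4 _ (by omega) (by omega))
    · have h6 : k' = i' + 1 := by omega
      subst h6
      -- the same side
      have h7 : a i' ∈ UP (sH j) :=
        (Po_sub j (haS _ _ (hP' _ (by omega)) (hP' _ (by omega)))).resolve_left h3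
      have h8 : v (i' + 2) ∈ UP (sH j) := h4 _ le_rfl (by omega)
      have h9 : b (i' + 1) = m (v (i' + 1)) (v (i' + 2)) (1 - θ) := by
        have := m_symm hm hr hB.uniq (hside (i' + 1)) (t := 1 - θ)
          ⟨by linarith [hθ'.2], by linarith [hθ'.1]⟩
        rw [sub_sub_cancel] at this
        exact this
      have hs := hside (i' + 1)
      have hs' : dist (v (i' + 1)) (v (i' + 2)) ≤ r' := hs
      have e1 : dist (a i') (b (i' + 1)) = (1 - 2 * θ) * dist (v (i' + 1)) (v (i' + 2)) := by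
        rw [h9]
        simp only [ha]
        rw [hm.dist_eq _ _ hs' θ hθ' (1 - θ) ⟨by linarith [hθ'.2], by linarith [hθ'.1]⟩,
          abs_sub_comm, abs_of_nonneg (by linarith [hθ.2])]
        ring
      have e2 : dist (b (i' + 1)) (v (i' + 2)) = θ * dist (v (i' + 1)) (v (i' + 2)) := by
        rw [h9, hm.dist_right hs' ⟨by linarith [hθ'.2], by linarith [hθ'.1]⟩]
        ring
      have e3 : dist (a i') (v (i' + 2)) = (1 - θ) * dist (v (i' + 1)) (v (i' + 2)) := by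
        simp only [ha]
        rw [hm.dist_right hs' hθ']
      refine UP_conv hB _ h7 h8 ?_ ?_
      · rw [e3]
        have : (0 : ℝ) ≤ dist (v (i' + 1)) (v (i' + 2)) := dist_nonneg
        nlinarith [hθ.1, mul_nonneg hθ.1 this]
      · rw [e1, e2, e3]
        ring

theorem inv_b [NeZero N] (hB : BF X ρ U M r) (hm : GMap (Bk ρ U M) r' m) (hr : r' < r)
    (hδ0 : 0 < δ) (hδ : δ ≤ r') {x : ZMod (2 * N) → Bk ρ U M} (hx : x ∈ OPol ρ U M N δ)
    (hfar : ∀ i, dist (x i) (x 0) ≤ δ / 2) {s : ℝ} (hs : s ∈ Icc (0 : ℝ) 1) :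
    (fun i => m (x i) (x 0) s) ∈ OPol ρ U M N δ := by
  rw [OPol_eq] at hx ⊢
  obtain ⟨hS, hP, hO⟩ := hx
  have f0 := sym_0 hS.2
  have hfar' : ∀ i, dist (x i) (x 0) ≤ r' := fun i => (hfar i).trans (by linarith)
  have hst : ∀ (S : Set (Ix M)), S.Nonempty → ∀ i, x i ∈ UP S → m (x i) (x 0) s ∈ UP S :=
    fun S hS i h => UP_m hB hm hr S h (UP_F hB f0 hS) (hfar' i) hs
  refine ⟨⟨fun i => ?_, fun i => ?_⟩, fun i hi => hst _ sP_ne _ (hP i hi), fun j i k hik hk => ?_⟩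
  · have h1 := hm.dist_right (hfar' i) hs
    have h2 := hm.dist_right (hfar' (i + 1)) hs
    have h3 := hfar i
    have h4 := hfar (i + 1)
    have h5 : (0 : ℝ) ≤ dist (x i) (x 0) := dist_nonneg
    have h6 : (0 : ℝ) ≤ dist (x (i + 1)) (x 0) := dist_nonneg
    refine (dist_triangle_right _ _ (x 0)).trans ?_
    rw [h1, h2]
    nlinarith [hs.1, hs.2, mul_nonneg hs.1 h5, mul_nonneg hs.1 h6]
  · have h1 := hS.2 i
    change m (x (-i)) (x 0) s = sw (m (x i) (x 0) s)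
    rw [m_equiv hm hr hB.uniq hB.swI (hfar' i) hs, f0, h1]
  · rcases hO j i k hik hk with h | h
    · exact Or.inl (hst _ (sL_ne j) _ h)
    · exact Or.inr (hst _ (sH_ne j) _ h)

end book

end FLOW

theorem t_FLOW : S_FLOW := by
  intro X _ ρ U M r hB r' m hm hr N _ _ δ hδ hδr hne
  haveI := hB.cpt
  exact FLOW.bksT (Bk ρ U M) r r' m hm hr hB.uniq sw N δ hδ hδr (OPol ρ U M N δ)
    (fun x hx => hx.1) (FLOW.OPol_closed hB)
    (fun x hx θ hθ => FLOW.inv_a hB hm hr hδ hδr hx hθ)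
    (fun x hx hf s hs => FLOW.inv_b hB hm hr hδ hδr hx hf hs) hne

end Pool.Agent.N489.RW
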