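import Pool.Agent.N489.RW.Stm

/-!
# RW/LFT: lifting marked paths in `U` to ordered paths in the book
-/

set_option autoImplicit false

open Set Topology Filter

noncomputable section

namespace Pool.Agent.N489.RW

open Pool.Agent.Y489.GE Pool.Agent.R203.IF

namespace LFT

variable {X : Type} [MetricSpace X] {ρ : X → X} {U : Set X} {M : ℕ} {r : ℝ}

theorem foU (hM : Mirror X ρ U) (x : X) : fo ρ U x ∈ U := by
  unfold fo
  split_ifs with h
  · exact h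
  · exact (hM.cover x).resolve_left h

omit [MetricSpace X] in
theorem fo_eq {x : X} (h : x ∈ U) : fo ρ U x = x := if_pos h

/-- the point of the page `i` over `x` -/
def q (hM : Mirror X ρ U) (B : BF X ρ U M r) (i : Ix M) (x : X) : Bk ρ U M :=
  (B.pgE i (fo ρ U x) (foU hM x)).choose

variable (hM : Mirror X ρ U) (B : BF X ρ U M r)

theorem q_Pg (i : Ix M) (x : X) : q hM B i x ∈ Pg i :=
  (B.pgE i (fo ρ U x) (foU hM x)).choose_spec.1

theorem un_q (i : Ix M) {x : X} (hx : x ∈ U) : un (q hM B i x) = x := by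
  exact (B.pgE i (fo ρ U x) (foU hM x)).choose_spec.2.trans (fo_eq hx)

open Classical in
/-- the page at time `t` -/
def pg (J : Finset (Fin M)) (θ : Fin M → ℝ) (t : ℝ) : Fin (M + 1) :=
  (J.filter fun i => θ i ≤ t).sup Fin.succ

theorem pg_mono (J : Finset (Fin M)) (θ : Fin M → ℝ) {s t : ℝ} (h : s ≤ t) :
    pg J θ s ≤ pg J θ t := by
  refine Finset.sup_mono fun i hi => ?_
  rw [Finset.mem_filter] at hi ⊢
  exact ⟨hi.1, hi.2.trans h⟩

theorem le_pg {J : Finset (Fin M)} {θ : Fin M → ℝ} {t : ℝ} {j : Fin M} (hj : j ∈ J)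
    (h : θ j ≤ t) : j.succ ≤ pg J θ t :=
  Finset.le_sup (f := Fin.succ) (Finset.mem_filter.2 ⟨hj, h⟩)

theorem pg_le {J : Finset (Fin M)} {θ : Fin M → ℝ} {t : ℝ} {j : Fin M} (hj : j ∈ J)
    (hθ : ∀ i ∈ J, ∀ j ∈ J, i ≤ j → θ i ≤ θ j) (h : t < θ j) : pg J θ t ≤ j.castSucc := by
  refine Finset.sup_le fun i hi => ?_
  rw [Finset.mem_filter] at hi
  have h1 : i < j := by
    by_contra hc
    have := hθ j hj i hi.1 (not_lt.1 hc)
    linarith [hi.2]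
  exact Fin.succ_le_castSucc_iff.2 h1

theorem pg_congr {J : Finset (Fin M)} {θ θ' : Fin M → ℝ} {t t' : ℝ}
    (h : ∀ j ∈ J, θ j ≤ t ↔ θ' j ≤ t') : pg J θ t = pg J θ' t' := by
  unfold pg
  congr 1
  exact Finset.filter_congr h

/-- the lift -/
def Lf (J : Finset (Fin M)) (z : Ps X M) (t : ℝ) : Bk ρ U M :=
  q hM B (pg J z.2 t, true) (z.1 t)

variable {a : ℝ} {J : Finset (Fin M)} {z : Ps X M}

theorem un_Lf (hz : z ∈ TW ρ U a J) (t : ℝ) : un (Lf hM B J z t) = z.1 t :=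
  un_q hM B _ (hz.1.2.1 t)

theorem Lf_Pg (t : ℝ) : Lf hM B J z t ∈ Pg (pg J z.2 t, true) := q_Pg hM B _ _

theorem Lf_sw (hz : z ∈ TW ρ U a J) {t : ℝ} (ht : ρ (z.1 t) = z.1 t) :
    sw (Lf hM B J z t) = Lf hM B J z t := by
  rw [B.pgF, un_Lf hM B hz]
  exact ht

theorem Lf_all (hz : z ∈ TW ρ U a J) {t : ℝ} (ht : ρ (z.1 t) = z.1 t) (i : Ix M) :
    Lf hM B J z t ∈ Pg i := B.pgF' _ (Lf_sw hM B hz ht) i

theorem mark (hz : z ∈ TW ρ U a J) {j : Fin M} (hj : j ∈ J) :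
    ρ (z.1 (z.2 j)) = z.1 (z.2 j) := hz.1.2.2.2.2.2.2 j hj

theorem lip (hz : z ∈ TW ρ U a J) {s t : ℝ} (hst : s ≤ t) :
    dist (Lf hM B J z s) (Lf hM B J z t) ≤ a * |s - t| := by
  by_cases h : pg J z.2 s = pg J z.2 t
  · rw [B.pgI (pg J z.2 s, true) _ _ (Lf_Pg hM B s) (by rw [h]; exact Lf_Pg hM B t),
      un_Lf hM B hz, un_Lf hM B hz]
    exact hz.1.1 s t
  · obtain ⟨j, hj, h1, h2⟩ : ∃ j ∈ J, s < z.2 j ∧ z.2 j ≤ t := by
      by_contra hc
      push Not at hc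
      apply h
      refine pg_congr fun j hj => ⟨fun h1 => h1.trans hst, fun h1 => ?_⟩
      by_contra h2
      exact absurd h1 (not_le.2 (hc j hj (not_le.1 h2)))
    rw [B.pgJ (pg J z.2 s, true) (pg J z.2 t, true) (fun he => h (congrArg Prod.fst he)) _ _
      (Lf_Pg hM B s) (Lf_Pg hM B t), un_Lf hM B hz, un_Lf hM B hz]
    have h3 : dist (z.1 (z.2 j)) (ρ (z.1 t)) = dist (z.1 (z.2 j)) (z.1 t) := by
      conv_lhs => rw [← mark hz hj]
      exact hM.iso.dist_eq _ _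
    have h4 := hz.1.1 s (z.2 j)
    have h5 := hz.1.1 (z.2 j) t
    rw [abs_of_nonpos (by linarith)] at h4 h5
    rw [abs_of_nonpos (by linarith)]
    calc dist (z.1 s) (ρ (z.1 t)) ≤ dist (z.1 s) (z.1 (z.2 j)) + dist (z.1 (z.2 j)) (ρ (z.1 t)) :=
          dist_triangle _ _ _
      _ ≤ a * -(s - z.2 j) + a * -(z.2 j - t) := by
          rw [h3]
          exact add_le_add h4 h5
      _ = a * -(s - t) := by ring

theorem fixed_le (hz : z ∈ TW ρ U a J) {t : ℝ} (ht : t ≤ 0) : ρ (z.1 t) = z.1 t :=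
  hz.2 t (Or.inl fun j _ => ht.trans (hz.1.2.2.2.2.1 j).1)

theorem fixed_ge (hz : z ∈ TW ρ U a J) {t : ℝ} (ht : 1 ≤ t) : ρ (z.1 t) = z.1 t :=
  hz.2 t (Or.inr fun j _ => (hz.1.2.2.2.2.1 j).2.trans ht)

theorem eq_of_fixed (hz : z ∈ TW ρ U a J) {s t : ℝ} (hs : ρ (z.1 s) = z.1 s)
    (h : z.1 s = z.1 t) : Lf hM B J z s = Lf hM B J z t := by
  have ht : ρ (z.1 t) = z.1 t := by rw [← h]; exact hs
  have h1 := B.pgI (0, true) _ _ (Lf_all hM B hz hs (0, true)) (Lf_all hM B hz ht (0, true))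
  rw [un_Lf hM B hz, un_Lf hM B hz, h, dist_self] at h1
  exact dist_eq_zero.1 h1

theorem Lf_Lo (hz : z ∈ TW ρ U a J) {j : Fin M} (hj : j ∈ J) {s : ℝ} (hs : s ≤ z.2 j) :
    Lf hM B J z s ∈ Lo j := by
  rcases hs.lt_or_eq with h | h
  · exact ⟨_, pg_le hj hz.1.2.2.2.2.2.1 h, Lf_Pg hM B s⟩
  · refine ⟨0, Fin.zero_le _, Lf_all hM B hz ?_ _⟩
    rw [h]
    exact mark hz hj

theorem Lf_Hi {j : Fin M} (hj : j ∈ J) {s : ℝ} (hs : z.2 j ≤ s) :
    Lf hM B J z s ∈ Hi j := ⟨_, le_pg hj hs, Lf_Pg hM B s⟩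

theorem Lf_OP (hz : z ∈ TW ρ U a J) : Lf hM B J z ∈ OP ρ U M a := by
  refine ⟨fun s t => ?_, fun t ht => ?_, fun t ht => ?_, ?_, ?_, fun t => ?_, fun j s t hst => ?_⟩
  · rcases le_total s t with h | h
    · exact lip hM B hz h
    · rw [dist_comm, abs_sub_comm]
      exact lip hM B hz h
  · exact eq_of_fixed hM B hz (fixed_le hz ht) (hz.1.2.2.1 t ht)
  · exact eq_of_fixed hM B hz (fixed_ge hz ht) (hz.1.2.2.2.1 t ht)
  · exact Lf_sw hM B hz (fixed_le hz le_rfl)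
  · exact Lf_sw hM B hz (fixed_ge hz le_rfl)
  · exact ⟨_, Lf_Pg hM B t⟩
  · rcases le_or_gt (pg J z.2 s) j.castSucc with h | h
    · exact Or.inl ⟨_, h, Lf_Pg hM B s⟩
    · refine Or.inr ⟨_, ?_, Lf_Pg hM B t⟩
      exact (Fin.castSucc_lt_iff_succ_le.1 h).trans (pg_mono J z.2 hst)

theorem cont : ContinuousOn (Lf hM B J) (TW ρ U a J) := by
  refine continuousOn_pi.2 fun t z₀ hz₀ => ?_
  have hc : Tendsto (fun z : Ps X M => dist (z.1 t) (z₀.1 t)) (𝓝[TW ρ U a J] z₀) (𝓝 0) := by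
    have h1 : Continuous fun z : Ps X M => dist (z.1 t) (z₀.1 t) :=
      ((continuous_apply t).comp continuous_fst).dist continuous_const
    have h2 := (h1.tendsto z₀).mono_left (nhdsWithin_le_nhds (s := TW ρ U a J))
    rwa [dist_self] at h2
  refine tendsto_iff_dist_tendsto_zero.2 (hc.congr' ?_)
  by_cases h : ∃ j ∈ J, t = z₀.2 j
  · obtain ⟨j, hj, h⟩ := h
    have hf : ρ (z₀.1 t) = z₀.1 t := by rw [h]; exact mark hz₀ hj
    filter_upwards [self_mem_nhdsWithin] with z hz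
    rw [B.pgI _ _ _ (Lf_Pg hM B t) (Lf_all hM B hz₀ hf _), un_Lf hM B hz, un_Lf hM B hz₀]
  · push Not at h
    have h1 : ∀ j ∈ J, ∀ᶠ z : Ps X M in 𝓝[TW ρ U a J] z₀, (z.2 j ≤ t ↔ z₀.2 j ≤ t) := by
      intro j hj
      have hcj : Continuous fun z : Ps X M => z.2 j := (continuous_apply j).comp continuous_snd
      refine nhdsWithin_le_nhds ?_
      rcases lt_or_gt_of_ne (h j hj) with h2 | h2
      · filter_upwards [hcj.continuousAt.eventually (lt_mem_nhds h2)] with z hz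
        exact ⟨fun h3 => absurd h3 (not_le.2 hz), fun h3 => absurd h3 (not_le.2 h2)⟩
      · filter_upwards [hcj.continuousAt.eventually (gt_mem_nhds h2)] with z hz
        exact ⟨fun _ => h2.le, fun _ => hz.le⟩
    have h2 : ∀ᶠ z : Ps X M in 𝓝[TW ρ U a J] z₀, ∀ j ∈ J, (z.2 j ≤ t ↔ z₀.2 j ≤ t) :=
      (Finset.eventually_all J).2 h1
    filter_upwards [self_mem_nhdsWithin, h2] with z hz hz2
    have h3 : pg J z.2 t = pg J z₀.2 t := pg_congr hz2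
    rw [B.pgI (pg J z.2 t, true) _ _ (Lf_Pg hM B t) (by rw [h3]; exact Lf_Pg hM B t),
      un_Lf hM B hz, un_Lf hM B hz₀]

end LFT

theorem t_LFT : S_LFT := by
  intro X _ ρ U M r hM B a _ J _
  exact ⟨LFT.Lf hM B J, LFT.cont hM B, fun z hz => ⟨LFT.Lf_OP hM B hz, LFT.un_Lf hM B hz,
    fun j hj => ⟨fun s hs => LFT.Lf_Lo hM B hz hj hs, fun s hs => LFT.Lf_Hi hM B hj hs⟩⟩⟩

end Pool.Agent.N489.RW
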