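import Pool.Agent.N489.RW.Stm

/-!
# Elementary facts about a reflection of a geodesic space
-/

set_option autoImplicit false

open Set Topology

noncomputable section

namespace Pool.Agent.N489.RW

open Pool.Agent.Y489.GE Pool.Agent.R203.IF

namespace MFx

variable {X : Type} [MetricSpace X] {ρ : X → X} {U : Set X}

theorem fo_pos {x : X} (hx : x ∈ U) : fo ρ U x = x := by
  unfold fo
  rw [if_pos hx]

theorem fo_neg {x : X} (hx : x ∉ U) : fo ρ U x = ρ x := by
  unfold fo
  rw [if_neg hx]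

theorem notU (h : Mirror X ρ U) {x : X} (hx : x ∉ U) : ρ x ∈ U := (h.cover x).resolve_left hx

theorem foU (h : Mirror X ρ U) (x : X) : fo ρ U x ∈ U := by
  by_cases hx : x ∈ U
  · rw [fo_pos hx]
    exact hx
  · rw [fo_neg hx]
    exact notU h hx

theorem dist_swap (h : Mirror X ρ U) (x y : X) : dist (ρ x) y = dist x (ρ y) := by
  rw [← h.iso.dist_eq x (ρ y), h.inv]

theorem cross (h : Mirror X ρ U) (hG : GeodSpace X) {x y : X} (hx : x ∈ U) (hy : y ∈ U) :
    ∃ z, ρ z = z ∧ dist x z + dist z (ρ y) = dist x (ρ y) := by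
  obtain ⟨c, hc0, hc1, hc⟩ := hG x (ρ y)
  have hcont : ContinuousOn c (Icc (0 : ℝ) 1) := by
    have hL : LipschitzOnWith (Real.toNNReal (dist x (ρ y))) c (Icc (0 : ℝ) 1) := by
      refine LipschitzOnWith.of_dist_le_mul fun s hs t ht => ?_
      rw [hc s hs t ht, Real.coe_toNNReal _ dist_nonneg, Real.dist_eq, mul_comm]
    exact hL.continuousOn
  have hcont2 : ContinuousOn (fun t => ρ (c t)) (Icc (0 : ℝ) 1) :=
    h.iso.continuous.comp_continuousOn hcont
  have hA : IsClosed (Icc (0 : ℝ) 1 ∩ c ⁻¹' U) :=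
    hcont.preimage_isClosed_of_isClosed isClosed_Icc h.closed
  have hB : IsClosed (Icc (0 : ℝ) 1 ∩ (fun t => ρ (c t)) ⁻¹' U) :=
    hcont2.preimage_isClosed_of_isClosed isClosed_Icc h.closed
  have h0 : (0 : ℝ) ∈ Icc (0 : ℝ) 1 := ⟨le_rfl, zero_le_one⟩
  have h1 : (1 : ℝ) ∈ Icc (0 : ℝ) 1 := ⟨zero_le_one, le_rfl⟩
  have key := (isPreconnected_closed_iff.1 (isPreconnected_Icc (a := (0 : ℝ)) (b := 1))) _ _ hA hB
    (fun t ht => (h.cover (c t)).imp (fun hu => ⟨ht, hu⟩) fun hu => ⟨ht, hu⟩)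
    ⟨0, h0, h0, by rw [mem_preimage, hc0]; exact hx⟩
    ⟨1, h1, h1, by
      show ρ (c 1) ∈ U
      rw [hc1, h.inv]
      exact hy⟩
  obtain ⟨t, ht, ⟨-, htU⟩, -, htU'⟩ := key
  refine ⟨c t, h.inter _ htU htU', ?_⟩
  have e1 : dist x (c t) = t * dist x (ρ y) := by
    conv_lhs => rw [← hc0]
    rw [hc 0 h0 t ht, zero_sub, abs_neg, abs_of_nonneg ht.1]
  have e2 : dist (c t) (ρ y) = (1 - t) * dist x (ρ y) := by
    conv_lhs => rw [← hc1]
    rw [hc t ht 1 h1, abs_sub_comm, abs_of_nonneg (sub_nonneg.2 ht.2)]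
  rw [e1, e2]
  ring

theorem far (h : Mirror X ρ U) (hG : GeodSpace X) {x y : X} (hx : x ∈ U) (hy : y ∈ U) :
    dist x y ≤ dist x (ρ y) := by
  obtain ⟨z, hz, hd⟩ := cross h hG hx hy
  have e : dist z y = dist z (ρ y) := by
    rw [← dist_swap h, hz]
  calc dist x y ≤ dist x z + dist z y := dist_triangle _ _ _
    _ = dist x (ρ y) := by rw [e, hd]

theorem foL (h : Mirror X ρ U) (hG : GeodSpace X) (x y : X) :
    dist (fo ρ U x) (fo ρ U y) ≤ dist x y := by
  by_cases hx : x ∈ U
  · by_cases hy : y ∈ U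
    · rw [fo_pos hx, fo_pos hy]
    · rw [fo_pos hx, fo_neg hy]
      have := far h hG hx (notU h hy)
      rwa [h.inv] at this
  · by_cases hy : y ∈ U
    · rw [fo_neg hx, fo_pos hy]
      have := far h hG (notU h hx) hy
      rwa [h.iso.dist_eq] at this
    · rw [fo_neg hx, fo_neg hy, h.iso.dist_eq]

end MFx

open MFx

theorem t_MF : S_MF := by
  intro X _ ρ U r h hG hU
  refine
    { foU := foU h
      foL := foL h hG
      cross := fun x hx y hy => MFx.cross h hG hx hy
      far := fun x hx y hy => MFx.far h hG hx hy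
      conv := ?_
      convF := ?_
      mid := ?_
      ht := ?_ }
  · intro x hx y hy z hr hd
    have e1 := foL h hG x z
    have e2 := foL h hG z y
    rw [fo_pos hx] at e1
    rw [fo_pos hy] at e2
    have e3 := dist_triangle x (fo ρ U z) y
    have e4 : dist x (fo ρ U z) = dist x z := by linarith
    have e5 : dist x (fo ρ U z) + dist (fo ρ U z) y = dist x y := by linarith
    have e6 := hU x y z (fo ρ U z) hr hd e5 e4.symm
    rw [e6]
    exact foU h z
  · intro x y z hx hy hr hd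
    have e1 : dist x (ρ z) = dist x z := by
      rw [← dist_swap h, hx]
    have e2 : dist (ρ z) y = dist z y := by
      rw [dist_swap h, hy]
    exact (hU x y z (ρ z) hr hd (by rw [e1, e2, hd]) e1.symm).symm
  · intro x z hr h1 h2
    have e1 : dist x (ρ z) = dist x (ρ x) / 2 := by
      rw [← dist_swap h, dist_comm]
      exact h2
    have e2 : dist (ρ z) (ρ x) = dist x (ρ x) / 2 := by
      rw [h.iso.dist_eq, dist_comm]
      exact h1
    exact (hU x (ρ x) z (ρ z) hr (by rw [h1, h2]; ring) (by rw [e1, e2]; ring)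
      (by rw [h1, e1])).symm
  · intro x z hz
    have e1 : dist z (ρ x) = dist x z := by
      rw [← dist_swap h, hz, dist_comm]
    have := dist_triangle x z (ρ x)
    linarith

end Pool.Agent.N489.RW
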