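import Pool.Agent.N489.RW.Stm2
import Pool.Agent.R203.IF.BKS
import Pool.Agent.H534R3.Rot

/-!
# Project RW, part 2: minimal geodesics through the fixed point set
-/

set_option autoImplicit false

open Set Topology

noncomputable section

namespace Pool.Agent.N489.RW

open Pool.Agent.Y489.GE Pool.Agent.R203.IF

/-- the sphere is not contractible -/
theorem t_NC : S_NC := by
  intro k
  rintro ⟨H, hc, hS, ⟨c, hc0⟩, h1⟩
  apply Pool.Agent.H534R3.Rot.sphere_not_nullhomotopic (k + 1)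
  have hs0 : (EuclideanSpace.single (0 : Fin (k + 1)) (1 : ℝ)) ∈
      Metric.sphere (0 : Eu k) 1 := by
    rw [mem_sphere_zero_iff_norm]
    simp
  have hcS : c ∈ Metric.sphere (0 : Eu k) 1 := by
    rw [← hc0 _ hs0]
    exact hS _ hs0 0 ⟨le_rfl, zero_le_one⟩
  have hI : ∀ t : unitInterval, (1 - (t : ℝ)) ∈ Icc (0 : ℝ) 1 := fun t =>
    ⟨by linarith [t.2.2], by linarith [t.2.1]⟩
  refine ⟨⟨c, hcS⟩, ⟨?_⟩⟩
  refine
    { toFun := fun z => ⟨H z.2.1 (1 - (z.1 : ℝ)), hS _ z.2.2 _ (hI z.1)⟩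
      continuous_toFun := ?_
      map_zero_left := ?_
      map_one_left := ?_ }
  · refine Continuous.subtype_mk ?_ _
    have h2 : Continuous fun z : unitInterval × ↥(Metric.sphere (0 : Eu k) 1) =>
        ((z.2.1, 1 - (z.1 : ℝ)) : Eu k × ℝ) := by fun_prop
    exact hc.comp_continuous h2 fun z => ⟨z.2.2, hI z.1⟩
  · intro x
    apply Subtype.ext
    show H x.1 (1 - ((0 : unitInterval) : ℝ)) = x.1
    rw [Set.Icc.coe_zero, sub_zero]
    exact h1 _ x.2
  · intro x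
    apply Subtype.ext
    show H x.1 (1 - ((1 : unitInterval) : ℝ)) = c
    rw [Set.Icc.coe_one, sub_self]
    exact hc0 _ x.2

/-- minimal geodesics through the fixed point set -/
theorem t_P (hNC : S_NC) : S_P := by
  intro X Y G _ _ _ _ k q ρ U σ w r₀ r r' m hs x₁ x₂ ha
  have hR := hs.rot
  have hρ := hs.mir.iso
  set a : ℝ := dist (q x₁) (ρ (q x₂)) with hadef
  -- (a)
  have hA : ∀ g : G, dist x₁ (g • x₂) ≤ a := by
    intro g
    obtain ⟨z, hz, hd⟩ := hs.mf.cross (q x₁) (hR.qU x₁) (q x₂) (hR.qU x₂)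
    have hzU : z ∈ U := by
      rcases hs.mir.cover z with h | h
      · exact h
      · rwa [hz] at h
    obtain ⟨f, hf⟩ := hR.qS z hzU
    have hfix : ∀ g : G, g • f = f := (hR.qF f).2 (by rw [hf, hz])
    obtain ⟨g', hg'⟩ := hR.att x₁ f
    rw [hfix g', hf] at hg'
    obtain ⟨g'', hg''⟩ := hR.att x₂ f
    rw [hfix g'', hf] at hg''
    have h1 : dist f (g • x₂) = dist x₂ f := by
      rw [← hR.iso g⁻¹ f (g • x₂), hfix, inv_smul_smul, dist_comm]
    have h2 : dist z (ρ (q x₂)) = dist (q x₂) z := by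
      have h3 := hρ.dist_eq z (q x₂)
      rw [hz] at h3
      rw [h3, dist_comm]
    calc dist x₁ (g • x₂) ≤ dist x₁ f + dist f (g • x₂) := dist_triangle _ _ _
      _ = dist (q x₁) z + dist z (ρ (q x₂)) := by rw [hg', h1, hg'', h2]
      _ = a := hd
  have hA' : ∀ g : G, dist x₁ (g • x₂) ≤ r' := fun g => (hA g).trans ha
  -- (b)
  by_cases hex : ∃ g : G, ∃ t ∈ Icc (0 : ℝ) 1, ∀ h : G, h • m x₁ (g • x₂) t = m x₁ (g • x₂) t
  · obtain ⟨g, t, ht, hfix⟩ := hex
    refine ⟨g, t, ht, le_antisymm (hA g) ?_, hfix⟩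
    set z := m x₁ (g • x₂) t with hzdef
    have e1 := hs.gm.dist_left (hA' g) ht
    have e2 := hs.gm.dist_right (hA' g) ht
    have hqz : ρ (q z) = q z := (hR.qF z).1 hfix
    have l1 : dist (q x₁) (q z) ≤ dist x₁ z := by
      have := hR.lip x₁ z 1
      rwa [one_smul] at this
    have l2 : dist (q z) (q x₂) ≤ dist z (g • x₂) := hR.lip z x₂ g
    have l3 : dist (q z) (ρ (q x₂)) = dist (q z) (q x₂) := by
      have h3 := hρ.dist_eq (q z) (q x₂)
      rwa [hqz] at h3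
    calc a ≤ dist (q x₁) (q z) + dist (q z) (ρ (q x₂)) := dist_triangle _ _ _
      _ ≤ dist x₁ z + dist z (g • x₂) := by rw [l3]; exact add_le_add l1 l2
      _ = dist x₁ (g • x₂) := by
          rw [hzdef, e1, e2]
          ring
  · -- (c)
    exfalso
    push Not at hex
    have hw : ∀ g : G, ∀ t ∈ Icc (0 : ℝ) 1, w (m x₁ (g • x₂) t) ≠ 0 := by
      intro g t ht h0
      obtain ⟨h, hh⟩ := hex g t ht
      exact hh ((hR.w0 _).1 h0 h)
    have hwx : w x₂ ≠ 0 := by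
      have h1 := hw 1 1 ⟨zero_le_one, le_rfl⟩
      rw [one_smul, hs.gm.one x₁ x₂ (by have := hA' 1; rwa [one_smul] at this)] at h1
      exact h1
    obtain ⟨φ, hφc, hφ⟩ := hR.ws x₂ hwx
    have hφd : ∀ s ∈ Metric.sphere (0 : Eu k) 1, dist x₁ (φ s) ≤ r' := by
      intro s hs'
      obtain ⟨⟨g, hg⟩, -⟩ := hφ s hs'
      rw [hg]
      exact hA' g
    have hwφ : ∀ s ∈ Metric.sphere (0 : Eu k) 1, ∀ t ∈ Icc (0 : ℝ) 1,
        w (m x₁ (φ s) t) ≠ 0 := by
      intro s hs' t ht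
      obtain ⟨⟨g, hg⟩, -⟩ := hφ s hs'
      rw [hg]
      exact hw g t ht
    have hmc : ContinuousOn (fun z : Eu k × ℝ => w (m x₁ (φ z.1) z.2))
        (Metric.sphere 0 1 ×ˢ Icc (0 : ℝ) 1) := by
      refine hR.wc.comp_continuousOn ?_
      have h1 : ContinuousOn (fun z : Eu k × ℝ => ((x₁, φ z.1, z.2) : X × X × ℝ))
          (Metric.sphere 0 1 ×ˢ Icc (0 : ℝ) 1) := by
        refine continuousOn_const.prodMk (ContinuousOn.prodMk ?_ continuousOn_snd)
        exact hφc.comp continuousOn_fst fun z hz => hz.1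
      exact hs.gm.cont.comp h1 fun z hz => ⟨hφd _ hz.1, hz.2⟩
    refine hNC k ⟨fun s t => ‖w (m x₁ (φ s) t)‖⁻¹ • w (m x₁ (φ s) t), ?_, ?_, ?_, ?_⟩
    · exact (hmc.norm.inv₀ fun z hz => norm_ne_zero_iff.2 (hwφ _ hz.1 _ hz.2)).smul hmc
    · intro s hs' t ht
      rw [mem_sphere_zero_iff_norm, norm_smul, norm_inv, norm_norm,
        inv_mul_cancel₀ (norm_ne_zero_iff.2 (hwφ s hs' t ht))]
    · refine ⟨‖w x₁‖⁻¹ • w x₁, ?_⟩
      intro s hs'
      dsimp only
      rw [hs.gm.zero x₁ (φ s) (hφd s hs')]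
    · intro s hs'
      dsimp only
      have h1 := hwφ s hs' 1 ⟨zero_le_one, le_rfl⟩
      rw [hs.gm.one x₁ (φ s) (hφd s hs')] at h1 ⊢
      obtain ⟨-, h2⟩ := hφ s hs'
      conv_lhs => rw [h2]
      rw [norm_smul, norm_norm, mem_sphere_zero_iff_norm.1 hs', mul_one, smul_smul,
        inv_mul_cancel₀ (norm_ne_zero_iff.2 h1), one_smul]

end Pool.Agent.N489.RW
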