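import Pool.Agent.N489.RW.Stm3

/-!
# Project RW, part 3: the degree argument near the fixed set
-/

set_option autoImplicit false

open Set Topology

noncomputable section

namespace Pool.Agent.N489.RW

open Pool.Agent.Y489.GE Pool.Agent.R203.IF

theorem eq_zero_of_neg_NT {k : ℕ} {v : Eu k} (h : v = -v) : v = 0 := by
  have h1 : (2 : ℝ) • v = 0 := by
    rw [two_smul]
    nth_rewrite 2 [h]
    exact add_neg_cancel v
  exact (smul_eq_zero.1 h1).resolve_left two_ne_zero

/-- the degree argument near the fixed set -/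
theorem t_NT (hNC : S_NC) : S_NT := by
  intro X G _ _ _ k F σ w V r r' m hN hgeo hU hm hr0 hrr
  have hV : ∀ c z₀ : X, z₀ ∈ F → dist c z₀ < r' → c ∈ V := fun c z₀ hz₀ h =>
    hN.near c z₀ hz₀ (h.trans hrr)
  -- distances to a point of `F`
  have hdF : ∀ (g : G) (z y : X), z ∈ F → dist z (g • y) = dist z y := by
    intro g z y hz
    conv_lhs => rw [← hN.fixF g z hz]
    exact hN.iso g z y
  -- the points on short geodesics through `F` are in `V`
  have hcV : ∀ (x y z₀ : X), z₀ ∈ F → dist x z₀ + dist z₀ y < r' → ∀ t ∈ Icc (0 : ℝ) 1,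
      m x y t ∈ V := by
    intro x y z₀ hz₀ h t ht
    have hxy : dist x y ≤ r' := (dist_triangle x z₀ y).trans h.le
    have e1 := hm.dist_left hxy ht
    have e2 := hm.dist_right hxy ht
    have e3 : dist (m x y t) z₀ ≤ dist x (m x y t) + dist x z₀ := by
      rw [dist_comm x (m x y t)]
      exact dist_triangle _ _ _
    have e4 : dist (m x y t) z₀ ≤ dist (m x y t) y + dist z₀ y := by
      rw [dist_comm z₀ y]
      exact dist_triangle _ _ _
    have e5 : dist x (m x y t) + dist (m x y t) y = dist x y := by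
      rw [e1, e2]
      ring
    have e6 := dist_triangle x z₀ y
    exact hV _ z₀ hz₀ (by linarith)
  refine ⟨hN.closed, hN.iso, hN.fixF, ?_, ?_, hN.s2, ?_⟩
  · -- conv
    intro x hx y hy z hxy hz
    have hgz : ∀ g : G, g • z = z := by
      intro g
      have h1 : dist x (g • z) = dist x z := hdF g x z hx
      have h2 : dist (g • z) y = dist z y := by
        rw [dist_comm, hdF g y z hy, dist_comm]
      exact (hU x y z (g • z) (hxy.trans hrr) hz (by rw [h1, h2]; exact hz) h1.symm).symm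
    have hzV : z ∈ V := by
      refine hV z x hx ?_
      have := @dist_nonneg _ _ z y
      rw [dist_comm]
      linarith
    by_contra hzF
    obtain ⟨φ, -, hφ⟩ := hN.ws z hzV hzF
    have h1 : ∀ s ∈ Metric.sphere (0 : Eu k) 1, w z = ‖w z‖ • s := by
      intro s hs
      obtain ⟨⟨g, hg⟩, h2⟩ := hφ s hs
      rw [hgz g] at hg
      rwa [hg] at h2
    set e0 : Eu k := EuclideanSpace.single (0 : Fin (k + 1)) (1 : ℝ) with he0
    have hs0 : e0 ∈ Metric.sphere (0 : Eu k) 1 := by
      rw [mem_sphere_zero_iff_norm, he0]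
      simp
    have hs1 : -e0 ∈ Metric.sphere (0 : Eu k) 1 := by
      rw [mem_sphere_zero_iff_norm, norm_neg]
      exact mem_sphere_zero_iff_norm.1 hs0
    have h3 := h1 _ hs0
    have h4 := h1 _ hs1
    have h5 : ‖w z‖ • e0 = -(‖w z‖ • e0) := by
      rw [← smul_neg, ← h4, ← h3]
    have h6 : w z = 0 := by
      rw [h3]
      exact eq_zero_of_neg_NT h5
    exact hzF ((hN.w0 z hzV).1 h6)
  · -- cross
    rintro x y ⟨z₀, hz₀, hd⟩
    have hd' : ∀ g : G, dist x z₀ + dist z₀ (g • y) < r' := by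
      intro g
      rw [hdF g z₀ y hz₀]
      exact hd
    have hA : ∀ g : G, dist x (g • y) ≤ r' := fun g =>
      (dist_triangle x z₀ (g • y)).trans (hd' g).le
    by_cases hex : ∃ g : G, ∃ t ∈ Icc (0 : ℝ) 1, m x (g • y) t ∈ F
    · obtain ⟨g, t, ht, hc⟩ := hex
      refine ⟨g, _, hc, ?_⟩
      have e1 := hm.dist_left (hA g) ht
      have e2 := hm.dist_right (hA g) ht
      rw [← hdF g _ y hc, e1, e2]
      ring
    · exfalso
      push Not at hex
      have hw : ∀ g : G, ∀ t ∈ Icc (0 : ℝ) 1, w (m x (g • y) t) ≠ 0 := by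
        intro g t ht h0
        exact hex g t ht ((hN.w0 _ (hcV x (g • y) z₀ hz₀ (hd' g) t ht)).1 h0)
      have hyV : y ∈ V := by
        have h1 := hcV x ((1 : G) • y) z₀ hz₀ (hd' 1) 1 ⟨zero_le_one, le_rfl⟩
        rw [hm.one x _ (hA 1), one_smul] at h1
        exact h1
      have hyF : y ∉ F := by
        have h1 := hex 1 1 ⟨zero_le_one, le_rfl⟩
        rw [hm.one x _ (hA 1), one_smul] at h1
        exact h1
      obtain ⟨φ, hφc, hφ⟩ := hN.ws y hyV hyF
      have hφd : ∀ s ∈ Metric.sphere (0 : Eu k) 1, dist x (φ s) ≤ r' := by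
        intro s hs'
        obtain ⟨⟨g, hg⟩, -⟩ := hφ s hs'
        rw [hg]
        exact hA g
      have hφV : ∀ s ∈ Metric.sphere (0 : Eu k) 1, ∀ t ∈ Icc (0 : ℝ) 1, m x (φ s) t ∈ V := by
        intro s hs' t ht
        obtain ⟨⟨g, hg⟩, -⟩ := hφ s hs'
        rw [hg]
        exact hcV x (g • y) z₀ hz₀ (hd' g) t ht
      have hwφ : ∀ s ∈ Metric.sphere (0 : Eu k) 1, ∀ t ∈ Icc (0 : ℝ) 1,
          w (m x (φ s) t) ≠ 0 := by
        intro s hs' t ht
        obtain ⟨⟨g, hg⟩, -⟩ := hφ s hs'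
        rw [hg]
        exact hw g t ht
      have hmc : ContinuousOn (fun z : Eu k × ℝ => w (m x (φ z.1) z.2))
          (Metric.sphere 0 1 ×ˢ Icc (0 : ℝ) 1) := by
        have h1 : ContinuousOn (fun z : Eu k × ℝ => ((x, φ z.1, z.2) : X × X × ℝ))
            (Metric.sphere 0 1 ×ˢ Icc (0 : ℝ) 1) := by
          refine continuousOn_const.prodMk (ContinuousOn.prodMk ?_ continuousOn_snd)
          exact hφc.comp continuousOn_fst fun z hz => hz.1
        have h2 : ContinuousOn (fun z : Eu k × ℝ => m x (φ z.1) z.2)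
            (Metric.sphere 0 1 ×ˢ Icc (0 : ℝ) 1) :=
          hm.cont.comp h1 fun z hz => ⟨hφd _ hz.1, hz.2⟩
        exact hN.wc.comp h2 fun z hz => hφV _ hz.1 _ hz.2
      refine hNC k ⟨fun s t => ‖w (m x (φ s) t)‖⁻¹ • w (m x (φ s) t), ?_, ?_, ?_, ?_⟩
      · exact (hmc.norm.inv₀ fun z hz => norm_ne_zero_iff.2 (hwφ _ hz.1 _ hz.2)).smul hmc
      · intro s hs' t ht
        rw [mem_sphere_zero_iff_norm, norm_smul, norm_inv, norm_norm,
          inv_mul_cancel₀ (norm_ne_zero_iff.2 (hwφ s hs' t ht))]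
      · refine ⟨‖w x‖⁻¹ • w x, ?_⟩
        intro s hs'
        dsimp only
        rw [hm.zero x (φ s) (hφd s hs')]
      · intro s hs'
        dsimp only
        have h1 := hwφ s hs' 1 ⟨zero_le_one, le_rfl⟩
        rw [hm.one x (φ s) (hφd s hs')] at h1 ⊢
        obtain ⟨-, h2⟩ := hφ s hs'
        conv_lhs => rw [h2]
        rw [norm_smul, norm_norm, mem_sphere_zero_iff_norm.1 hs', mul_one, smul_smul,
          inv_mul_cancel₀ (norm_ne_zero_iff.2 h1), one_smul]
  · -- smid
    rintro x ⟨z₀, hz₀, hd⟩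
    have hz₀σ : dist z₀ (σ • x) = dist x z₀ := by
      rw [hdF σ z₀ x hz₀, dist_comm]
    have hd' : dist x z₀ + dist z₀ (σ • x) < r' := by
      rw [hz₀σ]
      linarith
    have hxσ : dist x (σ • x) ≤ r' := (dist_triangle x z₀ _).trans hd'.le
    have hh : (1 / 2 : ℝ) ∈ Icc (0 : ℝ) 1 := ⟨by norm_num, by norm_num⟩
    have hcV' := hcV x (σ • x) z₀ hz₀ hd' (1 / 2) hh
    set c := m x (σ • x) (1 / 2) with hc
    have e1 : dist x c = 1 / 2 * dist x (σ • x) := by
      rw [hc, hm.dist_left hxσ hh]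
    have e2 : dist c (σ • x) = 1 / 2 * dist x (σ • x) := by
      rw [hc, hm.dist_right hxσ hh]
      ring
    have e3 : dist x (σ • c) = 1 / 2 * dist x (σ • x) := by
      have h1 := hN.iso σ (σ • x) c
      rw [hN.s2] at h1
      rw [h1, dist_comm, e2]
    have e4 : dist (σ • c) (σ • x) = 1 / 2 * dist x (σ • x) := by
      rw [hN.iso, dist_comm, e1]
    have hσc : c = σ • c := by
      refine hU x (σ • x) c (σ • c) (by linarith) ?_ ?_ ?_
      · rw [e1, e2]
        ring
      · rw [e3, e4]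
        ring
      · rw [e1, e3]
    have hw1 := hN.sw c hcV'
    rw [← hσc] at hw1
    have hw2 : w c = 0 := eq_zero_of_neg_NT hw1
    refine ⟨c, (hN.w0 c hcV').1 hw2, ?_⟩
    rw [e1]
    ring

end Pool.Agent.N489.RW
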