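import Pool.Agent.N489.RW.Stm

/-!
# RW/PHI: assembly of the contraction of marked paths
-/

set_option autoImplicit false

open Set Topology

noncomputable section

namespace Pool.Agent.N489.RW.PHI

open Pool.Agent.Y489.GE Pool.Agent.R203.IF Pool.Agent.N489.RW

/-- homotopies from `f` to `g` all of whose values have the property `P` -/
def HP {Y W : Type} [TopologicalSpace Y] [TopologicalSpace W] (P : Y → W → Prop)
    (f g : Y → W) : Prop :=
  ∃ H : Y → ℝ → W, Continuous (fun z : Y × ℝ => H z.1 z.2) ∧ (∀ y s, s ≤ 0 → H y s = f y) ∧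
    (∀ y s, 1 ≤ s → H y s = g y) ∧ ∀ y s, P y (H y s)

theorem HP.trans {Y W : Type} [TopologicalSpace Y] [TopologicalSpace W] {P : Y → W → Prop}
    {f g k : Y → W} (h : HP P f g) (h' : HP P g k) : HP P f k := by
  obtain ⟨H, h1, h3, h4, h5⟩ := h
  obtain ⟨H', h1', h3', h4', h5'⟩ := h'
  refine ⟨fun y s => if s ≤ 1 / 2 then H y (2 * s) else H' y (2 * s - 1), ?_, ?_, ?_, ?_⟩
  · refine Continuous.if_le ?_ ?_ continuous_snd continuous_const ?_
    · exact h1.comp (continuous_fst.prodMk (continuous_const.mul continuous_snd))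
    · exact h1'.comp (continuous_fst.prodMk ((continuous_const.mul continuous_snd).sub
        continuous_const))
    · intro z hz
      rw [h4 _ _ (by linarith), h3' _ _ (by linarith)]
  · intro y s hs
    dsimp only
    rw [if_pos (by linarith), h3 _ _ (by linarith)]
  · intro y s hs
    dsimp only
    rw [if_neg (by linarith), h4' _ _ (by linarith)]
  · intro y s
    dsimp only
    split_ifs
    · exact h5 _ _
    · exact h5' _ _

/-- the clamp to the unit interval -/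
def ck (s : ℝ) : ℝ := max 0 (min 1 s)

theorem ck_cont : Continuous ck := continuous_const.max (continuous_const.min continuous_id)

theorem ck_mem (s : ℝ) : ck s ∈ Icc (0 : ℝ) 1 :=
  ⟨le_max_left _ _, max_le zero_le_one (min_le_left _ _)⟩

theorem ck_lo {s : ℝ} (h : s ≤ 0) : ck s = 0 := by
  unfold ck
  rw [min_eq_right (h.trans zero_le_one), max_eq_left h]

theorem ck_hi {s : ℝ} (h : 1 ≤ s) : ck s = 1 := by
  unfold ck
  rw [min_eq_left h, max_eq_right zero_le_one]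

theorem ck_id {s : ℝ} (h : s ∈ Icc (0 : ℝ) 1) : ck s = s := by
  unfold ck
  rw [min_eq_right h.2, max_eq_right h.1]

theorem HP.of_Icc {Y W : Type} [TopologicalSpace Y] [TopologicalSpace W] {P : Y → W → Prop}
    (H : Y → ℝ → W) (hc : Continuous (fun z : Y × ℝ => H z.1 (ck z.2)))
    (hP : ∀ y, ∀ s ∈ Icc (0 : ℝ) 1, P y (H y s)) :
    HP P (fun y => H y 0) (fun y => H y 1) :=
  ⟨fun y s => H y (ck s), hc, fun y s hs => by simp only [ck_lo hs], fun y s hs => by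
    simp only [ck_hi hs], fun y s => hP y _ (ck_mem s)⟩

/-- evaluation is continuous for equi-Lipschitz functions -/
theorem ev_cont {Y X : Type} [TopologicalSpace Y] [MetricSpace X] {a : ℝ} {g : Y → ℝ → X}
    (hg : ∀ t, Continuous (fun y => g y t)) (hl : ∀ y s t, dist (g y s) (g y t) ≤ a * |s - t|)
    {x : Y → ℝ} (hx : Continuous x) : Continuous (fun y => g y (x y)) := by
  rw [continuous_iff_continuousAt]
  intro y₀
  unfold ContinuousAt
  rw [tendsto_iff_dist_tendsto_zero]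
  have h1 : Filter.Tendsto (fun y => a * |x y - x y₀| + dist (g y (x y₀)) (g y₀ (x y₀))) (𝓝 y₀)
      (𝓝 0) := by
    have h2 : Continuous (fun y => a * |x y - x y₀| + dist (g y (x y₀)) (g y₀ (x y₀))) :=
      (continuous_const.mul (hx.sub continuous_const).abs).add ((hg _).dist continuous_const)
    have h3 := h2.tendsto y₀
    simpa using h3
  refine squeeze_zero (fun _ => dist_nonneg) (fun y => ?_) h1
  exact (dist_triangle _ (g y (x y₀)) _).trans (by linarith [hl y (x y) (x y₀)])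

/-- the truncation of the time -/
def cl (lo hi t : ℝ) : ℝ := max lo (min hi t)

theorem cl_lip (lo hi s t : ℝ) : |cl lo hi s - cl lo hi t| ≤ |s - t| := by
  unfold cl
  have h1 := abs_max_sub_max_le_max lo (min hi s) lo (min hi t)
  have h2 := abs_min_sub_min_le_max hi s hi t
  rw [sub_self, abs_zero] at h1 h2
  exact h1.trans (max_le (abs_nonneg _) (h2.trans (max_le (abs_nonneg _) le_rfl)))

theorem cl_id {lo hi t : ℝ} (h1 : lo ≤ t) (h2 : t ≤ hi) : cl lo hi t = t := by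
  unfold cl
  rw [min_eq_right h2, max_eq_right h1]

theorem cl_lo {lo hi t : ℝ} (h1 : t ≤ lo) : cl lo hi t = lo := by
  unfold cl
  exact max_eq_left ((min_le_right _ _).trans h1)

theorem cl_hi {lo hi t : ℝ} (h : lo ≤ hi) (h1 : hi ≤ t) : cl lo hi t = hi := by
  unfold cl
  rw [min_eq_left h1, max_eq_right h]

section

variable {X : Type} [MetricSpace X] {ρ : X → X} {U : Set X} {M : ℕ} {a : ℝ} {J : Finset (Fin M)}

/-- the first mark -/
def tmin (hJ : J.Nonempty) (θ : Fin M → ℝ) : ℝ := J.inf' hJ θ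

/-- the last mark -/
def tmax (hJ : J.Nonempty) (θ : Fin M → ℝ) : ℝ := J.sup' hJ θ

/-- stage A -/
def stA (hJ : J.Nonempty) (z : Ps X M) (s : ℝ) : Ps X M :=
  (fun t => z.1 (cl (s * tmin hJ z.2) (1 - s * (1 - tmax hJ z.2)) t), z.2)

theorem tm_facts (hJ : J.Nonempty) {θ : Fin M → ℝ} (h : ∀ j, θ j ∈ Icc (0 : ℝ) 1) :
    0 ≤ tmin hJ θ ∧ tmin hJ θ ≤ tmax hJ θ ∧ tmax hJ θ ≤ 1 ∧
      (∃ j ∈ J, tmin hJ θ = θ j) ∧ (∃ j ∈ J, tmax hJ θ = θ j) ∧
      ∀ j ∈ J, tmin hJ θ ≤ θ j ∧ θ j ≤ tmax hJ θ := by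
  have h1 : ∀ j ∈ J, tmin hJ θ ≤ θ j ∧ θ j ≤ tmax hJ θ := fun j hj =>
    ⟨Finset.inf'_le _ hj, Finset.le_sup' _ hj⟩
  obtain ⟨i, hi, hi'⟩ := Finset.exists_mem_eq_inf' hJ θ
  obtain ⟨k, hk, hk'⟩ := Finset.exists_mem_eq_sup' hJ θ
  refine ⟨?_, (h1 i hi).1.trans (h1 i hi).2, ?_, ⟨i, hi, hi'⟩, ⟨k, hk, hk'⟩, h1⟩
  · unfold tmin
    rw [hi']
    exact (h i).1
  · unfold tmax
    rw [hk']
    exact (h k).2

theorem stA_W (hJ : J.Nonempty) (ha : 0 ≤ a) {z : Ps X M} (hz : z ∈ W ρ U a J) {s : ℝ}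
    (hs : s ∈ Icc (0 : ℝ) 1) : stA hJ z s ∈ W ρ U a J := by
  obtain ⟨h1, h2, h3, h4, h5, h6, h7⟩ := hz
  obtain ⟨m1, m2, m3, m4, m5, m6⟩ := tm_facts hJ h5
  have l1 : 0 ≤ s * tmin hJ z.2 := mul_nonneg hs.1 m1
  have l2 : s * tmin hJ z.2 ≤ tmin hJ z.2 := mul_le_of_le_one_left m1 hs.2
  have l3 : s * (1 - tmax hJ z.2) ≤ 1 - tmax hJ z.2 := mul_le_of_le_one_left (by linarith) hs.2
  have l4 : 0 ≤ s * (1 - tmax hJ z.2) := mul_nonneg hs.1 (by linarith)
  refine ⟨fun t u => ?_, fun t => h2 _, fun t ht => ?_, fun t ht => ?_, h5, h6, fun j hj => ?_⟩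
  · exact (h1 _ _).trans (mul_le_mul_of_nonneg_left (cl_lip _ _ _ _) ha)
  · simp only [stA]
    rw [cl_lo (t := t) (by linarith), cl_lo (t := 0) l1]
  · simp only [stA]
    rw [cl_hi (t := t) (by linarith) (by linarith), cl_hi (t := 1) (by linarith) (by linarith)]
  · simp only [stA]
    rw [cl_id (t := z.2 j) (by linarith [(m6 j hj).1]) (by linarith [(m6 j hj).2])]
    exact h7 j hj

theorem stA_TW (hJ : J.Nonempty) (ha : 0 ≤ a) {z : Ps X M} (hz : z ∈ W ρ U a J) :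
    stA hJ z 1 ∈ TW ρ U a J := by
  refine ⟨stA_W hJ ha hz ⟨zero_le_one, le_rfl⟩, fun t ht => ?_⟩
  obtain ⟨h1, h2, h3, h4, h5, h6, h7⟩ := hz
  obtain ⟨m1, m2, m3, ⟨i, hi, hi'⟩, ⟨k, hk, hk'⟩, m6⟩ := tm_facts hJ h5
  simp only [stA, one_mul, sub_sub_cancel]
  rcases ht with ht | ht
  · have : t ≤ tmin hJ z.2 := by
      rw [hi']
      exact ht i hi
    rw [cl_lo this, hi']
    exact h7 i hi
  · have : tmax hJ z.2 ≤ t := by
      rw [hk']
      exact ht k hk
    rw [cl_hi m2 this, hk']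
    exact h7 k hk

theorem stA_zero (hJ : J.Nonempty) {z : Ps X M} (hz : z ∈ W ρ U a J) : stA hJ z 0 = z := by
  obtain ⟨h1, h2, h3, h4, h5, h6, h7⟩ := hz
  refine Prod.ext (funext fun t => ?_) rfl
  simp only [stA, zero_mul, sub_zero]
  rcases le_total t 0 with h | h
  · rw [cl_lo h, h3 t h]
  rcases le_total t 1 with h' | h'
  · rw [cl_id h h']
  · rw [cl_hi zero_le_one h', h4 t h']

theorem stA_cont (hJ : J.Nonempty) :
    Continuous (fun q : ↥(W ρ U a J) × ℝ => stA hJ q.1.1 (ck q.2)) := by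
  have c0 : Continuous (fun q : ↥(W ρ U a J) × ℝ => q.1.1.1) :=
    continuous_fst.comp (continuous_subtype_val.comp continuous_fst)
  have c1 : Continuous (fun q : ↥(W ρ U a J) × ℝ => q.1.1.2) :=
    continuous_snd.comp (continuous_subtype_val.comp continuous_fst)
  have c2 : Continuous (fun q : ↥(W ρ U a J) × ℝ => ck q.2) := ck_cont.comp continuous_snd
  have c3 : Continuous (fun q : ↥(W ρ U a J) × ℝ => tmin hJ q.1.1.2) := by
    unfold tmin
    exact Continuous.finset_inf'_apply hJ fun j _ => (continuous_apply j).comp c1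
  have c4 : Continuous (fun q : ↥(W ρ U a J) × ℝ => tmax hJ q.1.1.2) := by
    unfold tmax
    exact Continuous.finset_sup'_apply hJ fun j _ => (continuous_apply j).comp c1
  refine Continuous.prodMk (continuous_pi fun t => ?_) c1
  refine ev_cont (g := fun q : ↥(W ρ U a J) × ℝ => q.1.1.1) (a := a)
    (fun t => (continuous_apply t).comp c0) (fun q => q.1.2.1) ?_
  unfold cl
  exact (c2.mul c3).max ((continuous_const.sub (c2.mul (continuous_const.sub c4))).min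
    continuous_const)

theorem const_W (ha : 0 ≤ a) {y : X} (hy : y ∈ U) (hρ : ρ y = y) {θ : Fin M → ℝ}
    (h5 : ∀ j, θ j ∈ Icc (0 : ℝ) 1) (h6 : ∀ i ∈ J, ∀ j ∈ J, i ≤ j → θ i ≤ θ j) :
    ((fun _ => y, θ) : Ps X M) ∈ W ρ U a J :=
  ⟨fun s t => by
    rw [dist_self]
    exact mul_nonneg ha (abs_nonneg _), fun _ => hy, fun _ _ => rfl, fun _ _ => rfl, h5, h6,
    fun _ _ => hρ⟩

theorem W_NW {η : ℝ} (hη : 0 ≤ η) {z : Ps X M} (hz : z ∈ W ρ U a J) : z ∈ NW ρ U a η J := by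
  obtain ⟨h1, h2, h3, h4, h5, h6, h7⟩ := hz
  refine ⟨h1, h2, h3, h4, h5, h6, fun j hj => ?_⟩
  rw [h7 j hj, dist_self]
  exact hη

theorem W_mono {a' : ℝ} (h : a ≤ a') {z : Ps X M} (hz : z ∈ W ρ U a J) : z ∈ W ρ U a' J := by
  obtain ⟨h1, h2⟩ := hz
  exact ⟨fun s t => (h1 s t).trans (mul_le_mul_of_nonneg_right h (abs_nonneg _)), h2⟩

end

end Pool.Agent.N489.RW.PHI

namespace Pool.Agent.N489.RW

open Pool.Agent.Y489.GE Pool.Agent.R203.IF Pool.Agent.N489.RW.PHI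

/-- RW/PHI -/
theorem t_PHI (hS : S_SEL) (hL : S_LFT) (hC : S_COR) : S_PHI := by
  intro X _ ρ U M r hm hmf hbf r' m hgm hr' hrr a a' ha haa hop J hJ
  obtain ⟨η, hη, hη1, hη2⟩ : ∃ η : ℝ, 0 < η ∧ η ≤ r' ∧ a + M * η ≤ a' := by
    have h1 : 0 < (a' - a) / (M + 1) := div_pos (by linarith) (by positivity)
    refine ⟨min r' ((a' - a) / (M + 1)), lt_min hr' h1, min_le_left _ _, ?_⟩
    have h2 : (M : ℝ) * min r' ((a' - a) / (M + 1)) ≤ M * ((a' - a) / (M + 1)) :=
      mul_le_mul_of_nonneg_left (min_le_right _ _) (Nat.cast_nonneg _)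
    have h3 : (M : ℝ) * ((a' - a) / (M + 1)) ≤ (M + 1) * ((a' - a) / (M + 1)) :=
      mul_le_mul_of_nonneg_right (by linarith) h1.le
    have h4 : ((M : ℝ) + 1) * ((a' - a) / (M + 1)) = a' - a := by field_simp
    linarith
  obtain ⟨T, hTc, hT⟩ := hS X ρ U M r hbf a η ha.le hη
  obtain ⟨L, hLc, hL⟩ := hL X ρ U M r hm hbf a ha.le J hJ
  obtain ⟨C, hCc, hC⟩ := hC X ρ U r hm hmf r' m hgm hrr M a η ha hη hη1 J
  obtain ⟨c, Ψ, p1, p2, p3, p4, p5⟩ := hop
  -- the stages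
  have hC' : ∀ z ∈ NW ρ U a η J, C z ∈ W ρ U a' J := fun z hz => W_mono hη2 (hC z hz).1
  have hCi : ∀ z ∈ W ρ U a J, C z = z := fun z hz => (hC z (W_NW hη.le hz)).2 hz
  have hTW : ∀ z : ↥(W ρ U a J), stA hJ z.1 1 ∈ TW ρ U a J := fun z => stA_TW hJ ha.le z.2
  obtain ⟨D, hD⟩ : ∃ D : ↥(W ρ U a J) → ↥(OP ρ U M a), ∀ z, D z = ⟨L (stA hJ z.1 1),
    (hL _ (hTW z)).1⟩ := ⟨fun z => ⟨L (stA hJ z.1 1), (hL _ (hTW z)).1⟩, fun _ => rfl⟩
  have hDv : ∀ z, (D z).1 = L (stA hJ z.1 1) := fun z => by rw [hD]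
  have cA1 : Continuous (fun z : ↥(W ρ U a J) => stA hJ z.1 1) := by
    have h1 := (stA_cont (X := X) (ρ := ρ) (U := U) (a := a) hJ).comp
      (continuous_id.prodMk (continuous_const (y := (1 : ℝ))))
    have h2 : ck 1 = 1 := ck_hi le_rfl
    simp only [Function.comp_def, id, h2] at h1
    exact h1
  have cD : Continuous D := by
    rw [Topology.IsInducing.subtypeVal.continuous_iff]
    have h1 : Continuous (fun z : ↥(W ρ U a J) => L (stA hJ z.1 1)) :=
      hLc.comp_continuous cA1 hTW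
    refine h1.congr fun z => ?_
    rw [Function.comp_apply, hDv]
  have hDun : ∀ z t, un ((D z).1 t) = (stA hJ z.1 1).1 t := by
    intro z t
    rw [hDv]
    exact (hL _ (hTW z)).2.1 t
  -- facts about ordered paths
  have hE : ∀ e ∈ OP ρ U M a, ((fun t => un (e t), T e) : Ps X M) ∈ NW ρ U a η J := by
    intro e he
    obtain ⟨t1, t2, t3, t4⟩ := hT e he
    obtain ⟨e1, e2, e3, e4, e5, e6, e7⟩ := he
    refine ⟨fun s t => (hbf.unL _ _).trans (e1 s t), fun t => hbf.unU _, fun t ht => ?_,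
      fun t ht => ?_, t1, fun i _ j _ hij => t2 i j hij, fun j _ => ?_⟩
    · simp only [e2 t ht]
    · simp only [e3 t ht]
    · simp only
      rw [← hbf.dsw]
      exact t3 j
  -- the property of all values
  obtain ⟨P, hP⟩ : ∃ P : ↥(W ρ U a J) → Ps X M → Prop, ∀ z w, P z w ↔ (w ∈ W ρ U a' J ∧
    ((∀ t, z.1.1 t = z.1.1 0) → ∀ t, w.1 t = z.1.1 0)) := ⟨_, fun _ _ => Iff.rfl⟩
  -- facts about constant paths
  have hK1 : ∀ z : ↥(W ρ U a J), (∀ t, z.1.1 t = z.1.1 0) → ρ (z.1.1 0) = z.1.1 0 := by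
    intro z hz
    obtain ⟨j, hj⟩ := hJ
    have h1 := z.2.2.2.2.2.2.2 j hj
    rw [hz] at h1
    exact h1
  have hK2 : ∀ z : ↥(W ρ U a J), (∀ t, z.1.1 t = z.1.1 0) → ∀ t, (D z).1 t = (D z).1 0 := by
    intro z hz t
    have h1 : ∀ t, un ((D z).1 t) = z.1.1 0 := by
      intro t
      rw [hDun]
      exact hz _
    have h2 : ∀ t, (D z).1 t ∈ Pg (0, true) := by
      intro t
      refine hbf.pgF' _ ((hbf.pgF _).mpr ?_) _
      rw [h1]
      exact hK1 z hz
    rw [← dist_le_zero, hbf.pgI _ _ _ (h2 t) (h2 0), h1, h1, dist_self]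
  -- stage A
  have hA : HP P (fun z => stA hJ z.1 0) (fun z => stA hJ z.1 1) := by
    refine HP.of_Icc (fun (z : ↥(W ρ U a J)) s => stA hJ z.1 s) (stA_cont hJ) fun z s hs => ?_
    rw [hP]
    exact ⟨W_mono haa.le (stA_W hJ ha.le z.2 hs), fun h t => h _⟩
  -- stage B
  obtain ⟨bB, hbB⟩ : ∃ bB : ↥(W ρ U a J) → ℝ → Ps X M, ∀ z s, bB z s =
      ((stA hJ z.1 1).1, fun j => (1 - s) * z.1.2 j + s * T (D z).1 j) := ⟨_, fun _ _ => rfl⟩
  have cTD : Continuous (fun z : ↥(W ρ U a J) => T (D z).1) :=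
    hTc.comp_continuous (continuous_subtype_val.comp cD) fun z => (D z).2
  have hbBW : ∀ z, ∀ s ∈ Icc (0 : ℝ) 1, (∀ j, (bB z s).2 j ∈ Icc (0 : ℝ) 1) ∧
      (∀ i ∈ J, ∀ j ∈ J, i ≤ j → (bB z s).2 i ≤ (bB z s).2 j) := by
    intro z s hs
    obtain ⟨t1, t2, t3, t4⟩ := hT (D z).1 (D z).2
    obtain ⟨h1, h2, h3, h4, h5, h6, h7⟩ := z.2
    rw [hbB]
    refine ⟨fun j => ?_, fun i hi j hj hij => ?_⟩
    · have h8 : 0 ≤ (1 - s) * z.1.2 j := mul_nonneg (by linarith [hs.2]) (h5 j).1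
      have h9 : 0 ≤ s * T (D z).1 j := mul_nonneg hs.1 (t1 j).1
      have h10 : (1 - s) * z.1.2 j ≤ 1 - s :=
        mul_le_of_le_one_right (by linarith [hs.2]) (h5 j).2
      have h11 : s * T (D z).1 j ≤ s := mul_le_of_le_one_right hs.1 (t1 j).2
      exact ⟨by simp only; linarith, by simp only; linarith⟩
    · simp only
      have h8 := mul_le_mul_of_nonneg_left (h6 i hi j hj hij) (show 0 ≤ 1 - s by linarith [hs.2])
      have h9 := mul_le_mul_of_nonneg_left (t2 i j hij) hs.1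
      linarith
  have hbBN : ∀ z, ∀ s ∈ Icc (0 : ℝ) 1, bB z s ∈ NW ρ U a η J := by
    intro z s hs
    obtain ⟨q1, q2⟩ := hbBW z s hs
    obtain ⟨h1, h2, h3, h4, h5, h6, h7⟩ := stA_W hJ ha.le z.2 (show (1 : ℝ) ∈ Icc (0 : ℝ) 1 from
      ⟨zero_le_one, le_rfl⟩)
    obtain ⟨t1, t2, t3, t4⟩ := hT (D z).1 (D z).2
    rw [hbB] at q1 q2 ⊢
    refine ⟨h1, h2, h3, h4, q1, q2, fun j hj => ?_⟩
    simp only
    rw [← hDun, ← hbf.dsw]
    have h8 := (hL _ (hTW z)).2.2 j hj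
    rw [← hDv] at h8
    refine t4 j (z.1.2 j) (z.2.2.2.2.2.1 j) h8.1 h8.2 _ ?_
    rw [mem_uIcc]
    rcases le_total (z.1.2 j) (T (D z).1 j) with h | h
    · left
      constructor
      · nlinarith [hs.1, hs.2]
      · nlinarith [hs.1, hs.2]
    · right
      constructor
      · nlinarith [hs.1, hs.2]
      · nlinarith [hs.1, hs.2]
  have cB : Continuous (fun q : ↥(W ρ U a J) × ℝ => bB q.1 (ck q.2)) := by
    have c1 : Continuous (fun q : ↥(W ρ U a J) × ℝ => ck q.2) := ck_cont.comp continuous_snd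
    simp_rw [hbB]
    refine (continuous_fst.comp (cA1.comp continuous_fst)).prodMk (continuous_pi fun j => ?_)
    refine ((continuous_const.sub c1).mul ?_).add (c1.mul ?_)
    · exact (continuous_apply j).comp (continuous_snd.comp (continuous_subtype_val.comp
        continuous_fst))
    · exact (continuous_apply j).comp (cTD.comp continuous_fst)
  have hB : HP P (fun z => C (bB z 0)) (fun z => C (bB z 1)) := by
    refine HP.of_Icc (fun z s => C (bB z s)) ?_ fun z s hs => ?_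
    · exact hCc.comp_continuous cB fun q => hbBN _ _ (ck_mem _)
    rw [hP]
    refine ⟨hC' _ (hbBN z s hs), fun h t => ?_⟩
    obtain ⟨q1, q2⟩ := hbBW z s hs
    have h1 : bB z s = ((fun _ => z.1.1 0, (bB z s).2) : Ps X M) := by
      refine Prod.ext (funext fun t => ?_) rfl
      rw [hbB]
      exact h _
    rw [hCi (bB z s) (by
      rw [h1]
      exact const_W ha.le (z.2.2.1 0) (hK1 z h) q1 q2), h1]
  -- stage C
  obtain ⟨bC, hbC⟩ : ∃ bC : ↥(W ρ U a J) → ℝ → Ps X M, ∀ z s, bC z s =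
      (fun t => un (Ψ (D z) s t), T (Ψ (D z) s)) := ⟨_, fun _ _ => rfl⟩
  have cun : Continuous (un : Bk ρ U M → X) := by
    have : LipschitzWith 1 (un : Bk ρ U M → X) :=
      LipschitzWith.of_dist_le_mul fun b c => by
        rw [NNReal.coe_one, one_mul]
        exact hbf.unL b c
    exact this.continuous
  have cΨ : Continuous (fun q : ↥(W ρ U a J) × ℝ => Ψ (D q.1) (ck q.2)) :=
    p1.comp ((cD.comp continuous_fst).prodMk (ck_cont.comp continuous_snd))
  have cC : Continuous (fun q : ↥(W ρ U a J) × ℝ => bC q.1 (ck q.2)) := by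
    simp_rw [hbC]
    refine Continuous.prodMk (continuous_pi fun t => ?_) ?_
    · exact cun.comp ((continuous_apply t).comp cΨ)
    · exact hTc.comp_continuous cΨ fun q => p2 _ _
  have hC2 : HP P (fun z => C (bC z 0)) (fun z => C (bC z 1)) := by
    refine HP.of_Icc (fun z s => C (bC z s)) ?_ fun z s hs => ?_
    · refine hCc.comp_continuous cC fun q => ?_
      rw [hbC]
      exact hE _ (p2 _ _)
    rw [hP, hbC]
    refine ⟨hC' _ (hE _ (p2 _ _)), fun h t => ?_⟩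
    have h1 : Ψ (D z) s = (D z).1 := p5 (D z) (hK2 z h) s
    rw [h1]
    have h2 : (fun t => un ((D z).1 t)) = fun _ => z.1.1 0 := by
      funext t
      rw [hDun]
      exact h _
    obtain ⟨t1, t2, t3, t4⟩ := hT (D z).1 (D z).2
    rw [h2, hCi _ (const_W ha.le (z.2.2.1 0) (hK1 z h) t1 fun i _ j _ hij => t2 i j hij)]
  -- gluing
  have g1 : (fun z : ↥(W ρ U a J) => stA hJ z.1 0) = fun z => z.1 := by
    funext z
    exact stA_zero hJ z.2
  have g2 : (fun z : ↥(W ρ U a J) => C (bB z 0)) = fun z => stA hJ z.1 1 := by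
    funext z
    have h1 : bB z 0 = stA hJ z.1 1 := by
      rw [hbB]
      refine Prod.ext rfl (funext fun j => ?_)
      simp only [stA]
      ring
    rw [h1]
    exact hCi _ (stA_W hJ ha.le z.2 ⟨zero_le_one, le_rfl⟩)
  have g3 : (fun z : ↥(W ρ U a J) => C (bC z 0)) = fun z => C (bB z 1) := by
    funext z
    congr 1
    rw [hbC, hbB, p3 _ _ le_rfl]
    refine Prod.ext (funext fun t => ?_) (funext fun j => ?_)
    · exact hDun z t
    · simp only
      ring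
  rw [g1] at hA
  rw [g2] at hB
  rw [g3] at hC2
  obtain ⟨H, H1, H2, H3, H4⟩ := hA.trans (hB.trans hC2)
  refine ⟨H, H1, fun z s => ((hP _ _).mp (H4 z s)).1, H2, fun z s hs t => ?_,
    fun z hz s t => ((hP _ _).mp (H4 z s)).2 hz t⟩
  rw [H3 z s hs]
  show (C (bC z 1)).1 t = (C (bC z 1)).1 0
  rw [hbC, p4 _ _ le_rfl]
  have h1 : (fun _ : ℝ => c (D z)) ∈ OP ρ U M a := by
    have := p2 (D z) 1
    rwa [p4 _ _ le_rfl] at this
  obtain ⟨t1, t2, t3, t4⟩ := hT _ h1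
  have h2 : sw (c (D z)) = c (D z) := h1.2.2.2.1
  rw [hCi _ (const_W ha.le (hbf.unU _) ((hbf.pgF _).mp h2) t1 fun i _ j _ hij => t2 i j hij)]

end Pool.Agent.N489.RW

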