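import Pool.Agent.N489.RW.Stm
import Pool.Agent.Y50.GE.Om

/-! # RW-PSI: from ordered polygons to ordered paths (helper769, project RW of helper489) -/

set_option autoImplicit false

open Set Topology

noncomputable section

namespace Pool.Agent.N489.RW

open Pool.Agent.Y489.GE Pool.Agent.R203.IF Pool.Agent.Y50.GE

namespace PSI

variable {X : Type} [MetricSpace X] {ρ : X → X} {U : Set X} {M : ℕ} {r : ℝ}

/-! ## the order -/

theorem lo_or_hi {b : Bk ρ U M} (hb : b ∈ (Po : Set (Bk ρ U M))) (j : Fin M) :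
    b ∈ (Lo j : Set (Bk ρ U M)) ∨ b ∈ (Hi j : Set (Bk ρ U M)) := by
  obtain ⟨p, hp⟩ := hb
  rcases le_or_gt p j.castSucc with h | h
  · exact Or.inl ⟨p, h, hp⟩
  · exact Or.inr ⟨p, Fin.castSucc_lt_iff_succ_le.1 h, hp⟩

theorem po_conv (hB : BF X ρ U M r) {x y z : Bk ρ U M} (hx : x ∈ (Po : Set (Bk ρ U M)))
    (hy : y ∈ (Po : Set (Bk ρ U M))) (hxy : dist x y < r)
    (hz : dist x z + dist z y = dist x y) : z ∈ (Po : Set (Bk ρ U M)) := by
  obtain ⟨p, hp⟩ := hx
  obtain ⟨q, hq⟩ := hy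
  rcases hB.conv _ _ x y z hp hq hxy hz with h | h
  · exact ⟨p, h⟩
  · exact ⟨q, h⟩

theorem lo_conv (hB : BF X ρ U M r) {j : Fin M} {x y z : Bk ρ U M}
    (hx : x ∈ (Lo j : Set (Bk ρ U M))) (hy : y ∈ (Lo j : Set (Bk ρ U M))) (hxy : dist x y < r)
    (hz : dist x z + dist z y = dist x y) : z ∈ (Lo j : Set (Bk ρ U M)) := by
  obtain ⟨p, hpj, hp⟩ := hx
  obtain ⟨q, hqj, hq⟩ := hy
  rcases hB.conv _ _ x y z hp hq hxy hz with h | h
  · exact ⟨p, hpj, h⟩
  · exact ⟨q, hqj, h⟩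

theorem hi_conv (hB : BF X ρ U M r) {j : Fin M} {x y z : Bk ρ U M}
    (hx : x ∈ (Hi j : Set (Bk ρ U M))) (hy : y ∈ (Hi j : Set (Bk ρ U M))) (hxy : dist x y < r)
    (hz : dist x z + dist z y = dist x y) : z ∈ (Hi j : Set (Bk ρ U M)) := by
  obtain ⟨p, hpj, hp⟩ := hx
  obtain ⟨q, hqj, hq⟩ := hy
  rcases hB.conv _ _ x y z hp hq hxy hz with h | h
  · exact ⟨p, hpj, h⟩
  · exact ⟨q, hqj, h⟩

/-- two points of one side -/
theorem ordA (hB : BF X ρ U M r) {j : Fin M} {x y z w : Bk ρ U M} (hxy : dist x y < r)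
    (hx : x ∈ (Po : Set (Bk ρ U M))) (hy : y ∈ (Po : Set (Bk ρ U M)))
    (ho : x ∈ (Lo j : Set (Bk ρ U M)) ∨ y ∈ (Hi j : Set (Bk ρ U M)))
    (hz : dist x z + dist z y = dist x y) (hw : dist x w + dist w y = dist x y)
    (hzw : dist z w + dist w y = dist z y) :
    z ∈ (Lo j : Set (Bk ρ U M)) ∨ w ∈ (Hi j : Set (Bk ρ U M)) := by
  have hzy : dist z y < r := by
    have : (0 : ℝ) ≤ dist x z := dist_nonneg
    linarith
  have mixed : x ∈ (Lo j : Set (Bk ρ U M)) → y ∈ (Hi j : Set (Bk ρ U M)) →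
      z ∈ (Lo j : Set (Bk ρ U M)) ∨ w ∈ (Hi j : Set (Bk ρ U M)) := by
    rintro ⟨p, hpj, hp⟩ ⟨q, hqj, hq⟩
    rcases hB.conv _ _ x y z hp hq hxy hz with h | h
    · exact Or.inl ⟨p, hpj, h⟩
    · rcases hB.conv _ _ z y w h hq hzy hzw with h' | h'
      · exact Or.inr ⟨q, hqj, h'⟩
      · exact Or.inr ⟨q, hqj, h'⟩
  rcases ho with ho | ho
  · rcases lo_or_hi hy j with h | h
    · exact Or.inl (lo_conv hB ho h hxy hz)
    · exact mixed ho h
  · rcases lo_or_hi hx j with h | h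
    · exact mixed h ho
    · exact Or.inr (hi_conv hB h ho hxy hw)

/-- points of two different sides -/
theorem ordB (hB : BF X ρ U M r) {j : Fin M} {x y x' y' z w : Bk ρ U M} (hxy : dist x y < r)
    (hxy' : dist x' y' < r)
    (hz : dist x z + dist z y = dist x y) (hw : dist x' w + dist w y' = dist x' y')
    (h1 : x ∈ (Lo j : Set (Bk ρ U M)) ∨ x' ∈ (Hi j : Set (Bk ρ U M)))
    (h2 : x ∈ (Lo j : Set (Bk ρ U M)) ∨ y' ∈ (Hi j : Set (Bk ρ U M)))
    (h3 : y ∈ (Lo j : Set (Bk ρ U M)) ∨ x' ∈ (Hi j : Set (Bk ρ U M)))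
    (h4 : y ∈ (Lo j : Set (Bk ρ U M)) ∨ y' ∈ (Hi j : Set (Bk ρ U M))) :
    z ∈ (Lo j : Set (Bk ρ U M)) ∨ w ∈ (Hi j : Set (Bk ρ U M)) := by
  by_cases hx : x ∈ (Lo j : Set (Bk ρ U M))
  · by_cases hy : y ∈ (Lo j : Set (Bk ρ U M))
    · exact Or.inl (lo_conv hB hx hy hxy hz)
    · exact Or.inr (hi_conv hB (h3.resolve_left hy) (h4.resolve_left hy) hxy' hw)
  · exact Or.inr (hi_conv hB (h1.resolve_left hx) (h2.resolve_left hx) hxy' hw)

/-! ## the clamp -/

/-- the clamp to `[0, 1]` -/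
def cp (t : ℝ) : ℝ := max 0 (min t 1)

theorem cp_mem (t : ℝ) : cp t ∈ Icc (0 : ℝ) 1 :=
  ⟨le_max_left _ _, max_le zero_le_one (min_le_right _ _)⟩

theorem cp_mono {s t : ℝ} (h : s ≤ t) : cp s ≤ cp t :=
  max_le_max le_rfl (min_le_min h le_rfl)

theorem cp_lip (s t : ℝ) : |cp s - cp t| ≤ |s - t| := by
  unfold cp
  rw [max_comm 0, max_comm 0]
  refine (abs_max_sub_max_le_abs _ _ _).trans ((abs_min_sub_min_le_max _ _ _ _).trans ?_)
  rw [sub_self, abs_zero, max_eq_left (abs_nonneg _)]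

theorem cp_of_le {t : ℝ} (h : t ≤ 0) : cp t = 0 := by
  unfold cp
  rw [min_eq_left (by linarith), max_eq_left h]

theorem cp_of_ge {t : ℝ} (h : 1 ≤ t) : cp t = 1 := by
  unfold cp
  rw [min_eq_right h, max_eq_right zero_le_one]

theorem cp_of_mem {t : ℝ} (h : t ∈ Icc (0 : ℝ) 1) : cp t = t := by
  unfold cp
  rw [min_eq_left h.2, max_eq_right h.1]

/-- a criterion for ordered paths -/
theorem op_mk {a : ℝ} (ha : 0 ≤ a) (f : ℝ → Bk ρ U M) (hL : ∀ s t, dist (f s) (f t) ≤ a * |s - t|)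
    (h0 : sw (f 0) = f 0) (h1 : sw (f 1) = f 1)
    (hP : ∀ t ∈ Icc (0 : ℝ) 1, f t ∈ (Po : Set (Bk ρ U M)))
    (hO : ∀ (j : Fin M), ∀ s ∈ Icc (0 : ℝ) 1, ∀ t ∈ Icc (0 : ℝ) 1, s ≤ t →
      f s ∈ (Lo j : Set (Bk ρ U M)) ∨ f t ∈ (Hi j : Set (Bk ρ U M))) :
    (fun t => f (cp t)) ∈ OP ρ U M a := by
  refine ⟨fun s t => (hL _ _).trans (mul_le_mul_of_nonneg_left (cp_lip s t) ha), fun t ht => ?_,
    fun t ht => ?_, ?_, ?_, fun t => hP _ (cp_mem t), fun j s t hst =>
      hO j _ (cp_mem s) _ (cp_mem t) (cp_mono hst)⟩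
  · beta_reduce
    rw [cp_of_le ht, cp_of_le le_rfl]
  · beta_reduce
    rw [cp_of_ge ht, cp_of_ge le_rfl]
  · beta_reduce
    rw [cp_of_le le_rfl]
    exact h0
  · beta_reduce
    rw [cp_of_ge le_rfl]
    exact h1

/-! ## the index of the side -/

/-- the index of the side -/
def idx (N : ℕ) (u : ℝ) : ℕ := min ⌊u⌋₊ (N - 1)

theorem idx_mono (N : ℕ) {u v : ℝ} (h : u ≤ v) : idx N u ≤ idx N v :=
  min_le_min (Nat.floor_mono h) le_rfl

theorem idx_lt {N : ℕ} (hN : 0 < N) (u : ℝ) : idx N u + 1 ≤ N := by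
  unfold idx
  omega

theorem idx_mem {N : ℕ} (hN : 0 < N) {u : ℝ} (hu : u ∈ Icc (0 : ℝ) N) :
    u ∈ Icc (idx N u : ℝ) (idx N u + 1) := by
  have h1 := Nat.floor_le hu.1
  have h2 := Nat.lt_floor_add_one u
  unfold idx
  rcases le_total ⌊u⌋₊ (N - 1) with h | h
  · rw [min_eq_left h]
    exact ⟨h1, h2.le⟩
  · rw [min_eq_right h]
    have h3 : ((N - 1 : ℕ) : ℝ) + 1 = N := by
      have : N - 1 + 1 = N := by omega
      exact_mod_cast this
    have h4 : ((N - 1 : ℕ) : ℝ) ≤ ⌊u⌋₊ := by exact_mod_cast h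
    exact ⟨by linarith, by linarith [hu.2]⟩

/-! ## betweenness on the sides -/

section

variable {r' : ℝ} {m : Bk ρ U M → Bk ρ U M → ℝ → Bk ρ U M}

theorem btw (hm : GMap (Bk ρ U M) r' m) {x y : Bk ρ U M} (h : dist x y ≤ r') {t : ℝ}
    (ht : t ∈ Icc (0 : ℝ) 1) : dist x (m x y t) + dist (m x y t) y = dist x y := by
  rw [hm.dist_left h ht, hm.dist_right h ht]
  ring

theorem btw2 (hm : GMap (Bk ρ U M) r' m) {x y : Bk ρ U M} (h : dist x y ≤ r') {s t : ℝ}
    (hs : s ∈ Icc (0 : ℝ) 1) (ht : t ∈ Icc (0 : ℝ) 1) (hst : s ≤ t) :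
    dist (m x y s) (m x y t) + dist (m x y t) y = dist (m x y s) y := by
  rw [hm.dist_right h hs, hm.dist_right h ht, hm.dist_eq x y h s hs t ht, abs_sub_comm,
    abs_of_nonneg (by linarith)]
  ring

theorem btw0 (x : Bk ρ U M) : dist x x + dist x x = dist x x := by
  rw [dist_self, add_zero]

end

/-! ## the double of a path -/

/-- the double of a path -/
def dbl (a : ℝ) (d : ℝ → Bk ρ U M) (τ : ℝ) : Bk ρ U M :=
  if τ ≤ a then d (τ / a) else sw (d ((2 * a - τ) / a))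

theorem dbl_lo {a : ℝ} {d : ℝ → Bk ρ U M} {τ : ℝ} (h : τ ≤ a) : dbl a d τ = d (τ / a) := if_pos h

theorem dbl_cont (hB : BF X ρ U M r) {Z : Type} [TopologicalSpace Z] {F : Z → ℝ → Bk ρ U M}
    (hF : Continuous F) (a : ℝ) : Continuous fun z => dbl a (F z) := by
  rw [continuous_pi_iff]
  intro τ
  unfold dbl
  split_ifs
  · exact (continuous_apply _).comp hF
  · exact hB.swI.continuous.comp ((continuous_apply _).comp hF)

section

variable (hB : BF X ρ U M r) {a : ℝ} (ha : 0 < a) {d : ℝ → Bk ρ U M} (hd : d ∈ OP ρ U M a)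

include hB ha hd

theorem d_lip (s t : ℝ) : dist (d (s / a)) (d (t / a)) ≤ |s - t| := by
  refine (hd.1 _ _).trans (le_of_eq ?_)
  rw [← sub_div, abs_div, abs_of_pos ha]
  field_simp

theorem dbl_lip (s t : ℝ) : dist (dbl a d s) (dbl a d t) ≤ |s - t| := by
  have key : ∀ s t, s ≤ a → a < t → dist (dbl a d s) (dbl a d t) ≤ |s - t| := by
    intro s t hs ht
    unfold dbl
    rw [if_pos hs, if_neg (not_le.2 ht)]
    have e1 : d (a / a) = d 1 := by rw [div_self ha.ne']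
    have h1 : dist (d (s / a)) (d 1) ≤ a - s := by
      have := d_lip hB ha hd s a
      rw [e1] at this
      refine this.trans (le_of_eq ?_)
      rw [abs_sub_comm, abs_of_nonneg (by linarith)]
    have h2 : dist (d 1) (sw (d ((2 * a - t) / a))) ≤ t - a := by
      have h3 := d_lip hB ha hd a (2 * a - t)
      rw [e1, ← hB.swI.dist_eq, hd.2.2.2.2.1] at h3
      refine h3.trans (le_of_eq ?_)
      rw [show a - (2 * a - t) = t - a by ring, abs_of_nonneg (by linarith)]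
    have h3 : |s - t| = t - s := by rw [abs_sub_comm, abs_of_nonneg (by linarith)]
    rw [h3]
    linarith [dist_triangle (d (s / a)) (d 1) (sw (d ((2 * a - t) / a)))]
  rcases le_or_gt s a with hs | hs <;> rcases le_or_gt t a with ht | ht
  · rw [dbl_lo hs, dbl_lo ht]
    exact d_lip hB ha hd s t
  · exact key s t hs ht
  · rw [dist_comm, abs_sub_comm]
    exact key t s ht hs
  · unfold dbl
    rw [if_neg (not_le.2 hs), if_neg (not_le.2 ht), hB.swI.dist_eq]
    refine (d_lip hB ha hd _ _).trans (le_of_eq ?_)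
    rw [show 2 * a - s - (2 * a - t) = -(s - t) by ring, abs_neg]

theorem dbl_mem : dbl a d ∈ Om (d 0) (2 * a) := by
  refine ⟨dbl_lip hB ha hd, fun t ht => ?_, fun t ht => ?_⟩
  · rw [dbl_lo (by linarith)]
    exact hd.2.1 _ (div_nonpos_of_nonpos_of_nonneg ht ha.le)
  · unfold dbl
    rw [if_neg (by linarith), hd.2.1 _ (div_nonpos_of_nonpos_of_nonneg (by linarith) ha.le)]
    exact hd.2.2.2.1

theorem dbl_symm (τ : ℝ) : dbl a d (2 * a - τ) = sw (dbl a d τ) := by
  rcases lt_trichotomy τ a with h | h | h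
  · unfold dbl
    rw [if_neg (by linarith), if_pos h.le]
    congr 2
    ring
  · subst h
    have e : 2 * τ - τ = τ := by ring
    rw [e, dbl_lo le_rfl, div_self ha.ne']
    exact hd.2.2.2.2.1.symm
  · unfold dbl
    rw [if_pos (by linarith), if_neg (by linarith), hB.sw2]

theorem samp_sym {N : ℕ} [NeZero N] [NeZero (2 * N)] {δ : ℝ} (hδ : 0 ≤ δ) (hNδ : N * δ = a) :
    samp (2 * N) δ (dbl a d) ∈ Sym (Bk ρ U M) sw N δ := by
  have hN2 : ((2 * N : ℕ) : ℝ) * δ = 2 * a := by push_cast; rw [← hNδ]; ring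
  have hem := dbl_mem hB ha hd
  have h1 := samp_mem (p := d 0) hδ hN2 hem
  refine ⟨h1.1, fun i => ?_⟩
  have hv := ZMod.val_lt i
  have e1 : i = (((i.val : ℤ)) : ZMod (2 * N)) := by
    rw [Int.cast_natCast, ZMod.natCast_zmod_val]
  have e2 : -i = (((2 * N : ℕ) : ℤ) - (i.val : ℤ) : ℤ) := by
    push_cast
    rw [ZMod.natCast_zmod_val]
    have : ((2 * N : ℕ) : ZMod (2 * N)) = 0 := ZMod.natCast_self _
    push_cast at this
    rw [this, zero_sub]
  have k1 := samp_int (p := d 0) hN2 hem (n := (i.val : ℤ)) (by omega) (by omega)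
  have k2 := samp_int (p := d 0) hN2 hem (n := ((2 * N : ℕ) : ℤ) - (i.val : ℤ)) (by omega)
    (by omega)
  rw [← e1] at k1
  rw [← e2] at k2
  rw [k1, k2, ← dbl_symm hB ha hd]
  congr 1
  push_cast
  rw [← hNδ]
  ring

theorem samp_nat {N : ℕ} [NeZero N] [NeZero (2 * N)] {δ : ℝ} (hδ : 0 ≤ δ) (hNδ : N * δ = a)
    {i : ℕ} (hi : i ≤ N) : samp (2 * N) δ (dbl a d) (i : ZMod (2 * N)) = d (i * δ / a) := by
  have hN2 : ((2 * N : ℕ) : ℝ) * δ = 2 * a := by push_cast; rw [← hNδ]; ring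
  have k1 := samp_int (p := d 0) hN2 (dbl_mem hB ha hd) (n := (i : ℤ)) (by omega) (by omega)
  rw [Int.cast_natCast, Int.cast_natCast] at k1
  rw [k1]
  refine dbl_lo ?_
  rw [← hNδ]
  have : (i : ℝ) ≤ N := by exact_mod_cast hi
  exact mul_le_mul_of_nonneg_right this hδ

theorem samp_opol {N : ℕ} [NeZero N] [NeZero (2 * N)] {δ : ℝ} (hδ : 0 ≤ δ) (hNδ : N * δ = a) :
    samp (2 * N) δ (dbl a d) ∈ OPol ρ U M N δ := by
  refine ⟨samp_sym hB ha hd hδ hNδ, fun i hi => ?_, fun j i k hik hk => ?_⟩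
  · rw [samp_nat hB ha hd hδ hNδ hi]
    exact hd.2.2.2.2.2.1 _
  · rw [samp_nat hB ha hd hδ hNδ (hik.trans hk), samp_nat hB ha hd hδ hNδ hk]
    refine hd.2.2.2.2.2.2 j _ _ ?_
    have : (i : ℝ) ≤ k := by exact_mod_cast hik
    gcongr

end

/-! ## the path of a polygon -/

section

variable {r' : ℝ} {m : Bk ρ U M → Bk ρ U M → ℝ → Bk ρ U M} {N : ℕ} [NeZero N] [NeZero (2 * N)]
  {a δ : ℝ}

/-- the path of a polygon -/
def pt (m : Bk ρ U M → Bk ρ U M → ℝ → Bk ρ U M) (N : ℕ) (a δ : ℝ) (x : ZMod (2 * N) → Bk ρ U M)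
    (t : ℝ) : Bk ρ U M := pol m (2 * N) δ x (a * cp t)

theorem bar_side (hm : GMap (Bk ρ U M) r' m) (hδr : δ ≤ r') {x : ZMod (2 * N) → Bk ρ U M}
    (hx : x ∈ Pol (Bk ρ U M) (2 * N) δ) (n : ℕ) {u : ℝ} (hu : u ∈ Icc (n : ℝ) (n + 1)) :
    bar m (2 * N) x u = m (x (n : ZMod (2 * N))) (x ((n + 1 : ℕ) : ZMod (2 * N))) (u - n) := by
  have h := bar_eq hm hδr hx (n : ℤ) (u := u) (by push_cast; exact hu)
  rw [h]
  push_cast
  rfl

theorem pt_mem (hB : BF X ρ U M r) (hm : GMap (Bk ρ U M) r' m) (hr : r' < r) (ha : 0 < a)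
    (hδ : 0 < δ) (hδr : δ ≤ r') (hNδ : N * δ = a) {x : ZMod (2 * N) → Bk ρ U M}
    (hx : x ∈ OPol ρ U M N δ) : pt m N a δ x ∈ OP ρ U M a := by
  have hN : 0 < N := Nat.pos_of_ne_zero (NeZero.ne N)
  have hxP := hx.1.1
  have hdiv : ∀ t : ℝ, a * t / δ = N * t := by
    intro t
    rw [← hNδ]
    field_simp
  have hval : ∀ t ∈ Icc (0 : ℝ) 1, pol m (2 * N) δ x (a * t) = bar m (2 * N) x (N * t) := by
    intro t ht
    unfold pol
    rw [hdiv]
    congr 1
    refine cl_of_mem (by have := ht.1; positivity) ?_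
    push_cast
    have : (0 : ℝ) ≤ N := Nat.cast_nonneg N
    nlinarith [ht.2, ht.1]
  have hmem : ∀ t ∈ Icc (0 : ℝ) 1, (N : ℝ) * t ∈ Icc (0 : ℝ) N := by
    intro t ht
    have : (0 : ℝ) ≤ N := Nat.cast_nonneg N
    exact ⟨by have := ht.1; positivity, by nlinarith [ht.2]⟩
  -- the value on a side
  have hside : ∀ t ∈ Icc (0 : ℝ) 1, pol m (2 * N) δ x (a * t) =
      m (x ((idx N (N * t) : ℕ) : ZMod (2 * N))) (x ((idx N (N * t) + 1 : ℕ) : ZMod (2 * N)))
        (N * t - idx N (N * t)) := by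
    intro t ht
    rw [hval t ht]
    exact bar_side hm hδr hxP _ (idx_mem hN (hmem t ht))
  have hpar : ∀ t ∈ Icc (0 : ℝ) 1, (N : ℝ) * t - idx N (N * t) ∈ Icc (0 : ℝ) 1 := by
    intro t ht
    have := idx_mem hN (hmem t ht)
    exact ⟨by linarith [this.1], by linarith [this.2]⟩
  have hdist : ∀ n : ℕ, dist (x (n : ZMod (2 * N))) (x ((n + 1 : ℕ) : ZMod (2 * N))) ≤ r' := by
    intro n
    push_cast
    exact (hxP _).trans hδr
  refine op_mk ha.le (fun t => pol m (2 * N) δ x (a * t)) ?_ ?_ ?_ ?_ ?_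
  · intro s t
    beta_reduce
    unfold pol
    refine (bar_lip hm hδr hxP _ _).trans ?_
    have h1 := cl_lip (2 * N) (a * s / δ) (a * t / δ)
    have h2 : |a * s / δ - a * t / δ| = a * |s - t| / δ := by
      rw [← sub_div, ← mul_sub, abs_div, abs_mul, abs_of_pos ha, abs_of_pos hδ]
    rw [h2] at h1
    calc δ * |cl (2 * N) (a * s / δ) - cl (2 * N) (a * t / δ)| ≤ δ * (a * |s - t| / δ) :=
          mul_le_mul_of_nonneg_left h1 hδ.le
      _ = a * |s - t| := by field_simp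
  · have e : pol m (2 * N) δ x (a * 0) = x 0 := by
      rw [hval 0 ⟨le_rfl, zero_le_one⟩, mul_zero]
      have := bar_int hm hδr hxP 0
      rw [Int.cast_zero, Int.cast_zero] at this
      exact this
    rw [e, ← hx.1.2 0, neg_zero]
  · have e : pol m (2 * N) δ x (a * 1) = x (N : ZMod (2 * N)) := by
      rw [hval 1 ⟨zero_le_one, le_rfl⟩, mul_one]
      have := bar_int hm hδr hxP (N : ℤ)
      rw [Int.cast_natCast, Int.cast_natCast] at this
      exact this
    rw [e, ← hx.1.2]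
    congr 1
    have h2 : ((2 * N : ℕ) : ZMod (2 * N)) = 0 := ZMod.natCast_self _
    push_cast at h2
    have h3 : (N : ZMod (2 * N)) + (N : ZMod (2 * N)) = 0 := by
      rw [← h2]; ring
    exact neg_eq_of_add_eq_zero_left h3
  · intro t ht
    beta_reduce
    rw [hside t ht]
    have hi := idx_lt hN (N * t)
    exact po_conv hB (hx.2.1 _ (by omega)) (hx.2.1 _ hi) ((hdist _).trans_lt hr)
      (btw hm (hdist _) (hpar t ht))
  · intro j s hs t ht hst
    beta_reduce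
    rw [hside s hs, hside t ht]
    have his := idx_lt hN (N * s)
    have hit := idx_lt hN (N * t)
    have hNst : (N : ℝ) * s ≤ N * t := mul_le_mul_of_nonneg_left hst (Nat.cast_nonneg N)
    have hmono := idx_mono N hNst
    rcases hmono.eq_or_lt with heq | hlt
    · rw [← heq]
      have hpt := hpar t ht
      rw [← heq] at hpt
      exact ordA hB ((hdist _).trans_lt hr) (hx.2.1 _ (by omega)) (hx.2.1 _ his)
        (hx.2.2 j _ _ (by omega) his) (btw hm (hdist _) (hpar s hs)) (btw hm (hdist _) hpt)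
        (btw2 hm (hdist _) (hpar s hs) hpt (by linarith))
    · exact ordB hB ((hdist _).trans_lt hr) ((hdist _).trans_lt hr)
        (btw hm (hdist _) (hpar s hs)) (btw hm (hdist _) (hpar t ht))
        (hx.2.2 j _ _ (by omega) (by omega)) (hx.2.2 j _ _ (by omega) (by omega))
        (hx.2.2 j _ _ (by omega) (by omega)) (hx.2.2 j _ _ (by omega) (by omega))

end

/-! ## the first homotopy -/

section

variable {r' : ℝ} {m : Bk ρ U M → Bk ρ U M → ℝ → Bk ρ U M} (hm : GMap (Bk ρ U M) r' m) {δ : ℝ}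
  (hδ : 0 < δ) (hδr : δ ≤ r') {γ : ℝ → Bk ρ U M} (hγ : ∀ s t, dist (γ s) (γ t) ≤ |s - t|) {u : ℝ}
  (hu : u ∈ Icc (0 : ℝ) 1)

include hm hδ hδr hγ hu

theorem k1_val1 (n : ℤ) {τ : ℝ} (hτ : τ ∈ Icc ((n : ℝ) * δ) ((n + 1) * δ))
    (h : (n + u) * δ ≤ τ) : k1 m δ γ u τ = γ τ := by
  obtain ⟨w1, w2, w3, w4⟩ := w_mem hδ hδr hγ hu hτ
  rw [k1_eq hm hδ hδr hγ hu n hτ]
  have e1 : max ((n + u) * δ) τ = τ := max_eq_right h
  rw [e1] at w4 ⊢
  rcases hτ.1.eq_or_lt with heq | hlt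
  · rw [heq] at w4 ⊢
    rw [sub_self, zero_div, hm.zero _ _ w4]
  · have hne : τ - n * δ ≠ 0 := (sub_pos.mpr hlt).ne'
    rw [div_self hne, hm.one _ _ w4]

theorem k1_val2 (n : ℤ) {τ : ℝ} (hτ : τ ∈ Icc ((n : ℝ) * δ) ((n + 1) * δ))
    (h : τ ≤ (n + u) * δ) : k1 m δ γ u τ = m (γ (n * δ)) (γ ((n + u) * δ))
      ((τ - n * δ) / ((n + u) * δ - n * δ)) := by
  rw [k1_eq hm hδ hδr hγ hu n hτ, max_eq_left h]

theorem k1_node (n : ℤ) : k1 m δ γ u (n * δ) = γ (n * δ) := by
  have hτ : (n : ℝ) * δ ∈ Icc ((n : ℝ) * δ) ((n + 1) * δ) := ⟨le_rfl, by nlinarith⟩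
  obtain ⟨w1, w2, w3, w4⟩ := w_mem hδ hδr hγ hu hτ
  rw [k1_eq hm hδ hδr hγ hu n hτ, sub_self, zero_div, hm.zero _ _ w4]

end

section

variable {r' : ℝ} {m : Bk ρ U M → Bk ρ U M → ℝ → Bk ρ U M} {N : ℕ} [NeZero N] [NeZero (2 * N)]
  {a δ : ℝ}

theorem e1_mem (hB : BF X ρ U M r) (hm : GMap (Bk ρ U M) r' m) (hr : r' < r) (ha : 0 < a)
    (hδ : 0 < δ) (hδr : δ ≤ r') (hNδ : N * δ = a) {d : ℝ → Bk ρ U M} (hd : d ∈ OP ρ U M a) {u : ℝ}
    (hu : u ∈ Icc (0 : ℝ) 1) : (fun t => k1 m δ (dbl a d) u (a * cp t)) ∈ OP ρ U M a := by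
  have hN : 0 < N := Nat.pos_of_ne_zero (NeZero.ne N)
  have hN' : (0 : ℝ) < N := by exact_mod_cast hN
  have hγ := dbl_lip hB ha hd
  -- the index
  have hτm : ∀ t ∈ Icc (0 : ℝ) 1, a * t ∈ Icc (((idx N (N * t) : ℕ) : ℤ) * δ)
      ((((idx N (N * t) : ℕ) : ℤ) + 1) * δ) := by
    intro t ht
    have h1 : (N : ℝ) * t ∈ Icc (0 : ℝ) N := by
      exact ⟨by have := ht.1; positivity, by nlinarith [ht.2]⟩
    have h2 := idx_mem hN h1
    have h3 : a * t = N * t * δ := by rw [← hNδ]; ring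
    rw [h3, Int.cast_natCast]
    exact ⟨mul_le_mul_of_nonneg_right h2.1 hδ.le, mul_le_mul_of_nonneg_right h2.2 hδ.le⟩
  have hlt : ∀ t : ℝ, (((idx N (N * t) : ℕ) : ℝ) + 1) * δ ≤ a := by
    intro t
    rw [← hNδ]
    have h1 := idx_lt hN (N * t)
    have h2 : ((idx N (N * t) : ℕ) : ℝ) + 1 ≤ N := by exact_mod_cast h1
    exact mul_le_mul_of_nonneg_right h2 hδ.le
  -- the nodes
  have hnode : ∀ (n : ℕ) (s : ℝ), ((n : ℝ) + 1) * δ ≤ a → s ≤ (n + 1) * δ →
      dbl a d s = d (s / a) := fun n s h1 h2 => dbl_lo (h2.trans h1)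
  have hdivle : ∀ s t : ℝ, s ≤ t → s / a ≤ t / a := fun s t h => by gcongr
  have hwle : ∀ n : ℕ, ((n : ℝ) + u) * δ ≤ (n + 1) * δ := fun n =>
    mul_le_mul_of_nonneg_right (by linarith [hu.2]) hδ.le
  have hwge : ∀ n : ℕ, (n : ℝ) * δ ≤ (n + u) * δ := fun n =>
    mul_le_mul_of_nonneg_right (by linarith [hu.1]) hδ.le
  have hdw : ∀ n : ℕ, dist (dbl a d (n * δ)) (dbl a d ((n + u) * δ)) ≤ r' := by
    intro n
    refine (hγ _ _).trans ?_
    rw [abs_sub_comm, abs_of_nonneg (by linarith [hwge n])]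
    have := hwle n
    linarith
  -- the two forms of the value
  have hval : ∀ t ∈ Icc (0 : ℝ) 1,
      ((((idx N (N * t) : ℕ) : ℝ) + u) * δ ≤ a * t ∧ k1 m δ (dbl a d) u (a * t) = d t) ∨
      (a * t < (((idx N (N * t) : ℕ) : ℝ) + u) * δ ∧
        (a * t - (idx N (N * t) : ℕ) * δ) /
          ((((idx N (N * t) : ℕ) : ℝ) + u) * δ - (idx N (N * t) : ℕ) * δ) ∈ Icc (0 : ℝ) 1 ∧
        k1 m δ (dbl a d) u (a * t) = m (dbl a d ((idx N (N * t) : ℕ) * δ))
          (dbl a d ((((idx N (N * t) : ℕ) : ℝ) + u) * δ))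
          ((a * t - (idx N (N * t) : ℕ) * δ) /
            ((((idx N (N * t) : ℕ) : ℝ) + u) * δ - (idx N (N * t) : ℕ) * δ))) := by
    intro t ht
    have hτ := hτm t ht
    rcases le_or_gt ((((idx N (N * t) : ℕ) : ℝ) + u) * δ) (a * t) with h | h
    · left
      refine ⟨h, ?_⟩
      rw [k1_val1 hm hδ hδr hγ hu _ hτ (by rw [Int.cast_natCast]; exact h), dbl_lo]
      · rw [mul_div_cancel_left₀ _ ha.ne']
      · nlinarith [ht.2]
    · right
      refine ⟨h, ?_, ?_⟩
      · rw [Int.cast_natCast] at hτ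
        constructor
        · exact div_nonneg (by linarith [hτ.1]) (by linarith [hτ.1])
        · exact div_le_one_of_le₀ (by linarith) (by linarith [hτ.1])
      · rw [k1_val2 hm hδ hδr hγ hu _ hτ (by rw [Int.cast_natCast]; exact h.le),
          Int.cast_natCast]
  have hPo := hd.2.2.2.2.2.1
  have hOr := hd.2.2.2.2.2.2
  have hr0 : 0 < r := lt_trans (lt_of_lt_of_le hδ hδr) hr
  -- membership and order of the nodes
  have hN1 : ∀ t : ℝ, dbl a d ((idx N (N * t) : ℕ) * δ) = d (((idx N (N * t) : ℕ) * δ) / a) :=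
    fun t => hnode _ _ (hlt t) (by nlinarith)
  have hN2 : ∀ t : ℝ, dbl a d ((((idx N (N * t) : ℕ) : ℝ) + u) * δ) =
      d (((((idx N (N * t) : ℕ) : ℝ) + u) * δ) / a) :=
    fun t => hnode _ _ (hlt t) (hwle _)
  refine op_mk ha.le (fun t => k1 m δ (dbl a d) u (a * t)) ?_ ?_ ?_ ?_ ?_
  · intro s t
    beta_reduce
    refine (k1_lip hm hδ hδr hγ hu _ _).trans (le_of_eq ?_)
    rw [← mul_sub, abs_mul, abs_of_pos ha]
  · have h1 := k1_node hm hδ hδr hγ hu 0
    rw [Int.cast_zero, zero_mul] at h1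
    rw [mul_zero, h1, dbl_lo ha.le, zero_div]
    exact hd.2.2.2.1
  · have h1 := k1_node hm hδ hδr hγ hu (N : ℤ)
    rw [Int.cast_natCast, hNδ] at h1
    rw [mul_one, h1, dbl_lo le_rfl, div_self ha.ne']
    exact hd.2.2.2.2.1
  · intro t ht
    beta_reduce
    rcases hval t ht with ⟨-, h⟩ | ⟨-, hp, h⟩
    · rw [h]
      exact hPo t
    · rw [h]
      refine po_conv hB ?_ ?_ ((hdw _).trans_lt hr) (btw hm (hdw _) hp)
      · rw [hN1]
        exact hPo _
      · rw [hN2]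
        exact hPo _
  · intro j s hs t ht hst
    beta_reduce
    have hNst : (N : ℝ) * s ≤ N * t := mul_le_mul_of_nonneg_left hst (Nat.cast_nonneg N)
    have hast : a * s ≤ a * t := mul_le_mul_of_nonneg_left hst ha.le
    have hmono := idx_mono N hNst
    have hτs := hτm s hs
    have hτt := hτm t ht
    rw [Int.cast_natCast] at hτs hτt
    have hself : ∀ v : ℝ, a * v / a = v := fun v => mul_div_cancel_left₀ _ ha.ne'
    -- the next interval
    have hnext : idx N (N * s) < idx N (N * t) →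
        (((idx N (N * s) : ℕ) : ℝ) + 1) * δ ≤ (idx N (N * t) : ℕ) * δ := by
      intro h
      refine mul_le_mul_of_nonneg_right ?_ hδ.le
      exact_mod_cast h
    rcases hval s hs with ⟨hs1, hs2⟩ | ⟨hs1, hsp, hs2⟩
    · rcases hval t ht with ⟨ht1, ht2⟩ | ⟨ht1, htp, ht2⟩
      · rw [hs2, ht2]
        exact hOr j s t hst
      · -- the second point is on a chord which starts after the first one
        have hlt' : idx N (N * s) < idx N (N * t) := by
          rcases hmono.eq_or_lt with heq | hlt'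
          · exfalso
            rw [heq] at hs1
            linarith
          · exact hlt'
        have h1 := hnext hlt'
        have h2 : s ≤ ((idx N (N * t) : ℕ) * δ) / a := by
          rw [← hself s]
          exact hdivle _ _ (by linarith [hτs.2])
        have h3 : s ≤ ((((idx N (N * t) : ℕ) : ℝ) + u) * δ) / a := by
          rw [← hself s]
          exact hdivle _ _ (by linarith [hτs.2, hwge (idx N (N * t))])
        rw [hs2, ht2]
        refine ordB hB (x := d s) (y := d s) (by rw [dist_self]; exact hr0) ((hdw _).trans_lt hr)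
          (btw0 _) (btw hm (hdw _) htp) ?_ ?_ ?_ ?_
        · rw [hN1]
          exact hOr j _ _ h2
        · rw [hN2]
          exact hOr j _ _ h3
        · rw [hN1]
          exact hOr j _ _ h2
        · rw [hN2]
          exact hOr j _ _ h3
    · rcases hval t ht with ⟨ht1, ht2⟩ | ⟨ht1, htp, ht2⟩
      · have h0 : (((idx N (N * s) : ℕ) : ℝ) + u) * δ ≤ a * t := by
          rcases hmono.eq_or_lt with heq | hlt'
          · rw [heq]
            exact ht1
          · have h1 := hnext hlt'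
            have h2 := hwle (idx N (N * s))
            linarith [hτt.1]
        have h2 : ((idx N (N * s) : ℕ) * δ) / a ≤ t := by
          rw [← hself t]
          exact hdivle _ _ (by linarith [hwge (idx N (N * s))])
        have h3 : ((((idx N (N * s) : ℕ) : ℝ) + u) * δ) / a ≤ t := by
          rw [← hself t]
          exact hdivle _ _ h0
        rw [hs2, ht2]
        refine ordB hB (x' := d t) (y' := d t) ((hdw _).trans_lt hr) (by rw [dist_self]; exact hr0)
          (btw hm (hdw _) hsp) (btw0 _) ?_ ?_ ?_ ?_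
        · rw [hN1]
          exact hOr j _ _ h2
        · rw [hN1]
          exact hOr j _ _ h2
        · rw [hN2]
          exact hOr j _ _ h3
        · rw [hN2]
          exact hOr j _ _ h3
      · rw [hs2, ht2]
        rcases hmono.eq_or_lt with heq | hlt'
        · rw [← heq] at htp ⊢
          refine ordA hB ((hdw _).trans_lt hr) ?_ ?_ ?_ (btw hm (hdw _) hsp) (btw hm (hdw _) htp)
            (btw2 hm (hdw _) hsp htp ?_)
          · rw [hN1]
            exact hPo _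
          · rw [hN2]
            exact hPo _
          · rw [hN1, hN2]
            exact hOr j _ _ (hdivle _ _ (hwge _))
          · have h4 : 0 ≤ (((idx N (N * s) : ℕ) : ℝ) + u) * δ - (idx N (N * s) : ℕ) * δ := by
              linarith [hwge (idx N (N * s))]
            gcongr
        · have h1 := hnext hlt'
          have h2 := hwle (idx N (N * s))
          have h3 := hwge (idx N (N * s))
          have h4 := hwge (idx N (N * t))
          refine ordB hB ((hdw _).trans_lt hr) ((hdw _).trans_lt hr) (btw hm (hdw _) hsp)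
            (btw hm (hdw _) htp) ?_ ?_ ?_ ?_
          · rw [hN1, hN1]
            exact hOr j _ _ (hdivle _ _ (by linarith))
          · rw [hN1, hN2]
            exact hOr j _ _ (hdivle _ _ (by linarith))
          · rw [hN2, hN1]
            exact hOr j _ _ (hdivle _ _ (by linarith))
          · rw [hN2, hN2]
            exact hOr j _ _ (hdivle _ _ (by linarith))

end

end PSI

open PSI in
theorem t_PSI : S_PSI := by
  intro X _ ρ U M r hB r' m hm hr N _ _ a ha hδr ⟨c, hH⟩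
  have hN : (0 : ℝ) < N := by
    have : 0 < N := Nat.pos_of_ne_zero (NeZero.ne N)
    exact_mod_cast this
  obtain ⟨δ, hδdef⟩ : ∃ δ, δ = a / N := ⟨_, rfl⟩
  rw [← hδdef] at hδr
  obtain ⟨H, h1, h2, h3, h4, h5⟩ := hH
  have hδ : 0 < δ := by rw [hδdef]; positivity
  have hNδ : N * δ = a := by rw [hδdef]; field_simp
  have hN2 : ((2 * N : ℕ) : ℝ) * δ = 2 * a := by push_cast; rw [← hNδ]; ring
  subst hδdef
  have hpc : ∀ (q : Bk ρ U M), pol m (2 * N) (a / N) (fun _ => q) = fun _ => q := by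
    intro q
    funext τ
    unfold pol bar
    exact hm.self (hδ.le.trans hδr) q ⟨Int.fract_nonneg _, (Int.fract_lt_one _).le⟩
  have hsm : ∀ d : ↥(OP ρ U M a), samp (2 * N) (a / N) (dbl a d.1) ∈ OPol ρ U M N (a / N) :=
    fun d => samp_opol hB ha d.2 hδ.le hNδ
  have hval : Continuous fun d : ↥(OP ρ U M a) => d.1 := continuous_subtype_val
  have hconst : ∀ d : ↥(OP ρ U M a), (∀ t, d.1 t = d.1 0) → dbl a d.1 = fun _ => d.1 0 := by
    intro d hd
    funext τ
    unfold dbl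
    split_ifs
    · exact hd _
    · rw [hd _]
      exact d.2.2.2.2.1
  refine ⟨fun d => c ⟨samp (2 * N) (a / N) (dbl a d.1), hsm d⟩, ?_⟩
  -- the first homotopy
  have H1 : Htp (Y := ↥(OP ρ U M a)) (W := ℝ → Bk ρ U M) (OP ρ U M a)
      {d | ∀ t, d.1 t = d.1 0} (fun d => d.1)
      (fun d => pt m N a (a / N) (samp (2 * N) (a / N) (dbl a d.1))) := by
    refine Htp.of_clamp (fun d u => fun t => k1 m (a / N) (dbl a d.1) u (a * cp t)) ?_ ?_ ?_ ?_ ?_
    · rw [continuousOn_iff_continuous_domRestrict]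
      have c1 := k1_cont hm hδ hδr
        (F := fun z : ↥{z : ↥(OP ρ U M a) × ℝ | z.2 ∈ Icc (0 : ℝ) 1} => dbl a z.1.1.1)
        (u := fun z => z.1.2)
        (dbl_cont hB (hval.comp (continuous_fst.comp continuous_subtype_val)) a)
        (fun z => dbl_lip hB ha z.1.1.2) (by fun_prop) (fun z => z.2)
      rw [continuous_pi_iff]
      intro t
      exact (continuous_apply (a * cp t)).comp c1
    · intro d u hu
      exact e1_mem hB hm hr ha hδ hδr hNδ d.2 hu
    · intro d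
      funext t
      beta_reduce
      rw [k1_zero hm hδ hδr (dbl_lip hB ha d.2) ⟨le_rfl, zero_le_one⟩, dbl_lo (by
        nlinarith [(cp_mem t).2]), mul_div_cancel_left₀ _ ha.ne']
      rcases le_total t 0 with ht | ht
      · rw [cp_of_le ht, d.2.2.1 t ht]
      · rcases le_total t 1 with ht' | ht'
        · rw [cp_of_mem ⟨ht, ht'⟩]
        · rw [cp_of_ge ht', d.2.2.2.1 t ht']
    · intro d
      funext t
      beta_reduce
      rw [k1_one hm hδ hδr hN2 (dbl_mem hB ha d.2)]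
      rfl
    · intro d hd u hu
      funext t
      beta_reduce
      rw [hconst d hd, hd t]
      unfold k1
      refine hm.self (hδ.le.trans hδr) _ ?_
      have h1 : a * cp t ≤ max ((⌊a * cp t / (a / N)⌋ + u) * (a / N)) (a * cp t) := le_max_right _ _
      have h2 : (⌊a * cp t / (a / N)⌋ : ℝ) * (a / N) ≤ a * cp t := by
        rw [← le_div_iff₀ hδ]; exact Int.floor_le _
      exact ⟨div_nonneg (by linarith) (by linarith), div_le_one_of_le₀ (by linarith)
        (by linarith)⟩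
  -- the second homotopy
  have H2 : Htp (Y := ↥(OP ρ U M a)) (W := ℝ → Bk ρ U M) (OP ρ U M a)
      {d | ∀ t, d.1 t = d.1 0}
      (fun d => pt m N a (a / N) (samp (2 * N) (a / N) (dbl a d.1)))
      (fun d _ => c ⟨samp (2 * N) (a / N) (dbl a d.1), hsm d⟩) := by
    refine ⟨fun d s => pt m N a (a / N) (H ⟨samp (2 * N) (a / N) (dbl a d.1), hsm d⟩ s),
      ?_, ?_, ?_, ?_, ?_⟩
    · have c0 : Continuous fun z : ↥(OP ρ U M a) × ℝ =>
          ((⟨samp (2 * N) (a / N) (dbl a z.1.1), hsm z.1⟩ : ↥(OPol ρ U M N (a / N))), z.2) := by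
        refine Continuous.prodMk ?_ continuous_snd
        exact Continuous.subtype_mk (samp_cont (dbl_cont hB (hval.comp continuous_fst) a)) _
      have c1 := pol_cont hm hδ hδr
        (F := fun z : ↥(OP ρ U M a) × ℝ => H ⟨samp (2 * N) (a / N) (dbl a z.1.1), hsm z.1⟩ z.2)
        (κ := fun _ => a / N) (h1.comp c0) (fun z => (h2 _ _).1.1) continuous_const (fun _ => hδ)
      rw [continuous_pi_iff]
      intro t
      exact (continuous_apply (a * cp t)).comp c1
    · intro d s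
      exact pt_mem hB hm hr ha hδ hδr hNδ (h2 _ _)
    · intro d s hs
      beta_reduce
      rw [h3 _ _ hs]
    · intro d s hs
      beta_reduce
      rw [h4 _ _ hs]
      funext t
      unfold pt
      rw [hpc]
    · intro d hd s
      beta_reduce
      have h6 : (⟨samp (2 * N) (a / N) (dbl a d.1), hsm d⟩ : ↥(OPol ρ U M N (a / N))) ∈
          {x : ↥(OPol ρ U M N (a / N)) | ∀ i, x.1 i = x.1 0} := by
        intro i
        change samp (2 * N) (a / N) (dbl a d.1) i = samp (2 * N) (a / N) (dbl a d.1) 0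
        rw [hconst d hd]
        rfl
      rw [h5 _ h6 s]
  exact H1.trans H2

end Pool.Agent.N489.RW
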