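import Pool.Agent.N489.RW.Stm

/-! # RW-SEL: approximate crossing times (helper769, project RW of helper489) -/

set_option autoImplicit false

open Set Topology

noncomputable section

namespace Pool.Agent.N489.RW

open Pool.Agent.Y489.GE Pool.Agent.R203.IF

namespace SEL

/-- the ramp -/
def ramp (t : ℝ) : ℝ := max 0 (min t 1)

theorem ramp_nonneg (t : ℝ) : 0 ≤ ramp t := le_max_left _ _

theorem ramp_le (t : ℝ) : ramp t ≤ 1 := max_le zero_le_one (min_le_right _ _)

theorem ramp_mono {s t : ℝ} (h : s ≤ t) : ramp s ≤ ramp t :=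
  max_le_max le_rfl (min_le_min h le_rfl)

theorem ramp_of_le {t : ℝ} (h : t ≤ 0) : ramp t = 0 := by
  unfold ramp
  rw [min_eq_left (by linarith), max_eq_left h]

theorem ramp_of_ge {t : ℝ} (h : 1 ≤ t) : ramp t = 1 := by
  unfold ramp
  rw [min_eq_right h, max_eq_right zero_le_one]

theorem ramp_cont : Continuous ramp := by
  unfold ramp
  fun_prop

variable {X : Type} [MetricSpace X] {ρ : X → X} {U : Set X} {M : ℕ} {r : ℝ}

/-- the function whose root is the approximate crossing time -/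
def GG (K : ℕ) (e : ℝ) (j : Fin M) (d : ℝ → Bk ρ U M) (t : ℝ) : ℝ :=
  ∑ i ∈ Finset.range (K + 1),
    (Metric.infDist (d (i / K)) (Lo j) * ramp (K * t - i) -
      Metric.infDist (d (i / K)) (Hi j) * (1 - ramp (K * t - i + 1))) + e * (2 * t - 1)

theorem GG_cont_t (K : ℕ) (e : ℝ) (j : Fin M) (d : ℝ → Bk ρ U M) : Continuous (GG K e j d) := by
  unfold GG
  refine Continuous.add ?_ (by fun_prop)
  refine continuous_finsetSum _ fun i _ => ?_
  exact (continuous_const.mul (ramp_cont.comp (by fun_prop))).sub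
    (continuous_const.mul (continuous_const.sub (ramp_cont.comp (by fun_prop))))

theorem GG_cont_d (K : ℕ) (e : ℝ) (j : Fin M) (t : ℝ) :
    Continuous fun d : ℝ → Bk ρ U M => GG K e j d t := by
  unfold GG
  refine Continuous.add ?_ continuous_const
  refine continuous_finsetSum _ fun i _ => ?_
  exact (((Metric.continuous_infDist_pt _).comp (continuous_apply _)).mul continuous_const).sub
    (((Metric.continuous_infDist_pt _).comp (continuous_apply _)).mul continuous_const)

theorem GG_zero (K : ℕ) {e : ℝ} (j : Fin M) (d : ℝ → Bk ρ U M) : GG K e j d 0 ≤ -e := by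
  unfold GG
  have h : ∑ i ∈ Finset.range (K + 1),
      (Metric.infDist (d (i / K)) (Lo j) * ramp (K * 0 - i) -
        Metric.infDist (d (i / K)) (Hi j) * (1 - ramp (K * 0 - i + 1))) ≤ 0 := by
    refine Finset.sum_nonpos fun i _ => ?_
    have hi : (0 : ℝ) ≤ i := Nat.cast_nonneg i
    rw [ramp_of_le (t := (K : ℝ) * 0 - i) (by linarith), mul_zero, zero_sub, neg_nonpos]
    exact mul_nonneg Metric.infDist_nonneg (by linarith [ramp_le ((K : ℝ) * 0 - i + 1)])
  linarith

theorem GG_one (K : ℕ) {e : ℝ} (j : Fin M) (d : ℝ → Bk ρ U M) : e ≤ GG K e j d 1 := by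
  unfold GG
  have h : 0 ≤ ∑ i ∈ Finset.range (K + 1),
      (Metric.infDist (d (i / K)) (Lo j) * ramp (K * 1 - i) -
        Metric.infDist (d (i / K)) (Hi j) * (1 - ramp (K * 1 - i + 1))) := by
    refine Finset.sum_nonneg fun i hi => ?_
    have hi' : i ≤ K := by
      have := Finset.mem_range.1 hi
      omega
    have hi2 : (i : ℝ) ≤ K := by exact_mod_cast hi'
    rw [ramp_of_ge (t := (K : ℝ) * 1 - i + 1) (by linarith), sub_self, mul_zero, sub_zero]
    exact mul_nonneg Metric.infDist_nonneg (ramp_nonneg _)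
  linarith

theorem GG_mono (K : ℕ) {e : ℝ} (j : Fin M) (d : ℝ → Bk ρ U M) {s t : ℝ} (h : s ≤ t) :
    GG K e j d s + 2 * e * (t - s) ≤ GG K e j d t := by
  unfold GG
  have hK : (0 : ℝ) ≤ K := Nat.cast_nonneg K
  have h1 : (K : ℝ) * s ≤ K * t := mul_le_mul_of_nonneg_left h hK
  have h2 : ∑ i ∈ Finset.range (K + 1),
      (Metric.infDist (d (i / K)) (Lo j) * ramp (K * s - i) -
        Metric.infDist (d (i / K)) (Hi j) * (1 - ramp (K * s - i + 1))) ≤
      ∑ i ∈ Finset.range (K + 1),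
      (Metric.infDist (d (i / K)) (Lo j) * ramp (K * t - i) -
        Metric.infDist (d (i / K)) (Hi j) * (1 - ramp (K * t - i + 1))) := by
    refine Finset.sum_le_sum fun i _ => ?_
    have e1 := mul_le_mul_of_nonneg_left (ramp_mono (s := (K : ℝ) * s - i) (t := K * t - i)
      (by linarith)) (Metric.infDist_nonneg (x := d (i / K)) (s := Lo j))
    have e2 := mul_le_mul_of_nonneg_left (ramp_mono (s := (K : ℝ) * s - i + 1)
      (t := K * t - i + 1) (by linarith)) (Metric.infDist_nonneg (x := d (i / K)) (s := Hi j))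
    rw [mul_sub, mul_sub]
    linarith
  nlinarith

theorem exists_root {K : ℕ} {e : ℝ} (he : 0 < e) (j : Fin M) (d : ℝ → Bk ρ U M) :
    ∃ t ∈ Icc (0 : ℝ) 1, GG K e j d t = 0 := by
  have h0 := GG_zero K (e := e) j d
  have h1 := GG_one K (e := e) j d
  have := intermediate_value_Icc (zero_le_one (α := ℝ)) (GG_cont_t K e j d).continuousOn
  exact this ⟨by linarith, by linarith⟩

theorem root_dist {K : ℕ} {e : ℝ} {j : Fin M} {d : ℝ → Bk ρ U M} {t s : ℝ}
    (ht : GG K e j d t = 0) : 2 * e * |t - s| ≤ |GG K e j d s| := by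
  rcases le_total t s with h | h
  · have h1 := GG_mono K (e := e) j d h
    rw [ht] at h1
    rw [abs_sub_comm, abs_of_nonneg (by linarith : 0 ≤ s - t)]
    exact le_trans (by linarith) (le_abs_self _)
  · have h1 := GG_mono K (e := e) j d h
    rw [ht] at h1
    rw [abs_of_nonneg (by linarith : 0 ≤ t - s)]
    exact le_trans (by linarith) (neg_le_abs _)

/-! ## geometry -/

theorem lo_mono {i j : Fin M} (h : i ≤ j) : (Lo i : Set (Bk ρ U M)) ⊆ Lo j := by
  rintro b ⟨p, hp, hb⟩
  exact ⟨p, hp.trans (Fin.castSucc_le_castSucc_iff.2 h), hb⟩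

theorem hi_mono {i j : Fin M} (h : i ≤ j) : (Hi j : Set (Bk ρ U M)) ⊆ Hi i := by
  rintro b ⟨p, hp, hb⟩
  exact ⟨p, (Fin.succ_le_succ_iff.2 h).trans hp, hb⟩

theorem lo_closed (hB : BF X ρ U M r) (j : Fin M) : IsClosed (Lo j : Set (Bk ρ U M)) := by
  have e : (Lo j : Set (Bk ρ U M)) =
      ⋃ p ∈ {p : Fin (M + 1) | p ≤ j.castSucc}, (Pg (p, true) : Set (Bk ρ U M)) := by
    ext b
    simp only [mem_iUnion, exists_prop]
    rfl
  rw [e]
  exact (Set.toFinite _).isClosed_biUnion fun p _ => hB.pgC _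

theorem hi_closed (hB : BF X ρ U M r) (j : Fin M) : IsClosed (Hi j : Set (Bk ρ U M)) := by
  have e : (Hi j : Set (Bk ρ U M)) =
      ⋃ p ∈ {p : Fin (M + 1) | j.succ ≤ p}, (Pg (p, true) : Set (Bk ρ U M)) := by
    ext b
    simp only [mem_iUnion, exists_prop]
    rfl
  rw [e]
  exact (Set.toFinite _).isClosed_biUnion fun p _ => hB.pgC _

theorem f_lo (hB : BF X ρ U M r) {b : Bk ρ U M} (hb : sw b = b) (j : Fin M) :
    b ∈ (Lo j : Set (Bk ρ U M)) := ⟨j.castSucc, le_rfl, hB.pgF' b hb _⟩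

theorem f_hi (hB : BF X ρ U M r) {b : Bk ρ U M} (hb : sw b = b) (j : Fin M) :
    b ∈ (Hi j : Set (Bk ρ U M)) := ⟨j.succ, le_rfl, hB.pgF' b hb _⟩

theorem page_ht (hB : BF X ρ U M r) {j : Fin M} {b c : Bk ρ U M}
    (h : (b ∈ (Lo j : Set (Bk ρ U M)) ∧ c ∈ (Hi j : Set (Bk ρ U M))) ∨
      (b ∈ (Hi j : Set (Bk ρ U M)) ∧ c ∈ (Lo j : Set (Bk ρ U M)))) :
    dist b (sw b) ≤ 2 * dist b c := by
  have key : ∃ i k : Ix M, i ≠ k ∧ b ∈ (Pg i : Set (Bk ρ U M)) ∧ c ∈ (Pg k : Set (Bk ρ U M)) := by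
    rcases h with ⟨⟨p, hp, hb⟩, ⟨q, hq, hc⟩⟩ | ⟨⟨p, hp, hb⟩, ⟨q, hq, hc⟩⟩
    · refine ⟨(p, true), (q, true), fun heq => ?_, hb, hc⟩
      have h1 : p = q := congrArg Prod.fst heq
      have h2 : p < q := lt_of_le_of_lt hp (lt_of_lt_of_le (Fin.castSucc_lt_succ) hq)
      exact h2.ne h1
    · refine ⟨(p, true), (q, true), fun heq => ?_, hb, hc⟩
      have h1 : p = q := congrArg Prod.fst heq
      have h2 : q < p := lt_of_le_of_lt hq (lt_of_lt_of_le (Fin.castSucc_lt_succ) hp)
      exact h2.ne h1.symm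
  obtain ⟨i, k, hik, hb, hc⟩ := key
  obtain ⟨z, hz, hz2⟩ := hB.cross i k hik b c hb hc
  have h1 := hB.ht b z hz
  have h2 : (0 : ℝ) ≤ dist z c := dist_nonneg
  linarith

theorem lo_ht (hB : BF X ρ U M r) {j : Fin M} {b : Bk ρ U M} (hb : b ∈ (Lo j : Set (Bk ρ U M)))
    (hne : (Hi j : Set (Bk ρ U M)).Nonempty) :
    dist b (sw b) / 2 ≤ Metric.infDist b (Hi j) := by
  rw [Metric.le_infDist hne]
  intro c hc
  have := page_ht hB (Or.inl ⟨hb, hc⟩)
  linarith

theorem hi_ht (hB : BF X ρ U M r) {j : Fin M} {b : Bk ρ U M} (hb : b ∈ (Hi j : Set (Bk ρ U M)))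
    (hne : (Lo j : Set (Bk ρ U M)).Nonempty) :
    dist b (sw b) / 2 ≤ Metric.infDist b (Lo j) := by
  rw [Metric.le_infDist hne]
  intro c hc
  have := page_ht hB (Or.inr ⟨hb, hc⟩)
  linarith

/-- a crossing time exists -/
theorem exists_cross (hB : BF X ρ U M r) {a : ℝ} (ha : 0 ≤ a) {d : ℝ → Bk ρ U M}
    (hd : d ∈ OP ρ U M a) (j : Fin M) : ∃ θ ∈ Icc (0 : ℝ) 1,
    (∀ s, s ≤ θ → d s ∈ (Lo j : Set (Bk ρ U M))) ∧ ∀ s, θ ≤ s → d s ∈ (Hi j : Set (Bk ρ U M)) := by
  have hcont : Continuous d := by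
    refine (LipschitzWith.of_dist_le_mul (K := ⟨a, ha⟩) fun s t => ?_).continuous
    exact hd.1 s t
  obtain ⟨S, hS⟩ : ∃ S : Set ℝ, S = {t | t ∈ Icc (0 : ℝ) 1 ∧
    ∀ s, s ≤ t → d s ∈ (Lo j : Set (Bk ρ U M))} := ⟨_, rfl⟩
  have h0S : (0 : ℝ) ∈ S := by
    rw [hS]
    refine ⟨⟨le_rfl, zero_le_one⟩, fun s hs => ?_⟩
    rw [hd.2.1 s hs]
    exact f_lo hB hd.2.2.2.1 j
  have hbdd : BddAbove S := ⟨1, fun t ht => by
    rw [hS] at ht
    exact ht.1.2⟩
  refine ⟨sSup S, ⟨le_csSup hbdd h0S, csSup_le ⟨0, h0S⟩ fun t ht => by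
    rw [hS] at ht
    exact ht.1.2⟩, ?_, ?_⟩
  · have hcl : IsClosed {s | d s ∈ (Lo j : Set (Bk ρ U M))} := (lo_closed hB j).preimage hcont
    have hsub : Iio (sSup S) ⊆ {s | d s ∈ (Lo j : Set (Bk ρ U M))} := by
      intro s hs
      obtain ⟨t, ht, hst⟩ := exists_lt_of_lt_csSup ⟨0, h0S⟩ hs
      rw [hS] at ht
      exact ht.2 s hst.le
    intro s hs
    have := closure_minimal hsub hcl
    rw [closure_Iio] at this
    exact this hs
  · have hcl : IsClosed {s | d s ∈ (Hi j : Set (Bk ρ U M))} := (hi_closed hB j).preimage hcont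
    have hsub : Ioi (sSup S) ⊆ {s | d s ∈ (Hi j : Set (Bk ρ U M))} := by
      intro s hs
      rw [mem_Ioi] at hs
      have hs0 : 0 ≤ s := (le_csSup hbdd h0S).trans hs.le
      rcases le_or_gt s 1 with h1 | h1
      · have hnot : s ∉ S := fun h => (not_lt.2 (le_csSup hbdd h)) hs
        rw [hS] at hnot
        have h2 : ¬ ∀ s', s' ≤ s → d s' ∈ (Lo j : Set (Bk ρ U M)) := fun h => hnot ⟨⟨hs0, h1⟩, h⟩
        push Not at h2
        obtain ⟨s', hs', hs2⟩ := h2
        exact (hd.2.2.2.2.2.2 j s' s hs').resolve_left hs2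
      · have : d s = d 1 := hd.2.2.1 s h1.le
        simp only [mem_ofPred_eq]
        rw [this]
        exact f_hi hB hd.2.2.2.2.1 j
    intro s hs
    have := closure_minimal hsub hcl
    rw [closure_Ioi] at this
    exact this hs

/-- the main estimate -/
theorem main (hB : BF X ρ U M r) {a η : ℝ} (ha : 0 ≤ a) (hη : 0 < η) {K : ℕ} (hK : 0 < K)
    (hKa : 2 * a / K ≤ η / 8) {d : ℝ → Bk ρ U M} (hd : d ∈ OP ρ U M a) {j : Fin M} {T : ℝ}
    (hT : T ∈ Icc (0 : ℝ) 1) (hG : GG K (η / 8) j d T = 0) {θ : ℝ} (hθ : θ ∈ Icc (0 : ℝ) 1)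
    (h1 : ∀ s, s ≤ θ → d s ∈ (Lo j : Set (Bk ρ U M)))
    (h2 : ∀ s, θ ≤ s → d s ∈ (Hi j : Set (Bk ρ U M))) {t : ℝ} (ht : t ∈ uIcc θ T) :
    dist (d t) (sw (d t)) ≤ η := by
  have hK' : (0 : ℝ) < K := by exact_mod_cast hK
  have hneL : (Lo j : Set (Bk ρ U M)).Nonempty := ⟨d 0, f_lo hB hd.2.2.2.1 j⟩
  have hneH : (Hi j : Set (Bk ρ U M)).Nonempty := ⟨d 0, f_hi hB hd.2.2.2.1 j⟩
  by_contra hcon
  rw [not_le] at hcon
  rw [mem_uIcc] at ht
  rcases ht with ⟨ht1, ht2⟩ | ⟨ht1, ht2⟩
  · -- `θ ≤ t ≤ T`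
    have hA : η / 2 < Metric.infDist (d t) (Lo j) := by
      have := hi_ht hB (h2 t ht1) hneL
      linarith
    have ht01 : t ∈ Icc (0 : ℝ) 1 := ⟨hθ.1.trans ht1, ht2.trans hT.2⟩
    rcases lt_or_ge ((K : ℝ) * t) 1 with hKt | hKt
    · have h3 : Metric.infDist (d t) (Lo j) ≤ a * t := by
        refine (Metric.infDist_le_dist_of_mem (f_lo hB hd.2.2.2.1 j)).trans ((hd.1 t 0).trans ?_)
        rw [sub_zero, abs_of_nonneg ht01.1]
      have h4 : a * t ≤ 2 * a / K := by
        rw [le_div_iff₀ hK']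
        nlinarith
      linarith
    · obtain ⟨i, hi⟩ : ∃ i, i = ⌊(K : ℝ) * t⌋₊ - 1 := ⟨_, rfl⟩
      have f1 := Nat.floor_le (show 0 ≤ (K : ℝ) * t by linarith)
      have f2 := Nat.lt_floor_add_one ((K : ℝ) * t)
      have f3 : 1 ≤ ⌊(K : ℝ) * t⌋₊ := by
        rw [Nat.one_le_floor_iff]
        exact hKt
      have f4 : (i : ℝ) + 1 = ⌊(K : ℝ) * t⌋₊ := by
        have : i + 1 = ⌊(K : ℝ) * t⌋₊ := by omega
        exact_mod_cast this
      have f5 : (i : ℝ) ≤ K := by
        have : (K : ℝ) * t ≤ K := by nlinarith [ht01.2]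
        linarith
      have f6 : i ≤ K := by exact_mod_cast f5
      have hAi : η / 2 - 2 * a / K ≤ Metric.infDist (d (i / K)) (Lo j) := by
        have g1 : Metric.infDist (d t) (Lo j) ≤ Metric.infDist (d (i / K)) (Lo j) +
          dist (d t) (d (i / K)) := Metric.infDist_le_infDist_add_dist
        have g2 := hd.1 t (i / K)
        have g3 : |t - i / K| ≤ 2 / K := by
          have g4 : (i : ℝ) / K ≤ t := by rw [div_le_iff₀ hK']; linarith
          rw [abs_of_nonneg (by linarith), sub_le_iff_le_add, ← add_div, le_div_iff₀ hK']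
          linarith
        have g5 : a * |t - i / K| ≤ a * (2 / K) := mul_le_mul_of_nonneg_left g3 ha
        have g6 : a * (2 / K) = 2 * a / K := by ring
        linarith
      have hge : Metric.infDist (d (i / K)) (Lo j) ≤ ∑ i ∈ Finset.range (K + 1),
          (Metric.infDist (d (i / K)) (Lo j) * ramp (K * T - i) -
            Metric.infDist (d (i / K)) (Hi j) * (1 - ramp (K * T - i + 1))) := by
        have hterm : ∀ l ∈ Finset.range (K + 1),
            (Metric.infDist (d (l / K)) (Lo j) * ramp (K * T - l) -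
              Metric.infDist (d (l / K)) (Hi j) * (1 - ramp (K * T - l + 1))) =
            Metric.infDist (d (l / K)) (Lo j) * ramp (K * T - l) := by
          intro l _
          rw [sub_eq_self]
          rcases le_or_gt (l : ℝ) (K * T) with hl | hl
          · rw [ramp_of_ge (by linarith), sub_self, mul_zero]
          · have : T ≤ l / K := by rw [le_div_iff₀ hK']; linarith
            rw [Metric.infDist_zero_of_mem (h2 _ (by linarith)), zero_mul]
        rw [Finset.sum_congr rfl hterm]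
        have hs := Finset.single_le_sum
          (f := fun l : ℕ => Metric.infDist (d (l / K)) (Lo j) * ramp (K * T - l))
          (fun l _ => mul_nonneg Metric.infDist_nonneg (ramp_nonneg _))
          (Finset.mem_range.2 (by omega : i < K + 1))
        refine le_trans (le_of_eq ?_) hs
        have g7 : (K : ℝ) * t ≤ K * T := mul_le_mul_of_nonneg_left ht2 hK'.le
        beta_reduce
        rw [ramp_of_ge (by linarith), mul_one]
      unfold GG at hG
      nlinarith [hT.1]
  · -- `T ≤ t ≤ θ`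
    have hA : η / 2 < Metric.infDist (d t) (Hi j) := by
      have := lo_ht hB (h1 t ht2) hneH
      linarith
    have ht01 : t ∈ Icc (0 : ℝ) 1 := ⟨hT.1.trans ht1, ht2.trans hθ.2⟩
    obtain ⟨i, hi⟩ : ∃ i, i = ⌈(K : ℝ) * t⌉₊ + 1 := ⟨_, rfl⟩
    have f1 := Nat.le_ceil ((K : ℝ) * t)
    have f2 := Nat.ceil_lt_add_one (show 0 ≤ (K : ℝ) * t from mul_nonneg hK'.le ht01.1)
    have f4 : (i : ℝ) = ⌈(K : ℝ) * t⌉₊ + 1 := by exact_mod_cast hi
    rcases lt_or_ge K i with hKi | hKi
    · have f5 : (K : ℝ) < i := by exact_mod_cast hKi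
      have h3 : Metric.infDist (d t) (Hi j) ≤ a * (1 - t) := by
        refine (Metric.infDist_le_dist_of_mem (f_hi hB hd.2.2.2.2.1 j)).trans
          ((hd.1 t 1).trans ?_)
        rw [abs_sub_comm, abs_of_nonneg (by linarith [ht01.2])]
      have h4 : a * (1 - t) ≤ 2 * a / K := by
        rw [le_div_iff₀ hK']
        nlinarith
      linarith
    · have f5 : (i : ℝ) ≤ K := by exact_mod_cast hKi
      have hAi : η / 2 - 2 * a / K ≤ Metric.infDist (d (i / K)) (Hi j) := by
        have g1 : Metric.infDist (d t) (Hi j) ≤ Metric.infDist (d (i / K)) (Hi j) +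
          dist (d t) (d (i / K)) := Metric.infDist_le_infDist_add_dist
        have g2 := hd.1 t (i / K)
        have g3 : |t - i / K| ≤ 2 / K := by
          have g4 : t ≤ (i : ℝ) / K := by rw [le_div_iff₀ hK']; linarith
          rw [abs_sub_comm, abs_of_nonneg (by linarith), sub_le_iff_le_add, div_le_iff₀ hK']
          have : (2 / K + t) * (K : ℝ) = 2 + K * t := by field_simp
          rw [this]
          linarith
        have g5 : a * |t - i / K| ≤ a * (2 / K) := mul_le_mul_of_nonneg_left g3 ha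
        have g6 : a * (2 / K) = 2 * a / K := by ring
        linarith
      have hge : Metric.infDist (d (i / K)) (Hi j) ≤ -∑ i ∈ Finset.range (K + 1),
          (Metric.infDist (d (i / K)) (Lo j) * ramp (K * T - i) -
            Metric.infDist (d (i / K)) (Hi j) * (1 - ramp (K * T - i + 1))) := by
        have hterm : ∀ l ∈ Finset.range (K + 1),
            -(Metric.infDist (d (l / K)) (Lo j) * ramp (K * T - l) -
              Metric.infDist (d (l / K)) (Hi j) * (1 - ramp (K * T - l + 1))) =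
            Metric.infDist (d (l / K)) (Hi j) * (1 - ramp (K * T - l + 1)) := by
          intro l _
          have : Metric.infDist (d (l / K)) (Lo j) * ramp (K * T - l) = 0 := by
            rcases le_or_gt ((K : ℝ) * T) l with hl | hl
            · rw [ramp_of_le (by linarith), mul_zero]
            · have : (l : ℝ) / K ≤ T := by rw [div_le_iff₀ hK']; linarith
              rw [Metric.infDist_zero_of_mem (h1 _ (by linarith)), zero_mul]
          rw [this]
          ring
        rw [← Finset.sum_neg_distrib, Finset.sum_congr rfl hterm]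
        have hs := Finset.single_le_sum
          (f := fun l : ℕ => Metric.infDist (d (l / K)) (Hi j) * (1 - ramp (K * T - l + 1)))
          (fun l _ => mul_nonneg Metric.infDist_nonneg (by linarith [ramp_le ((K : ℝ) * T - l + 1)]))
          (Finset.mem_range.2 (by omega : i < K + 1))
        refine le_trans (le_of_eq ?_) hs
        have g7 : (K : ℝ) * T ≤ K * t := mul_le_mul_of_nonneg_left ht1 hK'.le
        beta_reduce
        rw [ramp_of_le (by linarith), sub_zero, mul_one]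
      unfold GG at hG
      nlinarith [hT.2]

end SEL

open SEL in
theorem t_SEL : S_SEL := by
  intro X _ ρ U M r hB a η ha hη
  obtain ⟨K, hK⟩ := exists_nat_gt (max 1 (2 * a / (η / 8)))
  have hK1 : (1 : ℝ) < K := (le_max_left _ _).trans_lt hK
  have hK0 : 0 < K := by
    have : (0 : ℝ) < K := by linarith
    exact_mod_cast this
  have hK' : (0 : ℝ) < K := by linarith
  have hη8 : 0 < η / 8 := by positivity
  have hKa : 2 * a / K ≤ η / 8 := by
    have h1 : 2 * a / (η / 8) < K := (le_max_right _ _).trans_lt hK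
    rw [div_lt_iff₀ hη8] at h1
    rw [div_le_iff₀ hK']
    linarith
  choose T hT hG using fun (d : ℝ → Bk ρ U M) (j : Fin M) => exists_root (K := K) hη8 j d
  have hcont : Continuous T := by
    rw [continuous_pi_iff]
    intro j
    rw [continuous_iff_continuousAt]
    intro d0
    have h1 : Filter.Tendsto (fun d => |GG K (η / 8) j d (T d0 j)| / (2 * (η / 8))) (𝓝 d0)
        (𝓝 (|GG K (η / 8) j d0 (T d0 j)| / (2 * (η / 8)))) :=
      ((GG_cont_d K (η / 8) j (T d0 j)).abs.div_const _).continuousAt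
    rw [hG, abs_zero, zero_div] at h1
    refine tendsto_iff_dist_tendsto_zero.2 (squeeze_zero (fun _ => dist_nonneg) (fun d => ?_) h1)
    rw [Real.dist_eq, le_div_iff₀ (by positivity)]
    have := root_dist (s := T d0 j) (hG d j)
    linarith
  refine ⟨T, hcont.continuousOn, fun d hd => ?_⟩
  have hmain : ∀ j θ, θ ∈ Icc (0 : ℝ) 1 → (∀ s, s ≤ θ → d s ∈ (Lo j : Set (Bk ρ U M))) →
      (∀ s, θ ≤ s → d s ∈ (Hi j : Set (Bk ρ U M))) →
      ∀ t ∈ uIcc θ (T d j), dist (d t) (sw (d t)) ≤ η := fun j θ hθ h1 h2 t ht =>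
    SEL.main hB ha hη hK0 hKa hd (hT d j) (hG d j) hθ h1 h2 ht
  refine ⟨hT d, fun i j hij => ?_, fun j => ?_, hmain⟩
  · -- monotonicity
    by_contra hcon
    rw [not_le] at hcon
    have h1 := GG_mono K (e := η / 8) i d hcon.le
    rw [hG d i] at h1
    have h2 : GG K (η / 8) j d (T d j) ≤ GG K (η / 8) i d (T d j) := by
      unfold GG
      have h3 : ∑ l ∈ Finset.range (K + 1),
          (Metric.infDist (d (l / K)) (Lo j) * ramp (K * T d j - l) -
            Metric.infDist (d (l / K)) (Hi j) * (1 - ramp (K * T d j - l + 1))) ≤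
          ∑ l ∈ Finset.range (K + 1),
          (Metric.infDist (d (l / K)) (Lo i) * ramp (K * T d j - l) -
            Metric.infDist (d (l / K)) (Hi i) * (1 - ramp (K * T d j - l + 1))) := by
        refine Finset.sum_le_sum fun l _ => ?_
        have e1 : Metric.infDist (d (l / K)) (Lo j) ≤ Metric.infDist (d (l / K)) (Lo i) :=
          Metric.infDist_le_infDist_of_subset (lo_mono hij) ⟨d 0, f_lo hB hd.2.2.2.1 i⟩
        have e2 : Metric.infDist (d (l / K)) (Hi i) ≤ Metric.infDist (d (l / K)) (Hi j) :=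
          Metric.infDist_le_infDist_of_subset (hi_mono hij) ⟨d 0, f_hi hB hd.2.2.2.1 j⟩
        have e3 := mul_le_mul_of_nonneg_right e1 (ramp_nonneg (K * T d j - l))
        have e4 := mul_le_mul_of_nonneg_right e2
          (sub_nonneg.2 (ramp_le ((K : ℝ) * T d j - l + 1)))
        linarith
      linarith
    rw [hG d j] at h2
    have h3 : 0 < 2 * (η / 8) * (T d i - T d j) := by
      have : 0 < T d i - T d j := by linarith
      positivity
    linarith
  · obtain ⟨θ, hθ, h1, h2⟩ := exists_cross hB ha hd j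
    exact hmain j θ hθ h1 h2 _ right_mem_uIcc

end Pool.Agent.N489.RW
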