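import Pool.Agent.R203.IF.Stm

/-!
# Project RW (helper489): short closed geodesics from a reflection

Definitions and statements. `ρ` is an isometric involution of `X` whose fixed point set `F` separates
`X` into `U` and `ρ U` (a reflection). The book `Bk ρ U M` consists of `2 (M + 1)` copies of `U`
(pages) glued along `F`; the pages are numbered by `Fin (M + 1) × Bool`, and `sw` exchanges
the pages `(p, true)` and `(p, false)`.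
-/

set_option autoImplicit false

open Set Topology

noncomputable section

namespace Pool.Agent.N489.RW

open Pool.Agent.Y489.GE Pool.Agent.R203.IF

/-- an isometric involution whose fixed point set separates `X` into `U` and `ρ U` -/
structure Mirror (X : Type) [MetricSpace X] (ρ : X → X) (U : Set X) : Prop where
  iso : Isometry ρ
  inv : ∀ x, ρ (ρ x) = x
  closed : IsClosed U
  cover : ∀ x, x ∈ U ∨ ρ x ∈ U
  inter : ∀ x, x ∈ U → ρ x ∈ U → ρ x = x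

open Classical in
/-- the folding map -/
def fo {X : Type} (ρ : X → X) (U : Set X) (x : X) : X := if x ∈ U then x else ρ x

/-- elementary facts about a reflection -/
structure MF (X : Type) [MetricSpace X] (ρ : X → X) (U : Set X) (r : ℝ) : Prop where
  foU : ∀ x, fo ρ U x ∈ U
  foL : ∀ x y, dist (fo ρ U x) (fo ρ U y) ≤ dist x y
  cross : ∀ x ∈ U, ∀ y ∈ U, ∃ z, ρ z = z ∧ dist x z + dist z (ρ y) = dist x (ρ y)
  far : ∀ x ∈ U, ∀ y ∈ U, dist x y ≤ dist x (ρ y)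
  conv : ∀ x ∈ U, ∀ y ∈ U, ∀ z, dist x y < r → dist x z + dist z y = dist x y → z ∈ U
  convF : ∀ x y z, ρ x = x → ρ y = y → dist x y < r → dist x z + dist z y = dist x y → ρ z = z
  mid : ∀ x z, dist x (ρ x) < r → dist x z = dist x (ρ x) / 2 → dist z (ρ x) = dist x (ρ x) / 2 →
    ρ z = z
  ht : ∀ x z, ρ z = z → dist x (ρ x) ≤ 2 * dist x z

/-- the pages -/
abbrev Ix (M : ℕ) : Type := Fin (M + 1) × Bool

/-- `f` represents the point `f i` of the page `i` -/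
def IsPg {X : Type} (ρ : X → X) (U : Set X) {M : ℕ} (i : Ix M) (f : Ix M → X) : Prop :=
  f i ∈ U ∧ ∀ k, k ≠ i → f k = ρ (f i)

/-- the book -/
abbrev Bk {X : Type} (ρ : X → X) (U : Set X) (M : ℕ) : Type :=
  {f : Ix M → X // ∃ i, IsPg ρ U i f}

section

variable {X : Type} {ρ : X → X} {U : Set X} {M : ℕ}

/-- the exchange of the pages `(p, true)` and `(p, false)` -/
def sw (b : Bk ρ U M) : Bk ρ U M :=
  ⟨fun k => b.1 (k.1, !k.2), by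
    obtain ⟨i, h1, h2⟩ := b.2
    refine ⟨(i.1, !i.2), ?_, fun k hk => ?_⟩
    · simpa using h1
    · have h3 : (k.1, !k.2) ≠ i := by
        intro h
        apply hk
        rw [← h]
        simp
      simpa using h2 _ h3⟩

/-- the projection of the book onto `U` -/
def un (b : Bk ρ U M) : X := fo ρ U (b.1 (0, true))

/-- the page `i` -/
def Pg (i : Ix M) : Set (Bk ρ U M) := {b | IsPg ρ U i b.1}

/-- the positive pages -/
def Po : Set (Bk ρ U M) := {b | ∃ p : Fin (M + 1), b ∈ Pg (p, true)}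

/-- the positive pages `≤ j` -/
def Lo (j : Fin M) : Set (Bk ρ U M) := {b | ∃ p : Fin (M + 1), p ≤ j.castSucc ∧ b ∈ Pg (p, true)}

/-- the positive pages `> j` -/
def Hi (j : Fin M) : Set (Bk ρ U M) := {b | ∃ p : Fin (M + 1), j.succ ≤ p ∧ b ∈ Pg (p, true)}

end

/-- elementary facts about the book -/
structure BF (X : Type) [MetricSpace X] (ρ : X → X) (U : Set X) (M : ℕ) (r : ℝ) : Prop where
  cpt : CompactSpace (Bk ρ U M)
  geod : GeodSpace (Bk ρ U M)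
  uniq : UniqGeod (Bk ρ U M) r
  swI : Isometry (sw : Bk ρ U M → Bk ρ U M)
  sw2 : ∀ b : Bk ρ U M, sw (sw b) = b
  unU : ∀ b : Bk ρ U M, un b ∈ U
  unL : ∀ b c : Bk ρ U M, dist (un b) (un c) ≤ dist b c
  unS : ∀ b : Bk ρ U M, un (sw b) = un b
  pgE : ∀ i : Ix M, ∀ x ∈ U, ∃ b : Bk ρ U M, b ∈ Pg i ∧ un b = x
  pgI : ∀ i : Ix M, ∀ b c : Bk ρ U M, b ∈ Pg i → c ∈ Pg i → dist b c = dist (un b) (un c)
  pgJ : ∀ i j : Ix M, i ≠ j → ∀ b c : Bk ρ U M, b ∈ Pg i → c ∈ Pg j →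
    dist b c = dist (un b) (ρ (un c))
  pgA : ∀ b : Bk ρ U M, ∃ i, b ∈ Pg i
  pgC : ∀ i : Ix M, IsClosed (Pg i : Set (Bk ρ U M))
  pgF : ∀ b : Bk ρ U M, sw b = b ↔ ρ (un b) = un b
  pgF' : ∀ b : Bk ρ U M, sw b = b → ∀ i, b ∈ Pg i
  pg2 : ∀ i j : Ix M, i ≠ j → ∀ b : Bk ρ U M, b ∈ Pg i → b ∈ Pg j → sw b = b
  pgS : ∀ i : Ix M, ∀ b : Bk ρ U M, b ∈ Pg i → sw b ∈ Pg (i.1, !i.2)
  dsw : ∀ b : Bk ρ U M, dist b (sw b) = dist (un b) (ρ (un b))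
  conv : ∀ i j : Ix M, ∀ b b' c : Bk ρ U M, b ∈ Pg i → b' ∈ Pg j → dist b b' < r →
    dist b c + dist c b' = dist b b' → c ∈ Pg i ∨ c ∈ Pg j
  convF : ∀ b b' c : Bk ρ U M, sw b = b → sw b' = b' → dist b b' < r →
    dist b c + dist c b' = dist b b' → sw c = c
  cross : ∀ i j : Ix M, i ≠ j → ∀ b c : Bk ρ U M, b ∈ Pg i → c ∈ Pg j →
    ∃ z, sw z = z ∧ dist b z + dist z c = dist b c
  ht : ∀ b z : Bk ρ U M, sw z = z → dist b (sw b) ≤ 2 * dist b z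

/-- ordered symmetric polygons in the book -/
def OPol {X : Type} [MetricSpace X] (ρ : X → X) (U : Set X) (M N : ℕ) (δ : ℝ) :
    Set (ZMod (2 * N) → Bk ρ U M) :=
  {x | x ∈ Sym (Bk ρ U M) sw N δ ∧ (∀ i : ℕ, i ≤ N → x (i : ZMod (2 * N)) ∈ Po) ∧
    ∀ (j : Fin M) (i k : ℕ), i ≤ k → k ≤ N →
      x (i : ZMod (2 * N)) ∈ Lo j ∨ x (k : ZMod (2 * N)) ∈ Hi j}

/-- the ordered polygons are contracted to constant polygons -/
def OPolC {X : Type} [MetricSpace X] (ρ : X → X) (U : Set X) (M N : ℕ) (δ : ℝ) : Prop :=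
  ∃ c : ↥(OPol ρ U M N δ) → Bk ρ U M, Htp (Y := ↥(OPol ρ U M N δ))
    (W := ZMod (2 * N) → Bk ρ U M) (OPol ρ U M N δ)
    {x | ∀ i, x.1 i = x.1 0} (fun x => x.1) (fun x _ => c x)

/-- ordered paths in the book: `a`-Lipschitz on `[0, 1]`, with end points in `F` -/
def OP {X : Type} [MetricSpace X] (ρ : X → X) (U : Set X) (M : ℕ) (a : ℝ) :
    Set (ℝ → Bk ρ U M) :=
  {d | (∀ s t, dist (d s) (d t) ≤ a * |s - t|) ∧ (∀ t, t ≤ 0 → d t = d 0) ∧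
    (∀ t, 1 ≤ t → d t = d 1) ∧ sw (d 0) = d 0 ∧ sw (d 1) = d 1 ∧ (∀ t, d t ∈ Po) ∧
    ∀ (j : Fin M) (s t : ℝ), s ≤ t → d s ∈ Lo j ∨ d t ∈ Hi j}

/-- the ordered paths are contracted to constant paths -/
def OPC {X : Type} [MetricSpace X] (ρ : X → X) (U : Set X) (M : ℕ) (a : ℝ) : Prop :=
  ∃ c : ↥(OP ρ U M a) → Bk ρ U M, Htp (Y := ↥(OP ρ U M a)) (W := ℝ → Bk ρ U M) (OP ρ U M a)
    {d | ∀ t, d.1 t = d.1 0} (fun d => d.1) (fun d _ => c d)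

/-- paths with `M` marked times -/
abbrev Ps (X : Type) (M : ℕ) : Type := (ℝ → X) × (Fin M → ℝ)

/-- marked `a`-Lipschitz paths in `U` whose marks numbered by `J` are ordered and nearly in `F` -/
def NW {X : Type} [MetricSpace X] (ρ : X → X) (U : Set X) {M : ℕ} (a η : ℝ) (J : Finset (Fin M)) :
    Set (Ps X M) :=
  {z | (∀ s t, dist (z.1 s) (z.1 t) ≤ a * |s - t|) ∧ (∀ t, z.1 t ∈ U) ∧
    (∀ t, t ≤ 0 → z.1 t = z.1 0) ∧ (∀ t, 1 ≤ t → z.1 t = z.1 1) ∧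
    (∀ j, z.2 j ∈ Icc (0 : ℝ) 1) ∧ (∀ i ∈ J, ∀ j ∈ J, i ≤ j → z.2 i ≤ z.2 j) ∧
    ∀ j ∈ J, dist (z.1 (z.2 j)) (ρ (z.1 (z.2 j))) ≤ η}

/-- marked `a`-Lipschitz paths in `U` whose marks numbered by `J` are ordered and in `F` -/
def W {X : Type} [MetricSpace X] (ρ : X → X) (U : Set X) {M : ℕ} (a : ℝ) (J : Finset (Fin M)) :
    Set (Ps X M) :=
  {z | (∀ s t, dist (z.1 s) (z.1 t) ≤ a * |s - t|) ∧ (∀ t, z.1 t ∈ U) ∧
    (∀ t, t ≤ 0 → z.1 t = z.1 0) ∧ (∀ t, 1 ≤ t → z.1 t = z.1 1) ∧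
    (∀ j, z.2 j ∈ Icc (0 : ℝ) 1) ∧ (∀ i ∈ J, ∀ j ∈ J, i ≤ j → z.2 i ≤ z.2 j) ∧
    ∀ j ∈ J, ρ (z.1 (z.2 j)) = z.1 (z.2 j)}

/-- the path is in `F` before the first and after the last mark -/
def TW {X : Type} [MetricSpace X] (ρ : X → X) (U : Set X) {M : ℕ} (a : ℝ) (J : Finset (Fin M)) :
    Set (Ps X M) :=
  {z | z ∈ W ρ U a J ∧
    ∀ t, ((∀ j ∈ J, t ≤ z.2 j) ∨ ∀ j ∈ J, z.2 j ≤ t) → ρ (z.1 t) = z.1 t}

/-- contraction of the marked paths to constant paths -/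
def Ctr {X : Type} [MetricSpace X] (ρ : X → X) (U : Set X) {M : ℕ} (a a' : ℝ)
    (J : Finset (Fin M)) : Prop :=
  ∃ Φ : ↥(W ρ U a J) → ℝ → Ps X M, Continuous (fun z : ↥(W ρ U a J) × ℝ => Φ z.1 z.2) ∧
    (∀ z s, Φ z s ∈ W ρ U a' J) ∧ (∀ z s, s ≤ 0 → Φ z s = z.1) ∧
    (∀ z s, 1 ≤ s → ∀ t, (Φ z s).1 t = (Φ z s).1 0) ∧
    ∀ z : ↥(W ρ U a J), (∀ t, z.1.1 t = z.1.1 0) → ∀ s t, (Φ z s).1 t = z.1.1 0

/-- the domain of the evaluation: marked paths with weights such that the marks with positive weight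
are in `F` -/
def Dm {P : Type} {M : ℕ} (V : Finset (Fin M) → Set P) : Set (P × (Fin M → ℝ)) :=
  {z | z.2 ∈ stdSimplex ℝ (Fin M) ∧
    ∀ J : Finset (Fin M), (∀ j, j ∈ J ↔ 0 < z.2 j) → z.1 ∈ V J}

/-- evaluation of the marked paths of length at most `a` at the points of the simplex -/
def EE {X : Type} [MetricSpace X] (ρ : X → X) (U : Set X) (M : ℕ) (a : ℝ) : Prop :=
  ∃ E : Ps X M → (Fin M → ℝ) → X,
    ContinuousOn (fun z : Ps X M × (Fin M → ℝ) => E z.1 z.2) (Dm (fun J => W ρ U a J)) ∧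
    (∀ z ∈ Dm (fun J : Finset (Fin M) => W ρ U a J), ρ (E z.1 z.2) = E z.1 z.2) ∧
    ∀ (x : Ps X M) (j : Fin M), x ∈ W ρ U a {j} → E x (Pi.single j 1) = x.1 (x.2 j)

/-- there is a map `g : U → F` whose restriction to `F` is homotopic to the identity -/
def Ret {X : Type} [MetricSpace X] (ρ : X → X) (U : Set X) : Prop :=
  ∃ (g : X → X) (H : X → ℝ → X), ContinuousOn g U ∧ (∀ x ∈ U, ρ (g x) = g x) ∧
    ContinuousOn (fun z : X × ℝ => H z.1 z.2) ({x | ρ x = x} ×ˢ Icc (0 : ℝ) 1) ∧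
    ∀ x, ρ x = x → (∀ s ∈ Icc (0 : ℝ) 1, ρ (H x s) = H x s) ∧ H x 0 = g x ∧ H x 1 = x

/-- there is a closed geodesic of length `2 T ∈ (0, L]` which is symmetric with respect to `ρ` -/
def SymGeod (X : Type) [MetricSpace X] (ρ : X → X) (L : ℝ) : Prop :=
  ∃ (γ : ℝ → X) (T : ℝ), 0 < T ∧ 2 * T ≤ L ∧ (∀ t, γ (t + 2 * T) = γ t) ∧
    (∀ t, γ (-t) = ρ (γ t)) ∧
    ∃ ε : ℝ, 0 < ε ∧ ∀ s t : ℝ, |s - t| ≤ ε → dist (γ s) (γ t) = |s - t|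

/-! ### the statements -/

def S_MF : Prop := ∀ (X : Type) [MetricSpace X] (ρ : X → X) (U : Set X) (r : ℝ),
  Mirror X ρ U → GeodSpace X → UniqGeod X r → MF X ρ U r

def S_BF : Prop := ∀ (X : Type) [MetricSpace X] [CompactSpace X] (ρ : X → X) (U : Set X) (M : ℕ)
  (r : ℝ), Mirror X ρ U → GeodSpace X → UniqGeod X r → MF X ρ U r → BF X ρ U M r

/-- curve shortening of ordered polygons -/
def S_FLOW : Prop := ∀ (X : Type) [MetricSpace X] (ρ : X → X) (U : Set X) (M : ℕ) (r : ℝ),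
  BF X ρ U M r → ∀ (r' : ℝ) (m : Bk ρ U M → Bk ρ U M → ℝ → Bk ρ U M), GMap (Bk ρ U M) r' m →
  r' < r → ∀ (N : ℕ) [NeZero N] [NeZero (2 * N)] (δ : ℝ), 0 < δ → δ ≤ r' →
    (∀ x ∈ OPol ρ U M N δ, (δ / (2 * (2 * N : ℕ))) ^ 2 ≤ En (2 * N) x →
      En (2 * N) (ph m (2 * N) (1 / 2) x) ≠ En (2 * N) x) →
    OPolC ρ U M N δ

/-- unfolding of critical ordered polygons -/
def S_UNF : Prop := ∀ (X : Type) [MetricSpace X] (ρ : X → X) (U : Set X) (M : ℕ) (r : ℝ),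
  Mirror X ρ U → GeodSpace X → UniqGeod X r → MF X ρ U r → BF X ρ U M r →
  ∀ (r' : ℝ) (m : X → X → ℝ → X) (m' : Bk ρ U M → Bk ρ U M → ℝ → Bk ρ U M), GMap X r' m →
  GMap (Bk ρ U M) r' m' → r' < r → ∀ (N : ℕ) [NeZero N] [NeZero (2 * N)] (δ : ℝ), δ ≤ r' →
    ∀ x ∈ OPol ρ U M N δ, 0 < En (2 * N) x →
      En (2 * N) (ph m' (2 * N) (1 / 2) x) = En (2 * N) x →
      ∃ y ∈ Sym X ρ N δ, En (2 * N) y = En (2 * N) x ∧
        En (2 * N) (ph m (2 * N) (1 / 2) y) = En (2 * N) y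

/-- critical symmetric polygons give symmetric closed geodesics -/
def S_CGS : Prop := ∀ (X : Type) [MetricSpace X] (r₀ r : ℝ) (m : X → X → ℝ → X), GMap X r m →
  r < r₀ → UniqGeod X r₀ → ∀ ρ : X → X, Isometry ρ → (∀ x, ρ (ρ x) = x) →
  ∀ (N : ℕ) [NeZero N] [NeZero (2 * N)] (δ : ℝ), δ ≤ r → ∀ x ∈ Sym X ρ N δ,
    En (2 * N) (ph m (2 * N) (1 / 2) x) = En (2 * N) x → 0 < En (2 * N) x →
    SymGeod X ρ ((2 * N : ℕ) * δ)

/-- from ordered polygons to ordered paths -/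
def S_PSI : Prop := ∀ (X : Type) [MetricSpace X] (ρ : X → X) (U : Set X) (M : ℕ) (r : ℝ),
  BF X ρ U M r → ∀ (r' : ℝ) (m : Bk ρ U M → Bk ρ U M → ℝ → Bk ρ U M), GMap (Bk ρ U M) r' m →
  r' < r → ∀ (N : ℕ) [NeZero N] [NeZero (2 * N)] (a : ℝ), 0 < a → a / N ≤ r' →
    OPolC ρ U M N (a / N) → OPC ρ U M a

/-- approximate crossing times -/
def S_SEL : Prop := ∀ (X : Type) [MetricSpace X] (ρ : X → X) (U : Set X) (M : ℕ) (r : ℝ),
  BF X ρ U M r → ∀ a η : ℝ, 0 ≤ a → 0 < η →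
  ∃ T : (ℝ → Bk ρ U M) → Fin M → ℝ, ContinuousOn T (OP ρ U M a) ∧
    ∀ d ∈ OP ρ U M a, (∀ j, T d j ∈ Icc (0 : ℝ) 1) ∧ (∀ i j, i ≤ j → T d i ≤ T d j) ∧
      (∀ j, dist (d (T d j)) (sw (d (T d j))) ≤ η) ∧
      ∀ j θ, θ ∈ Icc (0 : ℝ) 1 → (∀ s, s ≤ θ → d s ∈ Lo j) → (∀ s, θ ≤ s → d s ∈ Hi j) →
        ∀ t ∈ uIcc θ (T d j), dist (d t) (sw (d t)) ≤ η

/-- the lift of marked paths to the book -/
def S_LFT : Prop := ∀ (X : Type) [MetricSpace X] (ρ : X → X) (U : Set X) (M : ℕ) (r : ℝ),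
  Mirror X ρ U → BF X ρ U M r → ∀ a : ℝ, 0 ≤ a → ∀ J : Finset (Fin M), J.Nonempty →
  ∃ L : Ps X M → ℝ → Bk ρ U M, ContinuousOn L (TW ρ U a J) ∧
    ∀ z ∈ TW ρ U a J, L z ∈ OP ρ U M a ∧ (∀ t, un (L z t) = z.1 t) ∧
      ∀ j ∈ J, (∀ s, s ≤ z.2 j → L z s ∈ Lo j) ∧ ∀ s, z.2 j ≤ s → L z s ∈ Hi j

/-- the marks are corrected by the insertion of spikes -/
def S_COR : Prop := ∀ (X : Type) [MetricSpace X] (ρ : X → X) (U : Set X) (r : ℝ),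
  Mirror X ρ U → MF X ρ U r → ∀ (r' : ℝ) (m : X → X → ℝ → X), GMap X r' m → r' < r →
  ∀ (M : ℕ) (a η : ℝ), 0 < a → 0 < η → η ≤ r' → ∀ J : Finset (Fin M),
  ∃ C : Ps X M → Ps X M, ContinuousOn C (NW ρ U a η J) ∧
    ∀ z ∈ NW ρ U a η J, C z ∈ W ρ U (a + M * η) J ∧ (z ∈ W ρ U a J → C z = z)

/-- the contraction of the marked paths -/
def S_PHI : Prop := ∀ (X : Type) [MetricSpace X] (ρ : X → X) (U : Set X) (M : ℕ) (r : ℝ),
  Mirror X ρ U → MF X ρ U r → BF X ρ U M r → ∀ (r' : ℝ) (m : X → X → ℝ → X), GMap X r' m →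
  0 < r' → r' < r → ∀ a a' : ℝ, 0 < a → a < a' → OPC ρ U M a →
  ∀ J : Finset (Fin M), J.Nonempty → Ctr ρ U a a' J

/-- the simplex lemma -/
def S_SIM : Prop := ∀ (P X : Type) [TopologicalSpace P] [TopologicalSpace X] (M : ℕ) (F : Set X)
  (V : ℕ → Finset (Fin M) → Set P) (Z : Set P) (c : P → X) (ev : Fin M → P → X)
  (Φ : Finset (Fin M) → P → ℝ → P), 1 ≤ M →
  (∀ q J, IsClosed (V q J)) →
  (∀ (q : ℕ) (J J' : Finset (Fin M)), J' ⊆ J → V q J ⊆ V q J') →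
  (∀ (q q' : ℕ) (J : Finset (Fin M)), q' ≤ q → V q J ⊆ V q' J) → Continuous c →
  (∀ (q : ℕ) (J : Finset (Fin M)), ∀ j ∈ J, ContinuousOn (ev j) (V q J) ∧
    ∀ x ∈ V q J, ev j x ∈ F ∧ (x ∈ Z → ev j x = c x)) →
  (∀ J : Finset (Fin M), 2 ≤ J.card →
    ContinuousOn (fun z : P × ℝ => Φ J z.1 z.2) (V J.card J ×ˢ univ) ∧
    ∀ x ∈ V J.card J, (∀ s, Φ J x s ∈ V (J.card - 1) J) ∧ (∀ s, s ≤ 0 → Φ J x s = x) ∧
      (∀ s, 1 ≤ s → Φ J x s ∈ Z) ∧ (x ∈ Z → ∀ s, Φ J x s ∈ Z ∧ c (Φ J x s) = c x)) →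
  ∃ E : P → (Fin M → ℝ) → X,
    ContinuousOn (fun z : P × (Fin M → ℝ) => E z.1 z.2) (Dm (V M)) ∧
    (∀ z ∈ Dm (V M), E z.1 z.2 ∈ F) ∧
    ∀ (x : P) (j : Fin M), x ∈ V M {j} → E x (Pi.single j 1) = ev j x

/-- evaluation of marked paths, if they are contracted -/
def S_EE : Prop := ∀ (X : Type) [MetricSpace X] (ρ : X → X) (U : Set X) (M : ℕ),
  Mirror X ρ U → 1 ≤ M → ∀ L : ℕ → ℝ, (∀ q q', q' ≤ q → L q ≤ L q') →
  (∀ J : Finset (Fin M), 2 ≤ J.card → Ctr ρ U (L J.card) (L (J.card - 1)) J) → EE ρ U M (L M)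

/-- the star paths -/
def S_STAR : Prop := ∀ (X : Type) [MetricSpace X] (ρ : X → X) (U : Set X) (r : ℝ),
  Mirror X ρ U → MF X ρ U r → ∀ (n : ℕ) (p : X) (b : ℝ), ρ p = p → 0 ≤ b →
  ∀ (t : ℕ → ↥U → ℝ) (leg : ℕ → ↥U → ℝ → X), Data p b n (fun k : ↥U => k.1) ∅ t leg →
  EE ρ U (n + 2) (2 * (n + 1) * b) → Ret ρ U

end Pool.Agent.N489.RW
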