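import Mathlib
import Pool.Agent.N489.RW.Stm

/-!
# Project RW: the simplex lemma (helper839)
-/

set_option autoImplicit false
set_option linter.unusedSectionVars false

open Set Topology Filter
open scoped Classical

noncomputable section

namespace Pool.Agent.N489.RW.SIM

open Pool.Agent.N489.RW

variable {P X : Type} [TopologicalSpace P] [TopologicalSpace X] {M : ℕ}

/-- the points with weights in the face of `J` -/
def Fc (A : Set P) (J : Finset (Fin M)) : Set (P × (Fin M → ℝ)) :=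
  {z | z.1 ∈ A ∧ z.2 ∈ stdSimplex ℝ (Fin M) ∧ ∀ j, j ∉ J → z.2 j = 0}

lemma Fc_closed {A : Set P} (hA : IsClosed A) (J : Finset (Fin M)) : IsClosed (Fc A J) := by
  have h1 : IsClosed {z : P × (Fin M → ℝ) | z.1 ∈ A} := hA.preimage continuous_fst
  have h2 : IsClosed {z : P × (Fin M → ℝ) | z.2 ∈ stdSimplex ℝ (Fin M)} :=
    (isClosed_stdSimplex ℝ (Fin M)).preimage continuous_snd
  have h3 : IsClosed {z : P × (Fin M → ℝ) | ∀ j, j ∉ J → z.2 j = 0} := by
    simp only [ofPred_forall]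
    refine isClosed_iInter fun j => isClosed_iInter fun _ => ?_
    exact isClosed_eq ((continuous_apply j).comp continuous_snd) continuous_const
  exact h1.inter (h2.inter h3)

lemma Fc_mono {A A' : Set P} {J J' : Finset (Fin M)} (hA : A ⊆ A') (hJ : J ⊆ J') :
    Fc A J ⊆ Fc A' J' := fun _ hz => ⟨hA hz.1, hz.2.1, fun j hj => hz.2.2 j fun h => hj (hJ h)⟩

/-- the least weight -/
def mu (J : Finset (Fin M)) (t : Fin M → ℝ) : ℝ := if h : J.Nonempty then J.inf' h t else 0

lemma mu_cont (J : Finset (Fin M)) : Continuous (mu J) := by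
  unfold mu
  by_cases h : J.Nonempty
  · simp only [dif_pos h]
    exact Continuous.finset_inf'_apply h fun i _ => continuous_apply i
  · simp only [dif_neg h]
    exact continuous_const

lemma mu_le {J : Finset (Fin M)} {t : Fin M → ℝ} {j : Fin M} (hj : j ∈ J) : mu J t ≤ t j := by
  unfold mu
  rw [dif_pos ⟨j, hj⟩]
  exact Finset.inf'_le t hj

lemma mu_eq {J : Finset (Fin M)} (hJ : J.Nonempty) (t : Fin M → ℝ) : ∃ j ∈ J, mu J t = t j := by
  unfold mu
  rw [dif_pos hJ]
  exact Finset.exists_mem_eq_inf' hJ t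

/-- the radius -/
def rr (J : Finset (Fin M)) (t : Fin M → ℝ) : ℝ := J.card * mu J t

lemma rr_cont (J : Finset (Fin M)) : Continuous (rr J) := continuous_const.mul (mu_cont J)

/-- the point of the boundary -/
def tt (J : Finset (Fin M)) (t : Fin M → ℝ) : Fin M → ℝ := fun j =>
  if j ∈ J then (t j - mu J t) / (1 - rr J t) else 0

lemma sum_J {J : Finset (Fin M)} {t : Fin M → ℝ} (ht : t ∈ stdSimplex ℝ (Fin M))
    (h0 : ∀ j, j ∉ J → t j = 0) : ∑ j ∈ J, t j = 1 := by
  rw [← ht.2]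
  exact Finset.sum_subset (Finset.subset_univ J) fun j _ hj => h0 j hj

lemma rr_le {J : Finset (Fin M)} {t : Fin M → ℝ} (ht : t ∈ stdSimplex ℝ (Fin M))
    (h0 : ∀ j, j ∉ J → t j = 0) : rr J t ≤ 1 := by
  rw [← sum_J ht h0]
  unfold rr
  rw [← nsmul_eq_mul, ← Finset.sum_const]
  exact Finset.sum_le_sum fun j hj => mu_le hj

lemma tt_mem {J : Finset (Fin M)} (hJ : J.Nonempty) {t : Fin M → ℝ}
    (ht : t ∈ stdSimplex ℝ (Fin M)) (h0 : ∀ j, j ∉ J → t j = 0) (hr : rr J t < 1) :
    tt J t ∈ stdSimplex ℝ (Fin M) ∧ (∀ j, j ∉ J → tt J t j = 0) ∧ ∃ j ∈ J, tt J t j = 0 := by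
  have h1 : 0 < 1 - rr J t := by linarith
  refine ⟨⟨fun j => ?_, ?_⟩, fun j hj => if_neg hj, ?_⟩
  · unfold tt
    split_ifs with hj
    · exact div_nonneg (by linarith [mu_le (t := t) hj]) h1.le
    · exact le_rfl
  · have h2 : ∑ j, tt J t j = ∑ j ∈ J, tt J t j :=
      (Finset.sum_subset (Finset.subset_univ J) fun j _ hj => if_neg hj).symm
    rw [h2]
    have h3 : ∑ j ∈ J, tt J t j = ∑ j ∈ J, (t j - mu J t) / (1 - rr J t) :=
      Finset.sum_congr rfl fun j hj => if_pos hj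
    rw [h3, ← Finset.sum_div, Finset.sum_sub_distrib, sum_J ht h0, Finset.sum_const,
      nsmul_eq_mul]
    exact div_self h1.ne'
  · obtain ⟨j, hj, e⟩ := mu_eq hJ t
    refine ⟨j, hj, ?_⟩
    unfold tt
    rw [if_pos hj, e, sub_self, zero_div]

/-- the extension to the cone -/
def G (E : P → (Fin M → ℝ) → X) (c : P → X) (Φ : Finset (Fin M) → P → ℝ → P)
    (J : Finset (Fin M)) (x : P) (t : Fin M → ℝ) : X :=
  if rr J t < 1 then E (Φ J x (rr J t)) (tt J t) else c (Φ J x 1)

/-- the support -/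
def sp (t : Fin M → ℝ) : Finset (Fin M) := Finset.univ.filter fun j => 0 < t j

/-- the evaluation for the faces with at most `k` corners -/
structure Cl (F : Set X) (V : ℕ → Finset (Fin M) → Set P) (Z : Set P) (c : P → X)
    (ev : Fin M → P → X) (k : ℕ) (E : P → (Fin M → ℝ) → X) : Prop where
  cont : ∀ J : Finset (Fin M), J.Nonempty → J.card ≤ k →
    ContinuousOn (fun z : P × (Fin M → ℝ) => E z.1 z.2) (Fc (V J.card J) J)
  val : ∀ J : Finset (Fin M), J.Nonempty → J.card ≤ k → ∀ z ∈ Fc (V J.card J) J,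
    E z.1 z.2 ∈ F ∧ (z.1 ∈ Z → E z.1 z.2 = c z.1)
  one : ∀ (x : P) (j : Fin M), x ∈ V 1 {j} → E x (Pi.single j 1) = ev j x

variable {F : Set X} {V : ℕ → Finset (Fin M) → Set P} {Z : Set P} {c : P → X}
  {ev : Fin M → P → X} {Φ : Finset (Fin M) → P → ℝ → P}

lemma base (hev : ∀ (q : ℕ) (J : Finset (Fin M)), ∀ j ∈ J, ContinuousOn (ev j) (V q J) ∧
    ∀ x ∈ V q J, ev j x ∈ F ∧ (x ∈ Z → ev j x = c x)) :
    Cl F V Z c ev 1 fun x t => if h : ∃ j, t j = 1 then ev h.choose x else c x := by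
  have key : ∀ (j : Fin M) (x : P) (t : Fin M → ℝ), t j = 1 → (∀ i, i ≠ j → t i = 0) →
      (if h : ∃ j, t j = 1 then ev h.choose x else c x) = ev j x := by
    intro j x t h1 h2
    have h : ∃ j, t j = 1 := ⟨j, h1⟩
    rw [dif_pos h]
    have h3 : h.choose = j := by
      by_contra hne
      have h4 := h.choose_spec
      rw [h2 _ hne] at h4
      exact zero_ne_one h4
    rw [h3]
  have hJ1 : ∀ J : Finset (Fin M), J.Nonempty → J.card ≤ 1 → ∃ j, J = {j} := by
    intro J hJ hc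
    exact Finset.card_eq_one.1 (le_antisymm hc hJ.card_pos)
  have hz : ∀ (j : Fin M), ∀ z ∈ Fc (V 1 {j}) ({j} : Finset (Fin M)),
      (if h : ∃ j, z.2 j = 1 then ev h.choose z.1 else c z.1) = ev j z.1 := by
    intro j z hz
    refine key j z.1 z.2 ?_ fun i hi => hz.2.2 i (by simpa using hi)
    have h1 := sum_J hz.2.1 hz.2.2
    rwa [Finset.sum_singleton] at h1
  refine ⟨fun J hJ hc => ?_, fun J hJ hc z hz' => ?_, fun x j _ => ?_⟩
  · obtain ⟨j, rfl⟩ := hJ1 J hJ hc
    rw [Finset.card_singleton]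
    have h1 : ContinuousOn (fun z : P × (Fin M → ℝ) => ev j z.1) (Fc (V 1 {j}) {j}) :=
      (hev 1 {j} j (Finset.mem_singleton_self j)).1.comp continuous_fst.continuousOn
        fun z hz => hz.1
    exact h1.congr fun z hz' => hz j z hz'
  · obtain ⟨j, rfl⟩ := hJ1 J hJ hc
    rw [Finset.card_singleton] at hz'
    simp only [hz j z hz']
    exact (hev 1 {j} j (Finset.mem_singleton_self j)).2 z.1 hz'.1
  · refine key j x _ (by simp) fun i hi => ?_
    exact Pi.single_eq_of_ne hi _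

section step

variable (hVc : ∀ q J, IsClosed (V q J))
  (hVJ : ∀ (q : ℕ) (J J' : Finset (Fin M)), J' ⊆ J → V q J ⊆ V q J')
  (hVq : ∀ (q q' : ℕ) (J : Finset (Fin M)), q' ≤ q → V q J ⊆ V q' J) (hc : Continuous c)
  (hev : ∀ (q : ℕ) (J : Finset (Fin M)), ∀ j ∈ J, ContinuousOn (ev j) (V q J) ∧
    ∀ x ∈ V q J, ev j x ∈ F ∧ (x ∈ Z → ev j x = c x))
  (hΦ : ∀ J : Finset (Fin M), 2 ≤ J.card →
    ContinuousOn (fun z : P × ℝ => Φ J z.1 z.2) (V J.card J ×ˢ univ) ∧
    ∀ x ∈ V J.card J, (∀ s, Φ J x s ∈ V (J.card - 1) J) ∧ (∀ s, s ≤ 0 → Φ J x s = x) ∧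
      (∀ s, 1 ≤ s → Φ J x s ∈ Z) ∧ (x ∈ Z → ∀ s, Φ J x s ∈ Z ∧ c (Φ J x s) = c x))
  {k : ℕ} (hk : 1 ≤ k) {E : P → (Fin M → ℝ) → X} (hE : Cl F V Z c ev k E)

include hVJ hVq hk hE in
/-- the evaluation on the boundary of a face with `k + 1` corners -/
lemma bd_val {J : Finset (Fin M)} (hJ : J.card = k + 1) {y : P} {t : Fin M → ℝ}
    (hy : y ∈ V k J) (ht : t ∈ stdSimplex ℝ (Fin M)) (h0 : ∀ j, j ∉ J → t j = 0)
    (h1 : ∃ j ∈ J, t j = 0) : E y t ∈ F ∧ (y ∈ Z → E y t = c y) := by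
  obtain ⟨j, hj, hj0⟩ := h1
  have hcard : (J.erase j).card = k := by rw [Finset.card_erase_of_mem hj, hJ]; rfl
  have hne : (J.erase j).Nonempty := by
    rw [← Finset.card_pos, hcard]
    omega
  refine hE.val (J.erase j) hne hcard.le (y, t) ⟨?_, ht, fun i hi => ?_⟩
  · rw [hcard]
    exact hVJ k J _ (Finset.erase_subset j J) hy
  · by_cases hij : i = j
    · rw [hij]
      exact hj0
    · exact h0 i fun h => hi (Finset.mem_erase.2 ⟨hij, h⟩)

include hVc hVJ hVq hk hE in
lemma bd_cont {J : Finset (Fin M)} (hJ : J.card = k + 1) :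
    ContinuousOn (fun z : P × (Fin M → ℝ) => E z.1 z.2)
      {z | z.1 ∈ V k J ∧ z.2 ∈ stdSimplex ℝ (Fin M) ∧ (∀ j, j ∉ J → z.2 j = 0) ∧
        ∃ j ∈ J, z.2 j = 0} := by
  have h1 : ContinuousOn (fun z : P × (Fin M → ℝ) => E z.1 z.2)
      (⋃ j : {j // j ∈ J}, Fc (V k J) (J.erase j.1)) := by
    refine LocallyFinite.continuousOn_iUnion (locallyFinite_of_finite _)
      (fun j => Fc_closed (hVc k J) _) fun j => ?_
    have hcard : (J.erase j.1).card = k := by rw [Finset.card_erase_of_mem j.2, hJ]; rfl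
    have hne : (J.erase j.1).Nonempty := by
      rw [← Finset.card_pos, hcard]
      omega
    refine (hE.cont (J.erase j.1) hne hcard.le).mono ?_
    rw [hcard]
    exact Fc_mono (hVJ k J _ (Finset.erase_subset _ J)) subset_rfl
  refine h1.mono fun z hz => ?_
  obtain ⟨hz1, hz2, hz3, j, hj, hj0⟩ := hz
  refine mem_iUnion.2 ⟨⟨j, hj⟩, hz1, hz2, fun i hi => ?_⟩
  by_cases hij : i = j
  · rw [hij]
    exact hj0
  · exact hz3 i fun h => hi (Finset.mem_erase.2 ⟨hij, h⟩)

include hVJ hVq hk hE hΦ hev in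
lemma G_val {J : Finset (Fin M)} (hJ : J.card = k + 1) {z : P × (Fin M → ℝ)}
    (hz : z ∈ Fc (V J.card J) J) :
    G E c Φ J z.1 z.2 ∈ F ∧ (z.1 ∈ Z → G E c Φ J z.1 z.2 = c z.1) := by
  have hne : J.Nonempty := by
    rw [← Finset.card_pos]
    omega
  obtain ⟨-, hΦ2⟩ := hΦ J (by omega)
  obtain ⟨g1, g2, g3, g4⟩ := hΦ2 z.1 hz.1
  have hk' : J.card - 1 = k := by omega
  rw [hk'] at g1
  unfold G
  split_ifs with hr
  · obtain ⟨t1, t2, t3⟩ := tt_mem hne hz.2.1 hz.2.2 hr
    obtain ⟨v1, v2⟩ := bd_val hVJ hVq hk hE hJ (g1 (rr J z.2)) t1 t2 t3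
    refine ⟨v1, fun hZ => ?_⟩
    obtain ⟨a1, a2⟩ := g4 hZ (rr J z.2)
    rw [v2 a1, a2]
  · obtain ⟨j, hj⟩ := hne
    obtain ⟨b1, b2⟩ := (hev k J j hj).2 _ (g1 1)
    refine ⟨?_, fun hZ => (g4 hZ 1).2⟩
    rw [← b2 (g3 1 le_rfl)]
    exact b1

include hVc hVJ hVq hc hk hE hΦ hev in
lemma G_cont {J : Finset (Fin M)} (hJ : J.card = k + 1) :
    ContinuousOn (fun z : P × (Fin M → ℝ) => G E c Φ J z.1 z.2) (Fc (V J.card J) J) := by
  have hne : J.Nonempty := by
    rw [← Finset.card_pos]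
    omega
  obtain ⟨hΦ1, hΦ2⟩ := hΦ J (by omega)
  have hk' : J.card - 1 = k := by omega
  rw [hk'] at hΦ2
  obtain ⟨U, hU⟩ : ∃ U : Set (P × (Fin M → ℝ)), U = {z | z.1 ∈ V k J ∧
      z.2 ∈ stdSimplex ℝ (Fin M) ∧ (∀ j, j ∉ J → z.2 j = 0) ∧ ∃ j ∈ J, z.2 j = 0} := ⟨_, rfl⟩
  have hEU : ContinuousOn (fun z : P × (Fin M → ℝ) => E z.1 z.2) U := by
    rw [hU]
    exact bd_cont hVc hVJ hVq hk hE hJ
  have hmaps : ∀ z ∈ Fc (V J.card J) J, rr J z.2 < 1 →
      ((Φ J z.1 (rr J z.2), tt J z.2) : P × (Fin M → ℝ)) ∈ U := by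
    intro z hz hr
    rw [hU]
    obtain ⟨t1, t2, t3⟩ := tt_mem hne hz.2.1 hz.2.2 hr
    exact ⟨(hΦ2 z.1 hz.1).1 _, t1, t2, t3⟩
  -- the continuity of the first component
  have hΦr : ContinuousOn (fun z : P × (Fin M → ℝ) => Φ J z.1 (rr J z.2))
      (Fc (V J.card J) J) := by
    have h1 : Continuous fun z : P × (Fin M → ℝ) => ((z.1, rr J z.2) : P × ℝ) :=
      continuous_fst.prodMk ((rr_cont J).comp continuous_snd)
    exact hΦ1.comp h1.continuousOn fun z hz => ⟨hz.1, mem_univ _⟩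
  have hΦ0 : ContinuousOn (fun z : P × (Fin M → ℝ) => Φ J z.1 1) (Fc (V J.card J) J) := by
    have h1 : Continuous fun z : P × (Fin M → ℝ) => ((z.1, (1 : ℝ)) : P × ℝ) :=
      continuous_fst.prodMk continuous_const
    exact hΦ1.comp h1.continuousOn fun z hz => ⟨hz.1, mem_univ _⟩
  intro z0 hz0
  by_cases hr : rr J z0.2 < 1
  · -- the points off the centre
    have hopen : IsOpen {z : P × (Fin M → ℝ) | rr J z.2 < 1} :=
      isOpen_lt ((rr_cont J).comp continuous_snd) continuous_const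
    have hmem : {z : P × (Fin M → ℝ) | rr J z.2 < 1} ∈ 𝓝 z0 := hopen.mem_nhds hr
    rw [← continuousWithinAt_inter hmem]
    have htt : ContinuousWithinAt (fun z : P × (Fin M → ℝ) => tt J z.2)
        (Fc (V J.card J) J ∩ {z | rr J z.2 < 1}) z0 := by
      refine ContinuousAt.continuousWithinAt (continuousAt_pi.2 fun j => ?_)
      unfold tt
      by_cases hj : j ∈ J
      · simp only [if_pos hj]
        refine ContinuousAt.div ?_ ?_ (by linarith)
        · exact (((continuous_apply j).comp continuous_snd).sub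
            ((mu_cont J).comp continuous_snd)).continuousAt
        · exact (continuous_const.sub ((rr_cont J).comp continuous_snd)).continuousAt
      · simp only [if_neg hj]
        exact continuousAt_const
    have h1 : ContinuousWithinAt
        (fun z : P × (Fin M → ℝ) => ((Φ J z.1 (rr J z.2), tt J z.2) : P × (Fin M → ℝ)))
        (Fc (V J.card J) J ∩ {z | rr J z.2 < 1}) z0 :=
      ((hΦr z0 hz0).mono inter_subset_left).prodMk htt
    have h2 := ContinuousWithinAt.comp (x := z0)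
      (f := fun z : P × (Fin M → ℝ) => ((Φ J z.1 (rr J z.2), tt J z.2) : P × (Fin M → ℝ)))
      (g := fun z : P × (Fin M → ℝ) => E z.1 z.2) (hEU _ (hmaps z0 hz0 hr)) h1
      (fun z hz => hmaps z hz.1 hz.2)
    refine h2.congr (fun z hz => ?_) ?_
    · have hz2 : rr J z.2 < 1 := hz.2
      unfold G
      rw [if_pos hz2]
      rfl
    · unfold G
      rw [if_pos hr]
      rfl
  · -- the centre
    obtain ⟨y, hy⟩ : ∃ y, y = Φ J z0.1 1 := ⟨_, rfl⟩
    have hr1 : rr J z0.2 = 1 := le_antisymm (rr_le hz0.2.1 hz0.2.2) (not_lt.1 hr)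
    have hG0 : G E c Φ J z0.1 z0.2 = c y := by
      unfold G
      rw [if_neg hr, hy]
    have hyZ : y ∈ Z := by
      rw [hy]
      exact (hΦ2 z0.1 hz0.1).2.2.1 1 le_rfl
    have hyV : y ∈ V k J := by
      rw [hy]
      exact (hΦ2 z0.1 hz0.1).1 1
    unfold ContinuousWithinAt
    simp only [hG0]
    rw [tendsto_nhds]
    intro O hO hcO
    obtain ⟨n, hn, hnU⟩ := continuousOn_iff'.1 hEU O hO
    -- the compact boundary
    obtain ⟨B, hB⟩ : ∃ B : Set (Fin M → ℝ), B = {t | t ∈ stdSimplex ℝ (Fin M) ∧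
      (∀ j, j ∉ J → t j = 0) ∧ ∃ j ∈ J, t j = 0} := ⟨_, rfl⟩
    have hBc : IsCompact B := by
      refine (isCompact_stdSimplex ℝ (Fin M)).of_isClosed_subset ?_ fun t ht => ?_
      · rw [hB]
        have h1 := isClosed_stdSimplex ℝ (Fin M)
        have h2 : IsClosed {t : Fin M → ℝ | ∀ j, j ∉ J → t j = 0} := by
          simp only [ofPred_forall]
          exact isClosed_iInter fun j => isClosed_iInter fun _ =>
            isClosed_eq (continuous_apply j) continuous_const
        have h3 : IsClosed {t : Fin M → ℝ | ∃ j ∈ J, t j = 0} := by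
          have e : {t : Fin M → ℝ | ∃ j ∈ J, t j = 0} = ⋃ j ∈ (J : Set (Fin M)), {t | t j = 0} := by
            ext t
            simp
          rw [e]
          exact Set.Finite.isClosed_biUnion (Finset.finite_toSet J) fun j _ =>
            isClosed_eq (continuous_apply j) continuous_const
        exact h1.inter (h2.inter h3)
      · rw [hB] at ht
        exact ht.1
    have hsub : ({y} : Set P) ×ˢ B ⊆ n := by
      rintro ⟨y', t⟩ ⟨h1, h2⟩
      rw [mem_singleton_iff] at h1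
      simp only at h1 h2
      rw [h1]
      rw [hB] at h2
      have h3 : ((y, t) : P × (Fin M → ℝ)) ∈ U := by
        rw [hU]
        exact ⟨hyV, h2.1, h2.2.1, h2.2.2⟩
      have h4 : E y t = c y :=
        (bd_val hVJ hVq hk hE hJ hyV h2.1 h2.2.1 h2.2.2).2 hyZ
      have h5 : ((y, t) : P × (Fin M → ℝ)) ∈
          (fun z : P × (Fin M → ℝ) => E z.1 z.2) ⁻¹' O ∩ U := by
        refine ⟨?_, h3⟩
        show E y t ∈ O
        rw [h4]
        exact hcO
      rw [hnU] at h5
      exact h5.1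
    obtain ⟨u, v, hu, hv, hyu, hBv, huv⟩ :=
      generalized_tube_lemma isCompact_singleton hBc hn hsub
    have hyu' : y ∈ u := hyu (mem_singleton y)
    -- the two cases
    have e1 : ∀ᶠ z in 𝓝[Fc (V J.card J) J] z0, Φ J z.1 (rr J z.2) ∈ u := by
      have h1 := hΦr z0 hz0
      refine h1 (hu.mem_nhds ?_)
      show Φ J z0.1 (rr J z0.2) ∈ u
      rw [hr1, ← hy]
      exact hyu'
    have e2 : ∀ᶠ z in 𝓝[Fc (V J.card J) J] z0, c (Φ J z.1 1) ∈ O := by
      have h1 : ContinuousWithinAt (fun z : P × (Fin M → ℝ) => c (Φ J z.1 1))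
          (Fc (V J.card J) J) z0 :=
        hc.continuousAt.comp_continuousWithinAt (hΦ0 z0 hz0)
      refine h1 (hO.mem_nhds ?_)
      show c (Φ J z0.1 1) ∈ O
      rw [← hy]
      exact hcO
    filter_upwards [e1, e2, self_mem_nhdsWithin] with z h1 h2 hz
    show G E c Φ J z.1 z.2 ∈ O
    unfold G
    split_ifs with hrz
    · have h3 := hmaps z hz hrz
      have h4 : tt J z.2 ∈ B := by
        rw [hU] at h3
        rw [hB]
        exact h3.2
      have h5 : ((Φ J z.1 (rr J z.2), tt J z.2) : P × (Fin M → ℝ)) ∈ n ∩ U :=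
        ⟨huv ⟨h1, hBv h4⟩, h3⟩
      rw [← hnU] at h5
      exact h5.1
    · exact h2

include hΦ hk in
lemma keyG {J : Finset (Fin M)} (hJ : J.card = k + 1) {z : P × (Fin M → ℝ)}
    (hz : z ∈ Fc (V J.card J) J) :
    (if (sp z.2).card ≤ k then E z.1 z.2 else G E c Φ (sp z.2) z.1 z.2) =
      G E c Φ J z.1 z.2 := by
  have hne : J.Nonempty := by
    rw [← Finset.card_pos]
    omega
  have hsp : sp z.2 ⊆ J := by
    intro j hj
    unfold sp at hj
    rw [Finset.mem_filter] at hj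
    by_contra h
    rw [hz.2.2 j h] at hj
    exact lt_irrefl _ hj.2
  by_cases hcd : (sp z.2).card ≤ k
  · rw [if_pos hcd]
    have h1 : ∃ j ∈ J, z.2 j = 0 := by
      by_contra hno
      push Not at hno
      have h2 : J ⊆ sp z.2 := fun j hj => by
        unfold sp
        rw [Finset.mem_filter]
        exact ⟨Finset.mem_univ _, lt_of_le_of_ne (hz.2.1.1 j) (Ne.symm (hno j hj))⟩
      have h3 := Finset.card_le_card h2
      omega
    obtain ⟨j, hj, hj0⟩ := h1
    have hmu : mu J z.2 = 0 := by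
      obtain ⟨i, hi, e⟩ := mu_eq hne z.2
      have h2 := mu_le (t := z.2) hj
      have h3 := hz.2.1.1 i
      rw [hj0] at h2
      rw [← e] at h3
      exact le_antisymm h2 h3
    have hrr : rr J z.2 = 0 := by
      unfold rr
      rw [hmu, mul_zero]
    have htt : tt J z.2 = z.2 := by
      funext i
      unfold tt
      split_ifs with hi
      · rw [hmu, hrr]
        simp
      · exact (hz.2.2 i hi).symm
    obtain ⟨-, hΦ2⟩ := hΦ J (by omega)
    unfold G
    rw [if_pos (by rw [hrr]; exact one_pos), htt, hrr, (hΦ2 z.1 hz.1).2.1 0 le_rfl]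
  · rw [if_neg hcd]
    have h2 : sp z.2 = J := Finset.eq_of_subset_of_card_le hsp (by omega)
    rw [h2]

include hVc hVJ hVq hc hk hE hΦ hev in
/-- the step of the induction -/
lemma step : ∃ E' : P → (Fin M → ℝ) → X, Cl F V Z c ev (k + 1) E' := by
  have hsp : ∀ {J : Finset (Fin M)} {t : Fin M → ℝ}, (∀ j, j ∉ J → t j = 0) → sp t ⊆ J := by
    intro J t h0 j hj
    unfold sp at hj
    rw [Finset.mem_filter] at hj
    by_contra h
    rw [h0 j h] at hj
    exact lt_irrefl _ hj.2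
  refine ⟨fun x t => if (sp t).card ≤ k then E x t else G E c Φ (sp t) x t, ?_, ?_, ?_⟩
  · intro J hne hJ
    rcases Nat.lt_or_ge k J.card with h1 | h1
    · have hJ' : J.card = k + 1 := by omega
      refine (G_cont hVc hVJ hVq hc hev hΦ hk hE hJ').congr fun z hz => ?_
      exact keyG hΦ hk hJ' hz
    · refine (hE.cont J hne h1).congr fun z hz => ?_
      have h2 := (Finset.card_le_card (hsp hz.2.2)).trans h1
      simp only [if_pos h2]
  · intro J hne hJ z hz
    rcases Nat.lt_or_ge k J.card with h1 | h1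
    · have hJ' : J.card = k + 1 := by omega
      have h2 := keyG (E := E) (c := c) hΦ hk hJ' hz
      show (if (sp z.2).card ≤ k then E z.1 z.2 else G E c Φ (sp z.2) z.1 z.2) ∈ F ∧
        (z.1 ∈ Z → (if (sp z.2).card ≤ k then E z.1 z.2 else G E c Φ (sp z.2) z.1 z.2) = c z.1)
      rw [h2]
      exact G_val hVJ hVq hev hΦ hk hE hJ' hz
    · have h2 := (Finset.card_le_card (hsp hz.2.2)).trans h1
      simp only [if_pos h2]
      exact hE.val J hne h1 z hz
  · intro x j hx
    have h1 : sp (Pi.single j (1 : ℝ) : Fin M → ℝ) ⊆ {j} := hsp fun i hi => by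
      rw [Finset.mem_singleton] at hi
      exact Pi.single_eq_of_ne hi _
    have h2 : (sp (Pi.single j (1 : ℝ) : Fin M → ℝ)).card ≤ k :=
      (Finset.card_le_card h1).trans (by rw [Finset.card_singleton]; exact hk)
    simp only [if_pos h2]
    exact hE.one x j hx

end step

end Pool.Agent.N489.RW.SIM

namespace Pool.Agent.N489.RW

open SIM

theorem t_SIM : S_SIM := by
  intro P X _ _ M F V Z c ev Φ hM hVc hVJ hVq hc hev hΦ
  have h1 : ∀ k : ℕ, 1 ≤ k → ∃ E : P → (Fin M → ℝ) → X, Cl F V Z c ev k E := by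
    intro k hk
    induction k, hk using Nat.le_induction with
    | base => exact ⟨_, base hev⟩
    | succ k hk ih =>
      obtain ⟨E, hE⟩ := ih
      exact step hVc hVJ hVq hc hev hΦ hk hE
  obtain ⟨E, hE⟩ := h1 M hM
  have hcard : ∀ J : Finset (Fin M), J.card ≤ M := fun J => by
    have := Finset.card_le_univ J
    rwa [Fintype.card_fin] at this
  -- the faces
  have hsub : ∀ z ∈ Dm (V M), ∃ J : Finset (Fin M), J.Nonempty ∧ z ∈ Fc (V M J) J := by
    intro z hz
    obtain ⟨hz1, hz2⟩ := hz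
    have h2 : z ∈ Fc (V M (sp z.2)) (sp z.2) := by
      refine ⟨hz2 (sp z.2) fun j => ?_, hz1, fun j hj => ?_⟩
      · unfold sp
        simp
      · unfold sp at hj
        simp only [Finset.mem_filter, Finset.mem_univ, true_and, not_lt] at hj
        exact le_antisymm hj (hz1.1 j)
    refine ⟨sp z.2, ?_, h2⟩
    by_contra hne
    rw [Finset.not_nonempty_iff_eq_empty] at hne
    have h3 := sum_J h2.2.1 h2.2.2
    rw [hne, Finset.sum_empty] at h3
    exact zero_ne_one h3
  refine ⟨E, ?_, fun z hz => ?_, fun x j hx => hE.one x j (hVq M 1 {j} hM hx)⟩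
  · have h2 : ContinuousOn (fun z : P × (Fin M → ℝ) => E z.1 z.2)
        (⋃ J : Finset (Fin M), Fc (V M J) J) := by
      refine LocallyFinite.continuousOn_iUnion (locallyFinite_of_finite _)
        (fun J => Fc_closed (hVc M J) J) fun J => ?_
      by_cases hne : J.Nonempty
      · exact (hE.cont J hne (hcard J)).mono (Fc_mono (hVq M J.card J (hcard J)) subset_rfl)
      · have h3 : Fc (V M J) J = ∅ := by
          rw [eq_empty_iff_forall_notMem]
          intro z hz
          rw [Finset.not_nonempty_iff_eq_empty] at hne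
          have h4 := sum_J hz.2.1 hz.2.2
          rw [hne, Finset.sum_empty] at h4
          exact zero_ne_one h4
        rw [h3]
        exact continuousOn_empty _
    refine h2.mono fun z hz => ?_
    obtain ⟨J, -, hJ⟩ := hsub z hz
    exact mem_iUnion.2 ⟨J, hJ⟩
  · obtain ⟨J, hne, hJ⟩ := hsub z hz
    exact (hE.val J hne (hcard J) z (Fc_mono (hVq M J.card J (hcard J)) subset_rfl hJ)).1

end Pool.Agent.N489.RW

end
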