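import Pool.Agent.N489.RW.Stm3
import Pool.Agent.N489.RW.DIM

/-!
# Project RW (helper489), part 3: rotations of spheres

By helper427 (after the file `DIM.lean` of helper401).
-/

set_option autoImplicit false

open Set Topology

noncomputable section

namespace Pool.Agent.N489.RW.SPT

open Pool.Agent.Y489.GE Pool.Agent.R203.IF Pool.Agent.N489.RW
open Pool.Agent.N489.RW.DIM (ap pr ap_cs ap_last pr_ap eu_ext norm_sq_split pr_cont ap_cont norm_ap
  cv cv_norm cv_cont)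

variable {X : Type} [MetricSpace X] {k : ℕ}

/-- the second last coordinate -/
def ca (e : X ≃ₜ ↥(Metric.sphere (0 : Eu (k + 2)) 1)) (x : X) : ℝ :=
  (e x).1 (Fin.last (k + 1)).castSucc

/-- the last coordinate -/
def cb (e : X ≃ₜ ↥(Metric.sphere (0 : Eu (k + 2)) 1)) (x : X) : ℝ :=
  (e x).1 (Fin.last (k + 2))

/-- the first coordinates -/
def cp (e : X ≃ₜ ↥(Metric.sphere (0 : Eu (k + 2)) 1)) (x : X) : Eu k :=
  pr (pr (e x).1)

theorem e_cont (e : X ≃ₜ ↥(Metric.sphere (0 : Eu (k + 2)) 1)) :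
    Continuous (fun x => (e x).1) := continuous_subtype_val.comp e.continuous

theorem ca_cont (e : X ≃ₜ ↥(Metric.sphere (0 : Eu (k + 2)) 1)) : Continuous (ca e) := by
  have h2 := e_cont e
  unfold ca
  fun_prop

theorem cb_cont (e : X ≃ₜ ↥(Metric.sphere (0 : Eu (k + 2)) 1)) : Continuous (cb e) := by
  have h2 := e_cont e
  unfold cb
  fun_prop

theorem cp_cont (e : X ≃ₜ ↥(Metric.sphere (0 : Eu (k + 2)) 1)) : Continuous (cp e) :=
  pr_cont.comp (pr_cont.comp (e_cont e))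

theorem split3 (e : X ≃ₜ ↥(Metric.sphere (0 : Eu (k + 2)) 1)) (x : X) :
    ‖cp e x‖ ^ 2 + (ca e x) ^ 2 + (cb e x) ^ 2 = 1 := by
  have h1 := norm_sq_split (e x).1
  have h2 := norm_sq_split (pr (e x).1)
  have h3 : ‖(e x).1‖ = 1 := by simp
  rw [h3, h2] at h1
  have h4 : (pr (e x).1) (Fin.last (k + 1)) = ca e x := rfl
  rw [h4] at h1
  change _ = ‖cp e x‖ ^ 2 + (ca e x) ^ 2 + (cb e x) ^ 2 at h1
  linarith

theorem ext3 (e : X ≃ₜ ↥(Metric.sphere (0 : Eu (k + 2)) 1)) {x y : X} (h1 : cp e x = cp e y)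
    (h2 : ca e x = ca e y) (h3 : cb e x = cb e y) : x = y := by
  apply e.injective
  apply Subtype.ext
  apply eu_ext
  · intro i
    refine Fin.lastCases h2 (fun j => ?_) i
    have := congrArg (fun v : Eu k => v j) h1
    exact this
  · exact h3

/-- the point with given coordinates -/
def pt (e : X ≃ₜ ↥(Metric.sphere (0 : Eu (k + 2)) 1)) (x₀ : X) (v : Eu (k + 2)) : X :=
  open Classical in if h : v ∈ Metric.sphere (0 : Eu (k + 2)) 1 then e.symm ⟨v, h⟩ else x₀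

theorem pt_cont (e : X ≃ₜ ↥(Metric.sphere (0 : Eu (k + 2)) 1)) (x₀ : X) :
    ContinuousOn (pt e x₀) (Metric.sphere 0 1) := by
  rw [continuousOn_iff_continuous_domRestrict]
  have h1 : (Metric.sphere (0 : Eu (k + 2)) 1).domRestrict (pt e x₀) = e.symm := by
    funext v
    simp only [pt, Set.domRestrict_apply]
    rw [dif_pos v.2]
  rw [h1]
  exact e.symm.continuous

theorem e_pt (e : X ≃ₜ ↥(Metric.sphere (0 : Eu (k + 2)) 1)) (x₀ : X) {v : Eu (k + 2)}
    (hv : v ∈ Metric.sphere (0 : Eu (k + 2)) 1) : (e (pt e x₀ v)).1 = v := by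
  simp only [pt]
  rw [dif_pos hv, e.apply_symm_apply]

/-- the vector with the given coordinates -/
def vec (p : Eu k) (a b : ℝ) : Eu (k + 2) := ap (ap p a) b

theorem norm_vec (p : Eu k) (a b : ℝ) : ‖vec p a b‖ ^ 2 = ‖p‖ ^ 2 + a ^ 2 + b ^ 2 := by
  rw [vec, norm_ap, norm_ap]

theorem vec_mem {p : Eu k} {a b : ℝ} (h : ‖p‖ ^ 2 + a ^ 2 + b ^ 2 = 1) :
    vec p a b ∈ Metric.sphere (0 : Eu (k + 2)) 1 := by
  rw [mem_sphere_zero_iff_norm]
  have h1 := norm_vec p a b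
  have h2 : 0 ≤ ‖vec p a b‖ := norm_nonneg _
  nlinarith

theorem vec_cont : Continuous (fun z : Eu k × ℝ × ℝ => vec z.1 z.2.1 z.2.2) := by
  unfold vec
  have h1 : Continuous (fun z : Eu k × ℝ × ℝ => ap z.1 z.2.1) :=
    ap_cont.comp (by fun_prop : Continuous (fun z : Eu k × ℝ × ℝ => ((z.1, z.2.1) : Eu k × ℝ)))
  exact ap_cont.comp (h1.prodMk (by fun_prop : Continuous (fun z : Eu k × ℝ × ℝ => z.2.2)))

theorem coords (e : X ≃ₜ ↥(Metric.sphere (0 : Eu (k + 2)) 1)) (x₀ : X) {p : Eu k} {a b : ℝ}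
    (h : ‖p‖ ^ 2 + a ^ 2 + b ^ 2 = 1) : cp e (pt e x₀ (vec p a b)) = p ∧
      ca e (pt e x₀ (vec p a b)) = a ∧ cb e (pt e x₀ (vec p a b)) = b := by
  have h1 := e_pt e x₀ (vec_mem h)
  refine ⟨?_, ?_, ?_⟩
  · rw [cp, h1, vec, pr_ap, pr_ap]
  · rw [ca, h1, vec, ap_cs, ap_last]
  · rw [cb, h1, vec, ap_last]

theorem mem_FxC (e : X ≃ₜ ↥(Metric.sphere (0 : Eu (k + 2)) 1)) (x : X) :
    x ∈ FxC e ↔ ca e x = 0 ∧ cb e x = 0 := Iff.rfl

theorem nonempty (e : X ≃ₜ ↥(Metric.sphere (0 : Eu (k + 2)) 1)) : (FxC e).Nonempty := by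
  have h1 : ‖(EuclideanSpace.single 0 1 : Eu k)‖ ^ 2 + (0 : ℝ) ^ 2 + (0 : ℝ) ^ 2 = 1 := by simp
  have x₀ : X := e.symm ⟨_, vec_mem h1⟩
  obtain ⟨-, h3, h4⟩ := coords e x₀ h1
  exact ⟨_, (mem_FxC e _).2 ⟨h3, h4⟩⟩

section action

variable [MulAction Circle X]

theorem rot_ca {e : X ≃ₜ ↥(Metric.sphere (0 : Eu (k + 2)) 1)} (h : SphC X k e) (u : Circle)
    (x : X) : ca e (u • x) = (u : ℂ).re * ca e x - (u : ℂ).im * cb e x := by
  have h1 := congrArg Complex.re (h.rot u x)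
  simp at h1
  exact h1

theorem rot_cb {e : X ≃ₜ ↥(Metric.sphere (0 : Eu (k + 2)) 1)} (h : SphC X k e) (u : Circle)
    (x : X) : cb e (u • x) = (u : ℂ).re * cb e x + (u : ℂ).im * ca e x := by
  have h1 := congrArg Complex.im (h.rot u x)
  simp at h1
  exact h1

theorem rot_cp {e : X ≃ₜ ↥(Metric.sphere (0 : Eu (k + 2)) 1)} (h : SphC X k e) (u : Circle)
    (x : X) : cp e (u • x) = cp e x := by
  ext i
  exact h.init u x i

/-- the last two coordinates -/
def ww (e : X ≃ₜ ↥(Metric.sphere (0 : Eu (k + 2)) 1)) (x : X) : Eu 1 :=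
  WithLp.toLp 2 ![ca e x, cb e x]

theorem norm_ww (e : X ≃ₜ ↥(Metric.sphere (0 : Eu (k + 2)) 1)) (x : X) :
    ‖ww e x‖ ^ 2 = ca e x ^ 2 + cb e x ^ 2 := by
  rw [EuclideanSpace.real_norm_sq_eq]
  simp [ww, Fin.sum_univ_two]

theorem ww_zero (e : X ≃ₜ ↥(Metric.sphere (0 : Eu (k + 2)) 1)) (x : X) :
    ww e x = 0 ↔ x ∈ FxC e := by
  rw [mem_FxC]
  constructor
  · intro h
    have h0 := congrArg (fun v : Eu 1 => v 0) h
    have h1 := congrArg (fun v : Eu 1 => v 1) h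
    simp [ww] at h0 h1
    exact ⟨h0, h1⟩
  · rintro ⟨h0, h1⟩
    ext i
    fin_cases i
    · simp [ww, h0]
    · simp [ww, h1]

theorem ww_cont (e : X ≃ₜ ↥(Metric.sphere (0 : Eu (k + 2)) 1)) : Continuous (ww e) := by
  unfold ww
  refine (PiLp.continuous_toLp 2 _).comp ?_
  refine continuous_pi fun i => ?_
  fin_cases i
  · exact ca_cont e
  · exact cb_cont e

theorem t_NT {e : X ≃ₜ ↥(Metric.sphere (0 : Eu (k + 2)) 1)} (h : SphC X k e)
    (hi : ∀ (u : Circle) (x y : X), dist (u • x) (u • y) = dist x y) (r : ℝ) :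
    NT X Circle 1 (FxC e) (-1 : Circle) (ww e) univ r := by
  refine ⟨?_, hi, ?_, fun _ _ _ _ => mem_univ _, (ww_cont e).continuousOn,
    fun x _ => ww_zero e x, ?_, ?_, ?_⟩
  · exact (isClosed_eq (ca_cont e) continuous_const).inter
      (isClosed_eq (cb_cont e) continuous_const)
  · intro u x hx
    obtain ⟨h1, h2⟩ := (mem_FxC e x).1 hx
    apply ext3 e
    · exact rot_cp h u x
    · rw [rot_ca h, h1, h2]; ring
    · rw [rot_cb h, h1, h2]; ring
  · intro x _ hx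
    have hw : ww e x ≠ 0 := fun h0 => hx ((ww_zero e x).1 h0)
    have hn : 0 < ‖ww e x‖ := norm_pos_iff.2 hw
    have hn2 := norm_ww e x
    have h3 := split3 e x
    have hs2 : ∀ s ∈ Metric.sphere (0 : Eu 1) 1, s 0 ^ 2 + s 1 ^ 2 = 1 := by
      intro s hs
      rw [mem_sphere_zero_iff_norm] at hs
      have := EuclideanSpace.real_norm_sq_eq s
      rw [hs, Fin.sum_univ_two] at this
      linarith
    have hv : ∀ s ∈ Metric.sphere (0 : Eu 1) 1,
        ‖cp e x‖ ^ 2 + (‖ww e x‖ * s 0) ^ 2 + (‖ww e x‖ * s 1) ^ 2 = 1 := by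
      intro s hs
      have h4 := hs2 s hs
      calc _ = ‖cp e x‖ ^ 2 + ‖ww e x‖ ^ 2 * (s 0 ^ 2 + s 1 ^ 2) := by ring
        _ = 1 := by rw [h4, hn2]; linarith
    refine ⟨fun s => pt e x (vec (cp e x) (‖ww e x‖ * s 0) (‖ww e x‖ * s 1)), ?_, ?_⟩
    · refine (pt_cont e x).comp ?_ fun s hs => vec_mem (hv s hs)
      have h5 : Continuous (fun s : Eu 1 =>
          ((cp e x, ‖ww e x‖ * s 0, ‖ww e x‖ * s 1) : Eu k × ℝ × ℝ)) := by fun_prop
      exact (vec_cont.comp h5).continuousOn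
    · intro s hs
      obtain ⟨c1, c2, c3⟩ := coords e x (hv s hs)
      have h4 := hs2 s hs
      constructor
      · -- the rotation
        have hu : ‖(⟨(s 0 * ca e x + s 1 * cb e x) / ‖ww e x‖,
            (s 1 * ca e x - s 0 * cb e x) / ‖ww e x‖⟩ : ℂ)‖ = 1 := by
          have h6 : ‖(⟨(s 0 * ca e x + s 1 * cb e x) / ‖ww e x‖,
            (s 1 * ca e x - s 0 * cb e x) / ‖ww e x‖⟩ : ℂ)‖ ^ 2 = 1 := by
            rw [← Complex.normSq_eq_norm_sq, Complex.normSq_mk]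
            have h7 : (s 0 * ca e x + s 1 * cb e x) / ‖ww e x‖ *
                ((s 0 * ca e x + s 1 * cb e x) / ‖ww e x‖) +
                (s 1 * ca e x - s 0 * cb e x) / ‖ww e x‖ *
                ((s 1 * ca e x - s 0 * cb e x) / ‖ww e x‖) =
                (s 0 ^ 2 + s 1 ^ 2) * (ca e x ^ 2 + cb e x ^ 2) / ‖ww e x‖ ^ 2 := by
              field_simp
              ring
            rw [h7, h4, ← hn2, one_mul, div_self (by positivity)]
          have h8 := norm_nonneg (⟨(s 0 * ca e x + s 1 * cb e x) / ‖ww e x‖,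
            (s 1 * ca e x - s 0 * cb e x) / ‖ww e x‖⟩ : ℂ)
          nlinarith
        refine ⟨⟨_, mem_sphere_zero_iff_norm.2 hu⟩, ?_⟩
        apply ext3 e
        · rw [c1, rot_cp h]
        · rw [c2, rot_ca h]
          show _ = (s 0 * ca e x + s 1 * cb e x) / ‖ww e x‖ * ca e x -
            (s 1 * ca e x - s 0 * cb e x) / ‖ww e x‖ * cb e x
          rw [show (s 0 * ca e x + s 1 * cb e x) / ‖ww e x‖ * ca e x -
            (s 1 * ca e x - s 0 * cb e x) / ‖ww e x‖ * cb e x =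
            s 0 * (ca e x ^ 2 + cb e x ^ 2) / ‖ww e x‖ by ring, ← hn2]
          field_simp
        · rw [c3, rot_cb h]
          show _ = (s 0 * ca e x + s 1 * cb e x) / ‖ww e x‖ * cb e x +
            (s 1 * ca e x - s 0 * cb e x) / ‖ww e x‖ * ca e x
          rw [show (s 0 * ca e x + s 1 * cb e x) / ‖ww e x‖ * cb e x +
            (s 1 * ca e x - s 0 * cb e x) / ‖ww e x‖ * ca e x =
            s 1 * (ca e x ^ 2 + cb e x ^ 2) / ‖ww e x‖ by ring, ← hn2]
          field_simp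
      · have h9 : ww e (pt e x (vec (cp e x) (‖ww e x‖ * s 0) (‖ww e x‖ * s 1))) =
            ‖ww e x‖ • s := by
          ext i
          fin_cases i
          · exact c2
          · exact c3
        rw [mem_sphere_zero_iff_norm] at hs
        rw [h9, norm_smul, hs, mul_one, norm_norm]
  · intro x
    rw [smul_smul, neg_mul_neg, one_mul, one_smul]
  · intro x _
    ext i
    fin_cases i
    · simp [ww, rot_ca h]
    · simp [ww, rot_cb h]

end action

/-- the half great sphere -/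
def KK (e : X ≃ₜ ↥(Metric.sphere (0 : Eu (k + 2)) 1)) : Set X := {x | cb e x = 0 ∧ 0 ≤ ca e x}

theorem KK_closed (e : X ≃ₜ ↥(Metric.sphere (0 : Eu (k + 2)) 1)) : IsClosed (KK e) :=
  (isClosed_eq (cb_cont e) continuous_const).inter (isClosed_le continuous_const (ca_cont e))

theorem covdim [CompactSpace X] (e : X ≃ₜ ↥(Metric.sphere (0 : Eu (k + 2)) 1))
    (hD : S_DIM) : CovDim ↥(KK e) (k + 1) := by
  have : CompactSpace ↥(KK e) := isCompact_iff_compactSpace.1 (KK_closed e).isCompact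
  have hb : ∀ (x : X) (i : Fin (k + 3)), |(e x).1 i| ≤ 1 := by
    intro x i
    have h1 := PiLp.norm_apply_le (e x).1 i
    have h2 : ‖(e x).1‖ = 1 := by simp
    rw [h2] at h1
    exact h1
  refine hD (k + 1) ↥(KK e) (fun x i => ⟨((cp e x.1) i + 1) / 2, ?_, ?_⟩) ?_ ?_
  · have := abs_le.1 (hb x.1 i.castSucc.castSucc)
    change -1 ≤ (cp e x.1) i ∧ (cp e x.1) i ≤ 1 at this
    linarith [this.1]
  · have := abs_le.1 (hb x.1 i.castSucc.castSucc)
    change -1 ≤ (cp e x.1) i ∧ (cp e x.1) i ≤ 1 at this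
    linarith [this.2]
  · refine continuous_pi fun i => ?_
    refine Continuous.subtype_mk ?_ _
    have h2 : Continuous (fun x : ↥(KK e) => cp e x.1) := (cp_cont e).comp continuous_subtype_val
    fun_prop
  · intro x y hxy
    have h1 : cp e x.1 = cp e y.1 := by
      ext i
      have h2 := congrArg Subtype.val (congrFun hxy i)
      simp only at h2
      linarith
    have h6 := split3 e x.1
    have h7 := split3 e y.1
    obtain ⟨hx1, hx2⟩ := x.2
    obtain ⟨hy1, hy2⟩ := y.2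
    rw [hx1, h1] at h6
    rw [hy1] at h7
    have h8 : (ca e x.1) ^ 2 = (ca e y.1) ^ 2 := by linarith
    have h9 : ca e x.1 = ca e y.1 := (pow_left_inj₀ hx2 hy2 (two_ne_zero)).1 h8
    exact Subtype.ext (ext3 e h1 h9 (hx1.trans hy1.symm))

theorem not_defo (e : X ≃ₜ ↥(Metric.sphere (0 : Eu (k + 2)) 1)) (hNC : S_NC) :
    ¬ Defo (FxC e) (Subtype.val : ↥(KK e) → X) := by
  rintro ⟨g, H, hg, hgF, hH, hHF⟩
  classical
  have hN : ‖(0 : Eu k)‖ ^ 2 + (1 : ℝ) ^ 2 + (0 : ℝ) ^ 2 = 1 := by simp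
  let x₀ : X := e.symm ⟨_, vec_mem hN⟩
  -- the half sphere in `Eu (k + 1)`
  let HS : Set (Eu (k + 1)) := {v | ‖pr v‖ ^ 2 + (v (Fin.last (k + 1))) ^ 2 = 1 ∧
    0 ≤ v (Fin.last (k + 1))}
  have hHS : ∀ v ∈ HS, ‖pr v‖ ^ 2 + (v (Fin.last (k + 1))) ^ 2 + (0 : ℝ) ^ 2 = 1 := by
    intro v hv
    have := hv.1
    linarith [this, show (0 : ℝ) ^ 2 = 0 by norm_num]
  have hx0 : x₀ ∈ KK e := by
    have h1 : (e x₀).1 = vec 0 1 0 := by
      show (e (e.symm ⟨_, vec_mem hN⟩)).1 = _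
      rw [e.apply_symm_apply]
    constructor
    · show (e x₀).1 (Fin.last (k + 2)) = 0
      rw [h1, vec, ap_last]
    · show 0 ≤ (e x₀).1 (Fin.last (k + 1)).castSucc
      rw [h1, vec, ap_cs, ap_last]
      norm_num
  have hmem : ∀ v ∈ HS, pt e x₀ (vec (pr v) (v (Fin.last (k + 1))) 0) ∈ KK e := by
    intro v hv
    obtain ⟨-, h2, h3⟩ := coords e x₀ (hHS v hv)
    exact ⟨h3, by rw [h2]; exact hv.2⟩
  let ι : Eu (k + 1) → ↥(KK e) := fun v => if h : v ∈ HS then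
    ⟨pt e x₀ (vec (pr v) (v (Fin.last (k + 1))) 0), hmem v h⟩ else ⟨x₀, hx0⟩
  have hιv : ∀ v ∈ HS, (ι v).1 = pt e x₀ (vec (pr v) (v (Fin.last (k + 1))) 0) := by
    intro v hv
    simp only [ι]
    rw [dif_pos hv]
  have hι : ContinuousOn ι HS := by
    rw [Topology.IsInducing.subtypeVal.continuousOn_iff]
    have h1 : ContinuousOn (fun v : Eu (k + 1) =>
        pt e x₀ (vec (pr v) (v (Fin.last (k + 1))) 0)) HS := by
      refine (pt_cont e x₀).comp ?_ fun v hv => vec_mem (hHS v hv)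
      have h5 : Continuous (fun v : Eu (k + 1) =>
          ((pr v, v (Fin.last (k + 1)), 0) : Eu k × ℝ × ℝ)) := by
        have := pr_cont (k := k)
        fun_prop
      exact (vec_cont.comp h5).continuousOn
    exact h1.congr fun v hv => hιv v hv
  have hcvS : ∀ s ∈ Metric.sphere (0 : Eu k) 1, ∀ t ∈ Icc (0 : ℝ) 1, cv s t ∈ HS := by
    intro s h1 t ht
    rw [mem_sphere_zero_iff_norm] at h1
    refine ⟨?_, ?_⟩
    · rw [← norm_sq_split, cv_norm h1, one_pow]
    · unfold cv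
      rw [ap_last]
      apply Real.sin_nonneg_of_nonneg_of_le_pi
      · have := Real.pi_pos
        have := ht.1
        positivity
      · nlinarith [Real.pi_pos, ht.1, ht.2]
  -- the projection to the small sphere
  have hPF : ∀ x ∈ FxC e, cp e x ∈ Metric.sphere (0 : Eu k) 1 := by
    intro x hx
    obtain ⟨h1, h2⟩ := (mem_FxC e x).1 hx
    have h3 := split3 e x
    rw [h1, h2] at h3
    rw [mem_sphere_zero_iff_norm]
    have h4 : 0 ≤ ‖cp e x‖ := norm_nonneg _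
    nlinarith
  have hcv0 : ∀ s : Eu k, cv s 0 = ap s 0 := by
    intro s
    unfold cv
    simp
  have h01 : (0 : ℝ) ∈ Icc (0 : ℝ) 1 := ⟨le_rfl, zero_le_one⟩
  have hcoord : ∀ s ∈ Metric.sphere (0 : Eu k) 1,
      cp e (ι (cv s 0)).1 = s ∧ ca e (ι (cv s 0)).1 = 0 ∧ cb e (ι (cv s 0)).1 = 0 := by
    intro s h1
    have h2 := hcvS s h1 0 h01
    rw [hιv _ h2]
    obtain ⟨a1, a2, a3⟩ := coords e x₀ (hHS _ h2)
    rw [a1, a2, a3, hcv0, pr_ap, ap_last]
    exact ⟨rfl, rfl, rfl⟩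
  have hfix : ∀ s ∈ Metric.sphere (0 : Eu k) 1, (ι (cv s 0)).1 ∈ FxC e := by
    intro s h1
    exact (mem_FxC e _).2 (hcoord s h1).2
  have hP := cp_cont e
  refine hNC k ⟨fun s t => if t ≤ 1 / 2 then cp e (g (ι (cv s (1 - 2 * t)))) else
    cp e (H (ι (cv s 0)) (2 * t - 1)), ?_, ?_, ?_, ?_⟩
  · have hA : IsClosed (Metric.sphere (0 : Eu k) 1 ×ˢ Icc (0 : ℝ) (1 / 2)) :=
      Metric.isClosed_sphere.prod isClosed_Icc
    have hB : IsClosed (Metric.sphere (0 : Eu k) 1 ×ˢ Icc (1 / 2 : ℝ) 1) :=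
      Metric.isClosed_sphere.prod isClosed_Icc
    have hAB : Metric.sphere (0 : Eu k) 1 ×ˢ Icc (0 : ℝ) 1 =
        Metric.sphere (0 : Eu k) 1 ×ˢ Icc (0 : ℝ) (1 / 2) ∪
        Metric.sphere (0 : Eu k) 1 ×ˢ Icc (1 / 2 : ℝ) 1 := by
      rw [← Set.prod_union, Icc_union_Icc_eq_Icc (by norm_num) (by norm_num)]
    rw [hAB]
    refine ContinuousOn.union_of_isClosed ?_ ?_ hA hB
    · have h1 : ContinuousOn (fun z : Eu k × ℝ => cp e (g (ι (cv z.1 (1 - 2 * z.2)))))
          (Metric.sphere (0 : Eu k) 1 ×ˢ Icc (0 : ℝ) (1 / 2)) := by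
        refine hP.comp_continuousOn ?_
        refine hg.comp_continuousOn (hι.comp ?_ ?_)
        · have h2 : Continuous (fun z : Eu k × ℝ => ((z.1, 1 - 2 * z.2) : Eu k × ℝ)) := by fun_prop
          exact (cv_cont.comp h2).continuousOn
        · intro z hz
          have h3 := hz.2
          exact hcvS z.1 hz.1 _ ⟨by linarith [h3.2], by linarith [h3.1]⟩
      refine h1.congr fun z hz => ?_
      simp only
      rw [if_pos hz.2.2]
    · have h1 : ContinuousOn (fun z : Eu k × ℝ => cp e (H (ι (cv z.1 0)) (2 * z.2 - 1)))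
          (Metric.sphere (0 : Eu k) 1 ×ˢ Icc (1 / 2 : ℝ) 1) := by
        refine hP.comp_continuousOn ?_
        have h4 : ContinuousOn (fun z : Eu k × ℝ =>
            ((ι (cv z.1 0), 2 * z.2 - 1) : ↥(KK e) × ℝ))
            (Metric.sphere (0 : Eu k) 1 ×ˢ Icc (1 / 2 : ℝ) 1) := by
          refine ContinuousOn.prodMk (hι.comp ?_ ?_) ?_
          · have h2 : Continuous (fun z : Eu k × ℝ => ((z.1, 0) : Eu k × ℝ)) := by fun_prop
            exact (cv_cont.comp h2).continuousOn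
          · intro z hz
            exact hcvS z.1 hz.1 _ h01
          · exact (by fun_prop : Continuous (fun z : Eu k × ℝ => 2 * z.2 - 1)).continuousOn
        refine hH.comp h4 ?_
        intro z hz
        have h3 := hz.2
        exact ⟨hfix z.1 hz.1, ⟨by linarith [h3.1], by linarith [h3.2]⟩⟩
      refine h1.congr fun z hz => ?_
      simp only
      split_ifs with h
      · have h5 : z.2 = 1 / 2 := le_antisymm h hz.2.1
        rw [h5]
        norm_num
        rw [(hHF _ (hfix z.1 hz.1)).2.1]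
      · rfl
  · intro s h1 t ht
    simp only
    split_ifs with h
    · exact hPF _ (hgF _)
    · push Not at h
      exact hPF _ ((hHF _ (hfix s h1)).1 _ ⟨by linarith, by linarith [ht.2]⟩)
  · refine ⟨cp e (g (ι (ap 0 1))), ?_⟩
    intro s h1
    simp only
    rw [if_pos (by norm_num)]
    have h2 : cv s (1 - 2 * 0) = ap 0 1 := by
      unfold cv
      norm_num
    rw [h2]
  · intro s h1
    simp only
    rw [if_neg (by norm_num)]
    have h2 : (2 * 1 - 1 : ℝ) = 1 := by norm_num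
    rw [h2, (hHF _ (hfix s h1)).2.2]
    exact (hcoord s h1).1

theorem t_SPT (hNC : S_NC) (hD : S_DIM) : S_SPT := by
  intro X _ _ _ k e h hi
  refine ⟨nonempty e, fun r => ⟨ww e, t_NT h hi r⟩, ↥(KK e), inferInstance, Subtype.val,
    isCompact_iff_compactSpace.1 (KK_closed e).isCompact, covdim e hD, continuous_subtype_val,
    not_defo e hNC⟩

end Pool.Agent.N489.RW.SPT
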