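import Pool.Agent.N489.RW.Stm3
import Pool.Agent.N489.RW.STAR

/-!
# Project RW: the star paths, second form
-/

set_option autoImplicit false
set_option linter.unusedSectionVars false

open Set Topology Filter

noncomputable section

namespace Pool.Agent.N489.RW

open Pool.Agent.Y489.GE Pool.Agent.R203.IF

namespace STAR2_

open STAR_ (Sm sj cj wj Wm sj_cont sj_nonneg sj_sum cj_cont cj_nonneg cj_le wj_cont wj_nonneg Wm_pos Sm_pos
  F_sub fo_of fo_cont)

/-! ### weights -/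

section weights

variable {K : Type} [TopologicalSpace K] (n : ℕ) (t : ℕ → K → ℝ)

/-- the weights of the marks -/
def vv (k : K) (j : Fin (n + 2)) : ℝ :=
  if (j : ℕ) = 1 then 0 else wj n t ((j : ℕ) - 1) k / Wm n t k

variable {n t} (h1 : ∀ j, Continuous (t j)) (h2 : ∀ j k, 0 ≤ t j k)
  (h3 : ∀ k, ∃ j, j ≤ n ∧ 0 < t j k)

include h1 h2 h3 in
lemma vv_cont : Continuous (vv n t) := by
  have hW : Continuous (Wm n t) := continuous_finsetSum _ fun i _ => wj_cont h1 h2 h3 i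
  refine continuous_pi fun j => ?_
  unfold vv
  by_cases h : (j : ℕ) = 1
  · simp only [h, if_true]
    exact continuous_const
  · simp only [h, if_false]
    exact (wj_cont h1 h2 h3 _).div hW fun k => (Wm_pos h2 h3 k).ne'

include h2 h3 in
lemma vv_mem (k : K) : vv n t k ∈ stdSimplex ℝ (Fin (n + 2)) := by
  constructor
  · intro j
    unfold vv
    split_ifs
    · exact le_rfl
    · exact div_nonneg (wj_nonneg _ _) (Wm_pos h2 h3 k).le
  · rw [Fin.sum_univ_succ, Fin.sum_univ_succ]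
    have e0 : vv n t k 0 = wj n t 0 k / Wm n t k := by
      unfold vv
      rw [if_neg (by simp)]
      simp
    have e1 : vv n t k (Fin.succ 0) = 0 := by
      unfold vv
      rw [if_pos (by simp)]
    have e2 : ∀ i : Fin n, vv n t k i.succ.succ = wj n t ((i : ℕ) + 1) k / Wm n t k := by
      intro i
      unfold vv
      rw [if_neg (by simp)]
      simp
    rw [e0, e1, zero_add, Finset.sum_congr rfl (fun i _ => e2 i)]
    rw [← Finset.sum_div, Fin.sum_univ_eq_sum_range (fun i => wj n t (i + 1) k) n, ← add_div]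
    have h4 : wj n t 0 k + ∑ i ∈ Finset.range n, wj n t (i + 1) k = Wm n t k := by
      unfold Wm
      rw [Finset.sum_range_succ', add_comm]
    rw [h4]
    exact div_self (Wm_pos h2 h3 k).ne'

include h2 h3 in
lemma vv_pos {k : K} {j : Fin (n + 2)} (h : 0 < vv n t k j) :
    (j : ℕ) ≠ 1 ∧ 0 < t ((j : ℕ) - 1) k ∧ cj n t ((j : ℕ) - 1) k = 1 := by
  have hn : (0:ℝ) < (n:ℝ) + 1 := by positivity
  unfold vv at h
  split_ifs at h with hj
  · exact absurd h (lt_irrefl _)
  · refine ⟨hj, ?_⟩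
    have hW := Wm_pos h2 h3 k
    have hw : 0 < wj n t ((j : ℕ) - 1) k := by
      by_contra hcon
      have : wj n t ((j : ℕ) - 1) k / Wm n t k ≤ 0 :=
        div_nonpos_of_nonpos_of_nonneg (not_lt.1 hcon) hW.le
      linarith
    unfold wj at hw
    have hs : 1 / (2 * ((n : ℝ) + 1)) < sj n t ((j : ℕ) - 1) k := by
      rcases lt_max_iff.1 hw with h | h
      · exact absurd h (lt_irrefl _)
      · linarith
    have hs0 : 0 < sj n t ((j : ℕ) - 1) k := lt_trans (by positivity) hs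
    constructor
    · unfold sj at hs0
      by_contra hcon
      have : t ((j : ℕ) - 1) k / Sm n t k ≤ 0 :=
        div_nonpos_of_nonpos_of_nonneg (not_lt.1 hcon) (Sm_pos h2 h3 k).le
      linarith
    · unfold cj
      apply min_eq_left
      rw [div_lt_iff₀ (by positivity)] at hs
      linarith

end weights

/-! ### tents -/

/-- the tent with the centre `j / n` -/
def Dj (n j : ℕ) (τ : ℝ) : ℝ := max 0 (1 - |2 * (n : ℝ) * τ - 2 * j|)

lemma Dj_nonneg (n j : ℕ) (τ : ℝ) : 0 ≤ Dj n j τ := le_max_left _ _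

lemma Dj_le_up (n j : ℕ) {τ : ℝ} (h : 0 < Dj n j τ) :
    Dj n j τ ≤ 1 - (2 * (n : ℝ) * τ - 2 * j) := by
  unfold Dj at h ⊢
  rcases le_total 0 (1 - |2 * (n : ℝ) * τ - 2 * j|) with h1 | h1
  · rw [max_eq_right h1]
    have := le_abs_self (2 * (n : ℝ) * τ - 2 * j)
    linarith
  · rw [max_eq_left h1] at h
    exact absurd h (lt_irrefl _)

lemma Dj_le_dn (n j : ℕ) {τ : ℝ} (h : 0 < Dj n j τ) :
    Dj n j τ ≤ 1 + (2 * (n : ℝ) * τ - 2 * j) := by
  unfold Dj at h ⊢
  rcases le_total 0 (1 - |2 * (n : ℝ) * τ - 2 * j|) with h1 | h1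
  · rw [max_eq_right h1]
    have := neg_abs_le (2 * (n : ℝ) * τ - 2 * j)
    linarith
  · rw [max_eq_left h1] at h
    exact absurd h (lt_irrefl _)

lemma Dj_uniq {n i j : ℕ} {τ : ℝ} (hi : 0 < Dj n i τ) (hj : 0 < Dj n j τ) : i = j := by
  have a1 := Dj_le_up n i hi
  have a2 := Dj_le_dn n i hi
  have b1 := Dj_le_up n j hj
  have b2 := Dj_le_dn n j hj
  have c1 : (i : ℝ) < (j : ℝ) + 1 := by linarith
  have c2 : (j : ℝ) < (i : ℝ) + 1 := by linarith
  have d1 : i < j + 1 := by exact_mod_cast c1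
  have d2 : j < i + 1 := by exact_mod_cast c2
  omega

lemma Dj_lip (n j : ℕ) (s τ : ℝ) : |Dj n j s - Dj n j τ| ≤ 2 * (n : ℝ) * |s - τ| := by
  have hn : (0:ℝ) ≤ 2 * (n:ℝ) := by positivity
  unfold Dj
  have h1 := abs_max_sub_max_le_abs (1 - |2 * (n : ℝ) * s - 2 * j|)
    (1 - |2 * (n : ℝ) * τ - 2 * j|) 0
  rw [max_comm 0, max_comm 0]
  refine h1.trans ?_
  have h2 : (1 - |2 * (n : ℝ) * s - 2 * j|) - (1 - |2 * (n : ℝ) * τ - 2 * j|) =
      |2 * (n : ℝ) * τ - 2 * j| - |2 * (n : ℝ) * s - 2 * j| := by ring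
  rw [h2]
  refine (abs_abs_sub_abs_le_abs_sub _ _).trans ?_
  have h3 : 2 * (n : ℝ) * τ - 2 * j - (2 * (n : ℝ) * s - 2 * j) = -(2 * (n : ℝ) * (s - τ)) := by ring
  rw [h3, abs_neg, abs_mul, abs_of_nonneg hn]

/-- the marks -/
def th (n : ℕ) (j : Fin (n + 2)) : ℝ :=
  if (j : ℕ) = 1 then 1 / (2 * (n : ℝ)) else (((j : ℕ) - 1 : ℕ) : ℝ) / n

lemma th_mem {n : ℕ} (hn : 1 ≤ n) (j : Fin (n + 2)) : th n j ∈ Icc (0 : ℝ) 1 := by
  have h0 : (1:ℝ) ≤ n := by exact_mod_cast hn
  unfold th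
  split_ifs with h
  · refine ⟨by positivity, ?_⟩
    rw [div_le_one (by linarith)]
    linarith
  · refine ⟨by positivity, ?_⟩
    rw [div_le_one (by linarith)]
    have := j.2
    exact_mod_cast (by omega : (j : ℕ) - 1 ≤ n)

lemma th_mono {n : ℕ} (hn : 1 ≤ n) {i j : Fin (n + 2)} (h : i ≤ j) : th n i ≤ th n j := by
  have h0 : (1:ℝ) ≤ n := by exact_mod_cast hn
  have hij : (i : ℕ) ≤ j := h
  unfold th
  split_ifs with h1 h2 h2
  · exact le_rfl
  · have h3 : 1 ≤ (j : ℕ) - 1 := by omega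
    have h4 : (1 : ℝ) ≤ (((j : ℕ) - 1 : ℕ) : ℝ) := by exact_mod_cast h3
    rw [div_le_div_iff₀ (by linarith) (by linarith)]
    nlinarith
  · have h3 : (i : ℕ) - 1 = 0 := by omega
    rw [h3]
    simp
  · have h3 : (((i : ℕ) - 1 : ℕ) : ℝ) ≤ (((j : ℕ) - 1 : ℕ) : ℝ) := by
      exact_mod_cast (by omega : (i : ℕ) - 1 ≤ (j : ℕ) - 1)
    gcongr

lemma Dj_th {n : ℕ} (hn : 1 ≤ n) {j : Fin (n + 2)} (hj : (j : ℕ) ≠ 1) :
    Dj n ((j : ℕ) - 1) (th n j) = 1 := by
  have h0 : (1:ℝ) ≤ n := by exact_mod_cast hn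
  unfold Dj th
  rw [if_neg hj]
  have h1 : 2 * (n : ℝ) * ((((j : ℕ) - 1 : ℕ) : ℝ) / n) - 2 * (((j : ℕ) - 1 : ℕ) : ℝ) = 0 := by
    field_simp
    ring
  rw [h1, abs_zero, sub_zero, max_eq_right zero_le_one]

/-- the mark `1` -/
lemma Dj_th1 {n : ℕ} (hn : 1 ≤ n) {j : Fin (n + 2)} (hj : (j : ℕ) = 1) (i : ℕ) :
    Dj n i (th n j) = 0 := by
  have h0 : (1:ℝ) ≤ n := by exact_mod_cast hn
  unfold Dj th
  rw [if_pos hj]
  have h1 : 2 * (n : ℝ) * (1 / (2 * (n : ℝ))) = 1 := by field_simp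
  rw [h1]
  apply max_eq_left
  rw [sub_nonpos]
  rcases Nat.eq_zero_or_pos i with h | h
  · subst h
    simp
  · have h2 : (1 : ℝ) ≤ i := by exact_mod_cast h
    rw [abs_sub_comm, abs_of_nonneg (by linarith)]
    linarith

/-- clamping -/
def cl (τ : ℝ) : ℝ := max 0 (min 1 τ)

lemma cl_lip (s τ : ℝ) : |cl s - cl τ| ≤ |s - τ| := by
  unfold cl
  have h1 := abs_max_sub_max_le_abs (min 1 s) (min 1 τ) 0
  rw [max_comm 0, max_comm 0]
  refine h1.trans ?_
  have h2 := abs_min_sub_min_le_max 1 s 1 τ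
  simpa using h2

lemma cl_nonpos {τ : ℝ} (h : τ ≤ 0) : cl τ = 0 := by
  unfold cl
  rw [min_eq_right (by linarith)]
  exact max_eq_left h

lemma cl_one_le {τ : ℝ} (h : 1 ≤ τ) : cl τ = 1 := by
  unfold cl
  rw [min_eq_left h]
  exact max_eq_right zero_le_one

lemma cl_of_mem {τ : ℝ} (h : τ ∈ Icc (0 : ℝ) 1) : cl τ = τ := by
  unfold cl
  rw [min_eq_right h.2, max_eq_right h.1]

/-! ### the star paths -/

section star

variable {X : Type} [MetricSpace X] {ρ : X → X} {U : Set X} {r : ℝ} (hM : Mirror X ρ U)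
  (hF : MF X ρ U r) {K : Type} [TopologicalSpace K] {n : ℕ} (hn : 1 ≤ n) {p : X} {b : ℝ}
  {f : K → X} (hp : ρ p = p) (hb : 0 ≤ b) (hfc : Continuous f) (hfU : ∀ k, f k ∈ U)
  {t : ℕ → K → ℝ} {leg : ℕ → K → ℝ → X} (hD : Data p b n f ∅ t leg)

/-- the point of relative depth `d` of the leg `j` -/
def Pp (ρ : X → X) (U : Set X) (b : ℝ) (n : ℕ) (f : K → X) (t : ℕ → K → ℝ) (leg : ℕ → K → ℝ → X)
    (j : ℕ) (k : K) (d : ℝ) : X :=
  if 0 < t j k then fo ρ U (leg j k (b - cj n t j k * b * d)) else f k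

include hfU hD in
lemma Pp_zero (j : ℕ) (k : K) : Pp ρ U b n f t leg j k 0 = f k := by
  unfold Pp
  split_ifs with h
  · rw [mul_zero, sub_zero, (hD.2.2.2.2.1 j k h).2]
    exact fo_of (hfU k)
  · rfl

include hF hfU in
lemma Pp_mem (j : ℕ) (k : K) (d : ℝ) : Pp ρ U b n f t leg j k d ∈ U := by
  unfold Pp
  split_ifs with h
  · exact hF.foU _
  · exact hfU k

include hF hb hD in
lemma Pp_lip' (j : ℕ) (k : K) (d d' : ℝ) :
    dist (Pp ρ U b n f t leg j k d) (Pp ρ U b n f t leg j k d') ≤ cj n t j k * b * |d - d'| := by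
  have hc := cj_nonneg hD.2.1 hD.2.2.1 j k
  unfold Pp
  split_ifs with h
  · refine (hF.foL _ _).trans (((hD.2.2.2.2.1 j k h).1.1 _ _).trans (le_of_eq ?_))
    have : b - cj n t j k * b * d - (b - cj n t j k * b * d') =
        -(cj n t j k * b * (d - d')) := by ring
    rw [this, abs_neg, abs_mul, abs_of_nonneg (mul_nonneg hc hb)]
  · rw [dist_self]
    exact mul_nonneg (mul_nonneg hc hb) (abs_nonneg _)

include hF hb hD in
lemma Pp_lip (j : ℕ) (k : K) (d d' : ℝ) :
    dist (Pp ρ U b n f t leg j k d) (Pp ρ U b n f t leg j k d') ≤ b * |d - d'| := by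
  refine (Pp_lip' hF hb hD j k d d').trans ?_
  have h1 : cj n t j k * b ≤ 1 * b := mul_le_mul_of_nonneg_right (cj_le j k) hb
  rw [one_mul] at h1
  exact mul_le_mul_of_nonneg_right h1 (abs_nonneg _)

include hD in
lemma leg_contAt (j : ℕ) {k₀ : K} (h0 : 0 < t j k₀) {x : K → ℝ} (hx : ContinuousAt x k₀) :
    ContinuousAt (fun k => leg j k (x k)) k₀ := by
  have hopen : IsOpen {k | 0 < t j k} := isOpen_lt continuous_const (hD.1 j)
  have hleg : ContinuousAt (leg j) k₀ :=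
    (hD.2.2.2.1 j).continuousAt (hopen.mem_nhds h0)
  have h1 : Tendsto (fun k => leg j k (x k₀)) (𝓝 k₀) (𝓝 (leg j k₀ (x k₀))) :=
    ((continuous_apply (x k₀)).tendsto (leg j k₀)).comp hleg
  unfold ContinuousAt
  rw [tendsto_iff_dist_tendsto_zero] at h1 ⊢
  have h2 : Tendsto (fun k => |x k - x k₀|) (𝓝 k₀) (𝓝 0) := by
    have := (hx.sub (continuousAt_const (y := x k₀))).abs
    unfold ContinuousAt at this
    simpa using this
  have h3 := h2.add h1
  rw [add_zero] at h3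
  refine squeeze_zero' (Eventually.of_forall fun _ => dist_nonneg) ?_ h3
  filter_upwards [hopen.mem_nhds h0] with k hk
  exact (dist_triangle _ (leg j k (x k₀)) _).trans
    (add_le_add_left ((hD.2.2.2.2.1 j k hk).1.1 _ _) _)

include hF hb hfc hfU hD in
lemma Pp_cont (j : ℕ) {d : ℝ} (_hd : 0 ≤ d) : Continuous fun k : K => Pp ρ U b n f t leg j k d := by
  rw [continuous_iff_continuousAt]
  intro k₀
  have hc := cj_cont hD.1 hD.2.1 hD.2.2.1 (n := n) (t := t) j
  by_cases h0 : 0 < t j k₀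
  · have hopen : IsOpen {k | 0 < t j k} := isOpen_lt continuous_const (hD.1 j)
    have h1 : ContinuousAt (fun k : K => fo ρ U (leg j k (b - cj n t j k * b * d))) k₀ :=
      (fo_cont hF).continuousAt.comp (leg_contAt hD j h0
        (continuous_const.sub ((hc.mul continuous_const).mul continuous_const)).continuousAt)
    refine h1.congr ?_
    filter_upwards [hopen.mem_nhds h0] with k hk
    unfold Pp
    rw [if_pos hk]
  · have ht0 : t j k₀ = 0 := le_antisymm (not_lt.1 h0) (hD.2.1 j k₀)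
    have hP : Pp ρ U b n f t leg j k₀ d = f k₀ := by unfold Pp; rw [if_neg h0]
    have hc0 : cj n t j k₀ = 0 := by
      unfold cj sj
      rw [ht0, zero_div, mul_zero, min_eq_right zero_le_one]
    unfold ContinuousAt
    rw [tendsto_iff_dist_tendsto_zero]
    show Tendsto (fun k : K => dist (Pp ρ U b n f t leg j k d) (Pp ρ U b n f t leg j k₀ d)) (𝓝 k₀)
      (𝓝 0)
    rw [hP]
    have h1 : Tendsto (fun k : K => cj n t j k * b * |d - 0| + dist (f k) (f k₀)) (𝓝 k₀)
        (𝓝 (cj n t j k₀ * b * |d - 0| + dist (f k₀) (f k₀))) :=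
      (((hc.mul continuous_const).mul continuous_const).add
        (hfc.dist continuous_const)).tendsto k₀
    rw [hc0, dist_self, zero_mul, zero_mul, add_zero] at h1
    refine squeeze_zero (fun _ => dist_nonneg) (fun k => ?_) h1
    have h2 := Pp_lip' hF hb hD j k d 0
    rw [Pp_zero hfU hD] at h2
    exact (dist_triangle _ (f k) _).trans (add_le_add_left h2 _)

open Classical in
/-- the star path, before clamping -/
def La (ρ : X → X) (U : Set X) (b : ℝ) (n : ℕ) (f : K → X) (t : ℕ → K → ℝ) (leg : ℕ → K → ℝ → X)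
    (k : K) (τ : ℝ) : X :=
  if h : ∃ j, j ≤ n ∧ 0 < Dj n j τ then Pp ρ U b n f t leg h.choose k (Dj n h.choose τ) else f k

lemma La_eq {j : ℕ} {τ : ℝ} (hj : j ≤ n) (h : 0 < Dj n j τ) (k : K) :
    La ρ U b n f t leg k τ = Pp ρ U b n f t leg j k (Dj n j τ) := by
  have hex : ∃ j, j ≤ n ∧ 0 < Dj n j τ := ⟨j, hj, h⟩
  have he : hex.choose = j := Dj_uniq hex.choose_spec.2 h
  unfold La
  rw [dif_pos hex, he]

lemma La_none {τ : ℝ} (h : ∀ j, j ≤ n → Dj n j τ = 0) (k : K) : La ρ U b n f t leg k τ = f k := by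
  unfold La
  rw [dif_neg]
  rintro ⟨j, hj, hp⟩
  rw [h j hj] at hp
  exact lt_irrefl _ hp

lemma cases_τ (n : ℕ) (τ : ℝ) : (∀ j, j ≤ n → Dj n j τ = 0) ∨ ∃ j, j ≤ n ∧ 0 < Dj n j τ := by
  by_cases h : ∃ j, j ≤ n ∧ 0 < Dj n j τ
  · exact Or.inr h
  · left
    intro j hj
    by_contra hne
    exact h ⟨j, hj, lt_of_le_of_ne (Dj_nonneg n j τ) (Ne.symm hne)⟩

include hF hfU in
lemma La_mem (k : K) (τ : ℝ) : La ρ U b n f t leg k τ ∈ U := by
  rcases cases_τ n τ with h | ⟨j, hj, h⟩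
  · rw [La_none h]
    exact hfU k
  · rw [La_eq hj h]
    exact Pp_mem hF hfU _ _ _

include hF hb hfU hD in
lemma La_lip (k : K) (s τ : ℝ) : dist (La ρ U b n f t leg k s) (La ρ U b n f t leg k τ) ≤
    2 * (n : ℝ) * b * |s - τ| := by
  have hn : (0:ℝ) ≤ 2 * (n:ℝ) := by positivity
  have key : ∀ (i j : ℕ) (s τ : ℝ), i ≤ n → j ≤ n → 0 < Dj n i s → 0 < Dj n j τ → i < j →
      dist (La ρ U b n f t leg k s) (La ρ U b n f t leg k τ) ≤ 2 * (n : ℝ) * b * |s - τ| := by
    intro i j s τ hi hj h1 h2 hij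
    rw [La_eq hi h1, La_eq hj h2]
    have a1 := Pp_lip (n := n) hF hb hD i k (Dj n i s) 0
    have a2 := Pp_lip (n := n) hF hb hD j k 0 (Dj n j τ)
    rw [Pp_zero hfU hD, sub_zero, abs_of_pos h1] at a1
    rw [Pp_zero hfU hD, zero_sub, abs_neg, abs_of_pos h2] at a2
    refine (dist_triangle _ (f k) _).trans ((add_le_add a1 a2).trans ?_)
    rw [← mul_add]
    have b1 := Dj_le_up n i h1
    have b2 := Dj_le_dn n j h2
    have b3 : (i : ℝ) + 1 ≤ j := by exact_mod_cast hij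
    have b4 : Dj n i s + Dj n j τ ≤ 2 * (n : ℝ) * |s - τ| := by
      have b5 : 2 * (n : ℝ) * (τ - s) ≤ 2 * (n : ℝ) * |s - τ| := by
        refine mul_le_mul_of_nonneg_left ?_ hn
        rw [abs_sub_comm]
        exact le_abs_self _
      linarith
    calc b * (Dj n i s + Dj n j τ) ≤ b * (2 * (n : ℝ) * |s - τ|) :=
          mul_le_mul_of_nonneg_left b4 hb
      _ = _ := by ring
  have same : ∀ (j : ℕ), (La ρ U b n f t leg k s = Pp ρ U b n f t leg j k (Dj n j s)) →
      (La ρ U b n f t leg k τ = Pp ρ U b n f t leg j k (Dj n j τ)) →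
      dist (La ρ U b n f t leg k s) (La ρ U b n f t leg k τ) ≤ 2 * (n : ℝ) * b * |s - τ| := by
    intro j h1 h2
    rw [h1, h2]
    refine (Pp_lip hF hb hD j k _ _).trans ?_
    calc b * |Dj n j s - Dj n j τ| ≤ b * (2 * (n : ℝ) * |s - τ|) :=
          mul_le_mul_of_nonneg_left (Dj_lip n j s τ) hb
      _ = _ := by ring
  rcases cases_τ n s with h1 | ⟨i, hi, h1⟩
  · rcases cases_τ n τ with h2 | ⟨j, hj, h2⟩
    · rw [La_none h1, La_none h2, dist_self]
      positivity
    · refine same j ?_ (La_eq hj h2 k)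
      rw [La_none h1, h1 j hj, Pp_zero hfU hD]
  · rcases cases_τ n τ with h2 | ⟨j, hj, h2⟩
    · refine same i (La_eq hi h1 k) ?_
      rw [La_none h2, h2 i hi, Pp_zero hfU hD]
    · rcases lt_trichotomy i j with hij | hij | hij
      · exact key i j s τ hi hj h1 h2 hij
      · subst hij
        exact same i (La_eq hi h1 k) (La_eq hj h2 k)
      · rw [dist_comm, abs_sub_comm]
        exact key j i τ s hj hi h2 h1 hij

/-- the star path -/
def Lam (ρ : X → X) (U : Set X) (b : ℝ) (n : ℕ) (f : K → X) (t : ℕ → K → ℝ)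
    (leg : ℕ → K → ℝ → X) (k : K) (τ : ℝ) : X := La ρ U b n f t leg k (cl τ)

include hF hb hfU hD in
lemma Lam_lip (k : K) (s τ : ℝ) : dist (Lam ρ U b n f t leg k s) (Lam ρ U b n f t leg k τ) ≤
    2 * (n : ℝ) * b * |s - τ| := by
  refine (La_lip hF hb hfU hD k (cl s) (cl τ)).trans ?_
  exact mul_le_mul_of_nonneg_left (cl_lip s τ) (by positivity)

include hF hb hfc hfU hD in
lemma Lam_cont : Continuous fun k : K => Lam ρ U b n f t leg k := by
  refine continuous_pi fun τ => ?_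
  show Continuous fun k : K => La ρ U b n f t leg k (cl τ)
  rcases cases_τ n (cl τ) with h | ⟨j, hj, h⟩
  · have e : (fun k : K => La ρ U b n f t leg k (cl τ)) = f := by
      funext k
      exact La_none h k
    rw [e]
    exact hfc
  · have e : (fun k : K => La ρ U b n f t leg k (cl τ)) =
        fun k => Pp ρ U b n f t leg j k (Dj n j (cl τ)) := by
      funext k
      exact La_eq hj h k
    rw [e]
    exact Pp_cont hF hb hfc hfU hD j h.le

include hM hn hp hD in
lemma Lam_mark (k : K) {j : Fin (n + 2)} (h : 0 < vv n t k j) :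
    Lam ρ U b n f t leg k (th n j) = p := by
  obtain ⟨h1, h2, h3⟩ := vv_pos hD.2.1 hD.2.2.1 h
  have h4 := Dj_th hn h1
  have hj := j.2
  show La ρ U b n f t leg k (cl (th n j)) = p
  rw [cl_of_mem (th_mem hn j), La_eq (j := (j : ℕ) - 1) (by omega) (by rw [h4]; exact one_pos), h4]
  unfold Pp
  rw [if_pos h2, h3, one_mul, mul_one, sub_self, (hD.2.2.2.2.1 _ k h2).1.2.1 0 le_rfl]
  exact fo_of (F_sub hM hp)

include hn in
lemma Lam_mark1 (k : K) {j : Fin (n + 2)} (hj : (j : ℕ) = 1) :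
    Lam ρ U b n f t leg k (th n j) = f k := by
  show La ρ U b n f t leg k (cl (th n j)) = f k
  rw [cl_of_mem (th_mem hn j)]
  exact La_none (fun i _ => Dj_th1 hn hj i) k

include hF hn hb hfU hD in
lemma Lam_W (k : K) {J : Finset (Fin (n + 2))}
    (hJ : ∀ j ∈ J, ρ (Lam ρ U b n f t leg k (th n j)) = Lam ρ U b n f t leg k (th n j)) :
    ((Lam ρ U b n f t leg k, th n) : Ps X (n + 2)) ∈ W ρ U (2 * n * b) J := by
  refine ⟨fun s τ => Lam_lip hF hb hfU hD k s τ, fun τ => La_mem hF hfU k _, fun τ hτ => ?_,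
    fun τ hτ => ?_, fun j => th_mem hn j, fun i _ j _ hij => th_mono hn hij, hJ⟩
  · show La ρ U b n f t leg k (cl τ) = La ρ U b n f t leg k (cl 0)
    rw [cl_nonpos hτ, cl_nonpos le_rfl]
  · show La ρ U b n f t leg k (cl τ) = La ρ U b n f t leg k (cl 1)
    rw [cl_one_le hτ, cl_one_le le_rfl]

end star

end STAR2_

open STAR2_ in
theorem t_STAR2 : S_STAR2 := by
  intro X _ ρ U r hM hF K _ n p b f hn hp hb hfc hfU t leg hD hE
  obtain ⟨E, hE1, hE2, hE3⟩ := hE
  have hD1 := hD.1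
  have hD2 := hD.2.1
  have hD3 := hD.2.2.1
  -- weights
  let e : Fin (n + 2) → ℝ := Pi.single 1 1
  let wt : K → ℝ → Fin (n + 2) → ℝ := fun k s => (1 - s) • vv n t k + s • e
  let Ψ : K × ℝ → Ps X (n + 2) × (Fin (n + 2) → ℝ) := fun z =>
    ((Lam ρ U b n f t leg z.1, th n), wt z.1 z.2)
  have hone : ((1 : Fin (n + 2)) : ℕ) = 1 := by simp
  have he0 : ∀ j, 0 ≤ e j := by
    intro j
    simp only [e]
    by_cases h : j = 1
    · subst h
      simp
    · rw [Pi.single_eq_of_ne h]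
  have heS : e ∈ stdSimplex ℝ (Fin (n + 2)) := by
    refine ⟨he0, ?_⟩
    simp only [e]
    rw [Finset.sum_pi_single']
    simp
  have hmemS : ∀ (k : K) (s : ℝ), s ∈ Icc (0 : ℝ) 1 → wt k s ∈ stdSimplex ℝ (Fin (n + 2)) := by
    intro k s hs
    exact convex_stdSimplex ℝ _ (vv_mem hD2 hD3 k) heS (by linarith [hs.2]) hs.1 (by ring)
  have hΨc : Continuous Ψ := by
    refine Continuous.prodMk ?_ ?_
    · exact ((Lam_cont hF hb hfc hfU hD).comp continuous_fst).prodMk continuous_const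
    · show Continuous fun z : K × ℝ => (1 - z.2) • vv n t z.1 + z.2 • e
      exact ((continuous_const.sub continuous_snd).smul
        ((vv_cont hD1 hD2 hD3).comp continuous_fst)).add (continuous_snd.smul continuous_const)
  have hmem : ∀ (k : K) (s : ℝ), s ∈ Icc (0 : ℝ) 1 → (s = 0 ∨ ρ (f k) = f k) →
      Ψ (k, s) ∈ Dm (fun J : Finset (Fin (n + 2)) => W ρ U (2 * n * b) J) := by
    intro k s hs hk
    refine ⟨hmemS k s hs, fun J hJ => Lam_W hF hn hb hfU hD k fun j hj => ?_⟩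
    have h1 : 0 < wt k s j := (hJ j).1 hj
    by_cases hv : 0 < vv n t k j
    · rw [Lam_mark hM hn hp hD k hv]
      exact hp
    · have hv0 : vv n t k j = 0 := le_antisymm (not_lt.1 hv) ((vv_mem hD2 hD3 k).1 j)
      have h2 : wt k s j = s * e j := by
        show (1 - s) * vv n t k j + s * e j = s * e j
        rw [hv0]
        ring
      rw [h2] at h1
      rcases hk with hk | hk
      · rw [hk, zero_mul] at h1
        exact absurd h1 (lt_irrefl _)
      · have hjl : j = 1 := by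
          by_contra hne
          have : e j = 0 := Pi.single_eq_of_ne hne _
          rw [this, mul_zero] at h1
          exact lt_irrefl _ h1
        rw [hjl, Lam_mark1 hn k hone]
        exact hk
  have hwt0 : ∀ k : K, wt k 0 = vv n t k := by
    intro k
    show (1 - (0:ℝ)) • vv n t k + (0:ℝ) • e = vv n t k
    rw [sub_zero, one_smul, zero_smul, add_zero]
  have hwt1 : ∀ k : K, wt k 1 = e := by
    intro k
    show (1 - (1:ℝ)) • vv n t k + (1:ℝ) • e = e
    rw [sub_self, zero_smul, one_smul, zero_add]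
  let HH : K × ℝ → X := fun z => E (Ψ z).1 (Ψ z).2
  refine ⟨fun k => HH (k, 0), fun k s => HH (k, s), ?_, ?_, ?_, ?_⟩
  · exact hE1.comp_continuous (hΨc.comp (continuous_id.prodMk continuous_const))
        fun k => hmem k 0 ⟨le_rfl, zero_le_one⟩ (Or.inl rfl)
  · intro k
    exact hE2 _ (hmem k 0 ⟨le_rfl, zero_le_one⟩ (Or.inl rfl))
  · exact hE1.comp hΨc.continuousOn fun z hz => hmem z.1 z.2 hz.2 (Or.inr hz.1)
  · intro k hk
    refine ⟨fun s hs => hE2 _ (hmem k s hs (Or.inr hk)), rfl, ?_⟩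
    show E (Lam ρ U b n f t leg k, th n) (wt k 1) = f k
    rw [hwt1]
    have h2 := hE3 (Lam ρ U b n f t leg k, th n) 1
      (Lam_W hF hn hb hfU hD k fun j hj => by
        rw [Finset.mem_singleton] at hj
        rw [hj, Lam_mark1 hn k hone]
        exact hk)
    refine h2.trans ?_
    exact Lam_mark1 hn k hone

end Pool.Agent.N489.RW
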