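import Pool.Agent.N489.RW.Stm3

/-!
# Project RW: the unit sphere with small terms
-/

set_option autoImplicit false

open Set Topology

noncomputable section

namespace Pool.Agent.N489.RW

/-- the unit sphere of dimension `n` -/
abbrev Sn (n : ℕ) : Type := {v : Fin (n + 1) → ℝ // ∑ i, v i ^ 2 = 1}

theorem toLp_mem {n : ℕ} (v : Fin (n + 1) → ℝ) :
    WithLp.toLp 2 v ∈ Metric.sphere (0 : Eu n) 1 ↔ ∑ i, v i ^ 2 = 1 := by
  rw [mem_sphere_zero_iff_norm, EuclideanSpace.norm_eq]
  simp only [Real.norm_eq_abs, sq_abs]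
  constructor
  · intro h
    have h0 : 0 ≤ ∑ i, v i ^ 2 := Finset.sum_nonneg fun i _ => sq_nonneg _
    have := Real.sq_sqrt h0
    rw [h] at this
    linarith
  · intro h
    rw [h, Real.sqrt_one]

/-- the comparison with Mathlib's sphere -/
def hSn (n : ℕ) : Sn n ≃ₜ ↥(Metric.sphere (0 : Eu n) 1) where
  toFun v := ⟨WithLp.toLp 2 v.1, (toLp_mem v.1).2 v.2⟩
  invFun w := ⟨fun i => w.1 i, (toLp_mem (fun i => w.1 i)).1 w.2⟩
  left_inv v := rfl
  right_inv w := rfl
  continuous_toFun := by
    refine Continuous.subtype_mk ?_ _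
    exact (PiLp.continuous_toLp 2 _).comp continuous_subtype_val
  continuous_invFun := by
    refine Continuous.subtype_mk ?_ _
    refine continuous_pi fun i => ?_
    fun_prop

theorem hSn_apply (n : ℕ) (v : Sn n) (i : Fin (n + 1)) : (hSn n v).1 i = v.1 i := rfl

end Pool.Agent.N489.RW
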