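import Pool.Agent.N489.RW.Stm
import Pool.Agent.R203.IF.BKS

/-!
# Unfolding of critical ordered polygons (helper475)
-/

set_option autoImplicit false

open Set Topology

noncomputable section

namespace Pool.Agent.N489.RW

open Pool.Agent.Y489.GE Pool.Agent.R203.IF

/-- the equality case of the shortening -/
theorem crit {X : Type} [MetricSpace X] {r : ℝ} {m : X → X → ℝ → X} (hm : GMap X r m)
    {N : ℕ} [NeZero N] {δ : ℝ} (hδ : δ ≤ r) {x : ZMod N → X} (hx : x ∈ Pol X N δ)
    (hE : En N (ph m N (1 / 2) x) = En N x) :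
    (∀ i, dist (x i) (x (i + 1)) = dist (x 0) (x (0 + 1))) ∧
      ∀ i, dist (m (x i) (x (i + 1)) (1 / 2)) (m (x (i + 1)) (x (i + 1 + 1)) (1 / 2)) =
        dist (x 0) (x (0 + 1)) := by
  have ha : ∀ i, dist (x i) (x (i + 1)) ≤ r := fun i => (hx i).trans hδ
  set a : ZMod N → ℝ := fun i => dist (x i) (x (i + 1)) with hadef
  set y : ZMod N → X := fun i => m (x i) (x (i + 1)) (1 / 2) with hy
  have half : (1 / 2 : ℝ) ∈ Icc (0 : ℝ) 1 := by constructor <;> norm_num
  have hyy : ∀ i, dist (y i) (y (i + 1)) ≤ (a i + a (i + 1)) / 2 := by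
    intro i
    have h1 := dist_triangle (y i) (x (i + 1)) (y (i + 1))
    have h2 : dist (y i) (x (i + 1)) = (1 - 1 / 2) * a i := hm.dist_right (ha i) half
    have h3 : dist (x (i + 1)) (y (i + 1)) = 1 / 2 * a (i + 1) := hm.dist_left (ha (i + 1)) half
    linarith
  have hsq : ∀ i, dist (y i) (y (i + 1)) ^ 2 ≤ ((a i + a (i + 1)) / 2) ^ 2 := fun i =>
    pow_le_pow_left₀ dist_nonneg (hyy i) 2
  have hshift : ∑ i : ZMod N, a (i + 1) ^ 2 = ∑ i : ZMod N, a i ^ 2 :=
    Equiv.sum_comp (Equiv.addRight (1 : ZMod N)) (fun i => a i ^ 2)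
  have hE1 : ∑ i : ZMod N, dist (y i) (y (i + 1)) ^ 2 = ∑ i : ZMod N, a i ^ 2 := hE
  have hsum : ∑ i : ZMod N, ((((a i + a (i + 1)) / 2) ^ 2 - dist (y i) (y (i + 1)) ^ 2) +
      (a i - a (i + 1)) ^ 2 / 4) = 0 := by
    have h1 : ∀ i : ZMod N, (((a i + a (i + 1)) / 2) ^ 2 - dist (y i) (y (i + 1)) ^ 2) +
      (a i - a (i + 1)) ^ 2 / 4 = (1 / 2) * a i ^ 2 + (1 / 2) * a (i + 1) ^ 2 -
        dist (y i) (y (i + 1)) ^ 2 := by
      intro i
      ring
    rw [Finset.sum_congr rfl fun i _ => h1 i, Finset.sum_sub_distrib, Finset.sum_add_distrib,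
      ← Finset.mul_sum, ← Finset.mul_sum, hshift, hE1]
    ring
  have hz := (Finset.sum_eq_zero_iff_of_nonneg (fun i _ =>
    add_nonneg (sub_nonneg.2 (hsq i)) (by positivity))).1 hsum
  have haa : ∀ i, a (i + 1) = a i := by
    intro i
    have h1 := hz i (Finset.mem_univ i)
    have h2 : (a i - a (i + 1)) ^ 2 = 0 := by
      have := sub_nonneg.2 (hsq i)
      nlinarith [sq_nonneg (a i - a (i + 1))]
    have h3 := pow_eq_zero_iff (two_ne_zero) |>.1 h2
    linarith
  have hac : ∀ i, a i = a 0 := by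
    have h1 : ∀ n : ℕ, a (n : ZMod N) = a 0 := by
      intro n
      induction n with
      | zero => rw [Nat.cast_zero]
      | succ n ih => rw [Nat.cast_succ, haa, ih]
    intro i
    rw [← ZMod.natCast_zmod_val i]
    exact h1 _
  refine ⟨hac, fun i => ?_⟩
  have hcnn : 0 ≤ a 0 := dist_nonneg
  have h1 := hz i (Finset.mem_univ i)
  rw [hac i, hac (i + 1)] at h1
  have h2 : dist (y i) (y (i + 1)) ^ 2 = a 0 ^ 2 := by
    nlinarith
  exact (pow_left_inj₀ dist_nonneg hcnn two_ne_zero).1 h2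

/-- `ρ` or the identity -/
def tw {X : Type} (ρ : X → X) (b : Bool) (u : X) : X := if b then ρ u else u

/-- the exponent of a page -/
def ep {M : ℕ} (e : Fin (M + 1) → Bool) (i : Ix M) : Bool := xor (e i.1) (!i.2)

/-- the pages are equal or have different exponents -/
def Gd {M : ℕ} (e : Fin (M + 1) → Bool) (i j : Ix M) : Prop := i = j ∨ ep e i ≠ ep e j

lemma Gd.symm {M : ℕ} {e : Fin (M + 1) → Bool} {i j : Ix M} (h : Gd e i j) : Gd e j i := by
  rcases h with h | h
  · exact Or.inl h.symm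
  · exact Or.inr h.symm

lemma Gd.flip {M : ℕ} {e : Fin (M + 1) → Bool} {i j : Ix M} (h : Gd e i j) :
    Gd e (i.1, !i.2) (j.1, !j.2) := by
  rcases h with h | h
  · subst h
    exact Or.inl rfl
  · right
    intro h'
    apply h
    unfold ep at h' ⊢
    simp only at h'
    revert h'
    cases e i.1 <;> cases e j.1 <;> cases i.2 <;> cases j.2 <;> simp

lemma Gd.opp {M : ℕ} (e : Fin (M + 1) → Bool) (p : Fin (M + 1)) (s : Bool) :
    Gd e (p, s) (p, !s) := by
  right
  unfold ep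
  cases e p <;> cases s <;> simp

section

variable {X : Type} [MetricSpace X] {ρ : X → X} {U : Set X} {M : ℕ} {r : ℝ}

/-- the unfolding map -/
def Th (h : BF X ρ U M r) (e : Fin (M + 1) → Bool) (b : Bk ρ U M) : X :=
  tw ρ (ep e (Classical.choose (h.pgA b))) (un b)

lemma Th_eq (h : BF X ρ U M r) (e : Fin (M + 1) → Bool) {b : Bk ρ U M} {i : Ix M}
    (hb : b ∈ Pg i) : Th h e b = tw ρ (ep e i) (un b) := by
  have h1 := Classical.choose_spec (h.pgA b)
  unfold Th
  by_cases hij : Classical.choose (h.pgA b) = i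
  · rw [hij]
  · have h2 := (h.pgF b).1 (h.pg2 _ _ hij b h1 hb)
    unfold tw
    split_ifs <;> simp [h2]

lemma Th_dist (hρ : Mirror X ρ U) (h : BF X ρ U M r) (e : Fin (M + 1) → Bool) {b c : Bk ρ U M}
    {i j : Ix M} (hb : b ∈ Pg i) (hc : c ∈ Pg j) (hg : Gd e i j) :
    dist (Th h e b) (Th h e c) = dist b c := by
  rw [Th_eq h e hb, Th_eq h e hc]
  rcases hg with hg | hg
  · subst hg
    rw [h.pgI i b c hb hc]
    unfold tw
    split_ifs
    · exact hρ.iso.dist_eq _ _
    · rfl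
  · have hij : i ≠ j := by
      rintro rfl
      exact hg rfl
    rw [h.pgJ i j hij b c hb hc]
    unfold tw
    cases h1 : ep e i <;> cases h2 : ep e j
    · exact absurd (h1.trans h2.symm) hg
    · simp
    · simp only [if_true, if_false, Bool.false_eq_true]
      rw [← hρ.iso.dist_eq (ρ (un b)) (un c), hρ.inv]
    · exact absurd (h1.trans h2.symm) hg

lemma Th_sw (hρ : Mirror X ρ U) (h : BF X ρ U M r) (e : Fin (M + 1) → Bool) (b : Bk ρ U M) :
    Th h e (sw b) = ρ (Th h e b) := by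
  obtain ⟨i, hi⟩ := h.pgA b
  rw [Th_eq h e hi, Th_eq h e (h.pgS i b hi), h.unS]
  unfold tw ep
  cases e i.1 <;> cases i.2 <;> simp [hρ.inv]

/-- combinatorics of the visited pages -/
lemma pages (h : BF X ρ U M r) {N : ℕ} {δ : ℝ} {x : ZMod (2 * N) → Bk ρ U M}
    (hx : x ∈ OPol ρ U M N δ) : ∃ e : Fin (M + 1) → Bool, ∀ i k : ℕ, i < k → k ≤ N →
      (∀ l : ℕ, i < l → l < k → sw (x (l : ZMod (2 * N))) = x (l : ZMod (2 * N))) →
      ∃ p p' : Fin (M + 1), x (i : ZMod (2 * N)) ∈ Pg (p, true) ∧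
        x (k : ZMod (2 * N)) ∈ Pg (p', true) ∧ Gd e (p, true) (p', true) := by
  classical
  obtain ⟨_, hpo, hord⟩ := hx
  let Vis : Fin (M + 1) → Prop := fun q => ∃ l : ℕ, l ≤ N ∧
    sw (x (l : ZMod (2 * N))) ≠ x (l : ZMod (2 * N)) ∧ x (l : ZMod (2 * N)) ∈ Pg (q, true)
  let rk : Fin (M + 1) → ℕ := fun p => (Finset.univ.filter fun q => q < p ∧ Vis q).card
  -- uniqueness of the page
  have huniq : ∀ (b : Bk ρ U M) (p q : Fin (M + 1)), sw b ≠ b → b ∈ Pg (p, true) →
      b ∈ Pg (q, true) → p = q := by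
    intro b p q hb hp hq
    by_contra hne
    exact hb (h.pg2 (p, true) (q, true) (by simpa using hne) b hp hq)
  -- monotonicity
  have hmono : ∀ (i k : ℕ) (p q : Fin (M + 1)), i ≤ k → k ≤ N →
      sw (x (i : ZMod (2 * N))) ≠ x (i : ZMod (2 * N)) →
      sw (x (k : ZMod (2 * N))) ≠ x (k : ZMod (2 * N)) →
      x (i : ZMod (2 * N)) ∈ Pg (p, true) → x (k : ZMod (2 * N)) ∈ Pg (q, true) → p ≤ q := by
    intro i k p q hik hk hsi hsk hp hq
    by_contra hlt
    rw [not_le] at hlt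
    have hqM : (q : ℕ) < M := by
      have h1 := p.isLt
      have h2 : (q : ℕ) < (p : ℕ) := hlt
      omega
    let j : Fin M := ⟨q, hqM⟩
    rcases hord j i k hik hk with ⟨p', h1, h2⟩ | ⟨p', h1, h2⟩
    · have h3 := huniq _ _ _ hsi hp h2
      rw [h3] at hlt
      have h4 : (p' : ℕ) ≤ (q : ℕ) := h1
      have h5 : (q : ℕ) < (p' : ℕ) := hlt
      omega
    · have h3 := huniq _ _ _ hsk hq h2
      have h4 : (q : ℕ) + 1 ≤ (p' : ℕ) := h1
      rw [← h3] at h4
      omega
  refine ⟨fun p => (rk p).bodd, fun i k hik hk hF => ?_⟩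
  obtain ⟨p, hp⟩ := hpo i (hik.le.trans hk)
  obtain ⟨p', hp'⟩ := hpo k hk
  by_cases hi : sw (x (i : ZMod (2 * N))) = x (i : ZMod (2 * N))
  · exact ⟨p', p', h.pgF' _ hi _, hp', Or.inl rfl⟩
  by_cases hk' : sw (x (k : ZMod (2 * N))) = x (k : ZMod (2 * N))
  · exact ⟨p, p, hp, h.pgF' _ hk' _, Or.inl rfl⟩
  refine ⟨p, p', hp, hp', ?_⟩
  have hpp := hmono i k p p' hik.le hk hi hk' hp hp'
  rcases hpp.eq_or_lt with heq | hlt
  · rw [heq]
    exact Or.inl rfl
  · right
    have hset : (Finset.univ.filter fun q => q < p' ∧ Vis q) =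
        insert p (Finset.univ.filter fun q => q < p ∧ Vis q) := by
      ext q
      simp only [Finset.mem_filter, Finset.mem_univ, true_and, Finset.mem_insert]
      constructor
      · rintro ⟨h1, l, h2, h3, h4⟩
        rcases le_or_gt l i with h5 | h5
        · have h6 := hmono l i q p h5 (hik.le.trans hk) h3 hi h4 hp
          rcases h6.eq_or_lt with h7 | h7
          · exact Or.inl h7
          · exact Or.inr ⟨h7, l, h2, h3, h4⟩
        · rcases le_or_gt k l with h6 | h6
          · have h7 := hmono k l p' q h6 h2 hk' h3 hp' h4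
            exact absurd h1 (not_lt.2 h7)
          · exact absurd (hF l h5 h6) h3
      · rintro (h1 | ⟨h1, h2⟩)
        · rw [h1]
          exact ⟨hlt, i, hik.le.trans hk, hi, hp⟩
        · exact ⟨h1.trans hlt, h2⟩
    have hrk : rk p' = rk p + 1 := by
      show (Finset.univ.filter fun q => q < p' ∧ Vis q).card = _
      rw [hset, Finset.card_insert_of_notMem]
      simp
    show xor (rk p).bodd (!true) ≠ xor (rk p').bodd (!true)
    rw [hrk, Nat.bodd_succ]
    cases (rk p).bodd <;> simp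

/-- the indices -/
lemma idx (N : ℕ) [NeZero N] [NeZero (2 * N)] (i : ZMod (2 * N)) :
    ∃ k : ℕ, k < N ∧ (i = (k : ZMod (2 * N)) ∨ i = -((k + 1 : ℕ) : ZMod (2 * N))) := by
  have hN : 0 < N := Nat.pos_of_ne_zero (NeZero.ne N)
  have h1 := ZMod.val_lt i
  have h2 := ZMod.natCast_zmod_val i
  rcases lt_or_ge i.val N with h | h
  · exact ⟨i.val, h, Or.inl h2.symm⟩
  · refine ⟨2 * N - i.val - 1, by omega, Or.inr ?_⟩
    have h3 : 2 * N - i.val - 1 + 1 = 2 * N - i.val := by omega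
    rw [h3, eq_neg_iff_add_eq_zero, Nat.cast_sub h1.le, h2, ZMod.natCast_self]
    ring

theorem t_UNF : S_UNF := by
  intro X _ ρ U M r hρ hgeod huniq hmf h r' m m' hm hm' hr N _ _ δ hδ x hx hpos hE
  have hN : 0 < N := Nat.pos_of_ne_zero (NeZero.ne N)
  obtain ⟨hxS, hpo, hord⟩ := id hx
  obtain ⟨hxP, hxs⟩ := hxS
  have half : (1 / 2 : ℝ) ∈ Icc (0 : ℝ) 1 := by constructor <;> norm_num
  obtain ⟨hc1, hc2⟩ := crit hm' hδ hxP hE
  set c := dist (x 0) (x (0 + 1)) with hcdef
  have hcδ : c ≤ δ := hxP 0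
  have hcr : c < r := by linarith
  obtain ⟨e, he⟩ := pages h hx
  -- consecutive vertices
  have hpair : ∀ i, ∃ I J : Ix M, x i ∈ Pg I ∧ x (i + 1) ∈ Pg J ∧ Gd e I J := by
    intro i
    obtain ⟨k, hk, rfl | rfl⟩ := idx N i
    · obtain ⟨p, p', h1, h2, h3⟩ := he k (k + 1) (by omega) (by omega) (fun l a b => by omega)
      refine ⟨_, _, h1, ?_, h3⟩
      rwa [Nat.cast_add, Nat.cast_one] at h2
    · obtain ⟨p, p', h1, h2, h3⟩ := he k (k + 1) (by omega) (by omega) (fun l a b => by omega)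
      refine ⟨_, _, ?_, ?_, (h3.symm).flip⟩
      · rw [hxs]
        exact h.pgS _ _ h2
      · have h4 : -((k + 1 : ℕ) : ZMod (2 * N)) + 1 = -(k : ZMod (2 * N)) := by
          push_cast
          ring
        rw [h4, hxs]
        exact h.pgS _ _ h1
  have hsw : ∀ b : Bk ρ U M, sw (sw b) = sw b → sw b = b := fun b hb => by
    rw [h.sw2] at hb
    exact hb.symm
  -- corners in the fixed point set
  have htri : ∀ i, sw (x (i + 1)) = x (i + 1) →
      ∃ I K : Ix M, x i ∈ Pg I ∧ x (i + 1 + 1) ∈ Pg K ∧ Gd e I K := by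
    intro i hF
    obtain ⟨k, hk, rfl | rfl⟩ := idx N i
    · rcases Nat.lt_or_ge (k + 1) N with h1 | h1
      · obtain ⟨p, p', h2, h3, h4⟩ := he k (k + 2) (by omega) (by omega) (fun l a b => by
          have : l = k + 1 := by omega
          rw [this, Nat.cast_add, Nat.cast_one]
          exact hF)
        refine ⟨_, _, h2, ?_, h4⟩
        have h5 : (k : ZMod (2 * N)) + 1 + 1 = ((k + 2 : ℕ) : ZMod (2 * N)) := by
          push_cast
          ring
        rwa [h5]
      · have hk1 : k + 1 = N := by omega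
        obtain ⟨p, hp⟩ := hpo k hk.le
        refine ⟨(p, true), (p, !true), hp, ?_, Gd.opp e p true⟩
        have h5 : (k : ZMod (2 * N)) + 1 + 1 = -(k : ZMod (2 * N)) := by
          rw [eq_neg_iff_add_eq_zero]
          have h6 : (k : ZMod (2 * N)) + 1 + 1 + k = ((2 * (k + 1) : ℕ) : ZMod (2 * N)) := by
            push_cast
            ring
          rw [h6, hk1, ZMod.natCast_self]
        rw [h5, hxs]
        exact h.pgS _ _ hp
    · rcases Nat.eq_zero_or_pos k with h1 | h1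
      · subst h1
        obtain ⟨p, hp⟩ := hpo 1 (by omega)
        refine ⟨(p, !true), (p, true), ?_, ?_, (Gd.opp e p true).symm⟩
        · rw [hxs]
          have := h.pgS _ _ hp
          simpa using this
        · have h5 : -((0 + 1 : ℕ) : ZMod (2 * N)) + 1 + 1 = ((1 : ℕ) : ZMod (2 * N)) := by
            push_cast
            ring
          rw [h5]
          exact hp
      · obtain ⟨l, rfl⟩ : ∃ l, k = l + 1 := ⟨k - 1, by omega⟩
        have hF' : sw (x ((l + 1 : ℕ) : ZMod (2 * N))) = x ((l + 1 : ℕ) : ZMod (2 * N)) := by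
          have h5 : -((l + 1 + 1 : ℕ) : ZMod (2 * N)) + 1 = -((l + 1 : ℕ) : ZMod (2 * N)) := by
            push_cast
            ring
          rw [h5, hxs] at hF
          exact hsw _ hF
        obtain ⟨p, p', h2, h3, h4⟩ := he l (l + 2) (by omega) (by omega) (fun q a b => by
          have : q = l + 1 := by omega
          rw [this]
          exact hF')
        refine ⟨_, _, ?_, ?_, (h4.symm).flip⟩
        · rw [hxs]
          exact h.pgS _ _ h3
        · have h5 : -((l + 1 + 1 : ℕ) : ZMod (2 * N)) + 1 + 1 = -(l : ZMod (2 * N)) := by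
            push_cast
            ring
          rw [h5, hxs]
          exact h.pgS _ _ h2
  -- the midpoints
  set μ : ZMod (2 * N) → Bk ρ U M := fun i => m' (x i) (x (i + 1)) (1 / 2) with hμ
  have hle : ∀ i, dist (x i) (x (i + 1)) ≤ r' := fun i => (hxP i).trans hδ
  have hμ1 : ∀ i, dist (x i) (μ i) = c / 2 := by
    intro i
    have := hm'.dist_left (hle i) half
    rw [hc1] at this
    rw [hμ]
    linarith
  have hμ2 : ∀ i, dist (μ i) (x (i + 1)) = c / 2 := by
    intro i
    have := hm'.dist_right (hle i) half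
    rw [hc1] at this
    rw [hμ]
    linarith
  have hμ3 : ∀ i, dist (μ i) (μ (i + 1)) = c := hc2
  have hμc : ∀ i (I J : Ix M), x i ∈ Pg I → x (i + 1) ∈ Pg J → μ i ∈ Pg I ∨ μ i ∈ Pg J := by
    intro i I J hI hJ
    refine h.conv I J _ _ (μ i) hI hJ (by rw [hc1]; exact hcr) ?_
    rw [hμ1, hμ2, hc1]
    ring
  -- the unfolding
  set y : ZMod (2 * N) → X := fun i => Th h e (x i) with hy
  have hyd : ∀ i, dist (y i) (y (i + 1)) = c := by
    intro i
    obtain ⟨I, J, hI, hJ, hg⟩ := hpair i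
    rw [hy]
    exact (Th_dist hρ h e hI hJ hg).trans (hc1 i)
  have hyc : ∀ i, m (y i) (y (i + 1)) (1 / 2) = Th h e (μ i) := by
    intro i
    obtain ⟨I, J, hI, hJ, hg⟩ := hpair i
    have hr1 : dist (y i) (y (i + 1)) ≤ r' := by
      rw [hyd]
      linarith
    have h1 : dist (y i) (Th h e (μ i)) = c / 2 := by
      rw [← hμ1 i]
      rcases hμc i I J hI hJ with h2 | h2
      · exact Th_dist hρ h e hI h2 (Or.inl rfl)
      · exact Th_dist hρ h e hI h2 hg
    have h2 : dist (Th h e (μ i)) (y (i + 1)) = c / 2 := by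
      rw [← hμ2 i]
      rcases hμc i I J hI hJ with h2 | h2
      · exact Th_dist hρ h e h2 hJ hg
      · exact Th_dist hρ h e h2 hJ (Or.inl rfl)
    refine (m_unique hm hr huniq hr1 half ?_ ?_).symm
    · rw [h1, hyd]
      ring
    · rw [h2, hyd]
      ring
  have hcorner : ∀ i, dist (Th h e (μ i)) (Th h e (μ (i + 1))) = c := by
    intro i
    by_cases hF : sw (x (i + 1)) = x (i + 1)
    · obtain ⟨I, K, hI, hK, hg⟩ := htri i hF
      have h1 : μ i ∈ Pg I := by
        rcases hμc i I I hI (h.pgF' _ hF I) with h1 | h1 <;> exact h1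
      have h2 : μ (i + 1) ∈ Pg K := by
        rcases hμc (i + 1) K K (h.pgF' _ hF K) hK with h1 | h1 <;> exact h1
      rw [Th_dist hρ h e h1 h2 hg, hμ3]
    · obtain ⟨I, J, hI, hJ, hg⟩ := hpair i
      obtain ⟨J', K, hJ', hK, hg'⟩ := hpair (i + 1)
      have hJJ : J' = J := by
        by_contra hne
        exact hF (h.pg2 _ _ hne _ hJ' hJ)
      rw [hJJ] at hg' hJ'
      by_cases h1 : μ i ∈ Pg J
      · rcases hμc (i + 1) J K hJ' hK with h2 | h2
        · rw [Th_dist hρ h e h1 h2 (Or.inl rfl), hμ3]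
        · rw [Th_dist hρ h e h1 h2 hg', hμ3]
      by_cases h2 : μ (i + 1) ∈ Pg J
      · rcases hμc i I J hI hJ with h3 | h3
        · rw [Th_dist hρ h e h3 h2 hg, hμ3]
        · exact absurd h3 h1
      have h3 : μ i ∈ Pg I := by
        rcases hμc i I J hI hJ with h3 | h3
        · exact h3
        · exact absurd h3 h1
      have h4 : μ (i + 1) ∈ Pg K := by
        rcases hμc (i + 1) J K hJ' hK with h3 | h3
        · exact absurd h3 h2
        · exact h3
      exfalso
      have hIJ : I ≠ J := by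
        rintro rfl
        exact h1 h3
      have hKJ : K ≠ J := by
        rintro rfl
        exact h2 h4
      have h5 : dist (μ i) (x (i + 1)) + dist (x (i + 1)) (μ (i + 1)) =
          dist (μ i) (μ (i + 1)) := by
        rw [hμ2, hμ1, hμ3]
        ring
      rcases h.conv I K _ _ (x (i + 1)) h3 h4 (by rw [hμ3]; exact hcr) h5 with h6 | h6
      · exact hF (h.pg2 _ _ hIJ _ h6 hJ)
      · exact hF (h.pg2 _ _ hKJ _ h6 hJ)
  refine ⟨y, ⟨fun i => ?_, fun i => ?_⟩, ?_, ?_⟩
  · rw [hyd]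
    exact hcδ
  · show Th h e (x (-i)) = ρ (Th h e (x i))
    rw [hxs, Th_sw hρ]
  · unfold En
    refine Finset.sum_congr rfl fun i _ => ?_
    rw [hyd, hc1]
  · unfold En
    refine Finset.sum_congr rfl fun i _ => ?_
    show dist (m (y i) (y (i + 1)) (1 / 2)) (m (y (i + 1)) (y (i + 1 + 1)) (1 / 2)) ^ 2 = _
    rw [hyc, hyc, hcorner, hyd]

end

end Pool.Agent.N489.RW
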