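import Pool.Agent.N489.RW.Stm2
import Pool.Agent.R203.IF.BKS

/-!
# Project RW (helper489), task CIR: closing up the lifted geodesic (helper712)
-/

set_option autoImplicit false

open Set Topology

noncomputable section

namespace Pool.Agent.N489.RW

open Pool.Agent.Y489.GE Pool.Agent.R203.IF

namespace CIR

/-- gluing a curve on `[-T, T]` to a periodic curve -/
theorem glue {X : Type} [MetricSpace X] (f : ℝ → X) (T e : ℝ) (hT : 0 < T) (he : e ≤ T)
    (h1 : ∀ u v, -T ≤ u → u ≤ v → v ≤ T → v - u ≤ e → dist (f u) (f v) = v - u)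
    (h2 : ∀ u v, u ≤ T → -T ≤ v → (T - u) + (v + T) ≤ e → dist (f u) (f v) = (T - u) + (v + T)) :
    ∃ c : ℝ → X, (∀ t, c (t + 2 * T) = c t) ∧ ∀ s t, |s - t| ≤ e → dist (c s) (c t) = |s - t| := by
  have hp : (0 : ℝ) < 2 * T := by linarith
  refine ⟨fun t => f (toIcoMod hp (-T) t), fun t => by
    show f _ = f _
    rw [toIcoMod_add_right], ?_⟩
  have key : ∀ s t, s ≤ t → t - s ≤ e →
      dist (f (toIcoMod hp (-T) s)) (f (toIcoMod hp (-T) t)) = t - s := by
    intro s t hst hle
    have hs := toIcoMod_mem_Ico hp (-T) s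
    set s' := toIcoMod hp (-T) s with hs'
    have hs2 : s' = s - (toIcoDiv hp (-T) s) • (2 * T) := rfl
    set k : ℤ := toIcoDiv hp (-T) s with hk
    rw [zsmul_eq_mul] at hs2
    have hs3 : -T + 2 * T = T := by ring
    rw [hs3] at hs
    by_cases hc : t - (k : ℝ) * (2 * T) < T
    · have ht : toIcoMod hp (-T) t = t - (k : ℝ) * (2 * T) := by
        rw [← zsmul_eq_mul]
        rw [toIcoMod_eq_iff hp]
        refine ⟨⟨?_, ?_⟩, k, by ring⟩
        · rw [zsmul_eq_mul]
          have := hs.1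
          linarith
        · rw [zsmul_eq_mul, hs3]
          exact hc
      rw [ht]
      have := h1 s' (t - (k : ℝ) * (2 * T)) hs.1 (by linarith) hc.le (by linarith)
      rw [this]
      linarith
    · rw [not_lt] at hc
      have ht : toIcoMod hp (-T) t = t - (k : ℝ) * (2 * T) - 2 * T := by
        rw [toIcoMod_eq_iff hp]
        refine ⟨⟨by linarith, ?_⟩, k + 1, ?_⟩
        · rw [hs3]
          have := hs.2
          linarith
        · rw [zsmul_eq_mul]
          push_cast
          ring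
      rw [ht]
      have := h2 s' (t - (k : ℝ) * (2 * T) - 2 * T) hs.2.le (by linarith) (by linarith)
      rw [this]
      linarith
  intro s t hst
  show dist (f _) (f _) = _
  rcases le_total s t with h | h
  · rw [abs_sub_comm, abs_of_nonneg (sub_nonneg.2 h)] at hst ⊢
    exact key s t h hst
  · rw [abs_of_nonneg (sub_nonneg.2 h)] at hst ⊢
    rw [dist_comm]
    exact key t s h hst

variable {X Y G : Type} [MetricSpace X] [MetricSpace Y] [Group G] [MulAction G X]
  {k : ℕ} {q : X → Y} {ρ : Y → Y} {U : Set Y} {σ : G} {w : X → Eu k} {r₀ r r' : ℝ}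
  {m : X → X → ℝ → X}

omit [MetricSpace Y] in
/-- `fo` of a fixed point -/
theorem fo_fix {y : Y} (h : ρ y = y) : fo ρ U y = y := by
  unfold fo
  split_ifs
  · rfl
  · exact h

theorem dist_fo (hm : Mirror Y ρ U) (y : Y) :
    dist (fo ρ U y) (ρ (fo ρ U y)) = dist y (ρ y) := by
  unfold fo
  split_ifs
  · rfl
  · rw [hm.inv, dist_comm]

/-- the corner at a fixed point -/
theorem corner (S : Setup X Y G k q ρ U σ w r₀ r r' m) (a : ℝ → X) (b : ℝ → Y) (e : ℝ)
    (he : 2 * e ≤ r') (h0 : ∀ g : G, g • a 0 = a 0)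
    (hq : ∀ s ∈ Icc (0 : ℝ) e, q (a s) = fo ρ U (b s))
    (ha : ∀ s ∈ Icc (0 : ℝ) e, ∀ t ∈ Icc (0 : ℝ) e, dist (a s) (a t) = |s - t|)
    (hb : ∀ s ∈ Icc (0 : ℝ) e, dist (b s) (ρ (b s)) = 2 * s)
    {s t : ℝ} (hs : s ∈ Icc (0 : ℝ) e) (ht : t ∈ Icc (0 : ℝ) e) :
    dist (a s) (σ • a t) = s + t := by
  have he0 : (0 : ℝ) ≤ e := hs.1.trans hs.2
  have z0 : (0 : ℝ) ∈ Icc (0 : ℝ) e := ⟨le_rfl, he0⟩
  have up : ∀ s ∈ Icc (0 : ℝ) e, ∀ t ∈ Icc (0 : ℝ) e, dist (a s) (σ • a t) ≤ s + t := by
    intro s hs t ht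
    have e1 : dist (a s) (a 0) = s := by
      rw [ha s hs 0 z0, sub_zero, abs_of_nonneg hs.1]
    have e2 : dist (a 0) (σ • a t) = t := by
      have : dist (σ • a 0) (σ • a t) = t := by
        rw [S.rot.iso, ha 0 z0 t ht, zero_sub, abs_neg, abs_of_nonneg ht.1]
      rwa [h0 σ] at this
    have := dist_triangle (a s) (a 0) (σ • a t)
    linarith
  have low : ∀ τ ∈ Icc (0 : ℝ) e, 2 * τ ≤ dist (a τ) (σ • a τ) := by
    intro τ hτ
    set x := a τ with hx
    set y := σ • a τ with hy
    have hxy : dist x y ≤ r' := by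
      have := up τ hτ τ hτ
      have := hτ.2
      linarith
    have hh : (1 / 2 : ℝ) ∈ Icc (0 : ℝ) 1 := ⟨by norm_num, by norm_num⟩
    set z := m x y (1 / 2) with hz
    have d1 : dist x z = 1 / 2 * dist x y := S.gm.dist_left hxy hh
    have d2 : dist z y = (1 - 1 / 2) * dist x y := S.gm.dist_right hxy hh
    have sx : σ • x = y := rfl
    have sy : σ • y = x := S.rot.s2 x
    have hσz : σ • z = z := by
      refine m_unique S.gm S.rr₀ S.uniX hxy hh ?_ ?_
      · rw [← sy, S.rot.iso, dist_comm y z, d2, sy]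
        ring
      · rw [← sx, S.rot.iso, dist_comm z x, d1, sx]
        ring
    have hw : w z = 0 := by
      have h1 := S.rot.sw z
      rw [hσz] at h1
      have h2 : (2 : ℝ) • w z = 0 := by
        rw [two_smul]
        nth_rewrite 1 [h1]
        exact neg_add_cancel _
      exact (smul_eq_zero.1 h2).resolve_left (by norm_num)
    have hfix : ρ (q z) = q z := (S.rot.qF z).1 ((S.rot.w0 z).1 hw)
    have h1 : dist (q x) (q z) ≤ dist x z := by
      have := S.rot.lip x z 1
      rwa [one_smul] at this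
    have h2 := S.mf.ht (q x) (q z) hfix
    have h3 : dist (q x) (ρ (q x)) = 2 * τ := by
      rw [hx, hq τ hτ, dist_fo S.mir, hb τ hτ]
    linarith
  refine le_antisymm (up s hs t ht) ?_
  rcases le_total s t with h | h
  · have l := low t ht
    have t1 := dist_triangle (a t) (a s) (σ • a t)
    have e1 : dist (a t) (a s) = t - s := by
      rw [ha t ht s hs, abs_of_nonneg (sub_nonneg.2 h)]
    linarith
  · have l := low s hs
    have t1 := dist_triangle (a s) (σ • a t) (σ • a s)
    have e1 : dist (σ • a t) (σ • a s) = s - t := by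
      rw [S.rot.iso, ha t ht s hs, abs_sub_comm, abs_of_nonneg (sub_nonneg.2 h)]
    linarith

end CIR

open CIR in
theorem t_CIR (hW : S_WHL) : S_CIR := by
  intro X Y G _ _ _ _ k q ρ U σ w r₀ r r' m S L hL
  obtain ⟨γ, T, hT, hTL, hper, hsym, ε, hε, hγ⟩ := hL
  obtain ⟨Γ, hq, ε', hε', hΓ⟩ := hW X Y G k q ρ U σ w r₀ r r' m S γ T ε hT hε hγ
  set e : ℝ := min (min T ε') (min (ε / 2) (r' / 2)) with he
  have heT : e ≤ T := (min_le_left _ _).trans (min_le_left _ _)
  have heε' : e ≤ ε' := (min_le_left _ _).trans (min_le_right _ _)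
  have heε : e ≤ ε / 2 := (min_le_right _ _).trans (min_le_left _ _)
  have her : e ≤ r' / 2 := (min_le_right _ _).trans (min_le_right _ _)
  have hr' := S.r'0
  have he0 : 0 < e := lt_min (lt_min hT hε') (lt_min (by linarith) (by linarith))
  have f0 : ρ (γ 0) = γ 0 := by
    have := hsym 0
    rw [neg_zero] at this
    exact this.symm
  have fT : ρ (γ T) = γ T := by
    have h1 := hsym T
    have h2 := hper (-T)
    have h3 : -T + 2 * T = T := by ring
    rw [h3] at h2
    rw [← h1, h2]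
  have z0 : (0 : ℝ) ∈ Icc (0 : ℝ) T := ⟨le_rfl, hT.le⟩
  have zT : T ∈ Icc (0 : ℝ) T := ⟨hT.le, le_rfl⟩
  have g0 : ∀ g : G, g • Γ 0 = Γ 0 := by
    rw [S.rot.qF, hq 0 z0, fo_fix f0]
    exact f0
  have gT : ∀ g : G, g • Γ T = Γ T := by
    rw [S.rot.qF, hq T zT, fo_fix fT]
    exact fT
  have c0 : ∀ s ∈ Icc (0 : ℝ) e, ∀ t ∈ Icc (0 : ℝ) e, dist (Γ s) (σ • Γ t) = s + t := by
    intro s hs t ht
    refine corner S Γ γ e (by linarith) g0 (fun u hu => hq u ⟨hu.1, hu.2.trans heT⟩)
      (fun u hu v hv => hΓ u ⟨hu.1, hu.2.trans heT⟩ v ⟨hv.1, hv.2.trans heT⟩ ?_) ?_ hs ht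
    · rw [abs_le]
      constructor <;> linarith [hu.1, hu.2, hv.1, hv.2]
    · intro u hu
      rw [← hsym u, hγ]
      · rw [sub_neg_eq_add, abs_of_nonneg (by linarith [hu.1])]
        ring
      · rw [sub_neg_eq_add, abs_of_nonneg (by linarith [hu.1])]
        linarith [hu.2]
  have cT : ∀ s ∈ Icc (0 : ℝ) e, ∀ t ∈ Icc (0 : ℝ) e, dist (Γ (T - s)) (σ • Γ (T - t)) = s + t := by
    intro s hs t ht
    refine corner S (fun u => Γ (T - u)) (fun u => γ (T - u)) e (by linarith)
      (by
        intro g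
        show g • Γ (T - 0) = Γ (T - 0)
        rw [sub_zero]
        exact gT g)
      (fun u hu => hq (T - u) ⟨by linarith [hu.2], by linarith [hu.1]⟩)
      (fun u hu v hv => ?_) ?_ hs ht
    · show dist (Γ (T - u)) (Γ (T - v)) = |u - v|
      have e1 : T - u - (T - v) = -(u - v) := by ring
      rw [hΓ (T - u) ⟨by linarith [hu.2], by linarith [hu.1]⟩ (T - v)
        ⟨by linarith [hv.2], by linarith [hv.1]⟩, e1, abs_neg]
      rw [e1, abs_neg, abs_le]
      constructor <;> linarith [hu.1, hu.2, hv.1, hv.2]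
    · intro u hu
      show dist (γ (T - u)) (ρ (γ (T - u))) = 2 * u
      have e1 : ρ (γ (T - u)) = γ (T + u) := by
        rw [← hsym, ← hper (-(T - u))]
        congr 1
        ring
      have e2 : T - u - (T + u) = -(2 * u) := by ring
      rw [e1, hγ, e2, abs_neg, abs_of_nonneg (by linarith [hu.1])]
      rw [e2, abs_neg, abs_of_nonneg (by linarith [hu.1])]
      linarith [hu.2]
  obtain ⟨c, hc1, hc2⟩ := glue (fun u => if 0 ≤ u then Γ u else σ • Γ (-u)) T e hT heT
    (by
      intro u v hu huv hv hle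
      show dist (if 0 ≤ u then Γ u else σ • Γ (-u)) (if 0 ≤ v then Γ v else σ • Γ (-v)) = v - u
      by_cases h1 : 0 ≤ u
      · rw [if_pos h1, if_pos (h1.trans huv)]
        have e1 : |u - v| = v - u := by rw [abs_sub_comm, abs_of_nonneg (sub_nonneg.2 huv)]
        rw [hΓ u ⟨h1, huv.trans hv⟩ v ⟨h1.trans huv, hv⟩ (by rw [e1]; linarith), e1]
      · rw [not_le] at h1
        rw [if_neg (not_le.2 h1)]
        by_cases h2 : 0 ≤ v
        · rw [if_pos h2, dist_comm, c0 v ⟨h2, by linarith⟩ (-u) ⟨by linarith, by linarith⟩]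
          ring
        · rw [not_le] at h2
          rw [if_neg (not_le.2 h2), S.rot.iso]
          have e1 : |-u - -v| = v - u := by
            have : -u - -v = v - u := by ring
            rw [this, abs_of_nonneg (sub_nonneg.2 huv)]
          rw [hΓ (-u) ⟨by linarith, by linarith⟩ (-v) ⟨by linarith, by linarith⟩
            (by rw [e1]; linarith), e1])
    (by
      intro u v hu hv hle
      show dist (if 0 ≤ u then Γ u else σ • Γ (-u)) (if 0 ≤ v then Γ v else σ • Γ (-v)) =
        (T - u) + (v + T)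
      have h1 : 0 ≤ u := by linarith
      have h2 : v ≤ 0 := by linarith
      rw [if_pos h1]
      have h3 : (if 0 ≤ v then Γ v else σ • Γ (-v)) = σ • Γ (-v) := by
        split_ifs with h
        · have : v = 0 := le_antisymm h2 h
          rw [this, neg_zero, g0]
        · rfl
      rw [h3]
      have := cT (T - u) ⟨by linarith, by linarith⟩ (v + T) ⟨by linarith, by linarith⟩
      have e1 : T - (T - u) = u := by ring
      have e2 : T - (v + T) = -v := by ring
      rwa [e1, e2] at this)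
  exact ⟨c, 2 * T, by linarith, hTL, hc1, e, he0, hc2⟩

end Pool.Agent.N489.RW
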