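import Pool.Agent.N489.RW.Stm3
import Pool.Agent.N489.RW.CIR

/-!
# Project RW (helper489), task UNT: closing up the unfolded geodesic (helper591)
-/

set_option autoImplicit false

open Set Topology

noncomputable section

namespace Pool.Agent.N489.RW

open Pool.Agent.Y489.GE Pool.Agent.R203.IF

namespace UNT

variable {X Y G : Type} [MetricSpace X] [MetricSpace Y] [Group G] [MulAction G X]
  {F : Set X} {σ : G} {r : ℝ} {i : X → Y} {ρ : Y → Y} {U : Set Y}

theorem inF (S : TS X G F σ r) (D : Dbl X Y F i ρ U) {x : X} {y : Y}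
    (h : ∃ (g : G) (x' : X), i x' = fo ρ U y ∧ x = g • x') (hy : ρ y = y) : x ∈ F := by
  obtain ⟨g, x', h1, h2⟩ := h
  rw [CIR.fo_fix hy] at h1
  have h3 : x' ∈ F := by
    rw [← D.fix, h1]
    exact hy
  rw [h2, S.fixF g _ h3]
  exact h3

/-- the corner at a point of `F` -/
theorem corner (S : TS X G F σ r) (D : Dbl X Y F i ρ U) (a : ℝ → X) (b : ℝ → Y) (e : ℝ)
    (he : 2 * e < r) (h0 : a 0 ∈ F)
    (hq : ∀ s ∈ Icc (0 : ℝ) e, ∃ (g : G) (x : X), i x = fo ρ U (b s) ∧ a s = g • x)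
    (ha : ∀ s ∈ Icc (0 : ℝ) e, ∀ t ∈ Icc (0 : ℝ) e, dist (a s) (a t) = |s - t|)
    (hb : ∀ s ∈ Icc (0 : ℝ) e, dist (b s) (ρ (b s)) = 2 * s)
    {s t : ℝ} (hs : s ∈ Icc (0 : ℝ) e) (ht : t ∈ Icc (0 : ℝ) e) :
    dist (a s) (σ • a t) = s + t := by
  have he0 : (0 : ℝ) ≤ e := hs.1.trans hs.2
  have z0 : (0 : ℝ) ∈ Icc (0 : ℝ) e := ⟨le_rfl, he0⟩
  have d0 : ∀ s ∈ Icc (0 : ℝ) e, dist (a s) (a 0) = s := by
    intro s hs
    rw [ha s hs 0 z0, sub_zero, abs_of_nonneg hs.1]
  have up : ∀ s ∈ Icc (0 : ℝ) e, ∀ t ∈ Icc (0 : ℝ) e, dist (a s) (σ • a t) ≤ s + t := by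
    intro s hs t ht
    have e1 := d0 s hs
    have e2 : dist (a 0) (σ • a t) = t := by
      have : dist (σ • a 0) (σ • a t) = t := by
        rw [S.iso, ha 0 z0 t ht, zero_sub, abs_neg, abs_of_nonneg ht.1]
      rwa [S.fixF σ _ h0] at this
    have := dist_triangle (a s) (a 0) (σ • a t)
    linarith
  have low : ∀ τ ∈ Icc (0 : ℝ) e, 2 * τ ≤ dist (a τ) (σ • a τ) := by
    intro τ hτ
    obtain ⟨g, x', h1, h2⟩ := hq τ hτ
    obtain ⟨z, hz, hd⟩ := S.smid (a τ) ⟨a 0, h0, by rw [d0 τ hτ]; linarith [hτ.2]⟩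
    have h3 : dist (a τ) z = dist x' z := by
      rw [h2]
      have := S.iso g x' z
      rwa [S.fixF g z hz] at this
    have h4 := D.le x' x' z hz
    rw [h1, CIR.dist_fo D.mir, hb τ hτ, dist_comm z x'] at h4
    rw [hd, h3]
    linarith
  refine le_antisymm (up s hs t ht) ?_
  rcases le_total s t with h | h
  · have l := low t ht
    have t1 := dist_triangle (a t) (a s) (σ • a t)
    have e1 : dist (a t) (a s) = t - s := by
      rw [ha t ht s hs, abs_of_nonneg (sub_nonneg.2 h)]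
    linarith
  · have l := low s hs
    have t1 := dist_triangle (a s) (σ • a t) (σ • a s)
    have e1 : dist (σ • a t) (σ • a s) = s - t := by
      rw [S.iso, ha t ht s hs, abs_sub_comm, abs_of_nonneg (sub_nonneg.2 h)]
    linarith

end UNT

open CIR UNT in
theorem t_UNT (h : S_UNT1) : S_UNT := by
  intro X Y G _ _ _ _ F σ r i ρ U hr S D hY hU hM L hL
  obtain ⟨γ, T, hT, hTL, hper, hsym, ε, hε, hγ⟩ := hL
  have f0 : ρ (γ 0) = γ 0 := by
    have := hsym 0
    rw [neg_zero] at this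
    exact this.symm
  obtain ⟨Γ, hq, ε', hε', hΓ⟩ := h X Y G F σ r i ρ U hr S D hY hU hM γ T ε hT hε f0 hγ
  set e : ℝ := min (min T ε') (min (ε / 2) (r / 4)) with he
  have heT : e ≤ T := (min_le_left _ _).trans (min_le_left _ _)
  have heε' : e ≤ ε' := (min_le_left _ _).trans (min_le_right _ _)
  have heε : e ≤ ε / 2 := (min_le_right _ _).trans (min_le_left _ _)
  have her : e ≤ r / 4 := (min_le_right _ _).trans (min_le_right _ _)
  have he0 : 0 < e := lt_min (lt_min hT hε') (lt_min (by linarith) (by linarith))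
  have fT : ρ (γ T) = γ T := by
    have h1 := hsym T
    have h2 := hper (-T)
    have h3 : -T + 2 * T = T := by ring
    rw [h3] at h2
    rw [← h1, h2]
  have z0 : (0 : ℝ) ∈ Icc (0 : ℝ) T := ⟨le_rfl, hT.le⟩
  have zT : T ∈ Icc (0 : ℝ) T := ⟨hT.le, le_rfl⟩
  have F0 : Γ 0 ∈ F := inF S D (hq 0 z0) f0
  have FT : Γ T ∈ F := inF S D (hq T zT) fT
  have g0 : ∀ g : G, g • Γ 0 = Γ 0 := fun g => S.fixF g _ F0
  have c0 : ∀ s ∈ Icc (0 : ℝ) e, ∀ t ∈ Icc (0 : ℝ) e, dist (Γ s) (σ • Γ t) = s + t := by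
    intro s hs t ht
    refine UNT.corner S D Γ γ e (by linarith) F0 (fun u hu => hq u ⟨hu.1, hu.2.trans heT⟩)
      (fun u hu v hv => hΓ u ⟨hu.1, hu.2.trans heT⟩ v ⟨hv.1, hv.2.trans heT⟩ ?_) ?_ hs ht
    · rw [abs_le]
      constructor <;> linarith [hu.1, hu.2, hv.1, hv.2]
    · intro u hu
      rw [← hsym u, hγ]
      · rw [sub_neg_eq_add, abs_of_nonneg (by linarith [hu.1])]
        ring
      · rw [sub_neg_eq_add, abs_of_nonneg (by linarith [hu.1])]
        linarith [hu.2]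
  have cT : ∀ s ∈ Icc (0 : ℝ) e, ∀ t ∈ Icc (0 : ℝ) e, dist (Γ (T - s)) (σ • Γ (T - t)) = s + t := by
    intro s hs t ht
    refine UNT.corner S D (fun u => Γ (T - u)) (fun u => γ (T - u)) e (by linarith)
      (by
        show Γ (T - 0) ∈ F
        rw [sub_zero]
        exact FT)
      (fun u hu => hq (T - u) ⟨by linarith [hu.2], by linarith [hu.1]⟩)
      (fun u hu v hv => ?_) ?_ hs ht
    · show dist (Γ (T - u)) (Γ (T - v)) = |u - v|
      have e1 : T - u - (T - v) = -(u - v) := by ring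
      rw [hΓ (T - u) ⟨by linarith [hu.2], by linarith [hu.1]⟩ (T - v)
        ⟨by linarith [hv.2], by linarith [hv.1]⟩, e1, abs_neg]
      rw [e1, abs_neg, abs_le]
      constructor <;> linarith [hu.1, hu.2, hv.1, hv.2]
    · intro u hu
      show dist (γ (T - u)) (ρ (γ (T - u))) = 2 * u
      have e1 : ρ (γ (T - u)) = γ (T + u) := by
        rw [← hsym, ← hper (-(T - u))]
        congr 1
        ring
      have e2 : T - u - (T + u) = -(2 * u) := by ring
      rw [e1, hγ, e2, abs_neg, abs_of_nonneg (by linarith [hu.1])]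
      rw [e2, abs_neg, abs_of_nonneg (by linarith [hu.1])]
      linarith [hu.2]
  obtain ⟨c, hc1, hc2⟩ := glue (fun u => if 0 ≤ u then Γ u else σ • Γ (-u)) T e hT heT
    (by
      intro u v hu huv hv hle
      show dist (if 0 ≤ u then Γ u else σ • Γ (-u)) (if 0 ≤ v then Γ v else σ • Γ (-v)) = v - u
      by_cases h1 : 0 ≤ u
      · rw [if_pos h1, if_pos (h1.trans huv)]
        have e1 : |u - v| = v - u := by rw [abs_sub_comm, abs_of_nonneg (sub_nonneg.2 huv)]
        rw [hΓ u ⟨h1, huv.trans hv⟩ v ⟨h1.trans huv, hv⟩ (by rw [e1]; linarith), e1]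
      · rw [not_le] at h1
        rw [if_neg (not_le.2 h1)]
        by_cases h2 : 0 ≤ v
        · rw [if_pos h2, dist_comm, c0 v ⟨h2, by linarith⟩ (-u) ⟨by linarith, by linarith⟩]
          ring
        · rw [not_le] at h2
          rw [if_neg (not_le.2 h2), S.iso]
          have e1 : |-u - -v| = v - u := by
            have : -u - -v = v - u := by ring
            rw [this, abs_of_nonneg (sub_nonneg.2 huv)]
          rw [hΓ (-u) ⟨by linarith, by linarith⟩ (-v) ⟨by linarith, by linarith⟩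
            (by rw [e1]; linarith), e1])
    (by
      intro u v hu hv hle
      show dist (if 0 ≤ u then Γ u else σ • Γ (-u)) (if 0 ≤ v then Γ v else σ • Γ (-v)) =
        (T - u) + (v + T)
      have h1 : 0 ≤ u := by linarith
      have h2 : v ≤ 0 := by linarith
      rw [if_pos h1]
      have h3 : (if 0 ≤ v then Γ v else σ • Γ (-v)) = σ • Γ (-v) := by
        split_ifs with h
        · have : v = 0 := le_antisymm h2 h
          rw [this, neg_zero, g0]
        · rfl
      rw [h3]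
      have := cT (T - u) ⟨by linarith, by linarith⟩ (v + T) ⟨by linarith, by linarith⟩
      have e1 : T - (T - u) = u := by ring
      have e2 : T - (v + T) = -v := by ring
      rwa [e1, e2] at this)
  exact ⟨c, 2 * T, by linarith, hTL, hc1, e, he0, hc2⟩

end Pool.Agent.N489.RW
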