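import Pool.Agent.N489.RW.Stm3

/-!
# Project RW, task UNT1: unfolding half of a symmetric geodesic of the double
-/

set_option autoImplicit false

open Set Topology

noncomputable section

namespace Pool.Agent.N489.RW

open Pool.Agent.Y489.GE Pool.Agent.R203.IF

namespace UNT1

/-- a `1`-Lipschitz curve on `[a, b]` whose end points are far apart is minimal -/
theorem iso_of_ends {X : Type} [MetricSpace X] {c : ℝ → X} {a b : ℝ}
    (hL : ∀ s ∈ Icc a b, ∀ t ∈ Icc a b, s ≤ t → dist (c s) (c t) ≤ t - s)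
    (hE : b - a ≤ dist (c a) (c b)) :
    ∀ s ∈ Icc a b, ∀ t ∈ Icc a b, dist (c s) (c t) = |s - t| := by
  have key : ∀ s ∈ Icc a b, ∀ t ∈ Icc a b, s ≤ t → dist (c s) (c t) = t - s := by
    intro s hs t ht hst
    have hab : a ≤ b := hs.1.trans hs.2
    have h1 := hL a ⟨le_rfl, hab⟩ s hs hs.1
    have h2 := hL t ht b ⟨hab, le_rfl⟩ ht.2
    have h3 := hL s hs t ht hst
    have h4 := dist_triangle4 (c a) (c s) (c t) (c b)
    linarith
  intro s hs t ht
  rcases le_total s t with h | h
  · rw [key s hs t ht h, abs_sub_comm, abs_of_nonneg (by linarith)]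
  · rw [dist_comm, key t ht s hs h, abs_of_nonneg (by linarith)]

variable {X Y G : Type} [MetricSpace X] [MetricSpace Y] [Group G] [MulAction G X]
  {F : Set X} {σ : G} {r : ℝ} {i : X → Y} {ρ : Y → Y} {U : Set Y} {γ : ℝ → Y} {ε : ℝ} {φ : ℝ → X}

/-- on both sides, the folding map is given by the two formulas -/
theorem fo_of_mem (_hM : Mirror Y ρ U) {y : Y} (h : y ∈ U) : fo ρ U y = y := by
  unfold fo; rw [if_pos h]

theorem fo_of_rho (hM : Mirror Y ρ U) {y : Y} (h : ρ y ∈ U) : fo ρ U y = ρ y := by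
  unfold fo
  split_ifs with h1
  · exact (hM.inter y h1 h).symm
  · rfl

/-- the window -/
theorem window (hTS : TS X G F σ r) (hD : Dbl X Y F i ρ U) (hMF : MF Y ρ U r)
    (hγ : ∀ u v, |u - v| ≤ ε → dist (γ u) (γ v) = |u - v|)
    (hφ : ∀ u, i (φ u) = fo ρ U (γ u)) {a b : ℝ} (hab : a < b) (hbε : b - a ≤ ε)
    (hbr : b - a < r) :
    ∃ (g : G) (u : ℝ), a < u ∧ u < b ∧ ∀ s ∈ Icc a b, ∀ t ∈ Icc a b,
      dist (if s ≤ u then φ s else g • φ s) (if t ≤ u then φ t else g • φ t) = |s - t| := by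
  have hM := hD.mir
  have hεpos : 0 < ε := by linarith
  -- `φ` is `1`-Lipschitz
  have hLip : ∀ s t : ℝ, s ≤ t → t - s ≤ ε → dist (φ s) (φ t) ≤ t - s := by
    intro s t hst h
    have h1 : dist (φ s) (φ t) = dist (i (φ s)) (i (φ t)) := (hD.iso.dist_eq _ _).symm
    have h2 : |s - t| = t - s := by rw [abs_sub_comm, abs_of_nonneg (by linarith)]
    rw [h1, hφ, hφ]
    refine (hMF.foL _ _).trans ?_
    rw [hγ s t (by rw [h2]; exact h), h2]
  have habd : dist (γ a) (γ b) = b - a := by
    rw [hγ a b (by rw [abs_sub_comm, abs_of_nonneg (by linarith)]; exact hbε), abs_sub_comm,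
      abs_of_nonneg (by linarith)]
  by_cases hS : (γ a ∈ U ∧ γ b ∈ U) ∨ (ρ (γ a) ∈ U ∧ ρ (γ b) ∈ U)
  · -- same side
    refine ⟨1, (a + b) / 2, by linarith, by linarith, ?_⟩
    have e : ∀ s : ℝ, (if s ≤ (a + b) / 2 then φ s else (1 : G) • φ s) = φ s := by
      intro s
      rw [one_smul, ite_self]
    simp only [e]
    refine iso_of_ends (fun s hs t ht hst => hLip s t hst (by linarith [hs.1, ht.2])) ?_
    rw [← hD.iso.dist_eq, hφ, hφ]
    rcases hS with ⟨h1, h2⟩ | ⟨h1, h2⟩
    · rw [fo_of_mem hM h1, fo_of_mem hM h2, habd]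
    · rw [fo_of_rho hM h1, fo_of_rho hM h2, hM.iso.dist_eq, habd]
  · -- different sides
    push Not at hS
    have hc : ContinuousOn γ (Icc a b) := by
      rw [Metric.continuousOn_iff]
      intro s _ η hη
      refine ⟨min η ε, lt_min hη hεpos, fun t _ hts => ?_⟩
      rw [Real.dist_eq] at hts
      rw [hγ t s (hts.le.trans (min_le_right _ _))]
      exact hts.trans_le (min_le_left _ _)
    have hρc : ContinuousOn (fun u => ρ (γ u)) (Icc a b) :=
      hM.iso.continuous.comp_continuousOn hc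
    -- the crossing time
    have hcross : ∃ u ∈ Icc a b, γ u ∈ U ∧ ρ (γ u) ∈ U := by
      have hpc : IsPreconnected (Icc a b) := isPreconnected_Icc
      rw [isPreconnected_closed_iff] at hpc
      obtain ⟨A, hA, hA'⟩ := (continuousOn_iff_isClosed.mp hc) U hM.closed
      obtain ⟨B, hB, hB'⟩ := (continuousOn_iff_isClosed.mp hρc) U hM.closed
      have memA : ∀ u ∈ Icc a b, (u ∈ A ↔ γ u ∈ U) := by
        intro u hu
        have := Set.ext_iff.mp hA' u
        simp only [mem_inter_iff, mem_preimage, hu, and_true] at this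
        exact this.symm
      have memB : ∀ u ∈ Icc a b, (u ∈ B ↔ ρ (γ u) ∈ U) := by
        intro u hu
        have := Set.ext_iff.mp hB' u
        simp only [mem_inter_iff, mem_preimage, hu, and_true] at this
        exact this.symm
      have ha : a ∈ Icc a b := ⟨le_rfl, hab.le⟩
      have hb : b ∈ Icc a b := ⟨hab.le, le_rfl⟩
      have hcov : Icc a b ⊆ A ∪ B := by
        intro u hu
        rcases hM.cover (γ u) with h | h
        · exact Or.inl ((memA u hu).mpr h)
        · exact Or.inr ((memB u hu).mpr h)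
      have hne : (Icc a b ∩ A).Nonempty ∧ (Icc a b ∩ B).Nonempty := by
        by_cases h1 : γ a ∈ U
        · have h2 : γ b ∉ U := hS.1 h1
          have h3 : ρ (γ b) ∈ U := (hM.cover (γ b)).resolve_left h2
          exact ⟨⟨a, ha, (memA a ha).mpr h1⟩, ⟨b, hb, (memB b hb).mpr h3⟩⟩
        · have h2 : ρ (γ a) ∈ U := (hM.cover (γ a)).resolve_left h1
          have h3 : ρ (γ b) ∉ U := hS.2 h2
          have h4 : γ b ∈ U := (hM.cover (γ b)).resolve_right h3
          exact ⟨⟨b, hb, (memA b hb).mpr h4⟩, ⟨a, ha, (memB a ha).mpr h2⟩⟩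
      obtain ⟨u, hu, huA, huB⟩ := hpc A B hA hB hcov hne.1 hne.2
      exact ⟨u, hu, (memA u hu).mp huA, (memB u hu).mp huB⟩
    obtain ⟨u, hu, hu1, hu2⟩ := hcross
    have hua : a < u := by
      refine lt_of_le_of_ne hu.1 fun h => ?_
      rw [← h] at hu1 hu2
      rcases hM.cover (γ b) with h3 | h3
      · exact hS.1 hu1 h3
      · exact hS.2 hu2 h3
    have hub : u < b := by
      refine lt_of_le_of_ne hu.2 fun h => ?_
      rw [h] at hu1 hu2
      rcases hM.cover (γ a) with h3 | h3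
      · exact hS.1 h3 hu1
      · exact hS.2 h3 hu2
    have hρu : ρ (γ u) = γ u := hM.inter _ hu1 hu2
    have hiu : i (φ u) = γ u := by rw [hφ, fo_of_mem hM hu1]
    have hF : φ u ∈ F := by
      rw [← hD.fix, hiu, hρu]
    have hau := hLip a u hua.le (by linarith)
    have hub' := hLip u b hub.le (by linarith)
    obtain ⟨g, z, hz, hg⟩ := hTS.cross (φ a) (φ b) ⟨φ u, hF, by linarith⟩
    have hle := hD.le (φ a) (φ b) z hz
    have hfar : b - a ≤ dist (φ a) (g • φ b) := by
      rw [hg]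
      refine le_trans (le_of_eq ?_) hle
      rw [hφ, hφ]
      by_cases h1 : γ a ∈ U
      · have h2 : γ b ∉ U := hS.1 h1
        have h3 : ρ (γ b) ∈ U := (hM.cover (γ b)).resolve_left h2
        rw [fo_of_mem hM h1, fo_of_rho hM h3, hM.inv, habd]
      · have h2 : ρ (γ a) ∈ U := (hM.cover (γ a)).resolve_left h1
        have h3 : ρ (γ b) ∉ U := hS.2 h2
        have h4 : γ b ∈ U := (hM.cover (γ b)).resolve_right h3
        rw [fo_of_rho hM h2, fo_of_mem hM h4, hM.iso.dist_eq, habd]
    refine ⟨g, u, hua, hub, ?_⟩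
    refine iso_of_ends (c := fun s => if s ≤ u then φ s else g • φ s) ?_ ?_
    · intro s hs t ht hst
      by_cases h1 : t ≤ u
      · rw [if_pos h1, if_pos (hst.trans h1)]
        exact hLip s t hst (by linarith [hs.1, ht.2])
      · rw [if_neg h1]
        push Not at h1
        by_cases h2 : s ≤ u
        · rw [if_pos h2]
          have h3 := hLip s u h2 (by linarith [hs.1, ht.2])
          have h4 := hLip u t h1.le (by linarith [hs.1, ht.2])
          have h5 : dist (φ u) (g • φ t) = dist (φ u) (φ t) := by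
            conv_lhs => rw [← hTS.fixF g _ hF]
            exact hTS.iso g _ _
          have h6 := dist_triangle (φ s) (φ u) (g • φ t)
          linarith
        · rw [if_neg h2, hTS.iso]
          exact hLip s t hst (by linarith [hs.1, ht.2])
    · rw [if_pos hua.le, if_neg (not_le.mpr hub)]
      exact hfar

/-- the induction hypothesis -/
def Q (G : Type) [Group G] [MulAction G X] (φ : ℝ → X) (s : ℝ) : Prop :=
  ∃ (Γ : ℝ → X) (ε' δ : ℝ) (g : G), 0 < ε' ∧ 0 < δ ∧ δ ≤ s ∧
    (∀ u ∈ Icc (0 : ℝ) s, ∃ g' : G, Γ u = g' • φ u) ∧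
    (∀ u ∈ Icc (0 : ℝ) s, ∀ v ∈ Icc (0 : ℝ) s, |u - v| ≤ ε' → dist (Γ u) (Γ v) = |u - v|) ∧
    ∀ u ∈ Icc (s - δ) s, Γ u = g • φ u

theorem Q_start (hTS : TS X G F σ r) (hD : Dbl X Y F i ρ U) (hMF : MF Y ρ U r)
    (hγ : ∀ u v, |u - v| ≤ ε → dist (γ u) (γ v) = |u - v|)
    (hφ : ∀ u, i (φ u) = fo ρ U (γ u)) {h : ℝ} (h0 : 0 < h) (hε : h ≤ ε) (hr : h < r) :
    Q G φ h := by
  obtain ⟨g, u, hu0, huh, hc⟩ := window hTS hD hMF hγ hφ (a := 0) (b := h) h0 (by linarith)
    (by linarith)
  refine ⟨fun s => if s ≤ u then φ s else g • φ s, 1, (h - u) / 2, g, one_pos, by linarith,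
    by linarith, ?_, fun s hs t ht _ => hc s hs t ht, ?_⟩
  · intro s _
    dsimp only
    by_cases h1 : s ≤ u
    · exact ⟨1, by rw [if_pos h1, one_smul]⟩
    · exact ⟨g, by rw [if_neg h1]⟩
  · intro s hs
    dsimp only
    rw [if_neg (by linarith [hs.1])]

theorem Q_step (hTS : TS X G F σ r) (hD : Dbl X Y F i ρ U) (hMF : MF Y ρ U r)
    (hγ : ∀ u v, |u - v| ≤ ε → dist (γ u) (γ v) = |u - v|)
    (hφ : ∀ u, i (φ u) = fo ρ U (γ u)) {h : ℝ} (h0 : 0 < h) (hε : 2 * h ≤ ε) (hr : 2 * h < r)
    {s : ℝ} (hs : Q G φ s) : Q G φ (s + h) := by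
  obtain ⟨Γ, ε', δ, g, hε', hδ, hδs, horb, hiso, hend⟩ := hs
  have hτ : 0 < min δ h := lt_min hδ h0
  have hτδ : min δ h ≤ δ := min_le_left _ _
  have hτh : min δ h ≤ h := min_le_right _ _
  set τ := min δ h with hτdef
  obtain ⟨g', w, haw, hwb, hc⟩ := window hTS hD hMF hγ hφ (a := s - τ) (b := s + h)
    (by linarith) (by linarith) (by linarith)
  refine ⟨fun u => if u ≤ s - τ then Γ u else g • (if u ≤ w then φ u else g' • φ u),
    min ε' (min (w - (s - τ)) τ), (s + h - w) / 2, g * g', ?_, by linarith, by linarith, ?_, ?_,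
    ?_⟩
  · exact lt_min hε' (lt_min (by linarith) hτ)
  · intro u hu
    dsimp only
    by_cases h1 : u ≤ s - τ
    · rw [if_pos h1]
      exact horb u ⟨hu.1, by linarith⟩
    · rw [if_neg h1]
      by_cases h2 : u ≤ w
      · exact ⟨g, by rw [if_pos h2]⟩
      · exact ⟨g * g', by rw [if_neg h2, mul_smul]⟩
  · -- the new curve, on the two parts
    have hnew : ∀ u, s - τ ≤ u → u ≤ s + h →
        (if u ≤ s - τ then Γ u else g • (if u ≤ w then φ u else g' • φ u)) =
          g • (if u ≤ w then φ u else g' • φ u) := by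
      intro u h1 _
      by_cases h2 : u ≤ s - τ
      · have h3 : u = s - τ := le_antisymm h2 h1
        rw [if_pos h2, if_pos (by linarith)]
        exact hend u ⟨by linarith, by linarith⟩
      · rw [if_neg h2]
    have hold : ∀ u, u ≤ w → u ≤ s →
        (if u ≤ s - τ then Γ u else g • (if u ≤ w then φ u else g' • φ u)) = Γ u := by
      intro u h1 h2
      by_cases h3 : u ≤ s - τ
      · rw [if_pos h3]
      · rw [if_neg h3, if_pos h1]
        push Not at h3
        exact (hend u ⟨by linarith, h2⟩).symm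
    have key : ∀ u ∈ Icc (0 : ℝ) (s + h), ∀ v ∈ Icc (0 : ℝ) (s + h), u ≤ v →
        v - u ≤ min ε' (min (w - (s - τ)) τ) →
        dist (if u ≤ s - τ then Γ u else g • (if u ≤ w then φ u else g' • φ u))
          (if v ≤ s - τ then Γ v else g • (if v ≤ w then φ v else g' • φ v)) = |u - v| := by
      intro u hu v hv huv hd
      have d1 : v - u ≤ ε' := hd.trans (min_le_left _ _)
      have d2 : v - u ≤ w - (s - τ) := hd.trans ((min_le_right _ _).trans (min_le_left _ _))
      have d3 : v - u ≤ τ := hd.trans ((min_le_right _ _).trans (min_le_right _ _))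
      by_cases h1 : v ≤ w ∧ v ≤ s
      · rw [hold u (huv.trans h1.1) (huv.trans h1.2), hold v h1.1 h1.2]
        refine hiso u ⟨hu.1, huv.trans h1.2⟩ v ⟨hv.1, h1.2⟩ ?_
        rw [abs_sub_comm, abs_of_nonneg (by linarith)]
        exact d1
      · have h2 : s - τ ≤ u := by
          rw [not_and_or] at h1
          rcases h1 with h1 | h1
          · push Not at h1; linarith
          · push Not at h1; linarith
        rw [hnew u h2 hu.2, hnew v (h2.trans huv) hv.2, hTS.iso]
        exact hc u ⟨h2, hu.2⟩ v ⟨h2.trans huv, hv.2⟩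
    intro u hu v hv hd
    dsimp only
    rcases le_total u v with huv | huv
    · refine key u hu v hv huv ?_
      rwa [abs_sub_comm, abs_of_nonneg (by linarith)] at hd
    · rw [dist_comm, abs_sub_comm]
      refine key v hv u hu huv ?_
      rwa [abs_of_nonneg (by linarith)] at hd
  · intro u hu
    dsimp only
    rw [if_neg (by linarith [hu.1]), if_neg (by linarith [hu.1]), mul_smul]

end UNT1

open UNT1 in
theorem t_UNT1 : S_UNT1 := by
  intro X Y G _ _ _ _ F σ r i ρ U hr hTS hD _ _ hMF γ T ε hT hε _ hγ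
  have hex : ∀ u, ∃ x, i x = fo ρ U (γ u) := fun u => (hD.rng _).mp (hMF.foU _)
  choose φ hφ using hex
  -- the step
  obtain ⟨K, hK⟩ := exists_nat_gt (2 * T / min ε r)
  have he : 0 < min ε r := lt_min hε hr
  have hK0 : (0 : ℝ) < K := lt_of_le_of_lt (by positivity) hK
  have hKn : K ≠ 0 := by
    intro h; rw [h] at hK0; simp at hK0
  have hh0 : 0 < T / K := by positivity
  have hh : 2 * (T / K) < min ε r := by
    rw [div_lt_iff₀ he] at hK
    rw [← mul_div_assoc, div_lt_iff₀ hK0]
    linarith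
  have hhε : 2 * (T / K) ≤ ε := hh.le.trans (min_le_left _ _)
  have hhr : 2 * (T / K) < r := hh.trans_le (min_le_right _ _)
  have hQ : ∀ j : ℕ, Q G φ (T / K + j * (T / K)) := by
    intro j
    induction j with
    | zero =>
      have := Q_start (φ := φ) hTS hD hMF hγ hφ hh0 (by linarith) (by linarith)
      simpa using this
    | succ j ih =>
      have := Q_step hTS hD hMF hγ hφ hh0 hhε hhr ih
      have e : T / K + ((j + 1 : ℕ) : ℝ) * (T / K) = T / K + j * (T / K) + T / K := by
        push_cast; ring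
      rw [e]
      exact this
  have hQT : Q G φ T := by
    have := hQ (K - 1)
    have e : T / K + ((K - 1 : ℕ) : ℝ) * (T / K) = T := by
      rw [Nat.cast_pred (Nat.pos_of_ne_zero hKn)]
      field_simp
      ring
    rwa [e] at this
  obtain ⟨Γ, ε', δ, g, hε', _, _, horb, hiso, _⟩ := hQT
  refine ⟨Γ, fun u hu => ?_, ε', hε', hiso⟩
  obtain ⟨g', hg'⟩ := horb u hu
  exact ⟨g', φ u, hφ u, hg'⟩

end Pool.Agent.N489.RW
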