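import Pool.Agent.N489.RW.FinB

/-!
# Project RW: small corollaries
-/

set_option autoImplicit false

open Set Topology Filter

noncomputable section

namespace Pool.Agent.N489.RW

open Pool.Agent.Y489.GE Pool.Agent.R203.IF

theorem ret_of_defo {X : Type} [MetricSpace X] {ρ : X → X} {U : Set X} (hM : Mirror X ρ U)
    (h : Defo {x | ρ x = x} (fun x : ↥U => x.1)) : Ret ρ U := by
  classical
  obtain ⟨g, H, h1, h2, h3, h4⟩ := h
  have hFU : ∀ x, ρ x = x → x ∈ U := by
    intro x hx
    rcases hM.cover x with h | h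
    · exact h
    · rwa [hx] at h
  refine ⟨fun x => if hx : x ∈ U then g ⟨x, hx⟩ else x,
    fun x s => if hx : x ∈ U then H ⟨x, hx⟩ s else x, ?_, ?_, ?_, ?_⟩
  · rw [continuousOn_iff_continuous_domRestrict]
    have : U.domRestrict (fun x => if hx : x ∈ U then g ⟨x, hx⟩ else x) = g := by
      funext x
      simp [Set.domRestrict]
    rw [this]
    exact h1
  · intro x hx
    simp only [dif_pos hx]
    exact h2 _
  · have hcont : ContinuousOn (fun z : X × ℝ => if hx : z.1 ∈ U then H ⟨z.1, hx⟩ z.2 else z.1)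
        ({x | ρ x = x} ×ˢ Icc (0 : ℝ) 1) := by
      rw [continuousOn_iff_continuous_domRestrict] at h3 ⊢
      let φ : ↥({x : X | ρ x = x} ×ˢ Icc (0 : ℝ) 1) →
          ↥(({k : ↥U | (fun x : ↥U => x.1) k ∈ {x | ρ x = x}}) ×ˢ Icc (0 : ℝ) 1) := fun z =>
        ⟨(⟨z.1.1, hFU _ z.2.1⟩, z.1.2), z.2⟩
      have hφ : Continuous φ := by
        refine Continuous.subtype_mk (Continuous.prodMk (Continuous.subtype_mk ?_ _) ?_) _
        · exact continuous_fst.comp continuous_subtype_val
        · exact continuous_snd.comp continuous_subtype_val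
      refine (h3.comp hφ).congr ?_
      intro z
      have hz : z.1.1 ∈ U := hFU _ z.2.1
      simp only [Set.domRestrict, Function.comp, φ, dif_pos hz]
    exact hcont
  · intro x hx
    have hxU := hFU x hx
    simp only [dif_pos hxU]
    exact h4 ⟨x, hxU⟩ hx

/-- a fixed point of the reflection of the sphere -/
theorem sph_fix {X : Type} [MetricSpace X] {k : ℕ} {ρ : X → X}
    {e : X ≃ₜ ↥(Metric.sphere (0 : Eu (k + 1)) 1)} (hS : Sph X k ρ e) : ∃ p : X, ρ p = p := by
  set v : Eu (k + 1) := EuclideanSpace.single 0 1 with hv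
  have hvs : v ∈ Metric.sphere (0 : Eu (k + 1)) 1 := by
    rw [mem_sphere_zero_iff_norm, hv]
    simp
  refine ⟨e.symm ⟨v, hvs⟩, ?_⟩
  apply e.injective
  apply Subtype.ext
  have hev : (e (e.symm ⟨v, hvs⟩)).1 = v := by rw [Homeomorph.apply_symm_apply]
  ext i
  induction i using Fin.lastCases with
  | last =>
    rw [hS.last, hev]
    have : v (Fin.last (k + 1)) = 0 := by
      rw [hv]
      simp [Fin.last]
    rw [this, neg_zero]
  | cast i => rw [hS.init]

end Pool.Agent.N489.RW
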