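import Pool.Agent.N489.RW.Stm3

/-!
# Project RW (helper489): the double of `X` along `F`

Author: helper645.
-/

set_option autoImplicit false

open Set Topology

noncomputable section

namespace Pool.Agent.N489.RW

open Pool.Agent.Y489.GE Pool.Agent.R203.IF

namespace DBL

/-! ### concatenation of minimal geodesics -/

/-- minimal geodesic from `x` to `y` -/
def Gd {X : Type} [MetricSpace X] (x y : X) (c : ℝ → X) : Prop :=
  c 0 = x ∧ c 1 = y ∧
    ∀ s ∈ Icc (0 : ℝ) 1, ∀ t ∈ Icc (0 : ℝ) 1, dist (c s) (c t) = |s - t| * dist x y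

/-- reparametrisation by arc length -/
theorem arc {X : Type} [MetricSpace X] {x y : X} {c : ℝ → X} (h : Gd x y c) :
    ∃ u : ℝ → X, u 0 = x ∧ u (dist x y) = y ∧
      ∀ s ∈ Icc (0 : ℝ) (dist x y), ∀ t ∈ Icc (0 : ℝ) (dist x y), dist (u s) (u t) = |s - t| := by
  obtain ⟨h0, h1, h2⟩ := h
  rcases eq_or_lt_of_le (dist_nonneg (x := x) (y := y)) with hd | hd
  · refine ⟨fun _ => x, rfl, ?_, ?_⟩
    · exact dist_eq_zero.1 hd.symm
    · intro s hs t ht
      rw [← hd] at hs ht
      have e1 : s = 0 := le_antisymm hs.2 hs.1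
      have e2 : t = 0 := le_antisymm ht.2 ht.1
      rw [e1, e2, dist_self, sub_self, abs_zero]
  · refine ⟨fun s => c (s / dist x y), ?_, ?_, ?_⟩
    · show c (0 / dist x y) = x
      rw [zero_div, h0]
    · show c (dist x y / dist x y) = y
      rw [div_self hd.ne', h1]
    · intro s hs t ht
      have k1 : ∀ s ∈ Icc (0 : ℝ) (dist x y), s / dist x y ∈ Icc (0 : ℝ) 1 := fun s hs =>
        ⟨div_nonneg hs.1 hd.le, (div_le_one hd).2 hs.2⟩
      rw [h2 _ (k1 s hs) _ (k1 t ht), ← sub_div, abs_div, abs_of_pos hd, div_mul_cancel₀ _ hd.ne']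

/-- a curve from `x` to `y` of length `dist x y` is minimal -/
theorem of_arc {X : Type} [MetricSpace X] {x y : X} {u : ℝ → X} (h0 : u 0 = x)
    (h1 : u (dist x y) = y)
    (h2 : ∀ s ∈ Icc (0 : ℝ) (dist x y), ∀ t ∈ Icc (0 : ℝ) (dist x y), s ≤ t →
      dist (u s) (u t) ≤ t - s) : ∃ c : ℝ → X, Gd x y c := by
  have hd := dist_nonneg (x := x) (y := y)
  have key : ∀ s ∈ Icc (0 : ℝ) (dist x y), ∀ t ∈ Icc (0 : ℝ) (dist x y), s ≤ t →
      dist (u s) (u t) = t - s := by
    intro s hs t ht hst
    refine le_antisymm (h2 s hs t ht hst) ?_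
    have k1 := h2 0 ⟨le_rfl, hd⟩ s hs hs.1
    have k2 := h2 t ht _ ⟨hd, le_rfl⟩ ht.2
    rw [h0] at k1
    rw [h1] at k2
    have k3 := dist_triangle4 x (u s) (u t) y
    linarith
  refine ⟨fun s => u (s * dist x y), ?_, ?_, ?_⟩
  · show u (0 * dist x y) = x
    rw [zero_mul, h0]
  · show u (1 * dist x y) = y
    rw [one_mul, h1]
  · have k1 : ∀ s ∈ Icc (0 : ℝ) 1, s * dist x y ∈ Icc (0 : ℝ) (dist x y) := fun s hs =>
      ⟨mul_nonneg hs.1 hd, mul_le_of_le_one_left hd hs.2⟩
    intro s hs t ht
    show dist (u (s * dist x y)) (u (t * dist x y)) = _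
    rcases le_total s t with hst | hst
    · rw [key _ (k1 s hs) _ (k1 t ht) (mul_le_mul_of_nonneg_right hst hd),
        abs_of_nonpos (by linarith)]
      ring
    · rw [dist_comm, key _ (k1 t ht) _ (k1 s hs) (mul_le_mul_of_nonneg_right hst hd),
        abs_of_nonneg (by linarith)]
      ring

theorem concat {X : Type} [MetricSpace X] {x y z : X} {c c' : ℝ → X} (h : Gd x z c)
    (h' : Gd z y c') (hz : dist x z + dist z y = dist x y) : ∃ c : ℝ → X, Gd x y c := by
  obtain ⟨u, u0, u1, u2⟩ := arc h
  obtain ⟨v, v0, v1, v2⟩ := arc h'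
  have d1 := dist_nonneg (x := x) (y := z)
  have d2 := dist_nonneg (x := z) (y := y)
  classical
  set w : ℝ → X := fun s => if s ≤ dist x z then u s else v (s - dist x z) with hw
  have w1 : ∀ s, s ≤ dist x z → w s = u s := fun s hs => if_pos hs
  have w2 : ∀ s, dist x z ≤ s → w s = v (s - dist x z) := by
    intro s hs
    rcases eq_or_lt_of_le hs with he | he
    · rw [w1 s he.ge, ← he, u1, sub_self, v0]
    · exact if_neg (not_le.2 he)
  refine of_arc (u := w) ?_ ?_ ?_
  · rw [w1 0 d1, u0]
  · rw [w2 _ (by linarith), ← hz, add_sub_cancel_left, v1]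
  · intro s hs t ht hst
    rw [← hz] at hs ht
    rcases le_total t (dist x z) with ht1 | ht1
    · rw [w1 s (hst.trans ht1), w1 t ht1, u2 s ⟨hs.1, hst.trans ht1⟩ t ⟨ht.1, ht1⟩,
        abs_of_nonpos (by linarith)]
      linarith
    · rcases le_total s (dist x z) with hs1 | hs1
      · rw [w1 s hs1, w2 t ht1]
        have k1 := u2 s ⟨hs.1, hs1⟩ _ ⟨d1, le_rfl⟩
        rw [u1, abs_of_nonpos (by linarith)] at k1
        have k2 := v2 0 ⟨le_rfl, d2⟩ (t - dist x z) ⟨by linarith, by linarith [ht.2]⟩
        rw [v0, abs_of_nonpos (by linarith)] at k2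
        have k3 := dist_triangle (u s) z (v (t - dist x z))
        linarith
      · rw [w2 s hs1, w2 t ht1, v2 _ ⟨by linarith, by linarith [hs.2]⟩ _
          ⟨by linarith, by linarith [ht.2]⟩, abs_of_nonpos (by linarith)]
        linarith

/-! ### the double -/

section

variable {X : Type} [MetricSpace X] {F : Set X}

/-- `D x y` is the length of the shortest path from `x` to `y` through `F` -/
structure HD (F : Set X) (D : X → X → ℝ) : Prop where
  le : ∀ x y, ∀ z ∈ F, D x y ≤ dist x z + dist z y
  eq : ∀ x y, ∃ z ∈ F, D x y = dist x z + dist z y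

theorem hd_exists [CompactSpace X] (hF : IsClosed F) (hn : F.Nonempty) :
    ∃ D : X → X → ℝ, HD F D := by
  have h : ∀ x y : X, ∃ z ∈ F, ∀ z' ∈ F, dist x z + dist z y ≤ dist x z' + dist z' y := by
    intro x y
    obtain ⟨z, hz, hz'⟩ := hF.isCompact.exists_isMinOn hn
      (f := fun z => dist x z + dist z y) (by fun_prop)
    exact ⟨z, hz, fun z' h' => hz' h'⟩
  choose f hf1 hf2 using h
  exact ⟨fun x y => dist x (f x y) + dist (f x y) y, fun x y z hz => hf2 x y z hz,
    fun x y => ⟨f x y, hf1 x y, rfl⟩⟩

variable {D : X → X → ℝ}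

theorem HD.comm (h : HD F D) (x y : X) : D x y = D y x := by
  apply le_antisymm
  · obtain ⟨z, hz, e⟩ := h.eq y x
    have := h.le x y z hz
    rw [dist_comm x z, dist_comm z y] at this
    linarith
  · obtain ⟨z, hz, e⟩ := h.eq x y
    have := h.le y x z hz
    rw [dist_comm y z, dist_comm z x] at this
    linarith

theorem HD.ge (h : HD F D) (x y : X) : dist x y ≤ D x y := by
  obtain ⟨z, hz, e⟩ := h.eq x y
  rw [e]
  exact dist_triangle _ _ _

theorem HD.tri (h : HD F D) (x y z : X) : D x z ≤ dist x y + D y z := by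
  obtain ⟨w, hw, e⟩ := h.eq y z
  have := h.le x z w hw
  have := dist_triangle x y w
  linarith

theorem HD.tri' (h : HD F D) (x y z : X) : D x z ≤ D x y + dist y z := by
  have := h.tri z y x
  rw [h.comm z x, h.comm y x, dist_comm z y] at this
  linarith

theorem HD.mem (h : HD F D) {x : X} (hx : x ∈ F) (y : X) : D x y = dist x y := by
  refine le_antisymm ?_ (h.ge x y)
  have := h.le x y x hx
  rwa [dist_self, zero_add] at this

theorem HD.zero (h : HD F D) {x y : X} (hD : D x y = 0) : x = y ∧ x ∈ F := by
  obtain ⟨z, hz, e⟩ := h.eq x y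
  have h1 := dist_nonneg (x := x) (y := z)
  have h2 := dist_nonneg (x := z) (y := y)
  have h3 : x = z := dist_eq_zero.1 (by linarith)
  have h4 : z = y := dist_eq_zero.1 (by linarith)
  exact ⟨h3.trans h4, h3 ▸ hz⟩

/-- the double as a set -/
structure Y (F : Set X) : Type where
  /-- the point of `X` -/
  pt : X
  /-- the copy -/
  sd : Bool
  mem : pt ∈ F → sd = true

omit [MetricSpace X] in
theorem Y_ext {p q : Y F} (h1 : p.pt = q.pt) (h2 : p.sd = q.sd) : p = q := by
  cases p
  cases q
  simp only at h1 h2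
  subst h1
  subst h2
  rfl

/-- the distance of the double -/
def dd (D : X → X → ℝ) (p q : Y F) : ℝ := if p.sd = q.sd then dist p.pt q.pt else D p.pt q.pt

theorem dd_self (D : X → X → ℝ) (p : Y F) : dd D p p = 0 := by
  unfold dd
  rw [if_pos rfl, dist_self]

/-- the metric of the double -/
abbrev mt (h : HD F D) : MetricSpace (Y F) where
  dist p q := dd D p q
  dist_self p := dd_self D p
  dist_comm p q := by
    show dd D p q = dd D q p
    unfold dd
    by_cases hpq : p.sd = q.sd
    · rw [if_pos hpq, if_pos hpq.symm, dist_comm]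
    · rw [if_neg hpq, if_neg (fun e => hpq e.symm), h.comm]
  dist_triangle p q r := by
    show dd D p r ≤ dd D p q + dd D q r
    unfold dd
    obtain ⟨x, a, _⟩ := p
    obtain ⟨y, b, _⟩ := q
    obtain ⟨z, c, _⟩ := r
    simp only
    have t1 := dist_triangle x y z
    have t2 := h.tri x y z
    have t3 := h.tri' x y z
    have t4 := h.ge x y
    have t5 := h.ge y z
    cases a <;> cases b <;> cases c <;> simp <;> linarith
  eq_of_dist_eq_zero := by
    intro p q hpq
    change dd D p q = 0 at hpq
    unfold dd at hpq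
    by_cases e : p.sd = q.sd
    · rw [if_pos e] at hpq
      exact Y_ext (dist_eq_zero.1 hpq) e
    · rw [if_neg e] at hpq
      obtain ⟨h1, h2⟩ := h.zero hpq
      exact absurd ((p.mem h2).trans (q.mem (h1 ▸ h2)).symm) e

open Classical in
/-- the two copies of `X` -/
def j (F : Set X) (x : X) (b : Bool) : Y F :=
  ⟨x, if x ∈ F then true else b, fun h => if_pos h⟩

omit [MetricSpace X] in
theorem j_pt (x : X) (b : Bool) : (j F x b).pt = x := rfl

omit [MetricSpace X] in
theorem j_sd {x : X} (h : x ∉ F) (b : Bool) : (j F x b).sd = b := if_neg h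

omit [MetricSpace X] in
theorem j_surj (y : Y F) : ∃ x b, y = j F x b := by
  refine ⟨y.pt, y.sd, Y_ext rfl ?_⟩
  by_cases h : y.pt ∈ F
  · rw [y.mem h]
    exact (if_pos h).symm
  · exact (j_sd h _).symm

omit [MetricSpace X] in
theorem j_mem {x : X} (h : x ∈ F) (b : Bool) : j F x b = j F x true :=
  Y_ext rfl ((if_pos h).trans (if_pos h).symm)

/-- the reflection -/
def rh (F : Set X) (y : Y F) : Y F := j F y.pt (!y.sd)

theorem rh_j (x : X) (b : Bool) : rh F (j F x b) = j F x (!b) := by
  unfold rh
  rw [j_pt]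
  by_cases h : x ∈ F
  · rw [j_mem h, j_mem h (!b)]
  · rw [j_sd h]

theorem dist_j (h : HD F D) (x y : X) (b : Bool) :
    dd D (j F x b) (j F y b) = dist x y := by
  unfold dd
  rw [j_pt, j_pt]
  split_ifs with e
  · rfl
  · by_cases hx : x ∈ F
    · exact h.mem hx y
    · by_cases hy : y ∈ F
      · rw [h.comm, h.mem hy, dist_comm]
      · rw [j_sd hx, j_sd hy] at e
        exact absurd rfl e

theorem dist_j' (h : HD F D) (x y : X) (b : Bool) :
    dd D (j F x b) (j F y (!b)) = D x y := by
  unfold dd
  rw [j_pt, j_pt]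
  split_ifs with e
  · by_cases hx : x ∈ F
    · exact (h.mem hx y).symm
    · by_cases hy : y ∈ F
      · rw [h.comm, h.mem hy, dist_comm]
      · rw [j_sd hx, j_sd hy] at e
        cases b <;> simp at e
  · rfl

theorem j_inj' (h : HD F D) {x y : X} {b : Bool} (e : j F x b = j F y (!b)) : x = y ∧ x ∈ F := by
  have h1 := dist_j' h x y b
  rw [e, dd_self] at h1
  exact h.zero h1.symm

end

section ts

variable {X G : Type} [MetricSpace X] [Group G] [MulAction G X] {F : Set X} {σ : G} {r : ℝ}
  {D : X → X → ℝ}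

/-- minimal paths which start and end in the same copy stay in it -/
theorem same (h : HD F D) (ht : TS X G F σ r) {x y z : X} (hr : dist x y < r)
    (hz : D x z + D z y = dist x y) : z ∈ F := by
  obtain ⟨z1, h1, e1⟩ := h.eq x z
  obtain ⟨z2, h2, e2⟩ := h.eq z y
  have t1 := dist_triangle4 x z1 z2 y
  have t2 := dist_triangle z1 z z2
  have d1 := dist_nonneg (x := x) (y := z1)
  have d2 := dist_nonneg (x := z2) (y := y)
  refine ht.conv z1 h1 z2 h2 z (by linarith) (by linarith)

/-- the isometry `g` which unfolds the paths from `x` to `y` through `F` -/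
theorem unfold_g (h : HD F D) (ht : TS X G F σ r) {x y : X} (hr : D x y < r) :
    ∃ g : G, dist x (g • y) = D x y ∧ ∀ u v : X, dist u (g • v) ≤ D u v := by
  have hle : ∀ (g : G) (u v : X), dist u (g • v) ≤ D u v := by
    intro g u v
    obtain ⟨z, hz, e⟩ := h.eq u v
    have t1 := dist_triangle u z (g • v)
    have t2 := ht.iso g z v
    rw [ht.fixF g z hz] at t2
    linarith
  obtain ⟨z, hz, e⟩ := h.eq x y
  obtain ⟨g, z1, h1, e1⟩ := ht.cross x y ⟨z, hz, by linarith⟩
  refine ⟨g, le_antisymm (hle g x y) ?_, hle g⟩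
  rw [e1]
  exact h.le x y z1 h1

/-- uniqueness, mixed case -/
theorem mixed (h : HD F D) (ht : TS X G F σ r) {x y z z' : X} {g : G} (hr : D x y < r)
    (hg : z = g • z') (h1 : dist x z + D z y = D x y)
    (h3 : dist x z = D x z') : z = z' ∧ z ∈ F := by
  obtain ⟨z2, f2, e2⟩ := h.eq z y
  obtain ⟨z2', f2', e2'⟩ := h.eq x z'
  have k1 : dist z2' z' = dist z2' z := by
    have := ht.iso g z2' z'
    rw [ht.fixF g z2' f2', ← hg] at this
    exact this.symm
  have t1 := h.le x y z2' f2'
  have t2 := dist_triangle z2' z2 y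
  have t3 := dist_triangle z2' z z2
  have d1 := dist_nonneg (x := x) (y := z2')
  have d2 := dist_nonneg (x := z2) (y := y)
  have hF : z ∈ F := ht.conv z2' f2' z2 f2 z (by linarith) (by linarith)
  refine ⟨?_, hF⟩
  have k2 : g⁻¹ • z = z' := by rw [hg, inv_smul_smul]
  rw [ht.fixF g⁻¹ z hF] at k2
  exact k2

/-- uniqueness for end points in different copies -/
theorem uniq2 (h : HD F D) (ht : TS X G F σ r) (hu : UniqGeod X r) {x y : X} (hr : D x y < r)
    (c c' : X × Bool)
    (hc : (if c.2 = true then dist x c.1 else D x c.1) +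
      (if c.2 = true then D c.1 y else dist c.1 y) = D x y)
    (hc' : (if c'.2 = true then dist x c'.1 else D x c'.1) +
      (if c'.2 = true then D c'.1 y else dist c'.1 y) = D x y)
    (he : (if c.2 = true then dist x c.1 else D x c.1) =
      (if c'.2 = true then dist x c'.1 else D x c'.1)) :
    c.1 = c'.1 ∧ (c.2 = c'.2 ∨ c.1 ∈ F) := by
  obtain ⟨g, hg, hle⟩ := unfold_g h ht hr
  have key : ∀ c : X × Bool, (if c.2 = true then dist x c.1 else D x c.1) +
      (if c.2 = true then D c.1 y else dist c.1 y) = D x y →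
      dist x (if c.2 = true then c.1 else g • c.1) +
        dist (if c.2 = true then c.1 else g • c.1) (g • y) = dist x (g • y) ∧
      dist x (if c.2 = true then c.1 else g • c.1) =
        (if c.2 = true then dist x c.1 else D x c.1) := by
    rintro ⟨z, b⟩ hc
    cases b
    · simp only [Bool.false_eq_true, if_false] at hc ⊢
      have t1 := dist_triangle x (g • z) (g • y)
      have t2 := ht.iso g z y
      have t3 := hle x z
      constructor <;> linarith
    · simp only [if_true] at hc ⊢
      have t1 := dist_triangle x z (g • y)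
      have t3 := hle z y
      exact ⟨by linarith, trivial⟩
  obtain ⟨a1, a2⟩ := key c hc
  obtain ⟨b1, b2⟩ := key c' hc'
  have hΘ := hu x (g • y) _ _ (by rw [hg]; exact hr) a1 b1 (by rw [a2, b2, he])
  obtain ⟨z, b⟩ := c
  obtain ⟨z', b'⟩ := c'
  have ginj : ∀ u v : X, g • u = g • v → u = v := fun u v e => by
    have := congrArg (fun w => g⁻¹ • w) e
    simpa only [inv_smul_smul] using this
  cases b <;> cases b' <;>
    simp only [Bool.false_eq_true, if_false, if_true] at hc hc' he hΘ ⊢
  · exact ⟨ginj _ _ hΘ, Or.inl trivial⟩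
  · obtain ⟨k1, k2⟩ := mixed h ht hr hΘ.symm hc' he.symm
    exact ⟨k1.symm, Or.inr (k1 ▸ k2)⟩
  · obtain ⟨k1, k2⟩ := mixed h ht hr hΘ hc he
    exact ⟨k1, Or.inr k2⟩
  · exact ⟨hΘ, Or.inl trivial⟩

end ts

end DBL

open DBL

theorem t_DBL : S_DBL := by
  intro X G _ _ _ _ F σ r ht hn hgeo huniq
  obtain ⟨D, h⟩ := hd_exists ht.closed hn
  letI : MetricSpace (Y F) := mt h
  have A2 : ∀ (x y : X) (b : Bool), dist (j F x b) (j F y b) = dist x y := dist_j h
  have A3 : ∀ (x y : X) (b : Bool), dist (j F x b) (j F y (!b)) = D x y := dist_j' h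
  have Aiso : ∀ b : Bool, Isometry (fun x => j F x b) := fun b =>
    Isometry.of_dist_eq fun x y => A2 x y b
  have rinv : ∀ y, rh F (rh F y) = y := by
    intro y
    obtain ⟨x, b, rfl⟩ := j_surj y
    rw [rh_j, rh_j, Bool.not_not]
  have riso : ∀ y y', dist (rh F y) (rh F y') = dist y y' := by
    intro y y'
    obtain ⟨x, b, rfl⟩ := j_surj y
    obtain ⟨x', b', rfl⟩ := j_surj y'
    rw [rh_j, rh_j]
    by_cases e : b' = b
    · subst e
      rw [A2, A2]
    · have e' : b' = !b := by cases b <;> cases b' <;> simp_all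
      subst e'
      rw [A3, A3]
  have hfix : ∀ x, rh F (j F x true) = j F x true ↔ x ∈ F := by
    intro x
    rw [rh_j]
    constructor
    · intro e
      exact (j_inj' h (b := true) e.symm).2
    · intro hx
      exact j_mem hx _
  have hgeoY : GeodSpace (Y F) := by
    have hs : ∀ (x y : X) (b : Bool), ∃ c : ℝ → Y F, Gd (j F x b) (j F y b) c := by
      intro x y b
      obtain ⟨c, c0, c1, c2⟩ := hgeo x y
      refine ⟨fun s => j F (c s) b, ?_, ?_, ?_⟩
      · show j F (c 0) b = _
        rw [c0]
      · show j F (c 1) b = _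
        rw [c1]
      · intro s hs t ht
        show dist (j F (c s) b) (j F (c t) b) = _
        rw [A2, A2]
        exact c2 s hs t ht
    intro p q
    obtain ⟨x, b, rfl⟩ := j_surj p
    obtain ⟨y, b', rfl⟩ := j_surj q
    by_cases e : b' = b
    · subst e
      exact hs x y b'
    · have e' : b' = !b := by cases b <;> cases b' <;> simp_all
      subst e'
      obtain ⟨z, hz, ez⟩ := h.eq x y
      obtain ⟨c, hc⟩ := hs x z b
      obtain ⟨c', hc'⟩ := hs z y (!b)
      have e1 : j F z b = j F z (!b) := by rw [j_mem hz, j_mem hz (!b)]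
      rw [e1] at hc
      refine concat hc hc' ?_
      have q1 : dist (j F x b) (j F z (!b)) = dist x z := by rw [← e1, A2]
      rw [q1, A2, A3, ez]
  have huY : UniqGeod (Y F) r := by
    -- end points in different copies
    have cases2 : ∀ (x y : X) (c c' : Y F), D x y < r →
        dist (j F x true) c + dist c (j F y false) = D x y →
        dist (j F x true) c' + dist c' (j F y false) = D x y →
        dist (j F x true) c = dist (j F x true) c' → c = c' := by
      intro x y c c' hr h1 h2 h3
      obtain ⟨z, b, rfl⟩ := j_surj c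
      obtain ⟨z', b', rfl⟩ := j_surj c'
      have d1 : ∀ (z : X) (b : Bool), dist (j F x true) (j F z b) =
          if b = true then dist x z else D x z := by
        intro z b
        cases b
        · simp only [Bool.false_eq_true, if_false]
          exact A3 x z true
        · simp only [if_true]
          exact A2 x z true
      have d2 : ∀ (z : X) (b : Bool), dist (j F z b) (j F y false) =
          if b = true then D z y else dist z y := by
        intro z b
        cases b
        · simp only [Bool.false_eq_true, if_false]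
          exact A2 z y false
        · simp only [if_true]
          exact A3 z y true
      rw [d1, d2] at h1 h2
      rw [d1, d1] at h3
      obtain ⟨k1, k2⟩ := uniq2 h ht huniq hr (z, b) (z', b') h1 h2 h3
      simp only at k1 k2
      subst k1
      rcases k2 with k2 | k2
      · rw [k2]
      · rw [j_mem k2 b, j_mem k2 b']
    -- end points in the same copy
    have cases1 : ∀ (x y : X) (c c' : Y F), dist x y < r →
        dist (j F x true) c + dist c (j F y true) = dist x y →
        dist (j F x true) c' + dist c' (j F y true) = dist x y →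
        dist (j F x true) c = dist (j F x true) c' → c = c' := by
      intro x y c c' hr h1 h2 h3
      have key : ∀ c : Y F, dist (j F x true) c + dist c (j F y true) = dist x y →
          ∃ z, c = j F z true := by
        intro c hc
        obtain ⟨z, b, rfl⟩ := j_surj c
        cases b
        · refine ⟨z, j_mem ?_ _⟩
          have e1 : dist (j F x true) (j F z false) = D x z := A3 x z true
          have e2 : dist (j F z false) (j F y true) = D z y := A3 z y false
          rw [e1, e2] at hc
          exact same h ht hr hc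
        · exact ⟨z, rfl⟩
      obtain ⟨z, rfl⟩ := key c h1
      obtain ⟨z', rfl⟩ := key c' h2
      rw [A2, A2] at h1 h2
      rw [A2, A2] at h3
      rw [huniq x y z z' hr h1 h2 h3]
    intro a b c c' hr h1 h2 h3
    -- reduction to `a` in the first copy
    have red : ∀ (x : X) (b c c' : Y F), dist (j F x true) b < r →
        dist (j F x true) c + dist c b = dist (j F x true) b →
        dist (j F x true) c' + dist c' b = dist (j F x true) b →
        dist (j F x true) c = dist (j F x true) c' → c = c' := by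
      intro x b c c' hr h1 h2 h3
      obtain ⟨y, s, rfl⟩ := j_surj b
      cases s
      · have e1 : dist (j F x true) (j F y false) = D x y := A3 x y true
        rw [e1] at hr h1 h2
        exact cases2 x y c c' hr h1 h2 h3
      · rw [A2] at hr h1 h2
        exact cases1 x y c c' hr h1 h2 h3
    obtain ⟨x, s, rfl⟩ := j_surj a
    cases s
    · have e1 : ∀ p : Y F, dist (j F x false) p = dist (j F x true) (rh F p) := by
        intro p
        rw [← riso (j F x true) (rh F p), rinv, rh_j]
        rfl
      rw [e1] at hr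
      rw [e1, e1, ← riso c b] at h1
      rw [e1, e1, ← riso c' b] at h2
      rw [e1, e1] at h3
      have := red x (rh F b) (rh F c) (rh F c') hr h1 h2 h3
      rw [← rinv c, this, rinv]
    · exact red x b c c' hr h1 h2 h3
  have hcpt : CompactSpace (Y F) := by
    refine ⟨?_⟩
    have k1 := isCompact_range (Aiso true).continuous
    have k2 := isCompact_range (Aiso false).continuous
    have : (univ : Set (Y F)) = range (fun x => j F x true) ∪ range (fun x => j F x false) := by
      refine (Set.eq_univ_of_forall fun y => ?_).symm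
      obtain ⟨x, b, rfl⟩ := j_surj y
      cases b
      · exact Or.inr ⟨x, rfl⟩
      · exact Or.inl ⟨x, rfl⟩
    rw [this]
    exact k1.union k2
  refine ⟨Y F, mt h, fun x => j F x true, rh F, range (fun x => j F x true), hcpt, ?_, hgeoY, huY⟩
  refine ⟨⟨Isometry.of_dist_eq riso, rinv, (isCompact_range (Aiso true).continuous).isClosed,
    ?_, ?_⟩, Aiso true, fun y => Iff.rfl, hfix, ?_, ?_⟩
  · intro y
    obtain ⟨x, b, rfl⟩ := j_surj y
    cases b
    · right
      rw [rh_j]
      exact ⟨x, rfl⟩
    · exact Or.inl ⟨x, rfl⟩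
  · rintro _ ⟨x, rfl⟩ ⟨x', hx'⟩
    simp only at hx' ⊢
    rw [rh_j] at hx' ⊢
    obtain ⟨k1, k2⟩ := j_inj' h (b := true) hx'
    rw [k1] at k2
    exact j_mem k2 _
  · intro x y z hz
    show dist (j F x true) (rh F (j F y true)) ≤ _
    rw [rh_j]
    exact (A3 x y true).le.trans (h.le x y z hz)
  · intro x y
    obtain ⟨z, hz, e⟩ := h.eq x y
    refine ⟨z, hz, ?_⟩
    show dist (j F x true) (rh F (j F y true)) = _
    rw [rh_j, ← e]
    exact A3 x y true

end Pool.Agent.N489.RW
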