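import Pool.Agent.N489.RW.Stm2

/-!
# Project RW, part PCE: lifting short minimal geodesics of `Y` to `X`
-/

set_option autoImplicit false

open Set Topology

noncomputable section

namespace Pool.Agent.N489.RW

open Pool.Agent.Y489.GE Pool.Agent.R203.IF

namespace PceA

section fold

variable {Y : Type} [MetricSpace Y] {ρ : Y → Y} {U : Set Y}

omit [MetricSpace Y] in
theorem fo_of_mem {y : Y} (h : y ∈ U) : fo ρ U y = y := by
  unfold fo
  rw [if_pos h]

omit [MetricSpace Y] in
theorem fo_of_not_mem {y : Y} (h : y ∉ U) : fo ρ U y = ρ y := by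
  unfold fo
  rw [if_neg h]

theorem fo_rho (hM : Mirror Y ρ U) (y : Y) : fo ρ U (ρ y) = fo ρ U y := by
  by_cases h1 : y ∈ U
  · by_cases h2 : ρ y ∈ U
    · rw [fo_of_mem h1, fo_of_mem h2, hM.inter y h1 h2]
    · rw [fo_of_mem h1, fo_of_not_mem h2, hM.inv]
  · have h2 : ρ y ∈ U := (hM.cover y).resolve_left h1
    rw [fo_of_not_mem h1, fo_of_mem h2]

end fold

/-- the last step: comparison with the unique minimal geodesic -/
theorem cmp {Y : Type} [MetricSpace Y] {r : ℝ} (hU : UniqGeod Y r) {a b z w : Y} {A B : ℝ}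
    (hab : dist a b = A + B) (hr : dist a b < r) (h1 : dist a z ≤ A) (h2 : dist z b ≤ B)
    (h3 : dist a w = A) (h4 : dist w b = B) : z = w := by
  have h5 := dist_triangle a z b
  have e1 : dist a z = A := by linarith
  have e2 : dist z b = B := by linarith
  exact hU a b z w hr (by rw [e1, e2, hab]) (by rw [h3, h4, hab]) (by rw [e1, h3])

end PceA

open PceA

theorem t_PCE (hP : S_P) : S_PCE := by
  intro X Y G _ _ _ _ k q ρ U σ w r₀ r r' m hS γ s s' hss hd hγ x hx
  -- the mirror image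
  obtain ⟨δ, hδ, hδU, hδf⟩ : ∃ δ : ℝ → Y,
      (∀ u ∈ Icc s s', ∀ v ∈ Icc s s', dist (δ u) (δ v) = |u - v|) ∧ δ s ∈ U ∧
      ∀ u, fo ρ U (δ u) = fo ρ U (γ u) := by
    by_cases h : γ s ∈ U
    · exact ⟨γ, hγ, h, fun _ => rfl⟩
    · refine ⟨fun u => ρ (γ u), fun u hu v hv => ?_, (hS.mir.cover _).resolve_left h,
        fun u => fo_rho hS.mir _⟩
      rw [hS.mir.iso.dist_eq]
      exact hγ u hu v hv
  simp only [← hδf] at hx ⊢
  clear hδf hγ γ
  rw [fo_of_mem hδU] at hx
  have hd0 : 0 < s' - s := by linarith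
  have hs : s ∈ Icc s s' := ⟨le_rfl, hss.le⟩
  have hs' : s' ∈ Icc s s' := ⟨hss.le, le_rfl⟩
  have hdd : dist (δ s) (δ s') = s' - s := by
    rw [hδ s hs s' hs', abs_sub_comm, abs_of_pos hd0]
  have hpar : ∀ u ∈ Icc s s', (u - s) / (s' - s) ∈ Icc (0 : ℝ) 1 := by
    intro u hu
    exact ⟨div_nonneg (by linarith [hu.1]) hd0.le, by rw [div_le_one hd0]; linarith [hu.2]⟩
  have hl : ∀ u ∈ Icc s s', dist (δ s) (δ u) = u - s := by
    intro u hu
    rw [hδ s hs u hu, abs_sub_comm, abs_of_nonneg (by linarith [hu.1])]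
  have hr : ∀ u ∈ Icc s s', dist (δ u) (δ s') = s' - u := by
    intro u hu
    rw [hδ u hu s' hs', abs_sub_comm, abs_of_nonneg (by linarith [hu.2])]
  have hlt : dist (δ s) (δ s') < r := by
    rw [hdd]; linarith [hS.rr]
  have lip1 : ∀ y z : X, dist (q y) (q z) ≤ dist y z := by
    intro y z
    have := hS.rot.lip y z 1
    rwa [one_smul] at this
  -- the lift
  have main : ∀ y : X, dist x y = s' - s → (m x y 0 = x) ∧
      (∀ u ∈ Icc s s', ∀ v ∈ Icc s s',
        dist (m x y ((u - s) / (s' - s))) (m x y ((v - s) / (s' - s))) = |u - v|) ∧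
      (∀ u ∈ Icc s s', dist x (m x y ((u - s) / (s' - s))) = u - s) ∧
      ∀ u ∈ Icc s s', dist (m x y ((u - s) / (s' - s))) y = s' - u := by
    intro y hy
    have hyr : dist x y ≤ r' := by rw [hy]; exact hd
    refine ⟨hS.gm.zero x y hyr, ?_, ?_, ?_⟩
    · intro u hu v hv
      rw [hS.gm.dist_eq x y hyr _ (hpar u hu) _ (hpar v hv), hy, ← sub_div, abs_div,
        abs_of_pos hd0, div_mul_cancel₀ _ hd0.ne']
      congr 1
      ring
    · intro u hu
      rw [hS.gm.dist_left hyr (hpar u hu), hy, div_mul_cancel₀ _ hd0.ne']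
    · intro u hu
      rw [hS.gm.dist_right hyr (hpar u hu), hy, sub_mul, div_mul_cancel₀ _ hd0.ne']
      ring
  by_cases hb : δ s' ∈ U
  · -- the same side
    obtain ⟨x₂, hx₂⟩ := hS.rot.qS _ hb
    obtain ⟨g, hg⟩ := hS.rot.att x x₂
    rw [hx, hx₂, hdd] at hg
    obtain ⟨m0, m1, m2, m3⟩ := main (g • x₂) hg
    refine ⟨fun u => m x (g • x₂) ((u - s) / (s' - s)), ?_, ?_, m1⟩
    · simp only [sub_self, zero_div]
      exact m0
    · intro u hu
      simp only
      have e : q (m x (g • x₂) ((u - s) / (s' - s))) = δ u := by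
        refine cmp hS.uni (a := δ s) (b := δ s') (A := u - s) (B := s' - u) (by rw [hdd]; ring)
          hlt ?_ ?_ (hl u hu) (hr u hu)
        · rw [← hx]
          exact (lip1 _ _).trans (le_of_eq (m2 u hu))
        · rw [← hx₂, ← m3 u hu]
          exact hS.rot.lip _ _ g
      rw [← e, fo_of_mem (hS.rot.qU _)]
  · -- different sides
    have hb' : ρ (δ s') ∈ U := (hS.mir.cover _).resolve_left hb
    obtain ⟨x₂, hx₂⟩ := hS.rot.qS _ hb'
    have hρ : ρ (q x₂) = δ s' := by rw [hx₂, hS.mir.inv]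
    obtain ⟨g, t, ht, hg, hfix⟩ := hP X Y G k q ρ U σ w r₀ r r' m hS x x₂ (by
      rw [hx, hρ, hdd]; exact hd)
    rw [hx, hρ, hdd] at hg
    obtain ⟨m0, m1, m2, m3⟩ := main (g • x₂) hg
    have hyr : dist x (g • x₂) ≤ r' := by rw [hg]; exact hd
    obtain ⟨z, hz⟩ : ∃ z, z = m x (g • x₂) t := ⟨_, rfl⟩
    rw [← hz] at hfix
    have hqz : ρ (q z) = q z := (hS.rot.qF z).1 hfix
    -- the distances from `z`
    have z1 : dist (δ s) (q z) ≤ t * (s' - s) := by
      rw [← hx]
      refine (lip1 _ _).trans ?_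
      rw [hz, hS.gm.dist_left hyr ht, hg]
    have z2 : dist (q z) (δ s') ≤ (1 - t) * (s' - s) := by
      rw [← hρ, ← hqz, hS.mir.iso.dist_eq]
      refine (hS.rot.lip _ _ g).trans ?_
      rw [hz, hS.gm.dist_right hyr ht, hg]
    have z3 : ∀ u ∈ Icc s s', dist (q (m x (g • x₂) ((u - s) / (s' - s)))) (q z) ≤
        |u - (s + t * (s' - s))| := by
      intro u hu
      refine (lip1 _ _).trans ?_
      rw [hz, hS.gm.dist_eq x (g • x₂) hyr _ (hpar u hu) _ ht, hg]
      have e : |u - (s + t * (s' - s))| = |((u - s) / (s' - s) - t) * (s' - s)| := by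
        congr 1
        field_simp
        ring
      rw [e, abs_mul, abs_of_pos hd0]
    refine ⟨fun u => m x (g • x₂) ((u - s) / (s' - s)), ?_, ?_, m1⟩
    · simp only [sub_self, zero_div]
      exact m0
    · intro u hu
      simp only
      have hQU := hS.rot.qU (m x (g • x₂) ((u - s) / (s' - s)))
      rcases le_total u (s + t * (s' - s)) with hu' | hu'
      · have e : q (m x (g • x₂) ((u - s) / (s' - s))) = δ u := by
          refine cmp hS.uni (a := δ s) (b := δ s') (A := u - s) (B := s' - u)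
            (by rw [hdd]; ring) hlt ?_ ?_ (hl u hu) (hr u hu)
          · rw [← hx]
            exact (lip1 _ _).trans (le_of_eq (m2 u hu))
          · have h3 := z3 u hu
            rw [abs_of_nonpos (by linarith)] at h3
            have h4 := dist_triangle (q (m x (g • x₂) ((u - s) / (s' - s)))) (q z) (δ s')
            linarith
        rw [← e, fo_of_mem hQU]
      · have e : ρ (q (m x (g • x₂) ((u - s) / (s' - s)))) = δ u := by
          refine cmp hS.uni (a := δ s) (b := δ s') (A := u - s) (B := s' - u)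
            (by rw [hdd]; ring) hlt ?_ ?_ (hl u hu) (hr u hu)
          · have h3 := z3 u hu
            rw [abs_of_nonneg (by linarith)] at h3
            have h4 := dist_triangle (δ s) (q z) (ρ (q (m x (g • x₂) ((u - s) / (s' - s)))))
            have h5 : dist (q z) (ρ (q (m x (g • x₂) ((u - s) / (s' - s))))) =
                dist (q (m x (g • x₂) ((u - s) / (s' - s)))) (q z) := by
              conv_lhs => rw [← hqz]
              rw [hS.mir.iso.dist_eq, dist_comm]
            linarith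
          · rw [← hρ, hS.mir.iso.dist_eq, ← m3 u hu]
            exact hS.rot.lip _ _ g
        rw [← e, fo_rho hS.mir, fo_of_mem hQU]

end Pool.Agent.N489.RW
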