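import Pool.Agent.N489.RW.Stm

/-!
# Project RW (helper489), part 2: circle symmetry, and spheres

`q : X → Y` is the orbit map of a group `G` of isometries of `X` onto the half `U` of the space `Y`
with the reflection `ρ` (`Y` is the double of `X / G`); `F = Fx ρ` corresponds to the fixed points
of `G`. `G` acts transitively on the normal spheres (`S^1` and codimension 2, unit quaternions and
codimension 4, ...): `w : X → ℝ^(k+1)` is a continuous map vanishing exactly at the fixed points,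
and every orbit of non-fixed points is mapped onto the sphere of directions with a continuous
section. `σ` acts as an involution and `w (σ x) = - w x`.
-/

set_option autoImplicit false

open Set Topology

noncomputable section

namespace Pool.Agent.N489.RW

open Pool.Agent.Y489.GE Pool.Agent.R203.IF

/-- Euclidean space -/
abbrev Eu (k : ℕ) : Type := EuclideanSpace ℝ (Fin (k + 1))

structure Rot (X Y G : Type) [MetricSpace X] [MetricSpace Y] [Group G] [MulAction G X] (k : ℕ)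
    (q : X → Y) (ρ : Y → Y) (U : Set Y) (σ : G) (w : X → Eu k) : Prop where
  iso : ∀ (g : G) (x y : X), dist (g • x) (g • y) = dist x y
  qU : ∀ x, q x ∈ U
  qS : ∀ y ∈ U, ∃ x, q x = y
  qF : ∀ x, (∀ g : G, g • x = x) ↔ ρ (q x) = q x
  lip : ∀ (x y : X) (g : G), dist (q x) (q y) ≤ dist x (g • y)
  att : ∀ x y : X, ∃ g : G, dist x (g • y) = dist (q x) (q y)
  wc : Continuous w
  w0 : ∀ x, w x = 0 ↔ ∀ g : G, g • x = x
  ws : ∀ x, w x ≠ 0 → ∃ φ : Eu k → X, ContinuousOn φ (Metric.sphere 0 1) ∧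
    ∀ s ∈ Metric.sphere (0 : Eu k) 1, (∃ g : G, φ s = g • x) ∧ w (φ s) = ‖w (φ s)‖ • s
  s2 : ∀ x : X, σ • σ • x = x
  sw : ∀ x, w (σ • x) = - w x

/-- the general hypotheses of the second part -/
structure Setup (X Y G : Type) [MetricSpace X] [MetricSpace Y] [Group G] [MulAction G X] (k : ℕ)
    (q : X → Y) (ρ : Y → Y) (U : Set Y) (σ : G) (w : X → Eu k) (r₀ r r' : ℝ)
    (m : X → X → ℝ → X) : Prop where
  rot : Rot X Y G k q ρ U σ w
  mir : Mirror Y ρ U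
  geo : GeodSpace Y
  uni : UniqGeod Y r
  mf : MF Y ρ U r
  uniX : UniqGeod X r₀
  gm : GMap X r' m
  r'0 : 0 < r'
  rr : r' < r
  rr₀ : r' < r₀

/-- the sphere is not contractible -/
def S_NC : Prop := ∀ k : ℕ, ¬ ∃ H : Eu k → ℝ → Eu k,
  ContinuousOn (fun z : Eu k × ℝ => H z.1 z.2) (Metric.sphere 0 1 ×ˢ Icc (0 : ℝ) 1) ∧
  (∀ s ∈ Metric.sphere (0 : Eu k) 1, ∀ t ∈ Icc (0 : ℝ) 1, H s t ∈ Metric.sphere (0 : Eu k) 1) ∧
  (∃ c, ∀ s ∈ Metric.sphere (0 : Eu k) 1, H s 0 = c) ∧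
  ∀ s ∈ Metric.sphere (0 : Eu k) 1, H s 1 = s

/-- topological invariance of the bound of the dimension -/
def S_DIM : Prop := ∀ (n : ℕ) (K : Type) [MetricSpace K] [CompactSpace K]
  (f : K → (Fin n → unitInterval)), Continuous f → Function.Injective f → CovDim K n

/-- `X` is an `n`-sphere, `n = k + 1`, on which `ρ` acts as the reflection `e` -/
structure Sph (X : Type) [MetricSpace X] (k : ℕ) (ρ : X → X)
    (e : X ≃ₜ ↥(Metric.sphere (0 : Eu (k + 1)) 1)) : Prop where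
  init : ∀ (x : X) (i : Fin (k + 1)), (e (ρ x)).1 i.castSucc = (e x).1 i.castSucc
  last : ∀ x : X, (e (ρ x)).1 (Fin.last (k + 1)) = - (e x).1 (Fin.last (k + 1))

/-- the upper half of the sphere -/
def Up {X : Type} [MetricSpace X] {k : ℕ} (e : X ≃ₜ ↥(Metric.sphere (0 : Eu (k + 1)) 1)) : Set X :=
  {x | 0 ≤ (e x).1 (Fin.last (k + 1))}

/-- facts about the half sphere -/
def S_SPH : Prop := ∀ (X : Type) [MetricSpace X] [CompactSpace X] (k : ℕ) (ρ : X → X)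
  (e : X ≃ₜ ↥(Metric.sphere (0 : Eu (k + 1)) 1)), Sph X k ρ e → Isometry ρ →
  Mirror X ρ (Up e) ∧ CovDim ↥(Up e) (k + 1) ∧ ¬ Ret ρ (Up e)

/-- minimal geodesics through the fixed point set -/
def S_P : Prop := ∀ (X Y G : Type) [MetricSpace X] [MetricSpace Y] [Group G] [MulAction G X]
  (k : ℕ) (q : X → Y) (ρ : Y → Y) (U : Set Y) (σ : G) (w : X → Eu k) (r₀ r r' : ℝ)
  (m : X → X → ℝ → X), Setup X Y G k q ρ U σ w r₀ r r' m →
  ∀ x₁ x₂ : X, dist (q x₁) (ρ (q x₂)) ≤ r' →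
    ∃ g : G, ∃ t ∈ Icc (0 : ℝ) 1, dist x₁ (g • x₂) = dist (q x₁) (ρ (q x₂)) ∧
      ∀ h : G, h • m x₁ (g • x₂) t = m x₁ (g • x₂) t

/-- lifting of short pieces -/
def S_PCE : Prop := ∀ (X Y G : Type) [MetricSpace X] [MetricSpace Y] [Group G] [MulAction G X]
  (k : ℕ) (q : X → Y) (ρ : Y → Y) (U : Set Y) (σ : G) (w : X → Eu k) (r₀ r r' : ℝ)
  (m : X → X → ℝ → X), Setup X Y G k q ρ U σ w r₀ r r' m →
  ∀ (γ : ℝ → Y) (s s' : ℝ), s < s' → s' - s ≤ r' →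
    (∀ u ∈ Icc s s', ∀ v ∈ Icc s s', dist (γ u) (γ v) = |u - v|) →
    ∀ x, q x = fo ρ U (γ s) → ∃ Γ : ℝ → X, Γ s = x ∧
      (∀ u ∈ Icc s s', q (Γ u) = fo ρ U (γ u)) ∧
      ∀ u ∈ Icc s s', ∀ v ∈ Icc s s', dist (Γ u) (Γ v) = |u - v|

/-- lifting of a geodesic starting in `F` -/
def S_WHL : Prop := ∀ (X Y G : Type) [MetricSpace X] [MetricSpace Y] [Group G] [MulAction G X]
  (k : ℕ) (q : X → Y) (ρ : Y → Y) (U : Set Y) (σ : G) (w : X → Eu k) (r₀ r r' : ℝ)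
  (m : X → X → ℝ → X), Setup X Y G k q ρ U σ w r₀ r r' m →
  ∀ (γ : ℝ → Y) (T ε : ℝ), 0 < T → 0 < ε → (∀ u v, |u - v| ≤ ε → dist (γ u) (γ v) = |u - v|) →
    ∃ Γ : ℝ → X, (∀ u ∈ Icc (0 : ℝ) T, q (Γ u) = fo ρ U (γ u)) ∧
      ∃ ε' : ℝ, 0 < ε' ∧ ∀ u ∈ Icc (0 : ℝ) T, ∀ v ∈ Icc (0 : ℝ) T, |u - v| ≤ ε' →
        dist (Γ u) (Γ v) = |u - v|

/-- symmetric closed geodesics of `Y` are lifted to closed geodesics of `X` -/
def S_CIR : Prop := ∀ (X Y G : Type) [MetricSpace X] [MetricSpace Y] [Group G] [MulAction G X]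
  (k : ℕ) (q : X → Y) (ρ : Y → Y) (U : Set Y) (σ : G) (w : X → Eu k) (r₀ r r' : ℝ)
  (m : X → X → ℝ → X), Setup X Y G k q ρ U σ w r₀ r r' m →
  ∀ L : ℝ, SymGeod Y ρ L → ClosedGeod X L

end Pool.Agent.N489.RW
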