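import Pool.Agent.N489.RW.Stm2

/-!
# Project RW (helper489), part 3: relative form, better constant, and normally transitive groups

`Defo ρ f`: there are a map `g : K → F` and a homotopy in `F` on `A = f⁻¹(F)` from `g` to `f`.
-/

set_option autoImplicit false

open Set Topology

noncomputable section

namespace Pool.Agent.N489.RW

open Pool.Agent.Y489.GE Pool.Agent.R203.IF

/-- there are a map `g : K → F` and a homotopy in `F`, on the set of all `k` with `f k ∈ F`,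
from `g` to `f` -/
def Defo {X K : Type} [TopologicalSpace X] [TopologicalSpace K] (F : Set X) (f : K → X) : Prop :=
  ∃ (g : K → X) (H : K → ℝ → X), Continuous g ∧ (∀ k, g k ∈ F) ∧
    ContinuousOn (fun z : K × ℝ => H z.1 z.2) ({k | f k ∈ F} ×ˢ Icc (0 : ℝ) 1) ∧
    ∀ k, f k ∈ F → (∀ s ∈ Icc (0 : ℝ) 1, H k s ∈ F) ∧ H k 0 = g k ∧ H k 1 = f k

/-- the star paths, second form -/
def S_STAR2 : Prop := ∀ (X : Type) [MetricSpace X] (ρ : X → X) (U : Set X) (r : ℝ),
  Mirror X ρ U → MF X ρ U r → ∀ (K : Type) [TopologicalSpace K] (n : ℕ) (p : X) (b : ℝ)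
  (f : K → X), 1 ≤ n → ρ p = p → 0 ≤ b → Continuous f → (∀ k, f k ∈ U) →
  ∀ (t : ℕ → K → ℝ) (leg : ℕ → K → ℝ → X), Data p b n f ∅ t leg →
  EE ρ U (n + 2) (2 * n * b) → Defo {x | ρ x = x} f

/-- a group `G` of isometries fixing the points of `F`, such that any two points near `F` can be
joined, after application of an element of `G` to one of them, by a minimal geodesic meeting `F`;
the midpoint of `x` and `σ x` is in `F`, for `x` near `F` -/
structure TS (X G : Type) [MetricSpace X] [Group G] [MulAction G X] (F : Set X) (σ : G)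
    (r : ℝ) : Prop where
  closed : IsClosed F
  iso : ∀ (g : G) (x y : X), dist (g • x) (g • y) = dist x y
  fixF : ∀ g : G, ∀ x ∈ F, g • x = x
  conv : ∀ x ∈ F, ∀ y ∈ F, ∀ z, dist x y < r → dist x z + dist z y = dist x y → z ∈ F
  cross : ∀ x y, (∃ z ∈ F, dist x z + dist z y < r) →
    ∃ g : G, ∃ z ∈ F, dist x (g • y) = dist x z + dist z y
  s2 : ∀ x : X, σ • σ • x = x
  smid : ∀ x, (∃ z ∈ F, 2 * dist x z < r) → ∃ z ∈ F, dist x (σ • x) = 2 * dist x z

/-- `Y` is the double of `X` along `F`: it has the reflection `ρ`, `i` is an isometry of `X` onto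
the half `U` -/
structure Dbl (X Y : Type) [MetricSpace X] [MetricSpace Y] (F : Set X) (i : X → Y) (ρ : Y → Y)
    (U : Set Y) : Prop where
  mir : Mirror Y ρ U
  iso : Isometry i
  rng : ∀ y, y ∈ U ↔ ∃ x, i x = y
  fix : ∀ x, ρ (i x) = i x ↔ x ∈ F
  le : ∀ x y, ∀ z ∈ F, dist (i x) (ρ (i y)) ≤ dist x z + dist z y
  eq : ∀ x y, ∃ z ∈ F, dist (i x) (ρ (i y)) = dist x z + dist z y

/-- the double exists -/
def S_DBL : Prop := ∀ (X G : Type) [MetricSpace X] [CompactSpace X] [Group G] [MulAction G X]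
  (F : Set X) (σ : G) (r : ℝ), TS X G F σ r → F.Nonempty → GeodSpace X → UniqGeod X r →
  ∃ (Y : Type) (_ : MetricSpace Y) (i : X → Y) (ρ : Y → Y) (U : Set Y),
    CompactSpace Y ∧ Dbl X Y F i ρ U ∧ GeodSpace Y ∧ UniqGeod Y r

/-- unfolding a symmetric geodesic of the double: the half of it -/
def S_UNT1 : Prop := ∀ (X Y G : Type) [MetricSpace X] [MetricSpace Y] [Group G] [MulAction G X]
  (F : Set X) (σ : G) (r : ℝ) (i : X → Y) (ρ : Y → Y) (U : Set Y), 0 < r → TS X G F σ r →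
  Dbl X Y F i ρ U → GeodSpace Y → UniqGeod Y r → MF Y ρ U r →
  ∀ (γ : ℝ → Y) (T ε : ℝ), 0 < T → 0 < ε → ρ (γ 0) = γ 0 →
    (∀ u v, |u - v| ≤ ε → dist (γ u) (γ v) = |u - v|) →
    ∃ Γ : ℝ → X, (∀ u ∈ Icc (0 : ℝ) T, ∃ (g : G) (x : X), i x = fo ρ U (γ u) ∧ Γ u = g • x) ∧
      ∃ ε' : ℝ, 0 < ε' ∧ ∀ u ∈ Icc (0 : ℝ) T, ∀ v ∈ Icc (0 : ℝ) T, |u - v| ≤ ε' →
        dist (Γ u) (Γ v) = |u - v|

/-- unfolding a symmetric geodesic of the double -/
def S_UNT : Prop := ∀ (X Y G : Type) [MetricSpace X] [MetricSpace Y] [Group G] [MulAction G X]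
  (F : Set X) (σ : G) (r : ℝ) (i : X → Y) (ρ : Y → Y) (U : Set Y), 0 < r → TS X G F σ r →
  Dbl X Y F i ρ U → GeodSpace Y → UniqGeod Y r → MF Y ρ U r →
  ∀ L : ℝ, SymGeod Y ρ L → ClosedGeod X L

/-- `G` acts transitively on the normal spheres of `F` : `w` is defined near `F`, vanishes exactly
on `F`, and the directions of the values of `w` on every orbit of a point outside `F` fill up the
unit sphere, with a continuous section -/
structure NT (X G : Type) [MetricSpace X] [Group G] [MulAction G X] (k : ℕ) (F : Set X) (σ : G)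
    (w : X → Eu k) (V : Set X) (r : ℝ) : Prop where
  closed : IsClosed F
  iso : ∀ (g : G) (x y : X), dist (g • x) (g • y) = dist x y
  fixF : ∀ g : G, ∀ x ∈ F, g • x = x
  near : ∀ x, ∀ z ∈ F, dist x z < r → x ∈ V
  wc : ContinuousOn w V
  w0 : ∀ x ∈ V, w x = 0 ↔ x ∈ F
  ws : ∀ x ∈ V, x ∉ F → ∃ φ : Eu k → X, ContinuousOn φ (Metric.sphere 0 1) ∧
    ∀ s ∈ Metric.sphere (0 : Eu k) 1, (∃ g : G, φ s = g • x) ∧ w (φ s) = ‖w (φ s)‖ • s
  s2 : ∀ x : X, σ • σ • x = x
  sw : ∀ x ∈ V, w (σ • x) = - w x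

/-- the degree argument -/
def S_NT : Prop := ∀ (X G : Type) [MetricSpace X] [Group G] [MulAction G X] (k : ℕ) (F : Set X)
  (σ : G) (w : X → Eu k) (V : Set X) (r r' : ℝ) (m : X → X → ℝ → X), NT X G k F σ w V r →
  GeodSpace X → UniqGeod X r → GMap X r' m → 0 < r' → r' < r → TS X G F σ r'

/-- `X` is the sphere of dimension `k + 2` and the circle acts by rotations in the plane of the
last two coordinates -/
structure SphC (X : Type) [MetricSpace X] [MulAction Circle X] (k : ℕ)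
    (e : X ≃ₜ ↥(Metric.sphere (0 : Eu (k + 2)) 1)) : Prop where
  init : ∀ (u : Circle) (x : X) (i : Fin (k + 1)),
    (e (u • x)).1 i.castSucc.castSucc = (e x).1 i.castSucc.castSucc
  rot : ∀ (u : Circle) (x : X),
    ((e (u • x)).1 (Fin.last (k + 1)).castSucc : ℂ) +
        ((e (u • x)).1 (Fin.last (k + 2)) : ℂ) * Complex.I =
      (u : ℂ) * (((e x).1 (Fin.last (k + 1)).castSucc : ℂ) +
        ((e x).1 (Fin.last (k + 2)) : ℂ) * Complex.I)

/-- the fixed sphere -/
def FxC {X : Type} [MetricSpace X] {k : ℕ} (e : X ≃ₜ ↥(Metric.sphere (0 : Eu (k + 2)) 1)) :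
    Set X :=
  {x | (e x).1 (Fin.last (k + 1)).castSucc = 0 ∧ (e x).1 (Fin.last (k + 2)) = 0}

/-- facts about the rotations of spheres -/
def S_SPT : Prop := ∀ (X : Type) [MetricSpace X] [CompactSpace X] [MulAction Circle X] (k : ℕ)
  (e : X ≃ₜ ↥(Metric.sphere (0 : Eu (k + 2)) 1)), SphC X k e →
  (∀ (u : Circle) (x y : X), dist (u • x) (u • y) = dist x y) →
  (FxC e).Nonempty ∧ (∀ r, ∃ w : X → Eu 1, NT X Circle 1 (FxC e) (-1 : Circle) w univ r) ∧
    ∃ (K : Type) (_ : MetricSpace K) (f : K → X), CompactSpace K ∧ CovDim K (k + 1) ∧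
      Continuous f ∧ ¬ Defo (FxC e) f

end Pool.Agent.N489.RW
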