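import Pool.Agent.N489.RW.Stm2

/-!
# Project RW: lifting a whole geodesic
-/

set_option autoImplicit false

open Set Topology Filter

noncomputable section

namespace Pool.Agent.N489.RW

open Pool.Agent.Y489.GE Pool.Agent.R203.IF

namespace WHL_

variable {X Y G : Type} [MetricSpace X] [MetricSpace Y] [Group G] [MulAction G X] {k : ℕ}
  {q : X → Y} {ρ : Y → Y} {U : Set Y} {σ : G} {w : X → Eu k} {r₀ r r' : ℝ} {m : X → X → ℝ → X}

lemma q_smul (hS : Setup X Y G k q ρ U σ w r₀ r r' m) (g : G) (x : X) : q (g • x) = q x := by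
  have h := hS.rot.lip (g • x) x g
  rw [dist_self] at h
  exact dist_le_zero.1 h

lemma fo_mem {y : Y} (h : y ∈ U) : fo ρ U y = y := if_pos h

lemma fo_mem' (hM : Mirror Y ρ U) {y : Y} (h : ρ y ∈ U) : fo ρ U y = ρ y := by
  by_cases hy : y ∈ U
  · rw [fo_mem hy]
    exact (hM.inter y hy h).symm
  · exact if_neg hy

/-- `Γ` is a lift on `[0, s]` -/
def Lift (q : X → Y) (ρ : Y → Y) (U : Set Y) (γ : ℝ → Y) (s : ℝ) : Prop :=
  ∃ Γ : ℝ → X, (∀ u ∈ Icc (0 : ℝ) s, q (Γ u) = fo ρ U (γ u)) ∧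
    ∃ ε' : ℝ, 0 < ε' ∧ ∀ u ∈ Icc (0 : ℝ) s, ∀ v ∈ Icc (0 : ℝ) s, |u - v| ≤ ε' →
      dist (Γ u) (Γ v) = |u - v|

/-- the points `γ (s - τ)` and `γ (s + τ)` are on the same side -/
def Same (ρ : Y → Y) (U : Set Y) (y z : Y) : Prop := (y ∈ U ∧ z ∈ U) ∨ (ρ y ∈ U ∧ ρ z ∈ U)

lemma same_dist (hM : Mirror Y ρ U) {y z : Y} (h : Same ρ U y z) :
    dist (fo ρ U y) (fo ρ U z) = dist y z := by
  rcases h with ⟨h1, h2⟩ | ⟨h1, h2⟩
  · rw [fo_mem h1, fo_mem h2]
  · rw [fo_mem' hM h1, fo_mem' hM h2]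
    exact hM.iso.dist_eq _ _

/-- the joint lemma -/
lemma joint (hP : S_P) (hS : Setup X Y G k q ρ U σ w r₀ r r' m) {γ : ℝ → Y} {ε : ℝ} (hε : 0 < ε)
    (hγ : ∀ u v, |u - v| ≤ ε → dist (γ u) (γ v) = |u - v|) {s τ₀ : ℝ} (hτ₀ : 0 < τ₀)
    (hτr : 2 * τ₀ ≤ r') (hτε : 2 * τ₀ ≤ ε) {Γ Γ₂ : ℝ → X} (h0 : Γ₂ s = Γ s)
    (hq1 : ∀ u ∈ Icc (s - τ₀) s, q (Γ u) = fo ρ U (γ u))
    (hq2 : ∀ u ∈ Icc s (s + τ₀), q (Γ₂ u) = fo ρ U (γ u))
    (hd1 : ∀ u ∈ Icc (s - τ₀) s, ∀ v ∈ Icc (s - τ₀) s, dist (Γ u) (Γ v) = |u - v|)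
    (hd2 : ∀ u ∈ Icc s (s + τ₀), ∀ v ∈ Icc s (s + τ₀), dist (Γ₂ u) (Γ₂ v) = |u - v|) :
    ∃ τ : ℝ, 0 < τ ∧ τ ≤ τ₀ ∧ ∃ g : G, g • Γ₂ s = Γ₂ s ∧
      dist (Γ (s - τ)) (g • Γ₂ (s + τ)) = 2 * τ := by
  -- the case in which the points are on the same side
  have same : ∀ τ : ℝ, 0 < τ → τ ≤ τ₀ → Same ρ U (γ (s - τ)) (γ (s + τ)) →
      ∃ τ : ℝ, 0 < τ ∧ τ ≤ τ₀ ∧ ∃ g : G, g • Γ₂ s = Γ₂ s ∧
      dist (Γ (s - τ)) (g • Γ₂ (s + τ)) = 2 * τ := by
    intro τ h1 h2 h3
    refine ⟨τ, h1, h2, 1, one_smul _ _, ?_⟩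
    have e0 : |s - τ - (s + τ)| = 2 * τ := by
      have : s - τ - (s + τ) = -(2 * τ) := by ring
      rw [this, abs_neg, abs_of_pos (by linarith)]
    have e1 : dist (γ (s - τ)) (γ (s + τ)) = 2 * τ := by
      rw [hγ _ _ (by rw [e0]; linarith), e0]
    apply le_antisymm
    · have a1 := hd1 (s - τ) ⟨by linarith, by linarith⟩ s ⟨by linarith, le_rfl⟩
      have a2 := hd2 s ⟨le_rfl, by linarith⟩ (s + τ) ⟨by linarith, by linarith⟩
      have b1 : |s - τ - s| = τ := by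
        have : s - τ - s = -τ := by ring
        rw [this, abs_neg, abs_of_pos h1]
      have b2 : |s - (s + τ)| = τ := by
        have : s - (s + τ) = -τ := by ring
        rw [this, abs_neg, abs_of_pos h1]
      rw [b1] at a1
      rw [b2, h0] at a2
      rw [one_smul]
      calc dist (Γ (s - τ)) (Γ₂ (s + τ)) ≤ dist (Γ (s - τ)) (Γ s) + dist (Γ s) (Γ₂ (s + τ)) :=
            dist_triangle _ _ _
        _ = 2 * τ := by rw [a1, a2]; ring
    · have a1 := hS.rot.lip (Γ (s - τ)) (Γ₂ (s + τ)) 1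
      rw [hq1 _ ⟨by linarith, by linarith⟩, hq2 _ ⟨by linarith, by linarith⟩,
        same_dist hS.mir h3, e1] at a1
      exact a1
  by_cases hF : ρ (γ s) = γ s
  · by_cases hsm : Same ρ U (γ (s - τ₀)) (γ (s + τ₀))
    · exact same τ₀ hτ₀ le_rfl hsm
    · have e0 : |s - τ₀ - (s + τ₀)| = 2 * τ₀ := by
        have : s - τ₀ - (s + τ₀) = -(2 * τ₀) := by ring
        rw [this, abs_neg, abs_of_pos (by linarith)]
      have e1 : dist (γ (s - τ₀)) (γ (s + τ₀)) = 2 * τ₀ := by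
        rw [hγ _ _ (by rw [e0]; linarith), e0]
      have e2 : dist (q (Γ (s - τ₀))) (ρ (q (Γ₂ (s + τ₀)))) = 2 * τ₀ := by
        rw [hq1 _ ⟨le_rfl, by linarith⟩, hq2 _ ⟨by linarith, le_rfl⟩]
        rcases hS.mir.cover (γ (s - τ₀)) with c1 | c1
        · rcases hS.mir.cover (γ (s + τ₀)) with c2 | c2
          · exact absurd (Or.inl ⟨c1, c2⟩) hsm
          · rw [fo_mem c1, fo_mem' hS.mir c2, hS.mir.inv, e1]
        · rcases hS.mir.cover (γ (s + τ₀)) with c2 | c2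
          · rw [fo_mem' hS.mir c1, fo_mem c2, hS.mir.iso.dist_eq, e1]
          · exact absurd (Or.inr ⟨c1, c2⟩) hsm
      obtain ⟨g, -, -, hg, -⟩ := hP X Y G k q ρ U σ w r₀ r r' m hS (Γ (s - τ₀)) (Γ₂ (s + τ₀))
        (by rw [e2]; exact hτr)
      refine ⟨τ₀, hτ₀, le_rfl, g, ?_, by rw [hg, e2]⟩
      have hU : γ s ∈ U := by
        rcases hS.mir.cover (γ s) with c | c
        · exact c
        · rwa [hF] at c
      refine (hS.rot.qF (Γ₂ s)).2 ?_ g
      rw [hq2 s ⟨le_rfl, by linarith⟩, fo_mem hU]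
      exact hF
  · -- away from `F`
    have hcont : ContinuousAt γ s := by
      rw [Metric.continuousAt_iff]
      intro δ hδ
      refine ⟨min δ ε, lt_min hδ hε, fun {u} hu => ?_⟩
      rw [Real.dist_eq] at hu
      rw [hγ u s (hu.le.trans (min_le_right _ _))]
      exact lt_of_lt_of_le hu (min_le_left _ _)
    have hcases : γ s ∉ U ∨ ρ (γ s) ∉ U := by
      by_contra hcon
      push Not at hcon
      exact hF (hS.mir.inter _ hcon.1 hcon.2)
    have hsame : ∃ δ : ℝ, 0 < δ ∧ ∀ τ : ℝ, 0 < τ → τ < δ → Same ρ U (γ (s - τ)) (γ (s + τ)) := by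
      rcases hcases with hc | hc
      · have hev : ∀ᶠ u in 𝓝 s, γ u ∉ U := hcont (hS.mir.closed.isOpen_compl.mem_nhds hc)
        obtain ⟨δ, hδ, hb⟩ := Metric.eventually_nhds_iff.1 hev
        refine ⟨δ, hδ, fun τ h1 h2 => Or.inr ⟨?_, ?_⟩⟩
        · have h3 : γ (s - τ) ∉ U := hb (by
            rw [Real.dist_eq]
            have : s - τ - s = -τ := by ring
            rw [this, abs_neg, abs_of_pos h1]
            exact h2)
          exact (hS.mir.cover _).resolve_left h3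
        · have h3 : γ (s + τ) ∉ U := hb (by
            rw [Real.dist_eq]
            have : s + τ - s = τ := by ring
            rw [this, abs_of_pos h1]
            exact h2)
          exact (hS.mir.cover _).resolve_left h3
      · have hcont2 : ContinuousAt (fun u => ρ (γ u)) s :=
          hS.mir.iso.continuous.continuousAt.comp hcont
        have hev : ∀ᶠ u in 𝓝 s, ρ (γ u) ∉ U :=
          hcont2 (hS.mir.closed.isOpen_compl.mem_nhds hc)
        obtain ⟨δ, hδ, hb⟩ := Metric.eventually_nhds_iff.1 hev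
        refine ⟨δ, hδ, fun τ h1 h2 => Or.inl ⟨?_, ?_⟩⟩
        · have h3 : ρ (γ (s - τ)) ∉ U := hb (by
            rw [Real.dist_eq]
            have : s - τ - s = -τ := by ring
            rw [this, abs_neg, abs_of_pos h1]
            exact h2)
          exact (hS.mir.cover _).resolve_right h3
        · have h3 : ρ (γ (s + τ)) ∉ U := hb (by
            rw [Real.dist_eq]
            have : s + τ - s = τ := by ring
            rw [this, abs_of_pos h1]
            exact h2)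
          exact (hS.mir.cover _).resolve_right h3
    obtain ⟨δ, hδ, hs⟩ := hsame
    have hm : 0 < min (δ / 2) τ₀ := lt_min (by linarith) hτ₀
    exact same (min (δ / 2) τ₀) hm (min_le_right _ _)
      (hs _ hm (lt_of_le_of_lt (min_le_left _ _) (by linarith)))

/-- the step -/
lemma step (hP : S_P) (hC : S_PCE) (hS : Setup X Y G k q ρ U σ w r₀ r r' m) {γ : ℝ → Y} {ε : ℝ}
    (hε : 0 < ε) (hγ : ∀ u v, |u - v| ≤ ε → dist (γ u) (γ v) = |u - v|) {s h : ℝ} (hs : 0 ≤ s)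
    (hh : 0 < h) (hhr : 2 * h ≤ r') (hhε : 2 * h ≤ ε) (hL : Lift (X := X) q ρ U γ s) :
    Lift (X := X) q ρ U γ (s + h) := by
  obtain ⟨Γ, hq, ε', hε', hd⟩ := hL
  obtain ⟨Γ₂, h0, hq2, hd2⟩ := hC X Y G k q ρ U σ w r₀ r r' m hS γ s (s + h) (by linarith)
    (by linarith) (fun u hu v hv => hγ u v (by
      rw [abs_le]
      constructor <;> linarith [hu.1, hu.2, hv.1, hv.2])) (Γ s) (hq s ⟨hs, le_rfl⟩)
  rcases hs.eq_or_lt with hs0 | hs0
  · subst hs0
    exact ⟨Γ₂, hq2, 1, one_pos, fun u hu v hv _ => hd2 u hu v hv⟩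
  · obtain ⟨τ₀, hτ₀⟩ : ∃ τ₀, τ₀ = min (min h s) ε' := ⟨_, rfl⟩
    have t0 : 0 < τ₀ := by rw [hτ₀]; exact lt_min (lt_min hh hs0) hε'
    have t1 : τ₀ ≤ h := by rw [hτ₀]; exact (min_le_left _ _).trans (min_le_left _ _)
    have t2 : τ₀ ≤ s := by rw [hτ₀]; exact (min_le_left _ _).trans (min_le_right _ _)
    have t3 : τ₀ ≤ ε' := by rw [hτ₀]; exact min_le_right _ _
    have hd1 : ∀ u ∈ Icc (s - τ₀) s, ∀ v ∈ Icc (s - τ₀) s, dist (Γ u) (Γ v) = |u - v| := by
      intro u hu v hv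
      refine hd u ⟨by linarith [hu.1], hu.2⟩ v ⟨by linarith [hv.1], hv.2⟩ ?_
      rw [abs_le]
      constructor <;> linarith [hu.1, hu.2, hv.1, hv.2]
    obtain ⟨τ, hτ0, hττ, g, hg, hgd⟩ := joint hP hS hε hγ (s := s) t0 (by linarith) (by linarith) h0
      (fun u hu => hq u ⟨by linarith [hu.1], hu.2⟩)
      (fun u hu => hq2 u ⟨hu.1, by linarith [hu.2]⟩) hd1
      (fun u hu v hv => hd2 u ⟨hu.1, by linarith [hu.2]⟩ v ⟨hv.1, by linarith [hv.2]⟩)
    -- across the joint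
    have across : ∀ u ∈ Icc (s - τ) s, ∀ v ∈ Icc s (s + τ), dist (Γ u) (g • Γ₂ v) = v - u := by
      intro u hu v hv
      have a1 := hd1 (s - τ) ⟨by linarith, by linarith⟩ u ⟨by linarith [hu.1], hu.2⟩
      have a2 := hd1 u ⟨by linarith [hu.1], hu.2⟩ s ⟨by linarith, le_rfl⟩
      have a3 := hd2 s ⟨le_rfl, by linarith⟩ v ⟨hv.1, by linarith [hv.2]⟩
      have a4 := hd2 v ⟨hv.1, by linarith [hv.2]⟩ (s + τ) ⟨by linarith, by linarith⟩
      rw [abs_of_nonpos (by linarith [hu.1])] at a1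
      rw [abs_of_nonpos (by linarith [hu.2])] at a2
      rw [abs_of_nonpos (by linarith [hv.1]), ← hS.rot.iso g, hg, h0] at a3
      rw [abs_of_nonpos (by linarith [hv.2]), ← hS.rot.iso g] at a4
      have b1 := dist_triangle (Γ u) (Γ s) (g • Γ₂ v)
      have b2 := dist_triangle4 (Γ (s - τ)) (Γ u) (g • Γ₂ v) (g • Γ₂ (s + τ))
      rw [hgd] at b2
      apply le_antisymm <;> linarith
    classical
    refine ⟨fun u => if u ≤ s then Γ u else g • Γ₂ u, fun u hu => ?_, min ε' τ,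
      lt_min hε' hτ0, ?_⟩
    · show q (if u ≤ s then Γ u else g • Γ₂ u) = _
      split_ifs with hus
      · exact hq u ⟨hu.1, hus⟩
      · rw [q_smul hS]
        exact hq2 u ⟨(not_le.1 hus).le, hu.2⟩
    · have key : ∀ u ∈ Icc (0 : ℝ) (s + h), ∀ v ∈ Icc (0 : ℝ) (s + h), |u - v| ≤ min ε' τ →
          u ≤ v → dist (if u ≤ s then Γ u else g • Γ₂ u) (if v ≤ s then Γ v else g • Γ₂ v) =
            |u - v| := by
        intro u hu v hv huv hle
        have hvu : v - u ≤ min ε' τ := by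
          rw [abs_of_nonpos (by linarith)] at huv
          linarith
        by_cases hvs : v ≤ s
        · rw [if_pos hvs, if_pos (hle.trans hvs)]
          exact hd u ⟨hu.1, hle.trans hvs⟩ v ⟨hv.1, hvs⟩ (huv.trans (min_le_left _ _))
        · have hvs' := not_le.1 hvs
          rw [if_neg hvs]
          by_cases hus : u ≤ s
          · rw [if_pos hus, abs_of_nonpos (by linarith)]
            have h5 : v - u ≤ τ := hvu.trans (min_le_right _ _)
            rw [across u ⟨by linarith, hus⟩ v ⟨hvs'.le, by linarith⟩]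
            ring
          · rw [if_neg hus, hS.rot.iso]
            exact hd2 u ⟨(not_le.1 hus).le, hu.2⟩ v ⟨hvs'.le, hv.2⟩
      intro u hu v hv huv
      rcases le_total u v with hle | hle
      · exact key u hu v hv huv hle
      · rw [dist_comm, abs_sub_comm]
        exact key v hv u hu (by rwa [abs_sub_comm]) hle

end WHL_

open WHL_ in
theorem t_WHL (hP : S_P) (hC : S_PCE) : S_WHL := by
  intro X Y G _ _ _ _ k q ρ U σ w r₀ r r' m hS γ T ε hT hε hγ
  have hm : 0 < min r' ε := lt_min hS.r'0 hε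
  obtain ⟨K, hK⟩ := exists_nat_gt (2 * T / min r' ε)
  have hK0 : (0:ℝ) < K := lt_trans (by positivity) hK
  obtain ⟨h, hh⟩ : ∃ h : ℝ, h = T / K := ⟨_, rfl⟩
  have hh0 : 0 < h := by rw [hh]; positivity
  have h2 : 2 * h ≤ min r' ε := by
    rw [div_lt_iff₀ hm] at hK
    rw [hh, ← mul_div_assoc, div_le_iff₀ hK0, mul_comm (min r' ε)]
    exact hK.le
  have key : ∀ i : ℕ, Lift (X := X) q ρ U γ (i * h) := by
    intro i
    induction i with
    | zero =>
      obtain ⟨x, hx⟩ := hS.rot.qS (fo ρ U (γ 0)) (hS.mf.foU _)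
      refine ⟨fun _ => x, fun u hu => ?_, 1, one_pos, fun u hu v hv _ => ?_⟩
      · simp only [Nat.cast_zero, zero_mul, Icc_self, mem_singleton_iff] at hu
        rw [hu, hx]
      · simp only [Nat.cast_zero, zero_mul, Icc_self, mem_singleton_iff] at hu hv
        rw [hu, hv]
        simp
    | succ i ih =>
      have e : ((i + 1 : ℕ) : ℝ) * h = i * h + h := by push_cast; ring
      rw [e]
      exact step hP hC hS hε hγ (by positivity) hh0 (h2.trans (min_le_left _ _))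
        (h2.trans (min_le_right _ _)) ih
  have hfin := key K
  have e : (K : ℝ) * h = T := by
    rw [hh]
    field_simp
  rw [e] at hfin
  exact hfin

end Pool.Agent.N489.RW
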